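import Mathlib

/-!
# Twists of curves with one rational point of order two: statements of the analytic jobs
-/

set_option autoImplicit false

namespace Pool.Agent.J4H76.TW

open Finset

/-- the multiplicative function with values `h p` at the primes, supported on squarefree numbers -/
noncomputable def mf (h : ℕ → ℝ) (n : ℕ) : ℝ :=
  open Classical in if Squarefree n then ∏ p ∈ n.primeFactors, h p else 0

/-- Job HT (Hall-Tenenbaum upper bound). -/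
def StHT : Prop := ∀ B : ℝ, 0 ≤ B → ∃ C : ℝ, 0 ≤ C ∧ ∀ h : ℕ → ℝ, (∀ p, 0 ≤ h p ∧ h p ≤ B) →
  ∀ X : ℝ, 2 ≤ X →
    ∑ n ∈ Icc 1 ⌊X⌋₊, mf h n ≤ C * X / Real.log X * ∑ n ∈ Icc 1 ⌊X⌋₊, mf h n / n ∧
    ∑ n ∈ Icc 1 ⌊X⌋₊, mf h n / n ≤
      Real.exp (∑ p ∈ (Icc 1 ⌊X⌋₊).filter Nat.Prime, h p / p)

/-- Job BL (bilinear sums with Jacobi symbols, from the large sieve
`Pool.Agent.Helper112.mult_large_sieve`). -/
def StBL : Prop := ∃ C : ℝ, 0 ≤ C ∧ ∀ (M N : ℕ) (a b : ℕ → ℝ), 1 ≤ M → 1 ≤ N →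
  (∀ m, |a m| ≤ 1) → (∀ n, |b n| ≤ 1) → (∀ m, a m ≠ 0 → Odd m ∧ Squarefree m) →
  (∀ n, b n ≠ 0 → Odd n ∧ Squarefree n) →
  |∑ m ∈ Icc 1 M, ∑ n ∈ Icc 1 N, a m * b n * (jacobiSym n m : ℝ)| ≤
    C * M * N * ((min M N : ℕ) : ℝ) ^ (-(1 / 4) : ℝ) * (1 + Real.log (M * N))

/-- Job QR (numbers all of whose prime factors split in a quadratic field). -/
def StQR : Prop := ∃ C : ℝ, 0 ≤ C ∧ ∀ a : ℤ, ¬ IsSquare a → ∀ X : ℝ, 2 ≤ X →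
  (((Icc 1 ⌊X⌋₊).filter (fun n => Odd n ∧ Squarefree n ∧
    ∀ p ∈ n.primeFactors, jacobiSym a p = 1)).card : ℝ) ≤
    C * X * (Real.log (|(a : ℝ)| + 2) / Real.log X) ^ (1 / 2 : ℝ)

end Pool.Agent.J4H76.TW
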