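import Mathlib

/-!
# Project TW: statement of the analytic main job (double oscillation)
-/

set_option autoImplicit false

namespace Pool.Agent.J4H76.TW

open Finset

/-- the local conditions for the class `(r, s)`; `κ₁`, `κ₂` are fixed -/
def Cond (p q κ₁ κ₂ : ℤ) (bad r s : ℕ) : Prop :=
  Squarefree (r * s) ∧ (r * s).Coprime bad ∧ ¬ IsSquare (κ₁ * s) ∧
  (∀ l ∈ r.primeFactors, jacobiSym (κ₁ * s) l = 1) ∧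
  ∀ l ∈ s.primeFactors, ∃ t : ℤ, (l : ℤ) ∣ t ^ 2 + p * t + q ∧ jacobiSym (κ₂ * r * t) l = 1

/-- Job DO (double oscillation).

Plan. `L = log W`, `ε = 1/200`, `V = exp (L ^ ε)`, `ρ(l)` the number of roots of `t² + p t + q`
modulo the prime `l` (`0` or `2` for `l` prime to `bad`), `ω₂(g)` the number of the primes `l ∣ g`
with `ρ(l) = 2`. Mertens: `Pool.Agent.H474R2.GE.mertens_rho` for `X` and for `X² + p X + q`.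

(A) `g` with a pair `(r, s)`, `s ≤ 2 V²`: by `StQR` at most
`∑_{s ≤ 2V²} C (W/s) (log (|κ₁ s| + 2) / log (W/s)) ^ (1/2) ≤ C W L ^ (-1/2 + 3ε/2)`.

(B) `g` with `ω₂(g) > (11/20) log L`: at most `(11/10) ^ (-(11/20) log L) ∑_{g ≤ W} mf h g` with
`h(l) = 11/10` if `ρ(l) = 2`, `h(l) = 1` otherwise; by `StHT` this is
`≤ C W L ^ (1/20 - (11/20) log (11/10)) ≤ C W L ^ (-1/500)` (`log (1 + x) ≥ 2 x / (x + 2)`).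

(C) the other `g`: all pairs have `s > 2 V²` and `w(g) ≥ (2/3) ^ ((11/20) log L) ≥ L ^ (-0.229)`
(`(3/2)^5 < 2^3`), where `w(n) = ∏_{l ∣ n, ρ(l) = 2} (2/3)`. So it is enough to show
`∑_{(r,s), rs ≤ W, s > 2V²} w(rs) 1_Cond ≤ C W L ^ (-1/4 + 2ε)`.
Cover by dyadic blocks `2^i ≤ r < 2^(i+1)`, `2^j ≤ s < 2^(j+1)`, `2^(i+j) ≤ W`, `2^j ≥ V²` (this
removes the hyperbola condition `rs ≤ W`). For `l ∤ bad`:
`1_Cond ≤ ∏_{l∣r} (1 + (κ₁ s/l))/2 · ∏_{l∣s} (ρ(l) + (κ₂ r/l) τ(l))/2`, `τ(l) = ∑_{roots t mod l} (t/l)`,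
`|τ(l)| ≤ ρ(l) ≤ 2`. Expand (`ArithmeticFunction.IsMultiplicative.prodPrimeFactors_add_of_squarefree`
or `Finset.prod_add`): with `r = r₀ r₁`, `s = s₀ s₁`
`= ∑ 2^(-ω(r₀ r₁)) ρ̂(s₀) τ̂(s₁) (κ₁ s₀ s₁ / r₁) (κ₂ r₀ r₁ / s₁)`,
`ρ̂(n) = ∏_{l∣n} ρ(l)/2`, `τ̂(n) = ∏_{l∣n} τ(l)/2`; both are `≤ 1` in absolute value and vanish unless
all primes `l ∣ n` have `ρ(l) = 2`.
 (I) quadruples with `r₁ > V`, `s₀ > V`: for fixed `r₀, s₁` a bilinear sum in `(r₁, s₀)` with kernel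
`(s₀/r₁)`, `r₁ < 2^(i+1)/r₀ =: M`, `s₀ < 2^(j+1)/s₁ =: N` in intervals: `StBL` gives
`C M N V^(-1/4) (1 + log)`; sum over `r₀, s₁` and the blocks: `C W V^(-1/4) L^5`.
 (II) not (I), `r₀ > V`, `s₁ > V`: the same for fixed `r₁, s₀` with kernel `(r₀/s₁)`.
 (III) the rest, in absolute value. As `s₀ s₁ > V²`, one of the following holds:
`r₁, s₁ ≤ V`: sum over `n = r₀ s₀ ≤ 4W/(r₁ s₁)` of `mf f n`, `f(l) = w(l) (1 + ρ(l))/2 = (2 + ρ(l))/4`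
(`l ∤ bad`), so `≤ C (4W/(r₁ s₁)) L^(-1/4)` by `StHT` and Mertens, and `∑_{r₁, s₁ ≤ V} 1/(r₁ s₁) ≤ (1 + log V)²`;
`r₀, s₀ ≤ V`: the same for `n = r₁ s₁`;
`r₀, r₁ ≤ V`: sum over `n = s₀ s₁ = s`: `f(l) ≤ (2/3) ρ(l)`, exponent `-1/3`. -/
def StDO : Prop := ∀ p q κ₁ : ℤ, ¬ IsSquare (p ^ 2 - 4 * q) → κ₁ ≠ 0 → ∀ bad : ℕ, bad ≠ 0 →
  (2 * q * (p ^ 2 - 4 * q) * κ₁) ∣ (bad : ℤ) →
  ∃ C : ℝ, 0 ≤ C ∧ ∀ (κ₂ : ℤ) (W : ℝ), 3 ≤ W →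
    ((open Classical in (Icc 1 ⌊W⌋₊).filter
      (fun g => ∃ r s : ℕ, g = r * s ∧ Cond p q κ₁ κ₂ bad r s)).card : ℝ) ≤
    C * W * Real.log W ^ (-(1 / 500) : ℝ)

end Pool.Agent.J4H76.TW
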