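import Mathlib

/-!
# Small representatives of the classes (integer arithmetic)
-/

set_option autoImplicit false

namespace Pool.Agent.J4H76.TW

/-- the binary quadratic form -/
def QQ (p q x z : ℤ) : ℤ := x ^ 2 + p * x * z + q * z ^ 2

/-- Thue's lemma -/
lemma thue (v x z : ℤ) (hv : 1 ≤ v) : ∃ a b : ℤ, (a ≠ 0 ∨ b ≠ 0) ∧ a ^ 2 ≤ v ∧ b ^ 2 ≤ v ∧
    v ∣ z * a + x * b := by
  obtain ⟨n, rfl⟩ : ∃ n : ℕ, v = n := ⟨v.toNat, by omega⟩
  have hn : 1 ≤ n := by exact_mod_cast hv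
  have hne : NeZero n := ⟨by omega⟩
  have hcard : (Finset.univ : Finset (ZMod n)).card <
      ((Finset.range (Nat.sqrt n + 1)) ×ˢ (Finset.range (Nat.sqrt n + 1))).card := by
    rw [Finset.card_product, Finset.card_range, Finset.card_univ, ZMod.card]
    exact Nat.lt_succ_sqrt n
  obtain ⟨s, hs, t, ht, hst, he⟩ := Finset.exists_ne_map_eq_of_card_lt_of_maps_to hcard
    (f := fun s : ℕ × ℕ => ((z * s.1 + x * s.2 : ℤ) : ZMod n)) (fun _ _ => Finset.mem_univ _)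
  rw [Finset.mem_product, Finset.mem_range, Finset.mem_range] at hs ht
  have hsq : ∀ i j : ℕ, i < Nat.sqrt n + 1 → j < Nat.sqrt n + 1 → ((i : ℤ) - j) ^ 2 ≤ n := by
    intro i j hi hj
    have h1 : |(i : ℤ) - j| ≤ (Nat.sqrt n : ℤ) := by
      rw [abs_le]
      constructor <;> omega
    have h2 : ((Nat.sqrt n : ℕ) : ℤ) ^ 2 ≤ n := by
      have := Nat.sqrt_le' n
      exact_mod_cast this
    calc ((i : ℤ) - j) ^ 2 = |(i : ℤ) - j| ^ 2 := (sq_abs _).symm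
      _ ≤ ((Nat.sqrt n : ℕ) : ℤ) ^ 2 := pow_le_pow_left₀ (abs_nonneg _) h1 2
      _ ≤ n := h2
  refine ⟨(s.1 : ℤ) - t.1, (s.2 : ℤ) - t.2, ?_, hsq _ _ hs.1 ht.1, hsq _ _ hs.2 ht.2, ?_⟩
  · by_contra hcon
    push Not at hcon
    apply hst
    apply Prod.ext
    · have := hcon.1
      omega
    · have := hcon.2
      omega
  · rw [← ZMod.intCast_zmod_eq_zero_iff_dvd] at *
    have h1 : ((z * s.1 + x * s.2 : ℤ) : ZMod n) = ((z * t.1 + x * t.2 : ℤ) : ZMod n) := he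
    push_cast at h1 ⊢
    linear_combination h1

lemma coprime_form {p q x z : ℤ} (h : IsCoprime x z) : IsCoprime z (QQ p q x z) := by
  have h1 : IsCoprime z (x ^ 2) := h.symm.pow_right
  have h2 : QQ p q x z = x ^ 2 + z * (p * x + q * z) := by unfold QQ; ring
  rw [h2]
  exact (IsCoprime.add_mul_left_right_iff (z := p * x + q * z)).2 h1

/-- **Small representatives.** -/
theorem small_rep {p q x z s v : ℤ} (hd : ¬ IsSquare (p ^ 2 - 4 * q)) (hxz : IsCoprime x z)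
    (hv : 1 ≤ v) (hs : 1 ≤ s) (hz : 1 ≤ z) (hzx : 4 * (|p| + |q|) * z ≤ x) (hzx' : z ≤ x)
    (hQ : QQ p q x z = s * v ^ 2) :
    ∃ A B k1 k2 m : ℤ, x * A + q * z * B = k1 ^ 2 - q * k2 ^ 2 ∧
      x * B - z * A + p * z * B = 2 * k1 * k2 - p * k2 ^ 2 ∧
      A ^ 2 - p * A * B + q * B ^ 2 = s * m ^ 2 ∧ m ≠ 0 ∧ s ∣ z * A + x * B ∧
      A ^ 2 ≤ 4 * ((1 + |p|) * (1 + |p| + |q|) + 2 * |q| + 3 + |p| + |q|) ^ 2 * s ∧
      B ^ 2 ≤ 4 * ((1 + |p|) * (1 + |p| + |q|) + 2 * |q| + 3 + |p| + |q|) ^ 2 * s := by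
  obtain ⟨a, b, hab, ha, hb, hdvd⟩ := thue v x z hv
  have hzQ := coprime_form (p := p) (q := q) hxz
  rw [hQ] at hzQ
  have hzv : IsCoprime z v := by
    have h1 : IsCoprime z (v * (s * v)) := by
      have : s * v ^ 2 = v * (s * v) := by ring
      rwa [this] at hzQ
    exact IsCoprime.of_mul_right_left h1
  have hQ' : x ^ 2 + p * x * z + q * z ^ 2 = s * v ^ 2 := hQ
  have hv0 : v ≠ 0 := by omega
  have hz0 : z ≠ 0 := by omega
  obtain ⟨l, hl⟩ := hdvd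
  -- k2 = -l
  have hk1 : v ∣ x * a - z * b * q - p * x * b := by
    apply hzv.symm.dvd_of_dvd_mul_left
    refine ⟨x * l - b * s * v, ?_⟩
    linear_combination x * hl - b * hQ'
  obtain ⟨k1, hk1⟩ := hk1
  obtain ⟨k2, hk2⟩ : ∃ k2, k2 = -l := ⟨_, rfl⟩
  have hl' : z * a + x * b = -(v * k2) := by rw [hk2, hl]; ring
  have hzk : z * k1 = -x * k2 - b * s * v := by
    have h1 : v * (z * k1) = v * (-x * k2 - b * s * v) := by
      linear_combination (-z) * hk1 + x * hl' - b * hQ'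
    exact mul_left_cancel₀ hv0 h1
  have hB : v ∣ k2 * a - k1 * b := by
    apply hzv.symm.dvd_of_dvd_mul_left
    refine ⟨-k2 ^ 2 + b ^ 2 * s, ?_⟩
    have h1 : v * (z * (k2 * a - k1 * b)) = v * (v * (-k2 ^ 2 + b ^ 2 * s)) := by
      linear_combination (z * b) * hk1 + (v * k2 - x * b) * hl' + b ^ 2 * hQ'
    exact mul_left_cancel₀ hv0 h1
  obtain ⟨B, hB⟩ := hB
  have hA : v ∣ k1 * a + k2 * b * q - p * k1 * b := by
    apply hzv.symm.dvd_of_dvd_mul_left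
    refine ⟨-k2 * k1 - b * s * (a - p * b), ?_⟩
    linear_combination (a - p * b) * hzk - k2 * hk1
  obtain ⟨A, hA⟩ := hA
  have hNw : v ∣ a ^ 2 - p * a * b + q * b ^ 2 := by
    apply (hzv.symm.pow_right (n := 2)).dvd_of_dvd_mul_left
    refine ⟨-k2 * (z * a - x * b - p * z * b) + b ^ 2 * (s * v), ?_⟩
    linear_combination (z * a - x * b - p * z * b) * hl' + b ^ 2 * hQ'
  obtain ⟨m, hm⟩ := hNw
  have e1 : x * A + q * z * B = k1 ^ 2 - q * k2 ^ 2 := by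
    apply mul_left_cancel₀ hv0
    linear_combination (-x) * hA - q * z * hB + k1 * hk1 + q * k2 * hl'
  have e2 : x * B - z * A + p * z * B = 2 * k1 * k2 - p * k2 ^ 2 := by
    apply mul_left_cancel₀ hv0
    linear_combination (-(x + p * z)) * hB + z * hA + k2 * hk1 - k1 * hl' + p * k2 * hl'
  have e3 : z * A + x * B = s * (p * b ^ 2 - 2 * a * b) := by
    apply mul_left_cancel₀ (mul_ne_zero hv0 hz0)
    linear_combination (-z ^ 2) * hA - x * z * hB + (z * (a - p * b) - x * b) * hzk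
      + (b * k2) * hQ' + (b * s * v) * hl'
  -- the norm
  have e4 : A ^ 2 - p * A * B + q * B ^ 2 = s * m ^ 2 := by
    have h1 : v ^ 2 * (k1 ^ 2 - p * k1 * k2 + q * k2 ^ 2) =
        v ^ 2 * (s * (a ^ 2 - p * a * b + q * b ^ 2)) := by
      linear_combination (-(x * a - z * b * q - p * x * b) - v * k1 + p * (v * k2)) * hk1
        + (-p * (x * a - z * b * q - p * x * b) - q * (z * a + x * b) + q * (v * k2)) * hl'
        + (a ^ 2 - p * a * b + q * b ^ 2) * hQ'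
    have h2 := mul_left_cancel₀ (pow_ne_zero 2 hv0) h1
    have h3 : v ^ 2 * (A ^ 2 - p * A * B + q * B ^ 2) = v ^ 2 * (s * m ^ 2) := by
      linear_combination (-(k1 * a + k2 * b * q - p * k1 * b) - v * A + p * (v * B)) * hA
        + (p * (k1 * a + k2 * b * q - p * k1 * b) - q * (k2 * a - k1 * b) - q * (v * B)) * hB
        + (a ^ 2 - p * a * b + q * b ^ 2) * h2
        + s * (a ^ 2 - p * a * b + q * b ^ 2 + v * m) * hm
    exact mul_left_cancel₀ (pow_ne_zero 2 hv0) h3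
  have hm0 : m ≠ 0 := by
    rintro rfl
    rw [mul_zero] at hm
    have h1 : (2 * a - p * b) ^ 2 = (p ^ 2 - 4 * q) * b ^ 2 := by linear_combination 4 * hm
    by_cases hb0 : b = 0
    · rw [hb0] at hm hab
      have : a = 0 := by
        have h2 : a ^ 2 = 0 := by linear_combination hm
        exact pow_eq_zero_iff (two_ne_zero) |>.1 h2
      rcases hab with h | h
      · exact h this
      · exact h rfl
    · apply hd
      have h2 : b ^ 2 ∣ (2 * a - p * b) ^ 2 := ⟨p ^ 2 - 4 * q, by rw [h1]; ring⟩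
      rw [Int.pow_dvd_pow_iff two_ne_zero] at h2
      obtain ⟨c, hc⟩ := h2
      refine ⟨c, ?_⟩
      rw [hc] at h1
      have h3 : b ^ 2 * (p ^ 2 - 4 * q) = b ^ 2 * (c * c) := by linear_combination -h1
      exact mul_left_cancel₀ (pow_ne_zero 2 hb0) h3
  -- sizes
  obtain ⟨w, hw⟩ : ∃ w : ℝ, w = Real.sqrt v := ⟨_, rfl⟩
  have hvR : (1 : ℝ) ≤ v := by exact_mod_cast hv
  have hw2 : w ^ 2 = v := by rw [hw]; exact Real.sq_sqrt (by linarith)
  have hw0 : 0 < w := by rw [hw]; exact Real.sqrt_pos.2 (by linarith)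
  have haR : |(a : ℝ)| ≤ w := by
    rw [hw]; apply Real.abs_le_sqrt; exact_mod_cast ha
  have hbR : |(b : ℝ)| ≤ w := by
    rw [hw]; apply Real.abs_le_sqrt; exact_mod_cast hb
  have hx0 : (0 : ℝ) < x := by exact_mod_cast (by omega : 0 < x)
  have hzR : (0 : ℝ) < z := by exact_mod_cast (by omega : 0 < z)
  have hzxR : (z : ℝ) ≤ x := by exact_mod_cast hzx'
  have hsR : (1 : ℝ) ≤ s := by exact_mod_cast hs
  obtain ⟨P, hP⟩ : ∃ P : ℝ, P = |(p : ℝ)| := ⟨_, rfl⟩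
  obtain ⟨R, hR⟩ : ∃ R : ℝ, R = |(q : ℝ)| := ⟨_, rfl⟩
  have hP0 : 0 ≤ P := by rw [hP]; exact abs_nonneg _
  have hR0 : 0 ≤ R := by rw [hR]; exact abs_nonneg _
  have hk2R : (v : ℝ) * |(k2 : ℝ)| ≤ 2 * (x * w) := by
    have h1 : (v : ℝ) * k2 = -(z * a + x * b) := by
      have : (v * k2 : ℤ) = -(z * a + x * b) := by linear_combination hl'
      exact_mod_cast this
    have h2 : (v : ℝ) * |(k2 : ℝ)| = |(z : ℝ) * a + x * b| := by
      rw [← abs_neg ((z : ℝ) * a + x * b), ← h1, abs_mul, abs_of_pos (by linarith : (0 : ℝ) < v)]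
    rw [h2]
    calc |(z : ℝ) * a + x * b| ≤ |(z : ℝ) * a| + |(x : ℝ) * b| := abs_add_le _ _
      _ = z * |(a : ℝ)| + x * |(b : ℝ)| := by rw [abs_mul, abs_mul, abs_of_pos hzR, abs_of_pos hx0]
      _ ≤ x * w + x * w := by gcongr
      _ = _ := by ring
  have hk1R : (v : ℝ) * |(k1 : ℝ)| ≤ (1 + P + R) * (x * w) := by
    have h1 : (v : ℝ) * k1 = x * a - z * b * q - p * x * b := by exact_mod_cast hk1.symm
    have h2 : (v : ℝ) * |(k1 : ℝ)| = |(x : ℝ) * a - z * b * q - p * x * b| := by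
      rw [← h1, abs_mul, abs_of_pos (by linarith : (0 : ℝ) < v)]
    rw [h2]
    calc |(x : ℝ) * a - z * b * q - p * x * b| ≤ |(x : ℝ) * a - z * b * q| + |(p : ℝ) * x * b| :=
          abs_sub _ _
      _ ≤ |(x : ℝ) * a| + |(z : ℝ) * b * q| + |(p : ℝ) * x * b| := by
          have := abs_sub ((x : ℝ) * a) (z * b * q)
          linarith
      _ = x * |(a : ℝ)| + z * |(b : ℝ)| * R + P * x * |(b : ℝ)| := by
          rw [abs_mul, abs_mul, abs_mul, abs_mul, abs_mul, abs_of_pos hzR, abs_of_pos hx0, hP, hR]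
      _ ≤ x * w + x * w * R + P * x * w := by gcongr
      _ = _ := by ring
  have hxv : (x : ℝ) ^ 2 ≤ 4 * (s * v ^ 2) := by
    have h1 : (x : ℝ) ^ 2 + p * x * z + q * z ^ 2 = s * v ^ 2 := by exact_mod_cast hQ'
    have h2 : 4 * (P + R) * z ≤ x := by
      rw [hP, hR]; exact_mod_cast hzx
    have h3 : -(P * x * z) ≤ p * x * z := by
      have h5 : -P ≤ (p : ℝ) := by rw [hP]; exact neg_abs_le _
      have h6 := mul_le_mul_of_nonneg_right h5 (mul_pos hx0 hzR).le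
      linarith
    have h4 : -(R * z * x) ≤ q * z ^ 2 := by
      have h5 : -R ≤ (q : ℝ) := by rw [hR]; exact neg_abs_le _
      have h6 := mul_le_mul_of_nonneg_right h5 (mul_pos hzR hzR).le
      have h7 : R * z * z ≤ R * z * x := mul_le_mul_of_nonneg_left hzxR (mul_nonneg hR0 hzR.le)
      nlinarith
    have h5 := mul_le_mul_of_nonneg_left h2 hx0.le
    have h6 : x * (4 * (P + R) * z) = 4 * (P * x * z) + 4 * (R * z * x) := by ring
    have h7 : (0 : ℝ) < x * x := mul_pos hx0 hx0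
    have h8 : (x : ℝ) ^ 2 = x * x := sq (x : ℝ)
    linarith
  obtain ⟨K, hK⟩ : ∃ K : ℝ, K = (1 + P) * (1 + P + R) + 2 * R + 3 + P + R := ⟨_, rfl⟩
  have hK0 : 0 ≤ K := by rw [hK]; positivity
  have hBv : (v : ℝ) * |(B : ℝ)| ≤ K * x := by
    have h1 : (v : ℝ) * B = k2 * a - k1 * b := by exact_mod_cast hB.symm
    have h2 : (v : ℝ) * |(B : ℝ)| ≤ |(k2 : ℝ)| * w + |(k1 : ℝ)| * w := by
      have h3 : (v : ℝ) * |(B : ℝ)| = |(k2 : ℝ) * a - k1 * b| := by
        rw [← h1, abs_mul, abs_of_pos (by linarith : (0 : ℝ) < v)]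
      rw [h3]
      calc |(k2 : ℝ) * a - k1 * b| ≤ |(k2 : ℝ) * a| + |(k1 : ℝ) * b| := abs_sub _ _
        _ = |(k2 : ℝ)| * |(a : ℝ)| + |(k1 : ℝ)| * |(b : ℝ)| := by rw [abs_mul, abs_mul]
        _ ≤ _ := by gcongr
    have h4 : (v : ℝ) * (v * |(B : ℝ)|) ≤ v * (K * x) := by
      calc (v : ℝ) * (v * |(B : ℝ)|) ≤ v * (|(k2 : ℝ)| * w + |(k1 : ℝ)| * w) := by gcongr
        _ = (v * |(k2 : ℝ)|) * w + (v * |(k1 : ℝ)|) * w := by ring
        _ ≤ (2 * (x * w)) * w + ((1 + P + R) * (x * w)) * w := by gcongr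
        _ = (3 + P + R) * x * w ^ 2 := by ring
        _ ≤ K * x * w ^ 2 := by
            have : 3 + P + R ≤ K := by rw [hK]; nlinarith [mul_nonneg hP0 hP0, mul_nonneg hP0 hR0]
            gcongr
        _ = _ := by rw [hw2]; ring
    exact le_of_mul_le_mul_left h4 (by linarith)
  have hAv : (v : ℝ) * |(A : ℝ)| ≤ K * x := by
    have h1 : (v : ℝ) * A = k1 * a + k2 * b * q - p * k1 * b := by exact_mod_cast hA.symm
    have h2 : (v : ℝ) * |(A : ℝ)| ≤ |(k1 : ℝ)| * w + |(k2 : ℝ)| * w * R + P * |(k1 : ℝ)| * w := by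
      have h3 : (v : ℝ) * |(A : ℝ)| = |(k1 : ℝ) * a + k2 * b * q - p * k1 * b| := by
        rw [← h1, abs_mul, abs_of_pos (by linarith : (0 : ℝ) < v)]
      rw [h3]
      calc |(k1 : ℝ) * a + k2 * b * q - p * k1 * b|
          ≤ |(k1 : ℝ) * a + k2 * b * q| + |(p : ℝ) * k1 * b| := abs_sub _ _
        _ ≤ |(k1 : ℝ) * a| + |(k2 : ℝ) * b * q| + |(p : ℝ) * k1 * b| := by
            have := abs_add_le ((k1 : ℝ) * a) (k2 * b * q)
            linarith
        _ = |(k1 : ℝ)| * |(a : ℝ)| + |(k2 : ℝ)| * |(b : ℝ)| * R + P * |(k1 : ℝ)| * |(b : ℝ)| := by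
            rw [abs_mul, abs_mul, abs_mul, abs_mul, abs_mul, hP, hR]
        _ ≤ _ := by gcongr
    have h4 : (v : ℝ) * (v * |(A : ℝ)|) ≤ v * (K * x) := by
      calc (v : ℝ) * (v * |(A : ℝ)|)
          ≤ v * (|(k1 : ℝ)| * w + |(k2 : ℝ)| * w * R + P * |(k1 : ℝ)| * w) := by gcongr
        _ = (v * |(k1 : ℝ)|) * w * (1 + P) + (v * |(k2 : ℝ)|) * w * R := by ring
        _ ≤ ((1 + P + R) * (x * w)) * w * (1 + P) + (2 * (x * w)) * w * R := by gcongr
        _ = ((1 + P) * (1 + P + R) + 2 * R) * x * w ^ 2 := by ring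
        _ ≤ K * x * w ^ 2 := by
            have : (1 + P) * (1 + P + R) + 2 * R ≤ K := by rw [hK]; linarith
            gcongr
        _ = _ := by rw [hw2]; ring
    exact le_of_mul_le_mul_left h4 (by linarith)
  have hfin : ∀ Y : ℤ, (v : ℝ) * |(Y : ℝ)| ≤ K * x → (Y : ℝ) ^ 2 ≤ 4 * K ^ 2 * s := by
    intro Y hY
    have h1 : (v : ℝ) ^ 2 * (Y : ℝ) ^ 2 ≤ v ^ 2 * (4 * K ^ 2 * s) := by
      calc (v : ℝ) ^ 2 * (Y : ℝ) ^ 2 = (v * |(Y : ℝ)|) ^ 2 := by rw [mul_pow, sq_abs]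
        _ ≤ (K * x) ^ 2 := by
            apply pow_le_pow_left₀ _ hY
            positivity
        _ = K ^ 2 * x ^ 2 := by ring
        _ ≤ K ^ 2 * (4 * (s * v ^ 2)) := by gcongr
        _ = _ := by ring
    exact le_of_mul_le_mul_left h1 (by positivity)
  have hKZ : K = (((1 + |p|) * (1 + |p| + |q|) + 2 * |q| + 3 + |p| + |q| : ℤ) : ℝ) := by
    rw [hK, hP, hR]; push_cast; ring
  refine ⟨A, B, k1, k2, m, e1, e2, e4, hm0, ⟨_, e3⟩, ?_, ?_⟩
  · have h1 := hfin A hAv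
    rw [hKZ] at h1
    exact_mod_cast h1
  · have h1 := hfin B hBv
    rw [hKZ] at h1
    exact_mod_cast h1

end Pool.Agent.J4H76.TW
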