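import Pool.Agent.J4H76.TW.A9

/-!
# The number of large points with given square classes and given residue is bounded
-/

set_option autoImplicit false

namespace Pool.Agent.J4H76.TW

lemma root_bound {p q : ℤ} {θ : ℂ} (h : θ ^ 2 + p * θ + q = 0) : ‖θ‖ ≤ 1 + |(p : ℝ)| + |(q : ℝ)| := by
  by_contra hcon
  push Not at hcon
  have h1 : θ ^ 2 = -(p * θ + q) := by linear_combination h
  have h2 : ‖θ‖ ^ 2 ≤ |(p : ℝ)| * ‖θ‖ + |(q : ℝ)| := by
    calc ‖θ‖ ^ 2 = ‖-(p * θ + q : ℂ)‖ := by rw [← norm_pow, h1]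
      _ = ‖(p * θ + q : ℂ)‖ := norm_neg _
      _ ≤ ‖(p * θ : ℂ)‖ + ‖(q : ℂ)‖ := norm_add_le _ _
      _ = _ := by rw [norm_mul, Complex.norm_intCast, Complex.norm_intCast]
  have hp := abs_nonneg (p : ℝ)
  have hq := abs_nonneg (q : ℝ)
  nlinarith

lemma exists_roots (p q : ℤ) : ∃ θ θ' : ℂ, θ + θ' = -p ∧ θ * θ' = q := by
  obtain ⟨w, hw⟩ : ∃ w : ℂ, w ^ 2 = (p : ℂ) ^ 2 - 4 * q :=
    IsAlgClosed.exists_pow_nat_eq _ (by norm_num)
  refine ⟨(-p + w) / 2, (-p - w) / 2, by ring, ?_⟩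
  linear_combination (-1 / 4 : ℂ) * hw

lemma abs_le_of_sq {A K s N : ℤ} (hK : 1 ≤ K) (hN : 1 ≤ N) (hs : s ≤ N) (h : A ^ 2 ≤ K * s) :
    |A| ≤ K * N := by
  apply abs_le_of_sq_le_sq _ (by positivity)
  have h1 : K * s ≤ K * N := mul_le_mul_of_nonneg_left hs (by omega)
  have h2 : 1 ≤ K * N := by nlinarith
  nlinarith

theorem pts_card : ∃ M : ℕ, ∀ p q : ℤ, ¬ IsSquare (p ^ 2 - 4 * q) → q ≠ 0 → ∃ C : ℕ, 1 ≤ C ∧
    ∀ N r s t : ℤ, 1 ≤ N → r ≤ N → 0 < r → 0 < s → s ≤ N → ∀ S : Finset (ℤ × ℤ),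
      (∀ P ∈ S, 1 ≤ P.2 ∧ P.2 ≤ N ∧ IsCoprime P.1 P.2 ∧ (C * N) ^ M < P.1 ∧
        (∃ u, 0 < u ∧ P.1 = r * u ^ 2) ∧ (∃ v, 1 ≤ v ∧ QQ p q P.1 P.2 = s * v ^ 2) ∧
        s ∣ P.1 - t * P.2) → S.card ≤ C := by
  classical
  obtain ⟨M0, F, hM0, hcc⟩ := class_card
  refine ⟨2 * M0, ?_⟩
  intro p q hd hq
  obtain ⟨K, hK⟩ : ∃ K : ℤ, K = 4 * ((1 + |p|) * (1 + |p| + |q|) + 2 * |q| + 3 + |p| + |q|) ^ 2 :=
    ⟨_, rfl⟩
  have hp0 := abs_nonneg p
  have hq0 := abs_nonneg q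
  have hd0 := abs_nonneg (p ^ 2 - 4 * q)
  have hK1 : 1 ≤ K := by
    rw [hK]
    have h1 : 0 ≤ (1 + |p|) * (1 + |p| + |q|) := by positivity
    have h2 : 1 ≤ ((1 + |p|) * (1 + |p| + |q|) + 2 * |q| + 3 + |p| + |q|) ^ 2 :=
      one_le_pow₀ (by linarith)
    linarith
  obtain ⟨T, hT⟩ : ∃ T : ℤ, T = 1 + |p| + |q| := ⟨_, rfl⟩
  have hT1 : 1 ≤ T := by linarith
  obtain ⟨c, hc⟩ : ∃ c : ℤ, c = 1 + K * (1 + T) + 6 * T * (1 + 2 * T) +
    12 * T * |p ^ 2 - 4 * q| + 4 * |p ^ 2 - 4 * q| + (4 * |q| + 4 * |p|) +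
    (1 + |p| + |q|) * K * |q| := ⟨_, rfl⟩
  have n1 : 0 ≤ K * (1 + T) := by positivity
  have n2 : 0 ≤ 6 * T * (1 + 2 * T) := by positivity
  have n3 : 0 ≤ 12 * T * |p ^ 2 - 4 * q| := by positivity
  have n4 : 0 ≤ (1 + |p| + |q|) * K * |q| := by positivity
  have hc1 : 1 ≤ c := by linarith
  obtain ⟨D, hD⟩ : ∃ D : ℤ, D = (2 * ((1 + |p| + |q|) * K) + 1) * (4 * K + 1) := ⟨_, rfl⟩
  have hD0 : 0 ≤ D := by rw [hD]; positivity
  refine ⟨(2 * c).toNat + F * D.toNat, by omega, ?_⟩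
  intro N r s t hN hrN hr hs hsN S hS
  -- the bound for the points
  obtain ⟨H, hH⟩ : ∃ H : ℕ, (H : ℤ) = c * N ^ 2 := ⟨(c * N ^ 2).toNat, by
    rw [Int.toNat_of_nonneg (by positivity)]⟩
  have hN2 : N ≤ N ^ 2 := by nlinarith
  have hcN : c * N ≤ c * N ^ 2 := mul_le_mul_of_nonneg_left hN2 (by omega)
  have hle : ∀ y : ℤ, 0 ≤ y → y ≤ c → y * N ≤ H ∧ y * N ^ 2 ≤ H ∧ y ≤ H := by
    intro y hy hyc
    rw [hH]
    have h1 : y * N ≤ c * N := mul_le_mul_of_nonneg_right hyc (by omega)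
    have h2 : y * N ^ 2 ≤ c * N ^ 2 := mul_le_mul_of_nonneg_right hyc (by positivity)
    have h3 : y ≤ y * N := by nlinarith
    exact ⟨by linarith, h2, by linarith⟩
  have hH1 : 1 ≤ H := by
    have := (hle 1 (by norm_num) hc1).2.2
    omega
  have h2H : (1 : ℤ) ≤ ((2 * H : ℕ) : ℤ) := by exact_mod_cast (by omega : 1 ≤ 2 * H)
  have hpow1 : (H : ℤ) ≤ ((2 * H : ℕ) : ℤ) ^ M0 := by
    calc (H : ℤ) ≤ ((2 * H : ℕ) : ℤ) := by push_cast; omega
      _ = ((2 * H : ℕ) : ℤ) ^ 1 := (pow_one _).symm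
      _ ≤ _ := pow_le_pow_right₀ h2H (by omega)
  have hpow3 : c ^ 2 * N ^ 6 ≤ ((2 * H : ℕ) : ℤ) ^ M0 := by
    calc c ^ 2 * N ^ 6 ≤ ((2 * H : ℕ) : ℤ) ^ 3 := by
          push_cast
          rw [hH]
          have h1 : (2 * (c * N ^ 2)) ^ 3 = (8 * c) * (c ^ 2 * N ^ 6) := by ring
          rw [h1]
          have h2 : 0 ≤ c ^ 2 * N ^ 6 := by positivity
          nlinarith
      _ ≤ _ := pow_le_pow_right₀ h2H hM0
  have hbig : ((2 * H : ℕ) : ℤ) ^ M0 ≤ ((((2 * c).toNat + F * D.toNat : ℕ) : ℤ) * N) ^ (2 * M0) := by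
    rw [pow_mul]
    apply pow_le_pow_left₀ (by positivity)
    have h1 : 2 * c ≤ (((2 * c).toNat + F * D.toNat : ℕ) : ℤ) := by
      push_cast
      rw [Int.toNat_of_nonneg (by omega), Int.toNat_of_nonneg hD0]
      have : (0 : ℤ) ≤ F * D := by positivity
      linarith
    have h2 : (2 * c * N) ^ 2 ≤ ((((2 * c).toNat + F * D.toNat : ℕ) : ℤ) * N) ^ 2 :=
      pow_le_pow_left₀ (by positivity) (mul_le_mul_of_nonneg_right h1 (by omega)) 2
    refine le_trans ?_ h2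
    push_cast
    rw [hH]
    have h3 : (2 * c * N) ^ 2 = (2 * c) * (2 * (c * N ^ 2)) := by ring
    rw [h3]
    have h4 : 0 ≤ 2 * (c * N ^ 2) := by positivity
    nlinarith
  obtain ⟨θ, θ', hsum, hmul⟩ := exists_roots p q
  have hr1 : θ ^ 2 + p * θ + q = 0 := by linear_combination θ * hsum - hmul
  have hr2 : θ' ^ 2 + p * θ' + q = 0 := by linear_combination θ' * hsum - hmul
  have hTR : (T : ℝ) = 1 + |(p : ℝ)| + |(q : ℝ)| := by rw [hT]; push_cast; rfl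
  have hθ : ‖θ‖ ≤ (T : ℝ) := by rw [hTR]; exact root_bound hr1
  have hθ' : ‖θ'‖ ≤ (T : ℝ) := by rw [hTR]; exact root_bound hr2
  -- the class of a point
  have key : ∀ P ∈ S, ∃ AB : ℤ × ℤ, AB.1 ^ 2 ≤ K * s ∧ AB.2 ^ 2 ≤ K * s ∧ s ∣ AB.1 + t * AB.2 ∧
      AB.1 ^ 2 - p * AB.1 * AB.2 + q * AB.2 ^ 2 ≠ 0 ∧
      ∃ k l u : ℤ, IsPt p q AB.1 AB.2 r P.1 P.2 k l u := by
    intro P hP
    obtain ⟨hz, hzN, hco, hx, ⟨u, hu, hxu⟩, ⟨v, hv, hQ⟩, hdvd⟩ := hS P hP
    have hxH : (H : ℤ) ≤ P.1 := hpow1.trans (hbig.trans hx.le)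
    have hx1 : 4 * (|p| + |q|) * P.2 ≤ P.1 := by
      have h1 := (hle (4 * (|p| + |q|)) (by positivity) (by linarith)).1
      have h2 : 4 * (|p| + |q|) * P.2 ≤ 4 * (|p| + |q|) * N :=
        mul_le_mul_of_nonneg_left hzN (by positivity)
      linarith
    have hx2 : P.2 ≤ P.1 := by
      have h1 := (hle 1 (by norm_num) hc1).1
      linarith
    obtain ⟨A, B, k1, k2, m, e1, e2, e3, hm, hsd, hA, hB⟩ :=
      small_rep hd hco hv (by omega) hz hx1 hx2 hQ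
    rw [← hK] at hA hB
    refine ⟨(A, B), hA, hB, ?_, ?_, k1, k2, u, ⟨e1, e2, hxu, hu, hr, hz, hco⟩⟩
    · have h1 : s ∣ P.2 * (A + t * B) := by
        have : P.2 * (A + t * B) = (P.2 * A + P.1 * B) - (P.1 - t * P.2) * B := by ring
        rw [this]
        exact dvd_sub hsd (hdvd.mul_right B)
      have h2 : IsCoprime s P.2 := by
        have h3 := coprime_form (p := p) (q := q) hco
        rw [hQ] at h3
        exact (IsCoprime.of_mul_right_left h3).symm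
      exact h2.dvd_of_dvd_mul_left h1
    · rw [e3]
      exact mul_ne_zero (by omega) (pow_ne_zero _ hm)
  choose! AB hA hB hAB hne hpt using key
  -- the number of classes
  have hcls : (S.image AB).card ≤ D.toNat := by
    rcases S.eq_empty_or_nonempty with h | ⟨P, hP⟩
    · rw [h]; simp
    · obtain ⟨hz, hzN, hco, hx, ⟨u, hu, hxu⟩, ⟨v, hv, hQ⟩, hdvd⟩ := hS P hP
      have hst : s ∣ t ^ 2 + p * t + q := by
        have h2 : IsCoprime s P.2 := by
          have h3 := coprime_form (p := p) (q := q) hco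
          rw [hQ] at h3
          exact (IsCoprime.of_mul_right_left h3).symm
        have h3 : s ∣ P.2 ^ 2 * (t ^ 2 + p * t + q) := by
          have h4 : P.2 ^ 2 * (t ^ 2 + p * t + q) = s * v ^ 2 -
              (P.1 - t * P.2) * (P.1 + t * P.2 + p * P.2) := by
            rw [← hQ]; unfold QQ; ring
          rw [h4]
          exact dvd_sub (dvd_mul_right _ _) (hdvd.mul_right _)
        exact (h2.pow_right (n := 2)).dvd_of_dvd_mul_left h3
      have h1 := del_card p q s t K (by omega) (by omega) hst (S.image AB) (by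
        intro Q hQ
        obtain ⟨P', hP', rfl⟩ := Finset.mem_image.1 hQ
        exact ⟨hA P' hP', hB P' hP', hAB P' hP', hne P' hP'⟩)
      rw [← hD] at h1
      omega
  have hfin : S.card ≤ F * (S.image AB).card := by
    apply Finset.card_le_mul_card_image (f := AB) S F
    intro a ha
    obtain ⟨P0, hP0, hP0a⟩ := Finset.mem_image.1 ha
    have hA' := hA P0 hP0
    have hB' := hB P0 hP0
    have hne' := hne P0 hP0
    rw [hP0a] at hA' hB' hne'
    have hAn := abs_le_of_sq hK1 hN hsN hA'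
    have hBn := abs_le_of_sq hK1 hN hsN hB'
    have hnorm : ∀ w : ℂ, ‖w‖ ≤ (T : ℝ) → ‖(a.1 : ℂ) + a.2 * w‖ ≤ (H : ℝ) := by
      intro w hw
      have h1 : ‖(a.1 : ℂ) + a.2 * w‖ ≤ |(a.1 : ℝ)| + |(a.2 : ℝ)| * T := by
        calc _ ≤ ‖(a.1 : ℂ)‖ + ‖(a.2 : ℂ) * w‖ := norm_add_le _ _
          _ = |(a.1 : ℝ)| + |(a.2 : ℝ)| * ‖w‖ := by
              rw [norm_mul, Complex.norm_intCast, Complex.norm_intCast]
          _ ≤ _ := by gcongr
      refine h1.trans ?_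
      have h2 : |a.1| + |a.2| * T ≤ (H : ℤ) := by
        have h3 := (hle (K * (1 + T)) n1 (by linarith)).1
        have h4 : |a.2| * T ≤ (K * N) * T := mul_le_mul_of_nonneg_right hBn (by omega)
        have h5 : K * (1 + T) * N = K * N + (K * N) * T := by ring
        linarith
      exact_mod_cast h2
    refine hcc (fun h => hd (by rw [h]; exact ⟨0, by norm_num⟩)) hq hne' H hH1
      (hle _ hp0 (by linarith)).1 (hle _ hq0 (by linarith)).2.1
      (hrN.trans (by have := (hle 1 (by norm_num) hc1).1; omega)) θ θ' hsum hmul (hnorm θ hθ)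
      (hnorm θ' hθ') T hθ hθ' ?_ _ ?_
    · intro x hx
      have hxH : (H : ℤ) ≤ x := hpow1.trans hx.le
      have hxN : c ^ 2 * N ^ 6 ≤ x := hpow3.trans hx.le
      refine ⟨?_, ?_, ?_, ?_, ?_⟩
      · have h1 := (hle (6 * T * (1 + 2 * T)) n2 (by linarith)).1
        have h2 : 6 * T * N * (1 + 2 * T) ≤ x := by
          calc 6 * T * N * (1 + 2 * T) = 6 * T * (1 + 2 * T) * N := by ring
            _ ≤ _ := h1.trans hxH
        exact_mod_cast h2
      · have h1 := (hle (12 * T * |p ^ 2 - 4 * q|) n3 (by linarith)).1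
        have h2 : 12 * T * N * |p ^ 2 - 4 * q| ≤ x := by
          calc 12 * T * N * |p ^ 2 - 4 * q| = 12 * T * |p ^ 2 - 4 * q| * N := by ring
            _ ≤ _ := h1.trans hxH
        exact_mod_cast h2
      · have h1 := (hle (4 * |p ^ 2 - 4 * q|) (by positivity) (by linarith)).2.1
        have h2 := h1.trans hxH
        exact_mod_cast h2
      · have h1 := (hle (4 * |q| + 4 * |p|) (by positivity) (by linarith)).2.1
        have h2 : 4 * |q| * N ^ 2 + 4 * |p| * N ≤ x := by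
          have h3 : 4 * |p| * N ≤ 4 * |p| * N ^ 2 := mul_le_mul_of_nonneg_left hN2 (by positivity)
          have h4 : (4 * |q| + 4 * |p|) * N ^ 2 = 4 * |q| * N ^ 2 + 4 * |p| * N ^ 2 := by ring
          linarith
        exact_mod_cast h2
      · have h1 : |a.1 ^ 2 - p * a.1 * a.2 + q * a.2 ^ 2| ≤ (1 + |p| + |q|) * K * N := by
          have hKs : 0 ≤ K * s := by positivity
          have h2 := mul_bound hKs hA' hB'
          have h3 : |a.1 ^ 2 - p * a.1 * a.2 + q * a.2 ^ 2| ≤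
              |a.1 ^ 2| + |p| * |a.1 * a.2| + |q| * |a.2 ^ 2| := by
            calc _ ≤ |a.1 ^ 2 - p * a.1 * a.2| + |q * a.2 ^ 2| := abs_add_le _ _
              _ ≤ |a.1 ^ 2| + |p * a.1 * a.2| + |q * a.2 ^ 2| := by
                  gcongr; exact abs_sub _ _
              _ = _ := by rw [mul_assoc, abs_mul p, abs_mul q]
          rw [abs_of_nonneg (sq_nonneg a.1), abs_of_nonneg (sq_nonneg a.2)] at h3
          have h4 : K * s ≤ K * N := mul_le_mul_of_nonneg_left hsN (by omega)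
          have h5 : |p| * |a.1 * a.2| ≤ |p| * (K * N) :=
            mul_le_mul_of_nonneg_left (h2.trans h4) hp0
          have h6 : |q| * a.2 ^ 2 ≤ |q| * (K * N) := mul_le_mul_of_nonneg_left (hB'.trans h4) hq0
          have h7 : (1 + |p| + |q|) * K * N = K * N + |p| * (K * N) + |q| * (K * N) := by ring
          linarith
        have h2 : (|a.1 ^ 2 - p * a.1 * a.2 + q * a.2 ^ 2| * |q| * N ^ 2) ^ 2 ≤ x := by
          calc (|a.1 ^ 2 - p * a.1 * a.2 + q * a.2 ^ 2| * |q| * N ^ 2) ^ 2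
              ≤ (((1 + |p| + |q|) * K * N) * |q| * N ^ 2) ^ 2 := by gcongr
            _ = ((1 + |p| + |q|) * K * |q|) ^ 2 * N ^ 6 := by ring
            _ ≤ c ^ 2 * N ^ 6 := by
                apply mul_le_mul_of_nonneg_right _ (by positivity)
                exact pow_le_pow_left₀ n4 (by linarith) 2
            _ ≤ x := hxN
        exact_mod_cast h2
    · intro P hP
      rw [Finset.mem_filter] at hP
      obtain ⟨hz, hzN, hco, hx, -, -, -⟩ := hS P hP.1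
      refine ⟨hzN, lt_of_le_of_lt hbig hx, ?_⟩
      have h1 := hpt P hP.1
      rw [hP.2] at h1
      exact h1
  calc S.card ≤ F * (S.image AB).card := hfin
    _ ≤ F * D.toNat := Nat.mul_le_mul_left _ hcls
    _ ≤ _ := Nat.le_add_left _ _

end Pool.Agent.J4H76.TW
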