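import Mathlib

/-!
# The number of small representatives
-/

set_option autoImplicit false

namespace Pool.Agent.J4H76.TW

lemma mul_bound {K s a b : ℤ} (hK : 0 ≤ K * s) (ha : a ^ 2 ≤ K * s) (hb : b ^ 2 ≤ K * s) :
    |a * b| ≤ K * s := by
  apply abs_le_of_sq_le_sq _ hK
  calc (a * b) ^ 2 = a ^ 2 * b ^ 2 := by ring
    _ ≤ (K * s) * (K * s) := mul_le_mul ha hb (sq_nonneg _) hK
    _ = _ := by ring

theorem del_card (p q s t K : ℤ) (hK : 0 ≤ K) (hs : 1 ≤ s) (ht : s ∣ t ^ 2 + p * t + q)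
    (S : Finset (ℤ × ℤ)) (hS : ∀ P ∈ S, P.1 ^ 2 ≤ K * s ∧ P.2 ^ 2 ≤ K * s ∧ s ∣ P.1 + t * P.2 ∧
      P.1 ^ 2 - p * P.1 * P.2 + q * P.2 ^ 2 ≠ 0) :
    (S.card : ℤ) ≤ (2 * ((1 + |p| + |q|) * K) + 1) * (4 * K + 1) := by
  have hs0 : s ≠ 0 := by omega
  have hp0 := abs_nonneg p
  have hq0 := abs_nonneg q
  have hc1 : 0 ≤ (1 + |p| + |q|) * K := by positivity
  rcases S.eq_empty_or_nonempty with h | ⟨P0, hP0⟩
  · rw [h, Finset.card_empty]
    push_cast
    positivity
  obtain ⟨h1, h2, h3, h4⟩ := hS P0 hP0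
  have hKs : 0 ≤ K * s := by positivity
  have hdiv : ∀ P ∈ S, s ∣ P0.1 * P.1 - p * P0.1 * P.2 + q * P0.2 * P.2 ∧
      s ∣ P0.2 * P.1 - P0.1 * P.2 := by
    intro P hP
    obtain ⟨-, -, g3, -⟩ := hS P hP
    obtain ⟨e, he⟩ := h3
    obtain ⟨e', he'⟩ := g3
    obtain ⟨c, hc⟩ := ht
    constructor
    · refine ⟨e * P.1 - t * P0.2 * e' - p * e * P.2 + c * P0.2 * P.2, ?_⟩
      linear_combination (P.1 - p * P.2) * he - (t * P0.2) * he' + (P0.2 * P.2) * hc
    · refine ⟨P0.2 * e' - P.2 * e, ?_⟩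
      linear_combination P0.2 * he' - P.2 * he
  have hmaps : ∀ P ∈ S, ((P0.1 * P.1 - p * P0.1 * P.2 + q * P0.2 * P.2) / s,
      (P0.2 * P.1 - P0.1 * P.2) / s) ∈
      (Finset.Icc (-((1 + |p| + |q|) * K)) ((1 + |p| + |q|) * K)) ×ˢ
        (Finset.Icc (-(2 * K)) (2 * K)) := by
    intro P hP
    obtain ⟨g1, g2, -, -⟩ := hS P hP
    obtain ⟨⟨d1, hd1⟩, d2, hd2⟩ := hdiv P hP
    rw [hd1, hd2, Int.mul_ediv_cancel_left _ hs0, Int.mul_ediv_cancel_left _ hs0,
      Finset.mem_product, Finset.mem_Icc, Finset.mem_Icc, ← abs_le, ← abs_le]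
    constructor
    · have h5 : s * |d1| ≤ s * ((1 + |p| + |q|) * K) := by
        calc s * |d1| = |s * d1| := by rw [abs_mul, abs_of_pos (by omega : 0 < s)]
          _ = |P0.1 * P.1 - p * P0.1 * P.2 + q * P0.2 * P.2| := by rw [hd1]
          _ ≤ |P0.1 * P.1 - p * P0.1 * P.2| + |q * P0.2 * P.2| := abs_add_le _ _
          _ ≤ |P0.1 * P.1| + |p * P0.1 * P.2| + |q * P0.2 * P.2| := by
              have := abs_sub (P0.1 * P.1) (p * P0.1 * P.2)
              linarith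
          _ = |P0.1 * P.1| + |p| * |P0.1 * P.2| + |q| * |P0.2 * P.2| := by
              rw [mul_assoc p, mul_assoc q, abs_mul p, abs_mul q]
          _ ≤ K * s + |p| * (K * s) + |q| * (K * s) := by
              gcongr
              · exact mul_bound hKs h1 g1
              · exact mul_bound hKs h1 g2
              · exact mul_bound hKs h2 g2
          _ = _ := by ring
      exact le_of_mul_le_mul_left h5 (by omega)
    · have h5 : s * |d2| ≤ s * (2 * K) := by
        calc s * |d2| = |s * d2| := by rw [abs_mul, abs_of_pos (by omega : 0 < s)]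
          _ = |P0.2 * P.1 - P0.1 * P.2| := by rw [hd2]
          _ ≤ |P0.2 * P.1| + |P0.1 * P.2| := abs_sub _ _
          _ ≤ K * s + K * s := by
              gcongr
              · exact mul_bound hKs h2 g1
              · exact mul_bound hKs h1 g2
          _ = _ := by ring
      exact le_of_mul_le_mul_left h5 (by omega)
  have hinj : Set.InjOn (fun P : ℤ × ℤ => ((P0.1 * P.1 - p * P0.1 * P.2 + q * P0.2 * P.2) / s,
      (P0.2 * P.1 - P0.1 * P.2) / s)) S := by
    intro P hP P' hP' he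
    obtain ⟨⟨d1, hd1⟩, d2, hd2⟩ := hdiv P hP
    obtain ⟨⟨e1, he1⟩, e2, he2⟩ := hdiv P' hP'
    simp only [hd1, hd2, he1, he2, Int.mul_ediv_cancel_left _ hs0, Prod.mk.injEq] at he
    obtain ⟨f1, f2⟩ := he
    rw [f1, ← he1] at hd1
    rw [f2, ← he2] at hd2
    have hN1 : (P0.1 ^ 2 - p * P0.1 * P0.2 + q * P0.2 ^ 2) * (P.2 - P'.2) = 0 := by
      linear_combination P0.2 * hd1 - P0.1 * hd2
    have e1 : P.2 = P'.2 := by
      rcases mul_eq_zero.1 hN1 with h | h
      · exact absurd h h4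
      · linarith
    have hN2 : (P0.1 ^ 2 - p * P0.1 * P0.2 + q * P0.2 ^ 2) * (P.1 - P'.1) = 0 := by
      rw [e1] at hd1 hd2
      linear_combination (P0.1 - p * P0.2) * hd1 + q * P0.2 * hd2
    have e2 : P.1 = P'.1 := by
      rcases mul_eq_zero.1 hN2 with h | h
      · exact absurd h h4
      · linarith
    exact Prod.ext e2 e1
  have hcard := Finset.card_le_card_of_injOn _ hmaps hinj
  rw [Finset.card_product, Int.card_Icc, Int.card_Icc] at hcard
  have h5 : ((((1 + |p| + |q|) * K + 1 - -((1 + |p| + |q|) * K)).toNat *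
      (2 * K + 1 - -(2 * K)).toNat : ℕ) : ℤ) = (2 * ((1 + |p| + |q|) * K) + 1) * (4 * K + 1) := by
    push_cast
    rw [Int.toNat_of_nonneg (by linarith), Int.toNat_of_nonneg (by linarith)]
    ring
  rw [← h5]
  exact_mod_cast hcard

end Pool.Agent.J4H76.TW
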