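import Mathlib

/-!
# The gap principle across the twists
-/

set_option autoImplicit false

namespace Pool.Agent.J4H76.TW

lemma sgn (τ : ℂ) (μ : ℝ) (h : ‖τ ^ 2 - 1‖ ≤ μ) : ‖τ - 1‖ ≤ μ ∨ ‖-τ - 1‖ ≤ μ := by
  by_contra hcon
  push Not at hcon
  obtain ⟨h1, h2⟩ := hcon
  have h3 : ‖-τ - 1‖ = ‖τ + 1‖ := by
    rw [← norm_neg]; congr 1; ring
  rw [h3] at h2
  have h4 : ‖τ ^ 2 - 1‖ = ‖τ - 1‖ * ‖τ + 1‖ := by
    rw [← norm_mul]; congr 1; ring
  have h5 : 2 ≤ ‖τ - 1‖ + ‖τ + 1‖ := by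
    have : ‖(τ + 1) - (τ - 1)‖ ≤ ‖τ + 1‖ + ‖τ - 1‖ := norm_sub_le _ _
    have h6 : (τ + 1) - (τ - 1) = 2 := by ring
    rw [h6] at this
    simp only [Complex.norm_ofNat] at this
    linarith
  rw [h4] at h
  have hμ : 0 ≤ μ := le_trans (by positivity) h
  rcases le_total 1 ‖τ - 1‖ with h6 | h6
  · nlinarith [norm_nonneg (τ + 1)]
  · have h7 : 1 ≤ ‖τ + 1‖ := by linarith
    nlinarith [norm_nonneg (τ - 1)]

/-- the real part of the argument -/
lemma gap_core {p q d G1 G2 g X π σ Δ η Θ : ℝ} {θ θ' : ℂ} (hθ : θ + θ' = -p) (hθθ : θ * θ' = q)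
    (hd : d = p ^ 2 - 4 * q) (hd1 : 1 ≤ |d|) (hΘ : ‖θ‖ ≤ Θ) (hg : 0 < g) (hgX : g ^ 2 = X)
    (ha : G1 ^ 2 - q * G2 ^ 2 = X - q * π) (hb : 2 * G1 * G2 - p * G2 ^ 2 = -σ - p * π)
    (hΔ : σ ^ 2 - 4 * X * π = Δ ^ 2) (hπ : 0 ≤ π)
    (h1 : ‖(G1 : ℂ) + G2 * θ - g‖ ≤ η * g) (h2 : ‖(G1 : ℂ) + G2 * θ' - g‖ ≤ η * g)
    (hη : η * (1 + 2 * Θ) ≤ 1 / 2) (hη2 : 4 * |d| * η ^ 2 ≤ 1 / 4) (hdπ : |d| * π ≤ X / 4)
    (hpq : 4 * |q| * π + 2 * |p| * |σ| ≤ X) :
    |g - G1| ≤ |q| * Δ ^ 2 / (2 * X * g) := by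
  have hX : 0 < X := by rw [← hgX]; positivity
  have hη0 : 0 ≤ η := by
    have := (norm_nonneg _).trans h1
    by_contra hcon
    push Not at hcon
    nlinarith
  have hΘ0 : 0 ≤ Θ := (norm_nonneg _).trans hΘ
  -- the difference of the roots
  have hdd : ‖θ - θ'‖ ^ 2 = |d| := by
    rw [← norm_pow]
    have : (θ - θ') ^ 2 = ((d : ℝ) : ℂ) := by
      rw [hd]
      push_cast
      linear_combination (θ + θ' - p) * hθ - 4 * hθθ
    rw [this, Complex.norm_real, Real.norm_eq_abs]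
  have hdn : 1 ≤ ‖θ - θ'‖ := by
    by_contra hcon
    push Not at hcon
    have : ‖θ - θ'‖ ^ 2 < 1 := by
      have h0 := norm_nonneg (θ - θ')
      nlinarith
    linarith
  have hG2 : |G2| ≤ 2 * η * g := by
    have h3 : ‖((G2 : ℝ) : ℂ) * (θ - θ')‖ ≤ 2 * η * g := by
      have h4 : ((G2 : ℝ) : ℂ) * (θ - θ') = ((G1 : ℂ) + G2 * θ - g) - ((G1 : ℂ) + G2 * θ' - g) := by
        ring
      rw [h4]
      refine (norm_sub_le _ _).trans ?_
      linarith
    rw [norm_mul, Complex.norm_real, Real.norm_eq_abs] at h3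
    refine le_trans ?_ h3
    exact le_mul_of_one_le_right (abs_nonneg _) hdn
  have hG2sq : G2 ^ 2 ≤ 4 * η ^ 2 * X := by
    rw [← sq_abs]
    calc |G2| ^ 2 ≤ (2 * η * g) ^ 2 := pow_le_pow_left₀ (abs_nonneg _) hG2 2
      _ = _ := by rw [← hgX]; ring
  have hG1 : |G1 - g| ≤ 1 / 2 * g := by
    have h3 : ‖(((G1 - g : ℝ)) : ℂ)‖ ≤ η * g + 2 * η * g * Θ := by
      have h4 : (((G1 - g : ℝ)) : ℂ) = ((G1 : ℂ) + G2 * θ - g) - G2 * θ := by push_cast; ring
      rw [h4]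
      refine (norm_sub_le _ _).trans ?_
      rw [norm_mul, Complex.norm_real, Real.norm_eq_abs]
      have : |G2| * ‖θ‖ ≤ 2 * η * g * Θ := mul_le_mul hG2 hΘ (norm_nonneg _) (by positivity)
      linarith
    rw [Complex.norm_real, Real.norm_eq_abs] at h3
    refine h3.trans ?_
    have : η * g + 2 * η * g * Θ = (η * (1 + 2 * Θ)) * g := by ring
    rw [this]
    exact mul_le_mul_of_nonneg_right hη hg.le
  have hG1' : 1 / 2 * g ≤ G1 := by
    have := (abs_le.1 hG1).1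
    linarith
  -- the number y
  obtain ⟨y, hy⟩ : ∃ y, y = G2 ^ 2 - π := ⟨_, rfl⟩
  have hyeq : y * (4 * X + 4 * q * π + 2 * p * σ - d * y) = Δ ^ 2 := by
    have h3 : G1 ^ 2 = X + q * y := by rw [hy]; linarith
    have h4 : 2 * G1 * G2 = -σ + p * y := by rw [hy]; linarith
    have h5 : (2 * G1 * G2) ^ 2 = 4 * (X + q * y) * (π + y) := by
      have : (2 * G1 * G2) ^ 2 = 4 * G1 ^ 2 * G2 ^ 2 := by ring
      rw [this, h3, hy]; ring
    rw [h4] at h5
    rw [hd]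
    linear_combination hΔ - h5
  have hdy : |d * y| ≤ X / 2 := by
    rw [abs_mul]
    have h3 : |y| ≤ G2 ^ 2 + π := by
      rw [hy, abs_le]
      constructor <;> nlinarith [sq_nonneg G2]
    calc |d| * |y| ≤ |d| * (4 * η ^ 2 * X + π) := by gcongr; linarith
      _ = (4 * |d| * η ^ 2) * X + |d| * π := by ring
      _ ≤ 1 / 4 * X + X / 4 := by gcongr
      _ = _ := by ring
  have hfac : 2 * X ≤ 4 * X + 4 * q * π + 2 * p * σ - d * y := by
    have h3 := (abs_le.1 hdy).2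
    have h4 : -(4 * |q| * π) ≤ 4 * q * π := by
      have := neg_abs_le q
      nlinarith
    have h5 : -(2 * |p| * |σ|) ≤ 2 * p * σ := by
      have h6 := neg_abs_le (p * σ)
      rw [abs_mul] at h6
      linarith
    linarith
  have hy0 : 0 ≤ y := by
    by_contra hcon
    push Not at hcon
    have : y * (4 * X + 4 * q * π + 2 * p * σ - d * y) < 0 :=
      mul_neg_of_neg_of_pos hcon (by linarith)
    rw [hyeq] at this
    exact absurd (sq_nonneg Δ) (not_le.2 this)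
  have hyle : y * (2 * X) ≤ Δ ^ 2 := by
    rw [← hyeq]
    exact mul_le_mul_of_nonneg_left hfac hy0
  have he : |g - G1| * g ≤ |q| * y := by
    have h3 : (g - G1) * (g + G1) = -q * y := by
      have : G1 ^ 2 = X + q * y := by rw [hy]; linarith
      linear_combination hgX - this
    have h4 : |g - G1| * (g + G1) = |q| * y := by
      have h5 : |(g - G1) * (g + G1)| = |g - G1| * (g + G1) := by
        rw [abs_mul, abs_of_nonneg (by linarith : 0 ≤ g + G1)]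
      rw [← h5, h3, abs_mul, abs_neg, abs_of_nonneg hy0]
    rw [← h4]
    apply mul_le_mul_of_nonneg_left _ (abs_nonneg _)
    linarith
  rw [le_div_iff₀ (by positivity)]
  calc |g - G1| * (2 * X * g) = (|g - G1| * g) * (2 * X) := by ring
    _ ≤ (|q| * y) * (2 * X) := by gcongr
    _ = |q| * (y * (2 * X)) := by ring
    _ ≤ _ := by gcongr

end Pool.Agent.J4H76.TW
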