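import Pool.Agent.J4H76.TW.A3

/-!
# The gap principle for the points of one class
-/

set_option autoImplicit false

namespace Pool.Agent.J4H76.TW

/-- the point `(x, z)` belongs to the class of `(r, A + B θ)`; `(k + l θ) ^ 2 = (x - z θ) (A + B θ)` -/
structure IsPt (p q A B r x z k l u : ℤ) : Prop where
  e1 : x * A + q * z * B = k ^ 2 - q * l ^ 2
  e2 : x * B - z * A + p * z * B = 2 * k * l - p * l ^ 2
  hx : x = r * u ^ 2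
  hu : 0 < u
  hr : 0 < r
  hz : 1 ≤ z
  hc : IsCoprime x z

lemma IsPt.xpos {p q A B r x z k l u : ℤ} (h : IsPt p q A B r x z k l u) : 1 ≤ x := by
  have h1 : 0 < r * u ^ 2 := by
    have := h.hr; have := h.hu; positivity
  have := h.hx
  omega

/-- the identity in the field -/
lemma IsPt.cx {p q A B r x z k l u : ℤ} (h : IsPt p q A B r x z k l u) (θ : ℂ)
    (hθ : θ ^ 2 + p * θ + q = 0) :
    ((k : ℂ) + l * θ) ^ 2 = (x - z * θ) * (A + B * θ) := by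
  have e1 : (x : ℂ) * A + q * z * B = k ^ 2 - q * l ^ 2 := by exact_mod_cast h.e1
  have e2 : (x : ℂ) * B - z * A + p * z * B = 2 * k * l - p * l ^ 2 := by exact_mod_cast h.e2
  linear_combination -e1 - θ * e2 + (l ^ 2 + z * B) * hθ

/-- the normalised number `(k + l θ) / (ν √x)` -/
noncomputable def tau (θ ν : ℂ) (x k l : ℤ) : ℂ := ((k : ℂ) + l * θ) / (ν * ((Real.sqrt x : ℝ) : ℂ))

lemma sqrt_sq_cx {x : ℤ} (hx : 1 ≤ x) : (((Real.sqrt x : ℝ) : ℂ)) ^ 2 = x := by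
  have h1 : (0 : ℝ) ≤ x := by exact_mod_cast (by omega : 0 ≤ x)
  rw [← Complex.ofReal_pow, Real.sq_sqrt h1]
  simp

lemma tau_sq {p q A B r x z k l u : ℤ} (h : IsPt p q A B r x z k l u) (θ ν : ℂ)
    (hθ : θ ^ 2 + p * θ + q = 0) (hν : ν ^ 2 = A + B * θ) (hν0 : ν ≠ 0) {Θ H : ℝ}
    (hΘ : ‖θ‖ ≤ Θ) (hz : (z : ℝ) ≤ H) : ‖tau θ ν x k l ^ 2 - 1‖ ≤ Θ * H / x := by
  have hx := h.xpos
  have hxR : (0 : ℝ) < x := by exact_mod_cast (by omega : 0 < x)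
  have hxC : (x : ℂ) ≠ 0 := by exact_mod_cast (by omega : x ≠ 0)
  have h1 : tau θ ν x k l ^ 2 - 1 = -(z * θ) / x := by
    unfold tau
    rw [div_pow, mul_pow, h.cx θ hθ, sqrt_sq_cx hx, hν]
    have h2 : (A + B * θ : ℂ) ≠ 0 := by rw [← hν]; exact pow_ne_zero _ hν0
    rw [mul_comm (A + B * θ : ℂ) (x : ℂ), mul_div_mul_right _ _ h2]
    field_simp
    ring
  have hz0 : (0 : ℝ) ≤ z := by exact_mod_cast (by have := h.hz; omega : 0 ≤ z)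
  rw [h1, norm_div, norm_neg, norm_mul]
  have h3 : ‖(x : ℂ)‖ = x := by
    rw [Complex.norm_intCast, abs_of_pos hxR]
  have h4 : ‖(z : ℂ)‖ = z := by
    rw [Complex.norm_intCast, abs_of_nonneg hz0]
  rw [h3, h4, mul_comm]
  have h5 : 0 ≤ Θ := (norm_nonneg _).trans hΘ
  gcongr

lemma comp {U V : ℝ} {θ θ' : ℂ} (h : θ ≠ θ') (h1 : (U : ℂ) + V * θ = 0)
    (h2 : (U : ℂ) + V * θ' = 0) : U = 0 ∧ V = 0 := by
  have h3 : (V : ℂ) * (θ - θ') = 0 := by linear_combination h1 - h2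
  have hV : (V : ℂ) = 0 := by
    rcases mul_eq_zero.1 h3 with h4 | h4
    · exact h4
    · exact absurd (sub_eq_zero.1 h4) h
  have hV' : V = 0 := by exact_mod_cast hV
  refine ⟨?_, hV'⟩
  rw [hV, zero_mul, add_zero] at h1
  exact_mod_cast h1

/-- closeness of the product -/
lemma close_mul {a b : ℂ} {μ s : ℝ} (hs : s = 1 ∨ s = -1) (ha : ‖(s : ℂ) * a - 1‖ ≤ μ)
    (hb : ‖(s : ℂ) * b - 1‖ ≤ μ) (hμ : μ ≤ 1) : ‖a * b - 1‖ ≤ 3 * μ := by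
  have hs2 : (s : ℂ) * s = 1 := by
    rcases hs with h | h <;> rw [h] <;> norm_num
  have h1 : a * b - 1 = ((s : ℂ) * a - 1) * ((s : ℂ) * b - 1) + ((s : ℂ) * a - 1) +
      ((s : ℂ) * b - 1) := by
    linear_combination (-(a * b)) * hs2
  have hμ0 : 0 ≤ μ := (norm_nonneg _).trans ha
  rw [h1]
  calc _ ≤ ‖((s : ℂ) * a - 1) * ((s : ℂ) * b - 1) + ((s : ℂ) * a - 1)‖ + ‖(s : ℂ) * b - 1‖ :=
        norm_add_le _ _
    _ ≤ ‖((s : ℂ) * a - 1) * ((s : ℂ) * b - 1)‖ + ‖(s : ℂ) * a - 1‖ + ‖(s : ℂ) * b - 1‖ := by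
        gcongr; exact norm_add_le _ _
    _ ≤ μ * μ + μ + μ := by
        rw [norm_mul]
        gcongr
    _ ≤ 3 * μ := by nlinarith

/-- **The gap principle.** -/
theorem gap {p q A B r : ℤ} (hq : q ≠ 0) (hN : A ^ 2 - p * A * B + q * B ^ 2 ≠ 0)
    {x1 z1 k1 l1 u1 x2 z2 k2 l2 u2 : ℤ} (h1 : IsPt p q A B r x1 z1 k1 l1 u1)
    (h2 : IsPt p q A B r x2 z2 k2 l2 u2) {θ θ' ν ν' : ℂ} (hs : θ + θ' = -p) (hm : θ * θ' = q)
    (hν : ν ^ 2 = A + B * θ) (hν' : ν' ^ 2 = A + B * θ') {Θ H d s s' : ℝ}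
    (hd : d = p ^ 2 - 4 * q) (hd1 : 1 ≤ |d|) (hΘ : ‖θ‖ ≤ Θ) (hΘ' : ‖θ'‖ ≤ Θ)
    (hz1 : (z1 : ℝ) ≤ H) (hz2 : (z2 : ℝ) ≤ H) (hs1 : s = 1 ∨ s = -1) (hs1' : s' = 1 ∨ s' = -1)
    (c1 : ‖(s : ℂ) * tau θ ν x1 k1 l1 - 1‖ ≤ Θ * H / x1)
    (c2 : ‖(s : ℂ) * tau θ ν x2 k2 l2 - 1‖ ≤ Θ * H / x2)
    (c1' : ‖(s' : ℂ) * tau θ' ν' x1 k1 l1 - 1‖ ≤ Θ * H / x1)
    (c2' : ‖(s' : ℂ) * tau θ' ν' x2 k2 l2 - 1‖ ≤ Θ * H / x2)
    (h12 : x1 ≤ x2) (h21 : x2 ≤ x1 ^ 2)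
    (b1 : 6 * Θ * H * (1 + 2 * Θ) ≤ x1) (b2 : 12 * Θ * H * |d| ≤ x1) (b3 : 4 * |d| * H ^ 2 ≤ x1)
    (b4 : 4 * |(q : ℝ)| * H ^ 2 + 4 * |(p : ℝ)| * H ≤ x1)
    (b5 : (|((A ^ 2 - p * A * B + q * B ^ 2 : ℤ) : ℝ)| * |(q : ℝ)| * H ^ 2) ^ 2 ≤ x1) :
    x1 = x2 ∧ z1 = z2 := by
  have hx1 := h1.xpos
  have hx2 := h2.xpos
  have hx1R : (1 : ℝ) ≤ x1 := by exact_mod_cast hx1
  have hx2R : (1 : ℝ) ≤ x2 := by exact_mod_cast hx2
  have hz1R : (1 : ℝ) ≤ z1 := by exact_mod_cast h1.hz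
  have hz2R : (1 : ℝ) ≤ z2 := by exact_mod_cast h2.hz
  have h12R : (x1 : ℝ) ≤ x2 := by exact_mod_cast h12
  have h21R : (x2 : ℝ) ≤ x1 ^ 2 := by exact_mod_cast h21
  have hH1 : 1 ≤ H := hz1R.trans hz1
  have hΘ0 : 0 ≤ Θ := (norm_nonneg _).trans hΘ
  -- roots
  have hr1 : θ ^ 2 + p * θ + q = 0 := by linear_combination θ * hs - hm
  have hr2 : θ' ^ 2 + p * θ' + q = 0 := by linear_combination θ' * hs - hm
  have hNC : (A + B * θ) * (A + B * θ') = ((A ^ 2 - p * A * B + q * B ^ 2 : ℤ) : ℂ) := by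
    push_cast
    linear_combination (A * B : ℂ) * hs + (B : ℂ) ^ 2 * hm
  have hNC0 : ((A ^ 2 - p * A * B + q * B ^ 2 : ℤ) : ℂ) ≠ 0 := by exact_mod_cast hN
  have hδ : (A + B * θ : ℂ) ≠ 0 := fun h => hNC0 (by rw [← hNC, h, zero_mul])
  have hδ' : (A + B * θ' : ℂ) ≠ 0 := fun h => hNC0 (by rw [← hNC, h, mul_zero])
  have hν0 : ν ≠ 0 := fun h => hδ (by rw [← hν, h]; simp)
  have hν0' : ν' ≠ 0 := fun h => hδ' (by rw [← hν', h]; simp)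
  have hne : θ ≠ θ' := by
    intro h
    have h3 : ((d : ℝ) : ℂ) = 0 := by
      rw [hd]; push_cast
      rw [← h] at hs hm
      linear_combination (p - 2 * θ : ℂ) * hs + 4 * hm
    have h4 : d = 0 := by exact_mod_cast h3
    rw [h4] at hd1
    norm_num at hd1
  -- the numbers
  obtain ⟨N, hNd⟩ : ∃ N : ℤ, N = A ^ 2 - p * A * B + q * B ^ 2 := ⟨_, rfl⟩
  obtain ⟨m1, hm1⟩ : ∃ m : ℤ, m = k1 * k2 - q * l1 * l2 := ⟨_, rfl⟩
  obtain ⟨m2, hm2⟩ : ∃ m : ℤ, m = k1 * l2 + k2 * l1 - p * l1 * l2 := ⟨_, rfl⟩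
  obtain ⟨n1, hn1⟩ : ∃ n : ℤ, n = m1 * (A - p * B) + q * m2 * B := ⟨_, rfl⟩
  obtain ⟨n2, hn2⟩ : ∃ n : ℤ, n = m2 * A - m1 * B := ⟨_, rfl⟩
  have hN0 : (N : ℝ) ≠ 0 := by rw [hNd]; exact_mod_cast hN
  have hN0C : (N : ℂ) ≠ 0 := by rw [hNd]; exact_mod_cast hN
  obtain ⟨G1, hG1⟩ : ∃ G : ℝ, G = n1 / N := ⟨_, rfl⟩
  obtain ⟨G2, hG2⟩ : ∃ G : ℝ, G = n2 / N := ⟨_, rfl⟩
  have hG : ∀ t : ℂ, t ^ 2 + p * t + q = 0 → (A + B * t : ℂ) ≠ 0 →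
      ((G1 : ℂ) + G2 * t) * (A + B * t) = (k1 + l1 * t) * (k2 + l2 * t) := by
    intro t ht ht0
    have e1 : (N : ℂ) = A ^ 2 - p * A * B + q * B ^ 2 := by rw [hNd]; push_cast; ring
    have e2 : (n1 : ℂ) = m1 * (A - p * B) + q * m2 * B := by rw [hn1]; push_cast; ring
    have e3 : (n2 : ℂ) = m2 * A - m1 * B := by rw [hn2]; push_cast; ring
    have e4 : (m1 : ℂ) = k1 * k2 - q * l1 * l2 := by rw [hm1]; push_cast; ring
    have e5 : (m2 : ℂ) = k1 * l2 + k2 * l1 - p * l1 * l2 := by rw [hm2]; push_cast; ring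
    rw [hG1, hG2]
    push_cast
    have h3 : ((n1 : ℂ) / N + n2 / N * t) * (A + B * t) = ((n1 + n2 * t) * (A + B * t)) / N := by
      field_simp
    rw [h3, div_eq_iff hN0C, e2, e3, e1, e4, e5]
    linear_combination (((k1 * l2 + k2 * l1 - p * l1 * l2) * A - (k1 * k2 - q * l1 * l2) * B) * B
      - (l1 * l2) * (A ^ 2 - p * A * B + q * B ^ 2)) * ht
  obtain ⟨g, hg⟩ : ∃ g : ℝ, g = r * u1 * u2 := ⟨_, rfl⟩
  have hg0 : 0 < g := by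
    rw [hg]
    have h3 : (0 : ℝ) < r := by exact_mod_cast h1.hr
    have h4 : (0 : ℝ) < u1 := by exact_mod_cast h1.hu
    have h5 : (0 : ℝ) < u2 := by exact_mod_cast h2.hu
    positivity
  have hx1u : (x1 : ℝ) = r * u1 ^ 2 := by exact_mod_cast h1.hx
  have hx2u : (x2 : ℝ) = r * u2 ^ 2 := by exact_mod_cast h2.hx
  have hgX : g ^ 2 = x1 * x2 := by rw [hg, hx1u, hx2u]; ring
  have hgs : Real.sqrt x1 * Real.sqrt x2 = g := by
    rw [← Real.sqrt_mul (by linarith), ← hgX, Real.sqrt_sq hg0.le]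
  have htau : ∀ t n : ℂ, t ^ 2 + p * t + q = 0 → n ^ 2 = A + B * t → n ≠ 0 →
      (G1 : ℂ) + G2 * t = tau t n x1 k1 l1 * tau t n x2 k2 l2 * g := by
    intro t n ht hn hn0
    have h3 : (A + B * t : ℂ) ≠ 0 := by rw [← hn]; exact pow_ne_zero _ hn0
    have h4 : (G1 : ℂ) + G2 * t = (k1 + l1 * t) * (k2 + l2 * t) / (A + B * t) := by
      rw [eq_div_iff h3, hG t ht h3]
    have hs1 : ((Real.sqrt x1 : ℝ) : ℂ) ≠ 0 := by
      have : Real.sqrt x1 ≠ 0 := (Real.sqrt_pos.2 (by linarith)).ne'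
      exact_mod_cast this
    have hs2 : ((Real.sqrt x2 : ℝ) : ℂ) ≠ 0 := by
      have : Real.sqrt x2 ≠ 0 := (Real.sqrt_pos.2 (by linarith)).ne'
      exact_mod_cast this
    rw [h4, ← hgs, ← hn]
    unfold tau
    push_cast
    field_simp
  obtain ⟨μ, hμ⟩ : ∃ μ : ℝ, μ = Θ * H / x1 := ⟨_, rfl⟩
  have hμ2 : Θ * H / x2 ≤ μ := by
    rw [hμ]; gcongr
  have hμ0 : 0 ≤ μ := by rw [hμ]; positivity
  have hμ1 : 6 * μ * (1 + 2 * Θ) ≤ 1 := by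
    rw [hμ]
    have h3 : 6 * (Θ * H / x1) * (1 + 2 * Θ) = (6 * Θ * H * (1 + 2 * Θ)) / x1 := by ring
    rw [h3, div_le_one (by linarith)]
    exact b1
  have hμ1' : μ ≤ 1 := by nlinarith [mul_nonneg hμ0 hΘ0]
  have hμd : 12 * μ * |d| ≤ 1 := by
    rw [hμ]
    have h3 : 12 * (Θ * H / x1) * |d| = (12 * Θ * H * |d|) / x1 := by ring
    rw [h3, div_le_one (by linarith)]
    exact b2
  have hcl : ∀ t n : ℂ, t ^ 2 + p * t + q = 0 → n ^ 2 = A + B * t → n ≠ 0 → ∀ e : ℝ,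
      (e = 1 ∨ e = -1) → ‖(e : ℂ) * tau t n x1 k1 l1 - 1‖ ≤ Θ * H / x1 →
      ‖(e : ℂ) * tau t n x2 k2 l2 - 1‖ ≤ Θ * H / x2 →
      ‖(G1 : ℂ) + G2 * t - g‖ ≤ (3 * μ) * g := by
    intro t n ht hn hn0 e he g1 g2
    rw [htau t n ht hn hn0]
    have h3 := close_mul he (g1.trans (le_of_eq hμ.symm)) (g2.trans hμ2) hμ1'
    have h4 : tau t n x1 k1 l1 * tau t n x2 k2 l2 * (g : ℂ) - g =
        (tau t n x1 k1 l1 * tau t n x2 k2 l2 - 1) * g := by ring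
    rw [h4, norm_mul, Complex.norm_real, Real.norm_eq_abs, abs_of_pos hg0]
    exact mul_le_mul_of_nonneg_right h3 hg0.le
  -- the identities
  have hsq : ∀ t n : ℂ, t ^ 2 + p * t + q = 0 → n ^ 2 = A + B * t → n ≠ 0 →
      (((G1 ^ 2 - q * G2 ^ 2 - (x1 * x2 - q * (z1 * z2)) : ℝ)) : ℂ) +
      ((2 * G1 * G2 - p * G2 ^ 2 + (x1 * z2 + x2 * z1) + p * (z1 * z2) : ℝ)) * t = 0 := by
    intro t n ht hn hn0
    have h3 : (A + B * t : ℂ) ≠ 0 := by rw [← hn]; exact pow_ne_zero _ hn0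
    have h4 : ((G1 : ℂ) + G2 * t) ^ 2 = (x1 - z1 * t) * (x2 - z2 * t) := by
      have h5 : (((G1 : ℂ) + G2 * t) ^ 2 - (x1 - z1 * t) * (x2 - z2 * t)) * (A + B * t) ^ 2 = 0 := by
        linear_combination (((G1 : ℂ) + G2 * t) * (A + B * t) + (k1 + l1 * t) * (k2 + l2 * t)) *
          hG t ht h3 + (k2 + l2 * t) ^ 2 * h1.cx t ht + (x1 - z1 * t) * (A + B * t) * h2.cx t ht
      rcases mul_eq_zero.1 h5 with h6 | h6
      · linear_combination h6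
      · exact absurd h6 (pow_ne_zero _ h3)
    push_cast
    linear_combination h4 - ((G2 : ℂ) ^ 2 - z1 * z2) * ht
  obtain ⟨hU, hV⟩ := comp hne (hsq θ ν hr1 hν hν0) (hsq θ' ν' hr2 hν' hν0')
  obtain ⟨Δ, hΔ⟩ : ∃ Δ : ℝ, Δ = x1 * z2 - x2 * z1 := ⟨_, rfl⟩
  obtain ⟨π, hπ⟩ : ∃ π : ℝ, π = z1 * z2 := ⟨_, rfl⟩
  obtain ⟨σ, hσ⟩ : ∃ σ : ℝ, σ = x1 * z2 + x2 * z1 := ⟨_, rfl⟩
  have hπ1 : 1 ≤ π := by rw [hπ]; nlinarith
  have hπH : π ≤ H ^ 2 := by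
    rw [hπ, sq]; exact mul_le_mul hz1 hz2 (by linarith) (by linarith)
  have hσ0 : 0 ≤ σ := by rw [hσ]; positivity
  have hσH : σ ≤ 2 * x2 * H := by
    rw [hσ]
    have h3 : (x1 : ℝ) * z2 ≤ x2 * H := mul_le_mul h12R hz2 (by linarith) (by linarith)
    have h4 : (x2 : ℝ) * z1 ≤ x2 * H := mul_le_mul_of_nonneg_left hz1 (by linarith)
    linarith
  have hX1 : (x1 : ℝ) ≤ x1 * x2 := le_mul_of_one_le_right (by linarith) hx2R
  have hcore := gap_core (p := p) (q := q) (d := d) (G1 := G1) (G2 := G2) (g := g)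
    (X := x1 * x2) (π := π) (σ := σ) (Δ := Δ) (η := 3 * μ) (Θ := Θ) (θ := θ) (θ' := θ')
    (by push_cast; exact hs) (by push_cast; exact hm) (by rw [hd]) hd1 hΘ hg0 hgX
    (by rw [hπ]; linarith) (by rw [hπ, hσ]; linarith)
    (by rw [hπ, hσ, hΔ]; ring) (by linarith)
    (hcl θ ν hr1 hν hν0 s hs1 c1 c2) (hcl θ' ν' hr2 hν' hν0' s' hs1' c1' c2')
    (by linarith)
    (by
      have h3 : μ ^ 2 * |d| ≤ (1 / 12) * μ := by nlinarith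
      have h4 : μ ≤ 1 / 6 := by nlinarith [mul_nonneg hμ0 hΘ0]
      nlinarith)
    (by
      have h3 : |d| * π ≤ |d| * H ^ 2 := mul_le_mul_of_nonneg_left hπH (abs_nonneg _)
      nlinarith)
    (by
      rw [abs_of_nonneg hσ0]
      have h3 : 4 * |(q : ℝ)| * π ≤ 4 * |(q : ℝ)| * H ^ 2 := by gcongr
      have h4 : 2 * |(p : ℝ)| * σ ≤ 2 * |(p : ℝ)| * (2 * x2 * H) := by gcongr
      have h5 : 4 * |(q : ℝ)| * H ^ 2 ≤ 4 * |(q : ℝ)| * H ^ 2 * x2 :=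
        le_mul_of_one_le_right (by positivity) hx2R
      have h6 : (4 * |(q : ℝ)| * H ^ 2 + 4 * |(p : ℝ)| * H) * x2 ≤ x1 * x2 :=
        mul_le_mul_of_nonneg_right b4 (by linarith)
      nlinarith)
  -- the difference is zero
  have hΔle : Δ ^ 2 ≤ (x2 * H) ^ 2 := by
    rw [sq_le_sq, abs_of_nonneg (by positivity : (0 : ℝ) ≤ x2 * H), hΔ, abs_le]
    have h3 : (x1 : ℝ) * z2 ≤ x2 * H := mul_le_mul h12R hz2 (by linarith) (by linarith)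
    have h4 : (x2 : ℝ) * z1 ≤ x2 * H := mul_le_mul_of_nonneg_left hz1 (by linarith)
    have h5 : (0 : ℝ) ≤ x1 * z2 := by positivity
    have h6 : (0 : ℝ) ≤ x2 * z1 := by positivity
    constructor <;> linarith
  have hqR : 0 < |(q : ℝ)| := abs_pos.2 (by exact_mod_cast hq)
  have hNR : 0 < |(N : ℝ)| := abs_pos.2 hN0
  obtain ⟨w, hw⟩ : ∃ w : ℝ, w = Real.sqrt x1 := ⟨_, rfl⟩
  have hw0 : 0 < w := by rw [hw]; exact Real.sqrt_pos.2 (by linarith)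
  have hw2 : w ^ 2 = x1 := by rw [hw]; exact Real.sq_sqrt (by linarith)
  have hwg : w * x2 ≤ x1 * g := by
    apply (pow_le_pow_iff_left₀ (by positivity) (by positivity) two_ne_zero).1
    have h3 : (w * x2) ^ 2 = x1 * x2 * x2 := by rw [mul_pow, hw2]; ring
    have h4 : (x1 * g) ^ 2 = x1 * x2 * (x1 : ℝ) ^ 2 := by rw [mul_pow, hgX]; ring
    rw [h3, h4]
    exact mul_le_mul_of_nonneg_left h21R (by positivity)
  have hNw : |(N : ℝ)| * |(q : ℝ)| * H ^ 2 ≤ w := by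
    apply (pow_le_pow_iff_left₀ (by positivity) hw0.le two_ne_zero).1
    rw [hw2, hNd]
    exact b5
  have hsmall : |(N : ℝ)| * |g - G1| ≤ 1 / 2 := by
    have hX0 : (0 : ℝ) < x1 * x2 := by positivity
    calc |(N : ℝ)| * |g - G1| ≤ |(N : ℝ)| * (|(q : ℝ)| * Δ ^ 2 / (2 * (x1 * x2) * g)) := by gcongr
      _ ≤ |(N : ℝ)| * (|(q : ℝ)| * (x2 * H) ^ 2 / (2 * (x1 * x2) * g)) := by gcongr
      _ = (|(N : ℝ)| * |(q : ℝ)| * H ^ 2) * x2 / (2 * (x1 * g)) := by field_simp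
      _ ≤ w * x2 / (2 * (x1 * g)) := by gcongr
      _ ≤ 1 / 2 := by
          rw [div_le_div_iff₀ (by positivity) (by norm_num)]
          linarith
  have hint : (N : ℝ) * (g - G1) = ((N * (r * u1 * u2) - n1 : ℤ) : ℝ) := by
    rw [hg, hG1]; push_cast; field_simp
  have hzero : N * (r * u1 * u2) - n1 = 0 := by
    rw [← abs_mul, hint, ← Int.cast_abs] at hsmall
    have h3 : ((|N * (r * u1 * u2) - n1| : ℤ) : ℝ) < 1 := by linarith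
    have h4 : |N * (r * u1 * u2) - n1| < 1 := by exact_mod_cast h3
    exact Int.abs_lt_one_iff.1 h4
  have hgG : G1 = g := by
    rw [hzero, Int.cast_zero] at hint
    rcases mul_eq_zero.1 hint with h3 | h3
    · exact absurd h3 hN0
    · linarith
  have hG2 : G2 ^ 2 = π := by
    have h3 : (q : ℝ) * (G2 ^ 2 - π) = 0 := by
      rw [hgG, hgX] at hU
      rw [hπ]
      linarith
    rcases mul_eq_zero.1 h3 with h4 | h4
    · exact absurd h4 (by exact_mod_cast hq)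
    · linarith
  have hΔ0 : Δ = 0 := by
    have h3 : 2 * g * G2 = -σ := by
      have h4 := hV
      rw [hgG, hG2, hπ] at h4
      rw [hσ]
      linarith
    have h5 : Δ ^ 2 = 0 := by
      have h6 : σ ^ 2 = 4 * (x1 * x2) * π := by
        calc σ ^ 2 = (2 * g * G2) ^ 2 := by rw [h3]; ring
          _ = 4 * g ^ 2 * G2 ^ 2 := by ring
          _ = _ := by rw [hgX, hG2]
      have h7 : Δ ^ 2 = σ ^ 2 - 4 * (x1 * x2) * π := by rw [hΔ, hσ, hπ]; ring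
      rw [h7, h6, sub_self]
    exact pow_eq_zero_iff two_ne_zero |>.1 h5
  have hfin : x1 * z2 = x2 * z1 := by
    have h3 : (x1 : ℝ) * z2 - x2 * z1 = 0 := by rw [← hΔ, hΔ0]
    have h4 : (x1 : ℝ) * z2 = x2 * z1 := by linarith
    exact_mod_cast h4
  have hd1 : x1 ∣ x2 := h1.hc.dvd_of_dvd_mul_right ⟨z2, hfin.symm⟩
  have hd2 : x2 ∣ x1 := h2.hc.dvd_of_dvd_mul_right ⟨z1, hfin⟩
  have hxx : x1 = x2 := Int.dvd_antisymm (by omega) (by omega) hd1 hd2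
  refine ⟨hxx, ?_⟩
  rw [hxx] at hfin
  exact (mul_left_cancel₀ (by omega) hfin).symm

end Pool.Agent.J4H76.TW
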