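import Pool.Agent.Y910.F.K4
import Pool.Agent.Y910.A.A11

/-!
# Large points of different curves with the same class: the field at infinity
-/

open Polynomial IntermediateField

set_option autoImplicit false

namespace Pool.Agent.J4H76.TW

open Pool.Agent.H322R2 Pool.Agent.Y910.G Pool.Agent.Y910.R Pool.Agent.Y910.E Pool.Agent.Y910.A
open Pool.Agent.Y910.F

/-- the point `x` is attached to the field `k` -/
def Att (M H : ℕ) (k : IntermediateField ℚ ℝ) (x : ℤ) : Prop :=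
  3 ≤ Module.finrank ℚ k ∧ ∃ η : ℝ, k ≤ ℚ⟮η⟯ ∧
    Near M (((2 * H : ℕ) : ℝ) ^ M) (1 + |(x : ℝ)|) ℚ⟮η⟯

theorem frameP (d : ℕ) (hd : 3 ≤ d) : ∃ M : ℕ, ∀ (K : IntermediateField ℚ ℂ)
    [FiniteDimensional ℚ K] [IsGalois ℚ K] (H : ℕ) (g : ℤ[X]) (D : ℚ[X]) (x : ℤ),
    1 ≤ H → g.natDegree = d →
    (g.map (Int.castRingHom ℚ)).Separable → (∀ i, |g.coeff i| ≤ H) →
    (∀ θ : ℂ, aeval θ g = 0 → IsIntegral ℤ (aeval θ D) ∧ aeval θ D ≠ 0 ∧ ‖aeval θ D‖ ≤ H) →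
    (∃ B : ℚ[X], g.map (Int.castRingHom ℚ) ∣ B ^ 2 - D * (C (x : ℚ) - X)) →
    (∃ v : ℂ → ℂ, (∀ θ : ℂ, aeval θ g = 0 → v θ ^ 2 = aeval θ D) ∧
      ∀ P : ℚ[X], (∑ r ∈ ((g.map (Int.castRingHom ℚ)).map (algebraMap ℚ ℂ)).roots.toFinset,
        aeval r P * v r) ^ 2 ∈ K) →
    |x| ≤ ((2 * H : ℕ) : ℤ) ^ M ∨
      ∃ k : IntermediateField ℚ ℝ, (∀ z ∈ k, (z : ℂ) ∈ K) ∧ Att M H k x := by
  classical
  have hSG : StSG := Pool.Agent.Y396.FC.SG.done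
  have hINT : StINT := Pool.Agent.Y525.FC.done hSG
  have hFLIP : StFLIP := Pool.Agent.Y907.FC.FLIP.done
  have hIRR : StIRR := Pool.Agent.Y396.FC.IRR.done
  have hPL2 : StPL2 := Pool.Agent.Y662.FK.done
  have hGEN : StGEN := Pool.Agent.Y876.FC.done
  obtain ⟨M1, hM1⟩ := monic_struct (2 ^ d) Nat.one_le_two_pow
  obtain ⟨i0, hi0⟩ : ∃ i0 : Fin d, i0.1 = 0 := ⟨⟨0, by omega⟩, rfl⟩
  obtain ⟨i1, hi1⟩ : ∃ i1 : Fin d, i1.1 = 1 := ⟨⟨1, by omega⟩, rfl⟩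
  obtain ⟨m2, hm2, hcd⟩ := cdata hSG hINT hGEN d hd i0 i1 ⟨hi0, hi1⟩
  refine ⟨m2 * M1 + 3 * m2 + M1, ?_⟩
  intro K _ _ H g D x hH hdeg hsep hcoef hD hB hv
  obtain ⟨m, θ, u, F, hθi, hθ0, hθs, hu0, hu2, hgen, hFm, hFd, hFs, hwt, hpn⟩ :=
    hcd H g D hH hdeg hsep hcoef hD
  obtain ⟨hprime, L, _, _, α, β, hev, htr, hgenL, hpl⟩ :=
    singleK hSG hFLIP hIRR hPL2 θ u hθi hu0 F hFm hFd hFs
  obtain ⟨T, hT⟩ : ∃ T : ℕ, T = (2 * H) ^ m2 := ⟨_, rfl⟩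
  rw [← hT] at hpn
  have hT2 : 2 ≤ T := by
    rw [hT]
    calc 2 ≤ 2 * H := by omega
      _ = (2 * H) ^ 1 := (pow_one _).symm
      _ ≤ _ := Nat.pow_le_pow_right (by omega) hm2
  obtain ⟨B, hB⟩ := hB
  obtain ⟨h1, z, h2⟩ := int_point d m g hdeg hsep D (fun r hr => (hD r hr).1) x B hB θ hθ0 hθs
  have h10 : (g.leadingCoeff : ℂ) ^ (2 * d) = ((g.leadingCoeff : ℂ) ^ d) ^ 2 := by
    rw [← pow_mul, mul_comm]
  have hz : ev x z F = 0 := by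
    have h3 := root_sum hSG F _ hFs (evalRingHom (x : ℂ))
      (fun i => (g.leadingCoeff : ℂ) ^ d * wt d m (θ i) * aeval (θ i) B) (by
        intro i
        simp only [coe_evalRingHom, eval_mul, eval_C, eval_sub, eval_X]
        rw [mul_pow, h1 i, hu2, h10]
        ring)
    rw [← evf_eq, ← h2] at h3
    have h4 : ((ev x z F : ℤ) : ℂ) = 0 := by
      have h5 := map_ev (Int.castRingHom ℂ) x z F
      rw [ev_apply, ev_apply] at h5
      rw [← h3, ev_apply]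
      exact h5
    exact_mod_cast h4
  have hdegF : ∀ j, (F.coeff j).natDegree ≤ 2 ^ d - j := by
    intro j
    rcases hwt j with h | h
    · omega
    · rw [h, natDegree_zero]; exact Nat.zero_le _
  have hTR : (1 : ℝ) ≤ T := by exact_mod_cast (by omega : 1 ≤ T)
  have h2H : 1 ≤ 2 * H := by omega
  rcases hM1 T hT2 F hFm hFd hprime (fun j => (hdegF j).trans (Nat.sub_le _ _)) hpn L α β hev htr
    hgenL x z hz with h | ⟨A, hA, q, hq1, hq2, hq3, η, hη, hbig⟩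
  · left
    refine h.trans ?_
    have h3 : T ^ M1 ≤ (2 * H) ^ (m2 * M1 + 3 * m2 + M1) := by
      calc T ^ M1 = ((2 * H) ^ m2) ^ M1 := by rw [hT]
        _ = (2 * H) ^ (m2 * M1) := by rw [← pow_mul]
        _ ≤ _ := Nat.pow_le_pow_right h2H (by omega)
    exact_mod_cast h3
  · right
    have hzb := abs_b_le hFm hFd ⟨hFd.le, hdegF⟩ hTR hpn x z hz
    have hnear := near_of_big hT2 hzb hbig
    obtain ⟨ρ, hρη, cc, hcc, hroot⟩ := hpl A hA q hq1 hq2 hq3 η hη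
    have hηint : IsIntegral ℚ η := ⟨q, hq1, hη⟩
    have hfd : FiniteDimensional ℚ ℚ⟮η⟯ := IntermediateField.adjoin.finiteDimensional hηint
    have hρint : IsIntegral ℚ ρ := by
      have h3 : IsIntegral ℚ (⟨ρ, hρη⟩ : ℚ⟮η⟯) := IsIntegral.of_finite ℚ _
      exact h3.map (ℚ⟮η⟯).val
    -- degree at least three
    have hflip : ∀ i1 : Fin d, aeval ((∑ i, cc i - 2 * cc i1) ^ 2) (minpoly ℚ ρ) = 0 := by
      intro i1
      have h3 := hroot (fun i => if i = i1 then -1 else 1) (by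
        intro i
        by_cases h : i = i1
        · right; simp [h]
        · left; simp [h])
      have h4 : ∑ i, (((if i = i1 then -1 else 1 : ℤ)) : ℂ) * cc i = ∑ i, cc i - 2 * cc i1 := by
        have h5 : ∀ i, (((if i = i1 then -1 else 1 : ℤ)) : ℂ) * cc i =
            cc i - (if i = i1 then 2 * cc i else 0) := by
          intro i
          split_ifs with h
          · push_cast; ring
          · push_cast; ring
        rw [Finset.sum_congr rfl fun i _ => h5 i, Finset.sum_sub_distrib, Finset.sum_ite_eq']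
        simp
      rw [h4] at h3
      exact h3
    have hfull : aeval ((∑ i, cc i) ^ 2) (minpoly ℚ ρ) = 0 := by
      have h3 := hroot (fun _ => 1) (fun _ => Or.inl rfl)
      simpa using h3
    obtain ⟨hg1, hg2, hg3⟩ := hgen cc hcc
    have h3 : 3 ≤ Module.finrank ℚ ℚ⟮ρ⟯ :=
      three_roots ρ hρint _ _ _ hg1 hg2 hg3 hfull (hflip i0) (hflip i1)
    -- the field is in the finite set
    obtain ⟨v, hv1, hv2⟩ := hv
    have hmem : ∀ z ∈ ℚ⟮ρ⟯, (z : ℂ) ∈ K := by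
      apply field_mem
      obtain ⟨c0, hc0⟩ : ∃ c0 : Fin d → ℂ, ∀ i, c0 i =
        (g.leadingCoeff : ℂ) ^ d * wt d m (θ i) * v (θ i) := ⟨_, fun _ => rfl⟩
      have hc0u : ∀ i, c0 i ^ 2 = u i := by
        intro i
        rw [hc0, mul_pow, hv1 _ (hθ0 i), hu2, h10]
        ring
      have hmemK : (∑ i, c0 i) ^ 2 ∈ K := by
        have h4 := hv2 (C ((g.leadingCoeff : ℚ) ^ d) * wp d m)
        rw [← hθs fun r => aeval r (C ((g.leadingCoeff : ℚ) ^ d) * wp d m) * v r] at h4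
        have h5 : ∑ i, aeval (θ i) (C ((g.leadingCoeff : ℚ) ^ d) * wp d m) * v (θ i) =
            ∑ i, c0 i := by
          refine Finset.sum_congr rfl fun i _ => ?_
          rw [hc0, map_mul, wp_eval, aeval_C]
          simp
        rw [h5] at h4
        exact h4
      have hsign : ∀ i, ∃ e : ℤ, (e = 1 ∨ e = -1) ∧ (e : ℂ) * cc i = c0 i := by
        intro i
        have h4 : c0 i ^ 2 = cc i ^ 2 := by rw [hc0u, hcc]
        rcases sq_eq_sq_iff_eq_or_eq_neg.1 h4 with h5 | h5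
        · exact ⟨1, Or.inl rfl, by rw [h5]; simp⟩
        · exact ⟨-1, Or.inr rfl, by rw [h5]; simp⟩
      choose e he1 he2 using hsign
      have h4 := hroot e he1
      rw [Finset.sum_congr rfl fun i _ => he2 i] at h4
      exact mem_of_root K ρ hρint _ hmemK h4
    have hle : ℚ⟮ρ⟯ ≤ ℚ⟮η⟯ := by
      rw [IntermediateField.adjoin_simple_le_iff]
      exact hρη
    refine ⟨ℚ⟮ρ⟯, hmem, h3, η, hle, ?_⟩
    have h2HR : (1 : ℝ) ≤ ((2 * H : ℕ) : ℝ) := by exact_mod_cast h2H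
    refine hnear.mono (one_le_pow₀ hTR) ?_ (by positivity) (by omega)
    rw [hT]
    push_cast
    rw [← pow_mul]
    push_cast at h2HR
    exact pow_le_pow_right₀ h2HR (by omega)

theorem att_repel (M : ℕ) : ∃ M' : ℕ, ∀ (H : ℕ) (k : IntermediateField ℚ ℝ) (x₁ x₂ : ℤ), 1 ≤ H →
    Att M H k x₁ → Att M H k x₂ → ((2 * H : ℕ) : ℤ) ^ M' < |x₁| → |x₂| ≤ |x₁| ^ M' := by
  obtain ⟨K, hK⟩ := repel_near M
  refine ⟨M * K + 3 * K + 1, ?_⟩
  rintro H k x₁ x₂ hH ⟨h3, η₁, hle₁, hn₁⟩ ⟨-, η₂, hle₂, hn₂⟩ hbig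
  by_cases hM0 : M = 0
  · obtain ⟨N, r, hN, hr, hNM, h⟩ := hn₁
    omega
  have h2H : (2 : ℝ) ≤ ((2 * H : ℕ) : ℝ) := by exact_mod_cast (by omega : 2 ≤ 2 * H)
  have h2H1 : (1 : ℝ) ≤ ((2 * H : ℕ) : ℝ) := by linarith
  obtain ⟨l, hl⟩ : ∃ l : ℝ, l = ((2 * H : ℕ) : ℝ) := ⟨_, rfl⟩
  rw [← hl] at hn₁ hn₂ h2H h2H1
  have hbigR : l ^ (M * K + 3 * K + 1) < |(x₁ : ℝ)| := by
    rw [hl]; exact_mod_cast hbig
  have hlM : 2 ≤ l ^ M := h2H.trans (le_self_pow₀ h2H1 hM0)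
  have hfd₁ : FiniteDimensional ℚ ℚ⟮η₁⟯ := by
    obtain ⟨N, r, hN, hr, hNM, hrM, hnf, h⟩ := hn₁
    exact hnf.to_finiteDimensional
  have hfd₂ : FiniteDimensional ℚ ℚ⟮η₂⟯ := by
    obtain ⟨N, r, hN, hr, hNM, hrM, hnf, h⟩ := hn₂
    exact hnf.to_finiteDimensional
  have hdeg := Pool.Agent.W571.ESG.main_fld k ℚ⟮η₁⟯ ℚ⟮η₂⟯ hle₁ hle₂ hfd₁ hfd₂
  have h33 : 3 * Module.finrank ℚ ↥(ℚ⟮η₁⟯ ⊔ ℚ⟮η₂⟯)
      ≤ Module.finrank ℚ ℚ⟮η₁⟯ * Module.finrank ℚ ℚ⟮η₂⟯ := by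
    refine le_trans ?_ hdeg
    rw [mul_comm]
    exact Nat.mul_le_mul_left _ h3
  have hx1 : 1 ≤ |(x₁ : ℝ)| := (one_le_pow₀ h2H1).trans hbigR.le
  have hres := hK hlM hlM hn₁ (by
    rw [← pow_mul]
    calc l ^ (M * K) ≤ l ^ (M * K + 3 * K + 1) := pow_le_pow_right₀ h2H1 (by omega)
      _ < |(x₁ : ℝ)| := hbigR
      _ ≤ _ := by linarith) hn₂ h33
  have hlx : l ≤ |(x₁ : ℝ)| := le_trans (le_self_pow₀ h2H1 (by omega)) hbigR.le
  have hfin : |(x₂ : ℝ)| ≤ |(x₁ : ℝ)| ^ (M * K + 3 * K + 1) := by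
    calc |(x₂ : ℝ)| ≤ 1 + |(x₂ : ℝ)| := by linarith
      _ ≤ ((1 + |(x₁ : ℝ)|) * l ^ M) ^ K := hres
      _ ≤ ((|(x₁ : ℝ)| * |(x₁ : ℝ)|) * |(x₁ : ℝ)| ^ M) ^ K := by
          apply pow_le_pow_left₀ (by positivity)
          apply mul_le_mul _ (pow_le_pow_left₀ (by linarith) hlx _) (by positivity) (by positivity)
          have : 2 ≤ |(x₁ : ℝ)| := h2H.trans hlx
          nlinarith
      _ = |(x₁ : ℝ)| ^ ((M + 2) * K) := by
          rw [← pow_two, ← pow_add, ← pow_mul]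
          congr 1
          ring
      _ ≤ _ := pow_le_pow_right₀ hx1 (by
          have : (M + 2) * K = M * K + 2 * K := by ring
          omega)
  exact_mod_cast hfin

end Pool.Agent.J4H76.TW
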