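import Mathlib

/-!
# The Galois closure of the field of one class
-/

open Polynomial IntermediateField

set_option autoImplicit false

namespace Pool.Agent.J4H76.TW

lemma finrank_adjoin_le (n : ℕ) (s : Finset ℂ)
    (hs : ∀ x ∈ s, ∃ P : ℚ[X], P ≠ 0 ∧ P.natDegree ≤ n ∧ aeval x P = 0) :
    FiniteDimensional ℚ (adjoin ℚ (s : Set ℂ)) ∧
      Module.finrank ℚ (adjoin ℚ (s : Set ℂ)) ≤ n ^ s.card := by
  classical
  induction s using Finset.induction_on with
  | empty =>
    rw [Finset.coe_empty, IntermediateField.adjoin_empty, Finset.card_empty, pow_zero]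
    exact ⟨inferInstance, by rw [IntermediateField.finrank_bot]⟩
  | @insert a s ha ih =>
    obtain ⟨h1, h2⟩ := ih (fun x hx => hs x (Finset.mem_insert_of_mem hx))
    obtain ⟨P, hP0, hPn, hPa⟩ := hs a (Finset.mem_insert_self _ _)
    have hint : IsIntegral ℚ a := by
      rw [← isAlgebraic_iff_isIntegral]
      exact ⟨P, hP0, hPa⟩
    have h3 : adjoin ℚ ((insert a s : Finset ℂ) : Set ℂ) = ℚ⟮a⟯ ⊔ adjoin ℚ (s : Set ℂ) := by
      rw [Finset.coe_insert, Set.insert_eq, IntermediateField.adjoin_union]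
    have h4 : FiniteDimensional ℚ ℚ⟮a⟯ := IntermediateField.adjoin.finiteDimensional hint
    have h5 : Module.finrank ℚ ℚ⟮a⟯ ≤ n := by
      rw [IntermediateField.adjoin.finrank hint]
      exact (Polynomial.natDegree_le_of_dvd (minpoly.dvd ℚ a hPa) hP0).trans hPn
    rw [h3]
    refine ⟨IntermediateField.finiteDimensional_sup _ _, ?_⟩
    refine (IntermediateField.finrank_sup_le _ _).trans ?_
    rw [Finset.card_insert_of_notMem ha, pow_succ, mul_comm]
    exact Nat.mul_le_mul h2 h5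

/-- the splitting field of a polynomial of degree at most `6` -/
lemma split_field (P : ℚ[X]) (hP : P ≠ 0) (hd : P.natDegree ≤ 6) :
    FiniteDimensional ℚ (adjoin ℚ (P.rootSet ℂ)) ∧ IsGalois ℚ (adjoin ℚ (P.rootSet ℂ)) ∧
      Module.finrank ℚ (adjoin ℚ (P.rootSet ℂ)) ≤ 6 ^ 6 := by
  classical
  have hsplit : (P.map (algebraMap ℚ ℂ)).Splits := IsAlgClosed.splits _
  have h0 := IntermediateField.adjoin_rootSet_isSplittingField hsplit
  have h1' := @IsSplittingField.finiteDimensional ℚ _ _ _ _ P h0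
  have h2' := @Normal.of_isSplittingField ℚ _ _ _ _ P h0
  have h1 : FiniteDimensional ℚ (adjoin ℚ (P.rootSet ℂ)) := by convert h1'
  have h2 : Normal ℚ (adjoin ℚ (P.rootSet ℂ)) := by
    convert h2'
    exact Subsingleton.elim _ _
  refine ⟨h1, ⟨⟩, ?_⟩
  have h3 : ((P.map (algebraMap ℚ ℂ)).roots.toFinset : Set ℂ) = P.rootSet ℂ := by
    rw [Polynomial.rootSet, Polynomial.aroots]
  have h4 := finrank_adjoin_le 6 ((P.map (algebraMap ℚ ℂ)).roots.toFinset) (by
    intro x hx
    refine ⟨P, hP, hd, ?_⟩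
    rw [Multiset.mem_toFinset, mem_roots', IsRoot.def, eval_map_algebraMap] at hx
    exact hx.2)
  rw [h3] at h4
  refine h4.2.trans (Nat.pow_le_pow_right (by norm_num) ?_)
  calc ((P.map (algebraMap ℚ ℂ)).roots.toFinset).card
      ≤ Multiset.card (P.map (algebraMap ℚ ℂ)).roots := Multiset.toFinset_card_le _
    _ ≤ (P.map (algebraMap ℚ ℂ)).natDegree := card_roots' _
    _ = P.natDegree := natDegree_map _
    _ ≤ 6 := hd

lemma card_inter (F : Type) [Field F] [Algebra ℚ F] [FiniteDimensional ℚ F] [IsGalois ℚ F]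
    (S : Finset (IntermediateField ℚ F)) : S.card ≤ 2 ^ Module.finrank ℚ F := by
  classical
  have hfin : Fintype (F ≃ₐ[ℚ] F) := Fintype.ofFinite _
  have hinj : Set.InjOn (fun k : IntermediateField ℚ F => (Finset.univ : Finset (F ≃ₐ[ℚ] F)).filter
      (fun σ => σ ∈ k.fixingSubgroup)) S := by
    intro k _ k' _ h
    simp only at h
    have h1 : k.fixingSubgroup = k'.fixingSubgroup := by
      ext σ
      have h5 := congrArg (fun s : Finset (F ≃ₐ[ℚ] F) => σ ∈ s) h
      simp only [Finset.mem_filter, Finset.mem_univ, true_and] at h5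
      exact iff_of_eq h5
    rw [← IsGalois.fixedField_fixingSubgroup k, h1, IsGalois.fixedField_fixingSubgroup]
  have hcard := Finset.card_le_card_of_injOn (t := Finset.univ) _ (fun _ _ => Finset.mem_univ _) hinj
  refine hcard.trans ?_
  rw [Finset.card_univ, Fintype.card_finset]
  apply Nat.pow_le_pow_right (by norm_num)
  rw [← Nat.card_eq_fintype_card, IsGalois.card_aut_eq_finrank]

/-- the number of real subfields of a Galois field -/
lemma card_real_sub (K : IntermediateField ℚ ℂ) [hfd : FiniteDimensional ℚ K] [hgal : IsGalois ℚ K]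
    (S : Finset (IntermediateField ℚ ℝ)) (hS : ∀ k ∈ S, ∀ z ∈ k, (z : ℂ) ∈ K) :
    S.card ≤ 2 ^ Module.finrank ℚ K := by
  classical
  set φ : ℝ →ₐ[ℚ] ℂ := IsScalarTower.toAlgHom ℚ ℝ ℂ with hφ
  have hφx : ∀ x : ℝ, φ x = (x : ℂ) := fun x => rfl
  have key : ∀ k : IntermediateField ℚ ℝ, (∀ z ∈ k, (z : ℂ) ∈ K) → ∀ z : ℝ, z ∈ k ↔
      ∃ h : (z : ℂ) ∈ K, (⟨(z : ℂ), h⟩ : K) ∈ (k.map φ).comap K.val := by
    intro k hk z
    constructor
    · intro hz
      exact ⟨hk z hz, (⟨z, hz, rfl⟩ : (z : ℂ) ∈ k.map φ)⟩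
    · rintro ⟨h, h1⟩
      have h2 : (z : ℂ) ∈ k.map φ := h1
      obtain ⟨y, hy, hyz⟩ := h2
      have h3 : y = z := Complex.ofReal_injective hyz
      rw [← h3]
      exact hy
  have hgal' : @IsGalois ℚ _ K _ (IntermediateField.algebra' K) := by
    convert hgal
    exact Subsingleton.elim _ _
  have hfd' : @FiniteDimensional ℚ K _ _ (@Algebra.toModule ℚ K _ _ (IntermediateField.algebra' K)) := by
    exact hfd
  have h := @card_inter K _ (IntermediateField.algebra' K) hfd' hgal'
    (S.image fun k => (k.map φ).comap K.val)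
  rw [Finset.card_image_of_injOn (by
    intro k hk k' hk' h
    simp only at h
    ext z
    rw [key k (hS k hk) z, key k' (hS k' hk') z, h])] at h
  refine h.trans (le_of_eq ?_)
  congr 1

end Pool.Agent.J4H76.TW
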