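import Pool.Agent.J4H76.TW.A4
import Pool.Agent.J4H76.TW.A5
import Pool.Agent.J4H76.TW.A6

/-!
# The points of one class are attached to few fields
-/

open Polynomial IntermediateField

set_option autoImplicit false

namespace Pool.Agent.J4H76.TW

/-- the polynomial whose splitting field contains the field of the class -/
noncomputable def R6 (p q A B r : ℤ) : ℚ[X] :=
  (X ^ 2 + C (p : ℚ) * X + C (q : ℚ)) *
    (X ^ 4 - C ((r * (2 * A - p * B) : ℤ) : ℚ) * X ^ 2 +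
      C ((r ^ 2 * (A ^ 2 - p * A * B + q * B ^ 2) : ℤ) : ℚ))

lemma R6_monic (p q A B r : ℤ) : (R6 p q A B r).Monic := by
  unfold R6
  apply Monic.mul
  · monicity!
  · monicity!

lemma R6_deg (p q A B r : ℤ) : (R6 p q A B r).natDegree ≤ 6 := by
  unfold R6
  compute_degree!

/-- the field of the class -/
noncomputable def KK (p q A B r : ℤ) : IntermediateField ℚ ℂ := adjoin ℚ ((R6 p q A B r).rootSet ℂ)

lemma mem_KK {p q A B r : ℤ} {x : ℂ} (h : aeval x (R6 p q A B r) = 0) : x ∈ KK p q A B r := by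
  apply subset_adjoin
  rw [mem_rootSet]
  exact ⟨(R6_monic p q A B r).ne_zero, h⟩

/-- the cubic polynomial of the twist -/
noncomputable def gz (p q z : ℤ) : ℤ[X] := X ^ 3 + C (p * z) * X ^ 2 + C (q * z ^ 2) * X

lemma gz_deg (p q z : ℤ) : (gz p q z).natDegree = 3 := by
  unfold gz
  compute_degree!

lemma gz_coeff (p q z : ℤ) (H : ℤ) (h1 : 1 ≤ H) (h2 : |p * z| ≤ H) (h3 : |q * z ^ 2| ≤ H) (i : ℕ) :
    |(gz p q z).coeff i| ≤ H := by
  unfold gz
  rw [coeff_add, coeff_add, coeff_C_mul, coeff_C_mul, coeff_X_pow, coeff_X_pow, coeff_X]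
  rcases Nat.lt_or_ge i 4 with h | h
  · interval_cases i
    · simp; omega
    · simpa using h3
    · simpa using h2
    · simpa using h1
  · rw [if_neg (by omega), if_neg (by omega), if_neg (by omega)]
    simp
    omega

lemma gz_map (p q z : ℤ) : (gz p q z).map (Int.castRingHom ℚ) =
    X * (X ^ 2 + C ((p : ℚ) * z) * X + C ((q : ℚ) * z ^ 2)) := by
  unfold gz
  simp only [Polynomial.map_add, Polynomial.map_mul, Polynomial.map_pow, map_X, map_C]
  simp only [eq_intCast, Int.cast_mul, Int.cast_pow]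
  ring

lemma gz_sep {p q z : ℤ} (hd : p ^ 2 - 4 * q ≠ 0) (hq : q ≠ 0) (hz : z ≠ 0) :
    ((gz p q z).map (Int.castRingHom ℚ)).Separable := by
  rw [gz_map]
  have hz' : (z : ℚ) ≠ 0 := by exact_mod_cast hz
  have hq' : (q : ℚ) ≠ 0 := by exact_mod_cast hq
  have hd' : (p : ℚ) ^ 2 - 4 * q ≠ 0 := by exact_mod_cast hd
  have hdz : ((p : ℚ) ^ 2 - 4 * q) * z ^ 2 ≠ 0 := mul_ne_zero hd' (pow_ne_zero _ hz')
  have hqz : (q : ℚ) * z ^ 2 ≠ 0 := mul_ne_zero hq' (pow_ne_zero _ hz')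
  apply Separable.mul
  · exact separable_X
  · rw [separable_def]
    refine ⟨C (-4 / (((p : ℚ) ^ 2 - 4 * q) * z ^ 2)),
      C (1 / (((p : ℚ) ^ 2 - 4 * q) * z ^ 2)) * (2 * X + C ((p : ℚ) * z)), ?_⟩
    have h1 : derivative (X ^ 2 + C ((p : ℚ) * z) * X + C ((q : ℚ) * z ^ 2)) =
        2 * X + C ((p : ℚ) * z) := by
      have h6 : (C (2 : ℚ) : ℚ[X]) = 2 := map_ofNat C 2
      simp [derivative_pow, h6]
    rw [h1]
    obtain ⟨e, he⟩ : ∃ e : ℚ, e = 1 / (((p : ℚ) ^ 2 - 4 * q) * z ^ 2) := ⟨_, rfl⟩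
    have h2 : -4 / (((p : ℚ) ^ 2 - 4 * q) * z ^ 2) = -4 * e := by rw [he]; ring
    have h3 : e * (((p : ℚ) ^ 2 - 4 * q) * z ^ 2) = 1 := by rw [he]; field_simp
    rw [h2, ← he]
    have h5 : (C (4 : ℚ) : ℚ[X]) = 4 := map_ofNat C 4
    have h4 : C e * ((C (p : ℚ) ^ 2 - 4 * C (q : ℚ)) * C (z : ℚ) ^ 2) = (1 : ℚ[X]) := by
      have := congrArg C h3
      simpa [h5] using this
    simp only [map_mul, map_pow, map_neg]
    rw [h5]
    linear_combination h4
  · refine ⟨-C (1 / ((q : ℚ) * z ^ 2)) * (X + C ((p : ℚ) * z)), C (1 / ((q : ℚ) * z ^ 2)), ?_⟩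
    obtain ⟨e, he⟩ : ∃ e : ℚ, e = 1 / ((q : ℚ) * z ^ 2) := ⟨_, rfl⟩
    have h3 : e * ((q : ℚ) * z ^ 2) = 1 := by rw [he]; field_simp
    rw [← he]
    have h4 : C e * (C (q : ℚ) * C (z : ℚ) ^ 2) = (1 : ℚ[X]) := by
      have := congrArg C h3
      simpa using this
    simp only [map_mul, map_pow]
    linear_combination h4

lemma gz_root {p q z : ℤ} {θ θ' : ℂ} (hs : θ + θ' = -p) (hm : θ * θ' = q) (s : ℂ) :
    aeval s (gz p q z) = 0 ↔ s = 0 ∨ s = z * θ ∨ s = z * θ' := by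
  have h1 : aeval s (gz p q z) = s * ((s - z * θ) * (s - z * θ')) := by
    unfold gz
    simp only [map_add, map_mul, map_pow, aeval_X, aeval_C]
    simp only [algebraMap_int_eq, eq_intCast, Int.cast_mul, Int.cast_pow]
    linear_combination (s ^ 2 * z) * hs - (s * z ^ 2) * hm
  rw [h1, mul_eq_zero, mul_eq_zero, sub_eq_zero, sub_eq_zero]

/-- the interpolation polynomial with the value `a` at `0`, `b + c θ` at `z θ` -/
noncomputable def itp (p q z : ℤ) (a b c : ℚ) : ℚ[X] :=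
  C b + C (c / z) * X + C ((a - b) / (q * z ^ 2)) *
    (X ^ 2 + C ((p : ℚ) * z) * X + C ((q : ℚ) * z ^ 2))

lemma itp_zero {p q z : ℤ} (hq : q ≠ 0) (hz : z ≠ 0) (a b c : ℚ) :
    aeval (0 : ℂ) (itp p q z a b c) = (a : ℂ) := by
  have hz' : (z : ℂ) ≠ 0 := by exact_mod_cast hz
  have hq' : (q : ℂ) ≠ 0 := by exact_mod_cast hq
  unfold itp
  simp only [map_add, map_mul, map_pow, aeval_X, aeval_C]
  simp only [eq_ratCast]
  push_cast
  field_simp
  ring

lemma itp_root {p q z : ℤ} (hz : z ≠ 0) (a b c : ℚ) {θ : ℂ}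
    (hθ : θ ^ 2 + p * θ + q = 0) : aeval ((z : ℂ) * θ) (itp p q z a b c) = (b : ℂ) + c * θ := by
  have hz' : (z : ℂ) ≠ 0 := by exact_mod_cast hz
  unfold itp
  simp only [map_add, map_mul, map_pow, aeval_X, aeval_C]
  simp only [eq_ratCast]
  push_cast
  have h1 : ((z : ℂ) * θ) ^ 2 + p * z * (z * θ) + q * z ^ 2 = 0 := by
    linear_combination (z : ℂ) ^ 2 * hθ
  rw [h1, mul_zero, add_zero]
  field_simp

end Pool.Agent.J4H76.TW
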