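import Pool.Agent.J4H76.TW.A7

/-!
# The points of one class are attached to few fields, second part
-/

open Polynomial IntermediateField

set_option autoImplicit false

namespace Pool.Agent.J4H76.TW

lemma itp_dvd {p q A B r x z k l u : ℤ} (h : IsPt p q A B r x z k l u) (hq : q ≠ 0) :
    (gz p q z).map (Int.castRingHom ℚ) ∣
      (itp p q z (r * u : ℚ) k l) ^ 2 - (itp p q z (r : ℚ) A B) * (C (x : ℚ) - X) := by
  have hz : (z : ℚ) ≠ 0 := by
    have := h.hz
    exact_mod_cast (by omega : z ≠ 0)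
  have hq' : (q : ℚ) ≠ 0 := by exact_mod_cast hq
  have e1 : (x : ℚ) * A + q * z * B = k ^ 2 - q * l ^ 2 := by exact_mod_cast h.e1
  have e2 : (x : ℚ) * B - z * A + p * z * B = 2 * k * l - p * l ^ 2 := by exact_mod_cast h.e2
  have e3 : (x : ℚ) = r * u ^ 2 := by exact_mod_cast h.hx
  obtain ⟨w, hw⟩ : ∃ w : ℚ, w = (l / z) ^ 2 + B / z := ⟨_, rfl⟩
  obtain ⟨a1, ha1⟩ : ∃ a : ℚ, a = (r * u - k) / (q * z ^ 2) := ⟨_, rfl⟩
  obtain ⟨a2, ha2⟩ : ∃ a : ℚ, a = (r - A) / (q * z ^ 2) := ⟨_, rfl⟩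
  have h1 : w * (p * z) = 2 * k * (l / z) + A - B / z * x := by
    rw [hw]; field_simp; linear_combination e2
  have h2 : w * (q * z ^ 2) = k ^ 2 - A * x := by
    rw [hw]; field_simp; linear_combination e1
  have h3 : w + 2 * a1 * k + a1 ^ 2 * (q * z ^ 2) - a2 * x = 0 := by
    have h4 : (q * z ^ 2 : ℚ) * (w + 2 * a1 * k + a1 ^ 2 * (q * z ^ 2) - a2 * x) = 0 := by
      have h5 : (q * z ^ 2 : ℚ) * a1 = r * u - k := by rw [ha1]; field_simp
      have h6 : (q * z ^ 2 : ℚ) * a2 = r - A := by rw [ha2]; field_simp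
      linear_combination h2 + (2 * k + (q * z ^ 2 * a1 + (r * u - k))) * h5 - x * h6 - r * e3
    rcases mul_eq_zero.1 h4 with h5 | h5
    · exact absurd h5 (mul_ne_zero hq' (pow_ne_zero _ hz))
    · exact h5
  have H1 : C w * C ((p : ℚ) * z) = 2 * C (k : ℚ) * C ((l : ℚ) / z) + C (A : ℚ) -
      C ((B : ℚ) / z) * C (x : ℚ) := by
    rw [← C_mul, h1]
    simp only [map_add, map_sub, map_mul]
    rw [map_ofNat C 2]
  have H2 : C w * C ((q : ℚ) * z ^ 2) = C (k : ℚ) ^ 2 - C (A : ℚ) * C (x : ℚ) := by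
    rw [← C_mul, h2]
    simp only [map_sub, map_mul, map_pow]
  have H3 : C w + 2 * C a1 * C (k : ℚ) + C a1 ^ 2 * C ((q : ℚ) * z ^ 2) - C a2 * C (x : ℚ) = 0 := by
    have := congrArg C h3
    simp only [map_add, map_sub, map_mul, map_pow, map_zero, map_ofNat] at this ⊢
    exact this
  have H4 : C w = C ((l : ℚ) / z) ^ 2 + C ((B : ℚ) / z) := by
    rw [hw]
    simp only [map_add, map_pow]
  rw [gz_map]
  unfold itp
  rw [← ha1, ← ha2]
  refine ⟨2 * C a1 * C ((l : ℚ) / z) + C a1 ^ 2 * (X + C ((p : ℚ) * z)) + C a2, ?_⟩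
  linear_combination -H2 - X * H1 - X ^ 2 * H4 +
    (X ^ 2 + C ((p : ℚ) * z) * X + C ((q : ℚ) * z ^ 2)) * H3

lemma theta_mem {p q A B r : ℤ} {θ : ℂ} (hθ : θ ^ 2 + p * θ + q = 0) : θ ∈ KK p q A B r := by
  apply mem_KK
  unfold R6
  rw [map_mul]
  have : aeval θ (X ^ 2 + C (p : ℚ) * X + C (q : ℚ)) = 0 := by
    simp only [map_add, map_mul, map_pow, aeval_X, aeval_C]
    simp only [eq_ratCast, Rat.cast_intCast]
    exact hθ
  rw [this, zero_mul]

lemma prod_mem {p q A B r : ℤ} {θ θ' n : ℂ} (hs : θ + θ' = -p) (hm : θ * θ' = q)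
    (hn : n ^ 2 = r * (A + B * θ)) : n ∈ KK p q A B r := by
  apply mem_KK
  unfold R6
  rw [map_mul]
  have h1 : aeval n (X ^ 4 - C ((r * (2 * A - p * B) : ℤ) : ℚ) * X ^ 2 +
      C ((r ^ 2 * (A ^ 2 - p * A * B + q * B ^ 2) : ℤ) : ℚ)) = 0 := by
    simp only [map_add, map_sub, map_mul, map_pow, aeval_X, aeval_C]
    simp only [eq_ratCast]
    push_cast
    have h2 : n ^ 4 = (r * (A + B * θ)) ^ 2 := by rw [← hn]; ring
    rw [h2, hn]
    have hθ : θ ^ 2 + p * θ + q = 0 := by linear_combination θ * hs - hm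
    linear_combination ((r : ℂ) ^ 2 * B ^ 2) * hθ
  rw [h1, mul_zero]

theorem attach : ∃ M : ℕ, ∀ {p q A B r x z k l u : ℤ} (_ : IsPt p q A B r x z k l u)
    (_ : p ^ 2 - 4 * q ≠ 0) (_ : q ≠ 0) (_ : A ^ 2 - p * A * B + q * B ^ 2 ≠ 0) (H : ℕ)
    (_ : 1 ≤ H) (_ : |p * z| ≤ H) (_ : |q * z ^ 2| ≤ H) (_ : r ≤ H) (θ θ' : ℂ) (_ : θ + θ' = -p)
    (_ : θ * θ' = q) (_ : ‖(A : ℂ) + B * θ‖ ≤ H) (_ : ‖(A : ℂ) + B * θ'‖ ≤ H),
    |x| ≤ ((2 * H : ℕ) : ℤ) ^ M ∨
      ∃ k : IntermediateField ℚ ℝ, (∀ z ∈ k, (z : ℂ) ∈ KK p q A B r) ∧ Att M H k x := by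
  classical
  obtain ⟨M, hM⟩ := frameP 3 le_rfl
  refine ⟨M, ?_⟩
  intro p q A B r x z k l u h hd hq hN H hH hb1 hb2 hb3 θ θ' hs hm hn1 hn2
  have hz : z ≠ 0 := by have := h.hz; omega
  have hzC : (z : ℂ) ≠ 0 := by exact_mod_cast hz
  have hqC : (q : ℂ) ≠ 0 := by exact_mod_cast hq
  have hrC : (r : ℂ) ≠ 0 := by have := h.hr; exact_mod_cast (by omega : r ≠ 0)
  have hr1 : θ ^ 2 + p * θ + q = 0 := by linear_combination θ * hs - hm
  have hr2 : θ' ^ 2 + p * θ' + q = 0 := by linear_combination θ' * hs - hm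
  have hNC : (A + B * θ) * (A + B * θ') = ((A ^ 2 - p * A * B + q * B ^ 2 : ℤ) : ℂ) := by
    push_cast
    linear_combination (A * B : ℂ) * hs + (B : ℂ) ^ 2 * hm
  have hNC0 : ((A ^ 2 - p * A * B + q * B ^ 2 : ℤ) : ℂ) ≠ 0 := by exact_mod_cast hN
  have hδ : (A + B * θ : ℂ) ≠ 0 := fun h => hNC0 (by rw [← hNC, h, zero_mul])
  have hδ' : (A + B * θ' : ℂ) ≠ 0 := fun h => hNC0 (by rw [← hNC, h, mul_zero])
  have hne : θ ≠ θ' := by
    intro h
    apply hd
    have h3 : ((p : ℂ)) ^ 2 - 4 * q = 0 := by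
      rw [← h] at hs hm
      linear_combination (p - 2 * θ : ℂ) * hs + 4 * hm
    exact_mod_cast h3
  have hθ0 : θ ≠ 0 := by
    rintro rfl
    rw [zero_mul] at hm
    exact hqC hm.symm
  have hθ0' : θ' ≠ 0 := by
    rintro rfl
    rw [mul_zero] at hm
    exact hqC hm.symm
  -- the finite-dimensional Galois field
  obtain ⟨hfd, hgal, -⟩ := split_field (R6 p q A B r) (R6_monic p q A B r).ne_zero
    (R6_deg p q A B r)
  have hfd' : FiniteDimensional ℚ (KK p q A B r) := hfd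
  have hgal' : IsGalois ℚ (KK p q A B r) := hgal
  -- square roots
  obtain ⟨n0, hn0⟩ : ∃ n : ℂ, n ^ 2 = r := IsAlgClosed.exists_pow_nat_eq _ (by norm_num)
  obtain ⟨ν, hν⟩ : ∃ n : ℂ, n ^ 2 = A + B * θ := IsAlgClosed.exists_pow_nat_eq _ (by norm_num)
  obtain ⟨ν', hν'⟩ : ∃ n : ℂ, n ^ 2 = A + B * θ' := IsAlgClosed.exists_pow_nat_eq _ (by norm_num)
  have hzz : (z : ℂ) * θ ≠ 0 := mul_ne_zero hzC hθ0
  have hzz' : (z : ℂ) * θ' ≠ 0 := mul_ne_zero hzC hθ0'
  have hzne : (z : ℂ) * θ' ≠ z * θ := fun h => hne (mul_left_cancel₀ hzC h).symm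
  have hD0 := itp_zero (p := p) hq hz (r : ℚ) A B
  have hD1 := itp_root (p := p) (q := q) hz (r : ℚ) A B hr1
  have hD2 := itp_root (p := p) (q := q) hz (r : ℚ) A B hr2
  have hint : ∀ t : ℂ, t ^ 2 + p * t + q = 0 → IsIntegral ℤ t := by
    intro t ht
    refine ⟨X ^ 2 + C p * X + C q, by monicity!, ?_⟩
    simp only [eval₂_add, eval₂_mul, eval₂_pow, eval₂_X, eval₂_C]
    exact ht
  have hintZ : ∀ n : ℤ, IsIntegral ℤ (n : ℂ) := fun n => isIntegral_algebraMap (R := ℤ) (x := n)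
  refine hM (KK p q A B r) H (gz p q z) (itp p q z (r : ℚ) A B) x hH (gz_deg p q z)
    (gz_sep hd hq hz) (gz_coeff p q z H (by exact_mod_cast hH) hb1 hb2) ?_
    ⟨_, itp_dvd h hq⟩ ?_
  · intro s hsr
    rcases (gz_root hs hm s).1 hsr with rfl | rfl | rfl
    · rw [hD0]
      refine ⟨?_, ?_, ?_⟩
      · push_cast; exact hintZ r
      · push_cast; exact hrC
      · push_cast
        rw [Complex.norm_intCast, abs_of_pos (by exact_mod_cast h.hr)]
        exact_mod_cast hb3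
    · rw [hD1]
      push_cast
      exact ⟨(hintZ A).add ((hintZ B).mul (hint θ hr1)), hδ, hn1⟩
    · rw [hD2]
      push_cast
      exact ⟨(hintZ A).add ((hintZ B).mul (hint θ' hr2)), hδ', hn2⟩
  · refine ⟨fun s => if s = 0 then n0 else if s = z * θ then ν else ν', ?_, ?_⟩
    · intro s hsr
      rcases (gz_root hs hm s).1 hsr with rfl | rfl | rfl
      · simp only [if_true]
        rw [hD0, hn0]; push_cast; rfl
      · simp only [if_neg hzz, if_true]
        rw [hD1, hν]; push_cast; rfl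
      · simp only [if_neg hzz', if_neg hzne]
        rw [hD2, hν']; push_cast; rfl
    · intro P
      obtain ⟨T, hT⟩ : ∃ T : Finset ℂ, T =
        (((gz p q z).map (Int.castRingHom ℚ)).map (algebraMap ℚ ℂ)).roots.toFinset := ⟨_, rfl⟩
      have hset : T = {0, (z : ℂ) * θ, (z : ℂ) * θ'} := by
        ext s
        have hg0 : ((gz p q z).map (Int.castRingHom ℚ)).map (algebraMap ℚ ℂ) ≠ 0 := by
          have h1 : (gz p q z) ≠ 0 := by
            intro h0
            have := gz_deg p q z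
            rw [h0, natDegree_zero] at this
            omega
          rw [Polynomial.map_map]
          exact (Polynomial.map_ne_zero_iff (RingHom.injective_int _)).2 h1
        rw [hT, Multiset.mem_toFinset, mem_roots', IsRoot.def, Polynomial.map_map]
        have h2 : eval s ((gz p q z).map ((algebraMap ℚ ℂ).comp (Int.castRingHom ℚ))) =
            aeval s (gz p q z) := by
          rw [eval_map, aeval_def]
          congr 1
        rw [h2, gz_root hs hm s]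
        rw [Polynomial.map_map] at hg0
        simp [hg0]
      rw [← hT, hset]
      rw [Finset.sum_insert (by simp [hzz.symm, hzz'.symm]),
        Finset.sum_insert (by simp [hzne.symm]), Finset.sum_singleton]
      simp only [if_true, if_neg hzz, if_neg hzz', if_neg hzne]
      obtain ⟨K, hK⟩ : ∃ K : IntermediateField ℚ ℂ, K = KK p q A B r := ⟨_, rfl⟩
      have hcoe : ∀ n : ℤ, (n : ℂ) ∈ K := fun n => by exact_mod_cast intCast_mem K n
      have hθK : θ ∈ K := hK ▸ theta_mem hr1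
      have hθK' : θ' ∈ K := hK ▸ theta_mem hr2
      have hval : ∀ s ∈ K, aeval s P ∈ K := by
        intro s hs
        have h1 : aeval s P = K.val (aeval (⟨s, hs⟩ : K) P) := by
          rw [← aeval_algHom_apply]
          rfl
        rw [h1]
        exact (aeval (⟨s, hs⟩ : K) P).2
      have ha : aeval (0 : ℂ) P ∈ K := hval _ (zero_mem K)
      have hb : aeval ((z : ℂ) * θ) P ∈ K := hval _ (mul_mem (hcoe z) hθK)
      have hc : aeval ((z : ℂ) * θ') P ∈ K := hval _ (mul_mem (hcoe z) hθK')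
      obtain ⟨a, haa⟩ : ∃ a, a = aeval (0 : ℂ) P := ⟨_, rfl⟩
      obtain ⟨b, hbb⟩ : ∃ b, b = aeval ((z : ℂ) * θ) P := ⟨_, rfl⟩
      obtain ⟨c, hcc⟩ : ∃ c, c = aeval ((z : ℂ) * θ') P := ⟨_, rfl⟩
      rw [← haa, ← hbb, ← hcc]
      rw [← haa] at ha
      rw [← hbb] at hb
      rw [← hcc] at hc
      have hp1 : n0 * ν ∈ K := hK ▸ prod_mem hs hm (by rw [mul_pow, hn0, hν])
      have hp2 : n0 * ν' ∈ K := hK ▸ prod_mem (θ := θ') (θ' := θ) (by rw [add_comm, hs])
        (by rw [mul_comm, hm]) (by rw [mul_pow, hn0, hν'])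
      have hrK : (r : ℂ) ∈ K := hcoe r
      have hp3 : ν * ν' ∈ K := by
        have h1 : ν * ν' = (n0 * ν) * (n0 * ν') / r := by
          rw [eq_div_iff hrC, ← hn0]
          ring
        rw [h1]
        exact div_mem (mul_mem hp1 hp2) hrK
      have hν2 : (A + B * θ : ℂ) ∈ K := add_mem (hcoe A) (mul_mem (hcoe B) hθK)
      have hν2' : (A + B * θ' : ℂ) ∈ K := add_mem (hcoe A) (mul_mem (hcoe B) hθK')
      have hexp : (a * n0 + (b * ν + c * ν')) ^ 2 = a ^ 2 * r + b ^ 2 * (A + B * θ) +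
          c ^ 2 * (A + B * θ') + (a * b) * (n0 * ν) + (a * b) * (n0 * ν) +
          ((a * c) * (n0 * ν') + (a * c) * (n0 * ν')) +
          ((b * c) * (ν * ν') + (b * c) * (ν * ν')) := by
        rw [← hn0, ← hν, ← hν']
        ring
      rw [← hK, hexp]
      exact add_mem (add_mem (add_mem (add_mem (add_mem (add_mem (mul_mem (pow_mem ha 2) hrK)
        (mul_mem (pow_mem hb 2) hν2)) (mul_mem (pow_mem hc 2) hν2'))
        (mul_mem (mul_mem ha hb) hp1)) (mul_mem (mul_mem ha hb) hp1))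
        (add_mem (mul_mem (mul_mem ha hc) hp2) (mul_mem (mul_mem ha hc) hp2)))
        (add_mem (mul_mem (mul_mem hb hc) hp3) (mul_mem (mul_mem hb hc) hp3))

end Pool.Agent.J4H76.TW
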