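import Pool.Agent.J4H76.TW.A1
import Pool.Agent.J4H76.TW.A2
import Pool.Agent.J4H76.TW.A8

/-!
# The number of large points of one class is bounded
-/

open Polynomial IntermediateField

set_option autoImplicit false

namespace Pool.Agent.J4H76.TW

lemma chain (n : ℕ) : ∀ T : Finset (ℤ × ℤ), T.card = n + 1 → (∀ P ∈ T, 1 ≤ P.1) →
    (∀ P ∈ T, ∀ P' ∈ T, P.1 ≤ P'.1 → P'.1 ≤ P.1 ^ 2 → P = P') →
    ∃ P ∈ T, ∃ P' ∈ T, P.1 ^ (2 ^ n) ≤ P'.1 := by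
  classical
  induction n with
  | zero =>
    intro T hT _ _
    obtain ⟨P, hP⟩ := Finset.card_pos.1 (by omega : 0 < T.card)
    exact ⟨P, hP, P, hP, by simp⟩
  | succ n ih =>
    intro T hT h1 h2
    obtain ⟨P0, hP0, hmin⟩ := T.exists_min_image (fun P => P.1) (Finset.card_pos.1 (by omega))
    obtain ⟨P1, hP1, Pm, hPm, h3⟩ := ih (T.erase P0)
      (by rw [Finset.card_erase_of_mem hP0]; omega)
      (fun P hP => h1 P (Finset.mem_of_mem_erase hP))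
      (fun P hP P' hP' => h2 P (Finset.mem_of_mem_erase hP) P' (Finset.mem_of_mem_erase hP'))
    refine ⟨P0, hP0, Pm, Finset.mem_of_mem_erase hPm, ?_⟩
    have h4 : P0.1 ^ 2 ≤ P1.1 := by
      by_contra hcon
      push Not at hcon
      have := h2 P0 hP0 P1 (Finset.mem_of_mem_erase hP1)
        (hmin _ (Finset.mem_of_mem_erase hP1)) hcon.le
      exact Finset.ne_of_mem_erase hP1 this.symm
    calc P0.1 ^ (2 ^ (n + 1)) = (P0.1 ^ 2) ^ (2 ^ n) := by rw [← pow_mul, pow_succ, mul_comm]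
      _ ≤ P1.1 ^ (2 ^ n) := pow_le_pow_left₀ (by positivity) h4 _
      _ ≤ _ := h3

lemma chain_card (M : ℕ) (T : Finset (ℤ × ℤ)) (h1 : ∀ P ∈ T, 2 ≤ P.1)
    (h2 : ∀ P ∈ T, ∀ P' ∈ T, P.1 ≤ P'.1 → P'.1 ≤ P.1 ^ 2 → P = P')
    (h3 : ∀ P ∈ T, ∀ P' ∈ T, P'.1 ≤ P.1 ^ M) : T.card ≤ M := by
  by_contra hcon
  push Not at hcon
  obtain ⟨n, hn⟩ : ∃ n, T.card = n + 1 := ⟨T.card - 1, by omega⟩
  obtain ⟨P, hP, P', hP', h⟩ := chain n T hn (fun P hP => by have := h1 P hP; omega) h2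
  have h4 := h.trans (h3 P hP P' hP')
  have h5 : 2 ^ n ≤ M := by
    by_contra hc
    push Not at hc
    have h6 : P.1 ^ M < P.1 ^ (2 ^ n) := pow_lt_pow_right₀ (by have := h1 P hP; omega) hc
    omega
  have h6 : n + 1 ≤ 2 ^ n := Nat.lt_two_pow_self
  omega

/-- the sign of a Boolean -/
def sg (b : Bool) : ℝ := if b then 1 else -1

lemma sg_or (b : Bool) : sg b = 1 ∨ sg b = -1 := by
  unfold sg
  cases b
  · right; simp
  · left; simp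

theorem class_card : ∃ M F : ℕ, 3 ≤ M ∧ ∀ {p q A B r N : ℤ} (_ : p ^ 2 - 4 * q ≠ 0) (_ : q ≠ 0)
    (_ : A ^ 2 - p * A * B + q * B ^ 2 ≠ 0) (H : ℕ)
    (_ : 1 ≤ H) (_ : |p| * N ≤ H) (_ : |q| * N ^ 2 ≤ H) (_ : r ≤ H) (θ θ' : ℂ) (_ : θ + θ' = -p)
    (_ : θ * θ' = q) (_ : ‖(A : ℂ) + B * θ‖ ≤ H) (_ : ‖(A : ℂ) + B * θ'‖ ≤ H) (Θ : ℝ)
    (_ : ‖θ‖ ≤ Θ) (_ : ‖θ'‖ ≤ Θ)
    (_ : ∀ x : ℤ, ((2 * H : ℕ) : ℤ) ^ M < x →
      6 * Θ * N * (1 + 2 * Θ) ≤ x ∧ 12 * Θ * N * |((p ^ 2 - 4 * q : ℤ) : ℝ)| ≤ x ∧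
      4 * |((p ^ 2 - 4 * q : ℤ) : ℝ)| * (N : ℝ) ^ 2 ≤ x ∧
      4 * |(q : ℝ)| * (N : ℝ) ^ 2 + 4 * |(p : ℝ)| * N ≤ x ∧
      (|((A ^ 2 - p * A * B + q * B ^ 2 : ℤ) : ℝ)| * |(q : ℝ)| * (N : ℝ) ^ 2) ^ 2 ≤ x)
    (S : Finset (ℤ × ℤ)) (_ : ∀ P ∈ S, P.2 ≤ N ∧ ((2 * H : ℕ) : ℤ) ^ M < P.1 ∧
      ∃ k l u : ℤ, IsPt p q A B r P.1 P.2 k l u), S.card ≤ F := by
  classical
  obtain ⟨M, hM⟩ := attach
  obtain ⟨M', hM'⟩ := att_repel M
  refine ⟨M + M' + 3, M' * (2 ^ (6 ^ 6) * 4), by omega, ?_⟩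
  obtain ⟨e6, he6⟩ : ∃ e : ℕ, e = 6 ^ 6 := ⟨_, rfl⟩
  rw [← he6]
  obtain ⟨F, hF⟩ : ∃ F : ℕ, F = 2 ^ e6 := ⟨_, rfl⟩
  rw [← hF]
  intro p q A B r N hd hq hN H hH hb1 hb2 hb3 θ θ' hs hm hn1 hn2 Θ hΘ hΘ' hbig S hS
  have hr1 : θ ^ 2 + p * θ + q = 0 := by linear_combination θ * hs - hm
  have hr2 : θ' ^ 2 + p * θ' + q = 0 := by linear_combination θ' * hs - hm
  have hNC : (A + B * θ) * (A + B * θ') = ((A ^ 2 - p * A * B + q * B ^ 2 : ℤ) : ℂ) := by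
    push_cast
    linear_combination (A * B : ℂ) * hs + (B : ℂ) ^ 2 * hm
  have hNC0 : ((A ^ 2 - p * A * B + q * B ^ 2 : ℤ) : ℂ) ≠ 0 := by exact_mod_cast hN
  have hδ : (A + B * θ : ℂ) ≠ 0 := fun h => hNC0 (by rw [← hNC, h, zero_mul])
  have hδ' : (A + B * θ' : ℂ) ≠ 0 := fun h => hNC0 (by rw [← hNC, h, mul_zero])
  obtain ⟨ν, hν⟩ : ∃ n : ℂ, n ^ 2 = A + B * θ := IsAlgClosed.exists_pow_nat_eq _ (by norm_num)
  obtain ⟨ν', hν'⟩ : ∃ n : ℂ, n ^ 2 = A + B * θ' := IsAlgClosed.exists_pow_nat_eq _ (by norm_num)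
  have hν0 : ν ≠ 0 := by rintro rfl; exact hδ (by rw [← hν]; ring)
  have hν0' : ν' ≠ 0 := by rintro rfl; exact hδ' (by rw [← hν']; ring)
  have h2H : (1 : ℤ) ≤ ((2 * H : ℕ) : ℤ) := by exact_mod_cast (by omega : 1 ≤ 2 * H)
  have hpw : ∀ n, n ≤ M + M' + 3 → ((2 * H : ℕ) : ℤ) ^ n ≤ ((2 * H : ℕ) : ℤ) ^ (M + M' + 3) :=
    fun n hn => pow_le_pow_right₀ h2H hn
  have key : ∀ P ∈ S, ∃ L : IntermediateField ℚ ℝ × Bool × Bool,
      (∀ z ∈ L.1, (z : ℂ) ∈ KK p q A B r) ∧ Att M H L.1 P.1 ∧ ∃ k l u : ℤ,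
        IsPt p q A B r P.1 P.2 k l u ∧
        ‖((sg L.2.1 : ℝ) : ℂ) * tau θ ν P.1 k l - 1‖ ≤ Θ * N / P.1 ∧
        ‖((sg L.2.2 : ℝ) : ℂ) * tau θ' ν' P.1 k l - 1‖ ≤ Θ * N / P.1 := by
    intro P hP
    obtain ⟨hPN, hPx, k, l, u, hpt⟩ := hS P hP
    have hz1 := hpt.hz
    have hpz : |p * P.2| ≤ H := by
      rw [abs_mul, abs_of_pos (by omega : 0 < P.2)]
      exact (mul_le_mul_of_nonneg_left hPN (abs_nonneg _)).trans hb1
    have hqz : |q * P.2 ^ 2| ≤ H := by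
      rw [abs_mul, abs_of_nonneg (sq_nonneg P.2)]
      exact (mul_le_mul_of_nonneg_left (pow_le_pow_left₀ (by omega) hPN 2) (abs_nonneg _)).trans hb2
    have hzR : (P.2 : ℝ) ≤ N := by exact_mod_cast hPN
    rcases hM hpt hd hq hN H hH hpz hqz hb3 θ θ' hs hm hn1 hn2 with h | ⟨k0, hk0, hatt⟩
    · exfalso
      have h1 := hpw M (by omega)
      have h2 := le_abs_self P.1
      omega
    · have t1 := tau_sq hpt θ ν hr1 hν hν0 hΘ hzR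
      have t2 := tau_sq hpt θ' ν' hr2 hν' hν0' hΘ' hzR
      have g1 : ∃ b : Bool, ‖((sg b : ℝ) : ℂ) * tau θ ν P.1 k l - 1‖ ≤ Θ * N / P.1 := by
        rcases sgn _ _ t1 with h | h
        · exact ⟨true, by simpa [sg] using h⟩
        · exact ⟨false, by simpa [sg] using h⟩
      have g2 : ∃ b : Bool, ‖((sg b : ℝ) : ℂ) * tau θ' ν' P.1 k l - 1‖ ≤ Θ * N / P.1 := by
        rcases sgn _ _ t2 with h | h
        · exact ⟨true, by simpa [sg] using h⟩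
        · exact ⟨false, by simpa [sg] using h⟩
      obtain ⟨b1, g1⟩ := g1
      obtain ⟨b2, g2⟩ := g2
      exact ⟨(k0, b1, b2), hk0, hatt, k, l, u, hpt, g1, g2⟩
  choose! L hL1 hL2 hL3 using key
  -- the finite-dimensional Galois field
  obtain ⟨hfd, hgal, hfr⟩ := split_field (R6 p q A B r) (R6_monic p q A B r).ne_zero
    (R6_deg p q A B r)
  rw [← he6] at hfr
  have hfd' : FiniteDimensional ℚ (KK p q A B r) := hfd
  have hgal' : IsGalois ℚ (KK p q A B r) := hgal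
  have hfr' : Module.finrank ℚ (KK p q A B r) ≤ e6 := hfr
  have hcard1 : (S.image fun P => (L P).1).card ≤ F := by
    rw [hF]
    refine (card_real_sub (KK p q A B r) _ ?_).trans (Nat.pow_le_pow_right (by norm_num) hfr')
    intro k hk
    obtain ⟨P, hP, rfl⟩ := Finset.mem_image.1 hk
    exact hL1 P hP
  have hcard2 : (S.image L).card ≤ F * 4 := by
    have hsub : S.image L ⊆ (S.image fun P => (L P).1) ×ˢ (Finset.univ : Finset (Bool × Bool)) := by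
      intro a ha
      obtain ⟨P, hP, rfl⟩ := Finset.mem_image.1 ha
      exact Finset.mem_product.2 ⟨Finset.mem_image.2 ⟨P, hP, rfl⟩, Finset.mem_univ _⟩
    refine (Finset.card_le_card hsub).trans ?_
    rw [Finset.card_product]
    have : (Finset.univ : Finset (Bool × Bool)).card = 4 := by decide
    rw [this]
    exact Nat.mul_le_mul_right _ hcard1
  refine (Finset.card_le_mul_card_image (f := L) S M' ?_).trans (Nat.mul_le_mul_left _ hcard2)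
  intro a _
  apply chain_card M'
  · intro P hP
    rw [Finset.mem_filter] at hP
    obtain ⟨-, hPx, -⟩ := hS P hP.1
    have h1 := hpw 1 (by omega)
    rw [pow_one] at h1
    omega
  · intro P hP P' hP' h1 h2
    rw [Finset.mem_filter] at hP hP'
    obtain ⟨hPN, hPx, -⟩ := hS P hP.1
    obtain ⟨hPN', hPx', -⟩ := hS P' hP'.1
    obtain ⟨k, l, u, hpt, g1, g2⟩ := hL3 P hP.1
    obtain ⟨k', l', u', hpt', g1', g2'⟩ := hL3 P' hP'.1
    rw [hP.2] at g1 g2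
    rw [hP'.2] at g1' g2'
    obtain ⟨b1, b2, b3, b4, b5⟩ := hbig P.1 hPx
    have hd1 : 1 ≤ |((p ^ 2 - 4 * q : ℤ) : ℝ)| := by
      have : 1 ≤ |p ^ 2 - 4 * q| := Int.one_le_abs hd
      exact_mod_cast this
    have hres := gap hq hN hpt hpt' hs hm hν hν' (by push_cast; ring) hd1 hΘ hΘ'
      (by exact_mod_cast hPN) (by exact_mod_cast hPN') (sg_or a.2.1) (sg_or a.2.2) g1 g1' g2 g2'
      h1 h2 b1 b2 b3 b4 b5
    exact Prod.ext hres.1 hres.2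
  · intro P hP P' hP'
    rw [Finset.mem_filter] at hP hP'
    obtain ⟨-, hPx, -⟩ := hS P hP.1
    obtain ⟨-, hPx', -⟩ := hS P' hP'.1
    have h1 := hL2 P hP.1
    have h2 := hL2 P' hP'.1
    rw [hP.2] at h1
    rw [hP'.2] at h2
    have h3 := hM' H a.1 P.1 P'.1 hH h1 h2 (by
      have h4 := hpw M' (by omega)
      have h5 := le_abs_self P.1
      omega)
    have hP0 : 0 ≤ P.1 := by
      have h4 : (0 : ℤ) ≤ ((2 * H : ℕ) : ℤ) ^ (M + M' + 3) := by positivity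
      omega
    rw [abs_of_nonneg hP0] at h3
    exact (le_abs_self _).trans h3

end Pool.Agent.J4H76.TW
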