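import Pool.Agent.J4H76.TW.A1

/-!
# The descent for the twists
-/

set_option autoImplicit false

namespace Pool.Agent.J4H76.TW

lemma sqf_one_of_sq {a b w : ℕ} (ha : Squarefree a) (hab : a.Coprime b) (h : a * b = w ^ 2) :
    a = 1 := by
  by_contra hne
  obtain ⟨l, hl, hla⟩ := Nat.exists_prime_and_dvd hne
  have h1 : l ∣ w := hl.dvd_of_dvd_pow (h ▸ hla.mul_right b)
  have h2 : l ^ 2 ∣ a * b := by rw [h]; exact pow_dvd_pow_of_dvd h1 2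
  have h3 : (l ^ 2).Coprime b := (hab.coprime_dvd_left hla).pow_left 2
  have h4 := h3.dvd_of_dvd_mul_right h2
  rw [pow_two] at h4
  exact hl.one_lt.ne' (Nat.isUnit_iff.1 (ha l h4))

lemma cancel_sq {a b w : ℕ} (hb : 0 < b) (h : a * b ^ 2 = w ^ 2) : ∃ w' : ℕ, a = w' ^ 2 := by
  have h1 : b ∣ w := by
    rw [← Nat.pow_dvd_pow_iff (n := 2) (by norm_num), ← h]
    exact dvd_mul_left _ _
  obtain ⟨c, rfl⟩ := h1
  refine ⟨c, ?_⟩
  have h2 : a * b ^ 2 = c ^ 2 * b ^ 2 := by rw [h]; ring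
  exact Nat.eq_of_mul_eq_mul_right (pow_pos hb 2) h2

lemma sqf_eq {a b w : ℕ} (ha : Squarefree a) (hb : Squarefree b) (h : a * b = w ^ 2) : a = b := by
  obtain ⟨a', b', hco, h1, h2⟩ := Nat.exists_coprime a b
  obtain ⟨e, he⟩ : ∃ e, e = Nat.gcd a b := ⟨_, rfl⟩
  rw [← he] at h1 h2
  have ha0 : a ≠ 0 := ha.ne_zero
  have he0 : 0 < e := by
    rcases Nat.eq_zero_or_pos e with h0 | h0
    · rw [h0, mul_zero] at h1; exact absurd h1 ha0
    · exact h0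
  obtain ⟨w', hw'⟩ := cancel_sq (a := a' * b') he0 (w := w) (by rw [← h, h1, h2]; ring)
  have ha' : Squarefree a' := ha.squarefree_of_dvd ⟨e, h1⟩
  have hb' : Squarefree b' := hb.squarefree_of_dvd ⟨e, h2⟩
  have h3 := sqf_one_of_sq ha' hco hw'
  have h4 := sqf_one_of_sq hb' hco.symm (by rw [mul_comm]; exact hw')
  rw [h1, h2, h3, h4]

/-- **The descent.** -/
theorem descent {p q X y : ℤ} {D : ℕ} (hD : 1 ≤ D) (hX : 1 ≤ X)
    (hQ : 0 < X ^ 2 + p * D * X + q * D ^ 2)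
    (h : y ^ 2 = X * (X ^ 2 + p * D * X + q * D ^ 2)) :
    ∃ c r s h z : ℕ, ∃ x u v : ℤ, D = r * s * h ^ 2 * z ∧ 1 ≤ z ∧ 1 ≤ h ∧ (c : ℤ) ∣ q ∧
      Squarefree (c * r) ∧ Squarefree (c * s) ∧ Squarefree (r * s) ∧ 0 < u ∧ 0 < v ∧
      x = (c * r : ℕ) * u ^ 2 ∧ QQ p q x z = (c * s : ℕ) * v ^ 2 ∧ IsCoprime x z ∧ X ≤ x * D ∧
      X = (r * s * h ^ 2 : ℕ) * x := by
  obtain ⟨g, x, z, hg, hgcd, hXg, hDg⟩ := Int.exists_gcd_one' (m := X) (n := (D : ℤ)) (by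
    rw [Int.gcd_pos_iff]; left; omega)
  have hgZ : (0 : ℤ) < g := by exact_mod_cast hg
  have hx0 : 0 < x := by
    have h1 : 0 < x * g := by omega
    exact (mul_pos_iff_of_pos_right hgZ).1 h1
  have hz0 : 0 < z := by
    have h1 : 0 < z * g := by omega
    exact (mul_pos_iff_of_pos_right hgZ).1 h1
  have hco : IsCoprime x z := Int.isCoprime_iff_gcd_eq_one.2 hgcd
  have hQg : X ^ 2 + p * D * X + q * D ^ 2 = g ^ 2 * QQ p q x z := by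
    rw [hXg, hDg]; unfold QQ; ring
  rw [hQg] at hQ h
  have hQ0 : 0 < QQ p q x z := (mul_pos_iff_of_pos_left (by positivity)).1 hQ
  obtain ⟨xn, rfl⟩ : ∃ n : ℕ, x = n := ⟨x.toNat, by omega⟩
  obtain ⟨zn, rfl⟩ : ∃ n : ℕ, z = n := ⟨z.toNat, by omega⟩
  obtain ⟨Qn, hQn⟩ : ∃ n : ℕ, QQ p q xn zn = n := ⟨(QQ p q xn zn).toNat, by omega⟩
  have hxn : 0 < xn := by exact_mod_cast hx0
  have hzn : 0 < zn := by exact_mod_cast hz0
  have hQn0 : 0 < Qn := by rw [hQn] at hQ0; exact_mod_cast hQ0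
  obtain ⟨r1, u, hr1, hu, hxu, hr1s⟩ := Nat.sq_mul_squarefree_of_pos hxn
  obtain ⟨s1, v, hs1, hv, hQv, hs1s⟩ := Nat.sq_mul_squarefree_of_pos hQn0
  obtain ⟨g0, h0, hg0, hh0, hgh, hg0s⟩ := Nat.sq_mul_squarefree_of_pos hg
  have hyn : y.natAbs ^ 2 = (g0 * r1 * s1) * (g0 * h0 ^ 3 * u * v) ^ 2 := by
    have h1 : (y.natAbs : ℤ) ^ 2 = ((g0 * r1 * s1) * (g0 * h0 ^ 3 * u * v) ^ 2 : ℕ) := by
      rw [Int.natAbs_sq, h, hXg, hQn, ← hgh, ← hxu, ← hQv]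
      push_cast
      ring
    exact_mod_cast h1
  obtain ⟨w, hw⟩ := cancel_sq (by positivity) hyn.symm
  obtain ⟨r, s, hrs, hr, hs⟩ := Nat.exists_coprime r1 s1
  obtain ⟨c, hc⟩ : ∃ c, c = Nat.gcd r1 s1 := ⟨_, rfl⟩
  rw [← hc] at hr hs
  have hc0 : 0 < c := by
    rw [hc]; exact Nat.gcd_pos_of_pos_left _ hr1
  obtain ⟨w', hw'⟩ := cancel_sq (a := g0 * (r * s)) hc0 (w := w) (by rw [← hw, hr, hs]; ring)
  have hrsq : Squarefree r := hr1s.squarefree_of_dvd ⟨c, hr⟩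
  have hssq : Squarefree s := hs1s.squarefree_of_dvd ⟨c, hs⟩
  have hrssq : Squarefree (r * s) := (Nat.squarefree_mul hrs).2 ⟨hrsq, hssq⟩
  have hg0rs : g0 = r * s := sqf_eq hg0s hrssq hw'
  have hDn : D = zn * g := by exact_mod_cast hDg
  have hcr : c * r = r1 := by rw [hr]; ring
  have hcs : c * s = s1 := by rw [hs]; ring
  refine ⟨c, r, s, h0, zn, xn, u, v, ?_, hzn, hh0, ?_, ?_, ?_, hrssq, by exact_mod_cast hu,
    by exact_mod_cast hv, ?_, ?_, hco, ?_, ?_⟩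
  · rw [hDn, ← hgh, hg0rs]; ring
  · have h1 : (c : ℤ) ∣ xn := by
      rw [← hxu, ← hcr]
      push_cast
      exact ⟨u ^ 2 * r, by ring⟩
    have h2 : (c : ℤ) ∣ QQ p q xn zn := by
      rw [hQn, ← hQv, ← hcs]
      push_cast
      exact ⟨v ^ 2 * s, by ring⟩
    have h3 : IsCoprime (c : ℤ) ((zn : ℤ) ^ 2) := (hco.of_isCoprime_of_dvd_left h1).pow_right
    have h4 : (c : ℤ) ∣ (zn : ℤ) ^ 2 * q := by
      have : (zn : ℤ) ^ 2 * q = QQ p q xn zn - xn * (xn + p * zn) := by unfold QQ; ring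
      rw [this]
      exact dvd_sub h2 (h1.mul_right _)
    exact h3.dvd_of_dvd_mul_left h4
  · rw [hcr]; exact hr1s
  · rw [hcs]; exact hs1s
  · rw [hcr, ← hxu]; push_cast; ring
  · rw [hQn, hcs, ← hQv]; push_cast; ring
  · rw [hXg]
    apply mul_le_mul_of_nonneg_left _ (by positivity)
    rw [hDn]
    push_cast
    have : (1 : ℤ) ≤ zn := by exact_mod_cast hzn
    nlinarith
  · rw [hXg, ← hgh, hg0rs]
    push_cast
    ring

end Pool.Agent.J4H76.TW
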