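import Pool.Agent.J4H76.TW.B1
import Pool.Agent.J4H76.TW.StmC

/-!
# The local conditions for the classes
-/

set_option autoImplicit false

namespace Pool.Agent.J4H76.TW

lemma jac_one {a b w : ℤ} {l : ℕ} (hl : l.Prime) (h : (l : ℤ) ∣ a * b ^ 2 - w ^ 2)
    (hw : ¬ (l : ℤ) ∣ w) : jacobiSym a l = 1 := by
  have hlZ : Prime (l : ℤ) := Nat.prime_iff_prime_int.1 hl
  have hcop : ∀ n : ℤ, ¬ (l : ℤ) ∣ n → n.gcd l = 1 := by
    intro n hn
    rw [← Int.isCoprime_iff_gcd_eq_one]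
    exact ((Prime.coprime_iff_not_dvd hlZ).2 hn).symm
  have hb : ¬ (l : ℤ) ∣ b := by
    intro hb
    apply hw
    have h1 : (l : ℤ) ∣ w ^ 2 := by
      have : w ^ 2 = a * b * b - (a * b ^ 2 - w ^ 2) := by ring
      rw [this]
      exact dvd_sub (hb.mul_left _) h
    exact hlZ.dvd_of_dvd_pow h1
  have h1 : jacobiSym (a * b ^ 2) l = jacobiSym (w ^ 2) l :=
    jacobiSym.mod_left' (Int.emod_eq_emod_iff_emod_sub_eq_zero.2 (Int.emod_eq_zero_of_dvd h))
  rw [jacobiSym.sq_one' (hcop w hw), jacobiSym.mul_left, jacobiSym.sq_one' (hcop b hb),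
    mul_one] at h1
  exact h1

/-- the part of a squarefree number coprime to `m` -/
lemma part_coprime {n m : ℕ} (hn : Squarefree n) : (n / Nat.gcd n m).Coprime m := by
  have hn0 : 0 < n := Nat.pos_of_ne_zero hn.ne_zero
  have hg : 0 < Nat.gcd n m := Nat.gcd_pos_of_pos_left _ hn0
  rw [Nat.coprime_iff_gcd_eq_one]
  by_contra hcon
  obtain ⟨l, hl, hld⟩ := Nat.exists_prime_and_dvd hcon
  have h1 : l ∣ n / Nat.gcd n m := hld.trans (Nat.gcd_dvd_left _ _)
  have h2 : l ∣ m := hld.trans (Nat.gcd_dvd_right _ _)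
  have h3 : l ∣ n := h1.trans (Nat.div_dvd_of_dvd (Nat.gcd_dvd_left _ _))
  have h4 : l ∣ Nat.gcd n m := Nat.dvd_gcd h3 h2
  have h5 : l * l ∣ n := by
    have h6 : Nat.gcd n m * (n / Nat.gcd n m) = n := Nat.mul_div_cancel' (Nat.gcd_dvd_left _ _)
    rw [← h6]
    exact mul_dvd_mul h4 h1
  exact hl.one_lt.ne' (Nat.isUnit_iff.1 (hn l h5))

theorem conds {p q : ℤ} {c r s z : ℕ} {x u v : ℤ}
    (h3 : Squarefree (r * s))
    (hx : x = (c * r : ℕ) * u ^ 2) (hQ : QQ p q x z = (c * s : ℕ) * v ^ 2) (hco : IsCoprime x z)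
    (hns : ¬ IsSquare (q * (c * s : ℕ))) {b : ℕ}
    (hb : b = (2 * q * (p ^ 2 - 4 * q)).natAbs) :
    Cond p q (q * (c * Nat.gcd s b : ℕ)) ((c * Nat.gcd r b * z : ℕ)) (b ^ 4)
      (r / Nat.gcd r b) (s / Nat.gcd s b) := by
  obtain ⟨rb, hrb⟩ : ∃ n, n = Nat.gcd r b := ⟨_, rfl⟩
  obtain ⟨sb, hsb⟩ : ∃ n, n = Nat.gcd s b := ⟨_, rfl⟩
  obtain ⟨r', hr'⟩ : ∃ n, n = r / Nat.gcd r b := ⟨_, rfl⟩
  obtain ⟨s', hs'⟩ : ∃ n, n = s / Nat.gcd s b := ⟨_, rfl⟩
  have hr : rb * r' = r := by rw [hrb, hr']; exact Nat.mul_div_cancel' (Nat.gcd_dvd_left _ _)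
  have hs : sb * s' = s := by rw [hsb, hs']; exact Nat.mul_div_cancel' (Nat.gcd_dvd_left _ _)
  have hrsq : Squarefree r := h3.squarefree_of_dvd (dvd_mul_right _ _)
  have hssq : Squarefree s := h3.squarefree_of_dvd (dvd_mul_left _ _)
  have hr'b : r'.Coprime b := hr' ▸ part_coprime hrsq
  have hs'b : s'.Coprime b := hs' ▸ part_coprime hssq
  rw [← hr', ← hs', ← hrb, ← hsb]
  have hbdvd : (b : ℤ) ∣ 2 * q * (p ^ 2 - 4 * q) ∧ 2 * q * (p ^ 2 - 4 * q) ∣ (b : ℤ) := by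
    rw [hb]
    exact ⟨Int.natAbs_dvd.2 dvd_rfl, Int.dvd_natAbs.2 dvd_rfl⟩
  -- primes not dividing b
  have hgood : ∀ l : ℕ, l.Prime → l.Coprime b → ¬ (l : ℤ) ∣ q := by
    intro l hl hlb h
    have h4 : (l : ℤ) ∣ b := (h.trans ⟨2 * (p ^ 2 - 4 * q), by ring⟩).trans hbdvd.2
    have h5 : l ∣ b := by exact_mod_cast h4
    have h6 : l ∣ 1 := by
      rw [← Nat.coprime_iff_gcd_eq_one.1 hlb]
      exact Nat.dvd_gcd dvd_rfl h5
    exact hl.one_lt.ne' (Nat.dvd_one.1 h6)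
  have hzQ := coprime_form (p := p) (q := q) hco
  have hnz : ∀ l : ℕ, l.Prime → ((l : ℤ) ∣ x ∨ (l : ℤ) ∣ QQ p q x z) → ¬ (l : ℤ) ∣ z := by
    intro l hl h1 h2
    have h3 : ¬ IsUnit (l : ℤ) := (Nat.prime_iff_prime_int.1 hl).not_isUnit
    rcases h1 with h1 | h1
    · exact h3 (hco.isUnit_of_dvd' h1 h2)
    · exact h3 (hzQ.isUnit_of_dvd' h2 h1)
  -- not both x and QQ
  have hnb : ∀ l : ℕ, l.Prime → l.Coprime b → ¬ ((l : ℤ) ∣ x ∧ (l : ℤ) ∣ QQ p q x z) := by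
    rintro l hl hlb ⟨h1, h2⟩
    have h4 : (l : ℤ) ∣ q * z ^ 2 := by
      have : q * z ^ 2 = QQ p q x z - x * (x + p * z) := by unfold QQ; ring
      rw [this]
      exact dvd_sub h2 (h1.mul_right _)
    have hlZ := Nat.prime_iff_prime_int.1 hl
    rcases hlZ.dvd_mul.1 h4 with h5 | h5
    · exact hgood l hl hlb h5
    · exact hnz l hl (Or.inl h1) (hlZ.dvd_of_dvd_pow h5)
  refine ⟨?_, ?_, ?_, ?_, ?_⟩
  · exact h3.squarefree_of_dvd (mul_dvd_mul ⟨rb, by rw [← hr]; ring⟩ ⟨sb, by rw [← hs]; ring⟩)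
  · exact (Nat.Coprime.mul_left hr'b hs'b).pow_right 4
  · have h4 : q * ((c * sb : ℕ) : ℤ) * (s' : ℤ) = q * (c * s : ℕ) := by
      rw [← hs]; push_cast; ring
    rw [h4]
    exact hns
  · intro l hl
    have hlp := Nat.prime_of_mem_primeFactors hl
    have hlr' := Nat.dvd_of_mem_primeFactors hl
    have hlb : l.Coprime b := hr'b.coprime_dvd_left hlr'
    have h4 : q * ((c * sb : ℕ) : ℤ) * (s' : ℤ) = q * (c * s : ℕ) := by
      rw [← hs]; push_cast; ring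
    rw [h4]
    have hlx : (l : ℤ) ∣ x := by
      have h5 : (l : ℤ) ∣ r := by exact_mod_cast hlr'.trans ⟨rb, by rw [← hr]; ring⟩
      rw [hx]
      push_cast
      exact (h5.mul_left _).mul_right _
    apply jac_one (b := z) (w := (c * s : ℕ) * v) hlp
    · have h5 : q * ((c * s : ℕ) : ℤ) * z ^ 2 - ((c * s : ℕ) * v) ^ 2 =
          -((c * s : ℕ) * (x * (x + p * z))) := by
        have h6 : x ^ 2 + p * x * z + q * z ^ 2 = (c * s : ℕ) * v ^ 2 := by
          rw [← hQ]; unfold QQ; ring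
        linear_combination ((c * s : ℕ) : ℤ) * h6
      rw [h5]
      exact ((hlx.mul_right _).mul_left _).neg_right
    · intro h5
      apply hnb l hlp hlb ⟨hlx, ?_⟩
      rw [hQ, pow_two, ← mul_assoc]
      exact h5.mul_right _
  · intro l hl
    have hlp := Nat.prime_of_mem_primeFactors hl
    have hls' := Nat.dvd_of_mem_primeFactors hl
    have hlb : l.Coprime b := hs'b.coprime_dvd_left hls'
    have hlZ := Nat.prime_iff_prime_int.1 hlp
    have hlQ : (l : ℤ) ∣ QQ p q x z := by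
      have h5 : (l : ℤ) ∣ s := by exact_mod_cast hls'.trans ⟨sb, by rw [← hs]; ring⟩
      rw [hQ]
      push_cast
      exact (h5.mul_left _).mul_right _
    have hlz := hnz l hlp (Or.inr hlQ)
    obtain ⟨α, β, hαβ⟩ := (Prime.coprime_iff_not_dvd hlZ).2 hlz
    refine ⟨x * β, ?_, ?_⟩
    · have h5 : (l : ℤ) ∣ (z : ℤ) ^ 2 * ((x * β) ^ 2 + p * (x * β) + q) := by
        have h6 : (z : ℤ) ^ 2 * ((x * β) ^ 2 + p * (x * β) + q) = QQ p q x z +
            l * (-(x ^ 2 * α * (1 + β * z)) - p * x * z * α) := by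
          have h7 : β * z = 1 - α * l := by linear_combination hαβ
          have h8 : (z : ℤ) ^ 2 * ((x * β) ^ 2 + p * (x * β) + q) =
              x ^ 2 * (β * z) ^ 2 + p * x * z * (β * z) + q * z ^ 2 := by ring
          rw [h8, h7]
          unfold QQ
          ring
        rw [h6]
        exact dvd_add hlQ (dvd_mul_right _ _)
      rcases hlZ.dvd_mul.1 h5 with h6 | h6
      · exact absurd (hlZ.dvd_of_dvd_pow h6) hlz
      · exact h6
    · apply jac_one (b := 1) (w := (c * r : ℕ) * u) hlp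
      · have h5 : ((c * rb * z : ℕ) : ℤ) * (r' : ℤ) * (x * β) * 1 ^ 2 - ((c * r : ℕ) * u) ^ 2 =
            -(l * ((c * r : ℕ) * (x * α))) := by
          have h6 : ((c * rb * z : ℕ) : ℤ) * (r' : ℤ) = (c * r : ℕ) * z := by
            rw [← hr]; push_cast; ring
          rw [h6]
          have h7 : (((c * r : ℕ) : ℤ) * u) ^ 2 = (c * r : ℕ) * x := by rw [hx]; ring
          rw [h7]
          linear_combination (((c * r : ℕ) : ℤ) * x) * hαβ
        rw [h5]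
        exact (dvd_mul_right _ _).neg_right
      · intro h5
        apply hnb l hlp hlb ⟨?_, hlQ⟩
        rw [hx, pow_two, ← mul_assoc]
        exact h5.mul_right _

end Pool.Agent.J4H76.TW
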