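import Pool.Agent.J4H76.TW.A10

/-!
# The number of large points with given square classes
-/

set_option autoImplicit false

namespace Pool.Agent.J4H76.TW

lemma dvd_of_gcd {s : ℕ} (hs : 0 < s) {A B : ℤ} (h : (s : ℤ) ∣ A * B) :
    ∃ f : ℕ, Int.gcd s A * f = s ∧ (f : ℤ) ∣ B := by
  obtain ⟨f, hf⟩ := Int.gcd_dvd_natAbs_left (s : ℤ) A
  rw [Int.natAbs_natCast] at hf
  refine ⟨f, hf.symm, ?_⟩
  obtain ⟨m, hm⟩ := Int.gcd_dvd_natAbs_right (s : ℤ) A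
  obtain ⟨e, he⟩ : ∃ e, e = Int.gcd s A := ⟨_, rfl⟩
  have heg : e = Nat.gcd s A.natAbs := by rw [he, Int.gcd_def, Int.natAbs_natCast]
  rw [← he] at hf hm
  have he0 : 0 < e := by
    rcases Nat.eq_zero_or_pos e with h0 | h0
    · rw [h0, zero_mul] at hf; omega
    · exact h0
  have hco : Nat.Coprime f m := by
    have h1 : e * Nat.gcd f m = e := by
      rw [← Nat.gcd_mul_left, ← hf, ← hm, ← heg]
    have h2 : e * Nat.gcd f m = e * 1 := by rw [h1, mul_one]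
    exact Nat.eq_of_mul_eq_mul_left he0 h2
  have h1 : s ∣ A.natAbs * B.natAbs := by
    rw [← Int.natAbs_mul]
    exact Int.natCast_dvd.1 h
  have h2 : f ∣ B.natAbs := by
    rw [hm, hf, mul_assoc] at h1
    exact hco.dvd_of_dvd_mul_left (Nat.dvd_of_mul_dvd_mul_left he0 h1)
  exact Int.natCast_dvd.2 h2

lemma same_label {p q : ℤ} {s : ℕ} (hs : Squarefree s) {x0 z0 x1 z1 x z : ℤ}
    (h0 : IsCoprime (s : ℤ) z0) (hQ0 : (s : ℤ) ∣ QQ p q x0 z0) (hQ1 : (s : ℤ) ∣ QQ p q x1 z1)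
    (hQ : (s : ℤ) ∣ QQ p q x z)
    (hl : Int.gcd s (x * z0 - x0 * z) = Int.gcd s (x1 * z0 - x0 * z1)) :
    (s : ℤ) ∣ x * z1 - x1 * z := by
  have hs0 : 0 < s := Nat.pos_of_ne_zero hs.ne_zero
  have hprod : ∀ {a b : ℤ}, (s : ℤ) ∣ QQ p q a b →
      (s : ℤ) ∣ (a * z0 - x0 * b) * (a * z0 + x0 * b + p * b * z0) := by
    intro a b h
    have : (a * z0 - x0 * b) * (a * z0 + x0 * b + p * b * z0) =
        z0 ^ 2 * QQ p q a b - b ^ 2 * QQ p q x0 z0 := by unfold QQ; ring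
    rw [this]
    exact dvd_sub (h.mul_left _) (hQ0.mul_left _)
  obtain ⟨f, hf, hfd⟩ := dvd_of_gcd hs0 (hprod hQ)
  obtain ⟨f', hf', hfd'⟩ := dvd_of_gcd hs0 (hprod hQ1)
  obtain ⟨e, he⟩ : ∃ e, e = Int.gcd s (x * z0 - x0 * z) := ⟨_, rfl⟩
  rw [← hl, ← he] at hf'
  rw [← he] at hf
  have he0 : 0 < e := by
    rcases Nat.eq_zero_or_pos e with h0 | h0
    · rw [h0, zero_mul] at hf; omega
    · exact h0
  have hff : f' = f := Nat.eq_of_mul_eq_mul_left he0 (by rw [hf, hf'])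
  rw [hff] at hfd'
  have hed : (e : ℤ) ∣ x * z0 - x0 * z := by rw [he]; exact Int.gcd_dvd_right _ _
  have hed' : (e : ℤ) ∣ x1 * z0 - x0 * z1 := by rw [he, hl]; exact Int.gcd_dvd_right _ _
  have hes : (e : ℤ) ∣ s := by rw [← hf]; push_cast; exact dvd_mul_right _ _
  have hfs : (f : ℤ) ∣ s := by rw [← hf]; push_cast; exact dvd_mul_left _ _
  have hco : Nat.Coprime e f := by
    rw [← hf] at hs
    exact (Nat.squarefree_mul_iff.1 hs).1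
  have g1 : (e : ℤ) ∣ x * z1 - x1 * z := by
    have h2 : IsCoprime (e : ℤ) z0 := h0.of_isCoprime_of_dvd_left hes
    apply h2.dvd_of_dvd_mul_left
    have : z0 * (x * z1 - x1 * z) = z1 * (x * z0 - x0 * z) - z * (x1 * z0 - x0 * z1) := by ring
    rw [this]
    exact dvd_sub (hed.mul_left _) (hed'.mul_left _)
  have g2 : (f : ℤ) ∣ x * z1 - x1 * z := by
    have h2 : IsCoprime (f : ℤ) z0 := h0.of_isCoprime_of_dvd_left hfs
    apply h2.dvd_of_dvd_mul_left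
    have : z0 * (x * z1 - x1 * z) = z1 * (x * z0 + x0 * z + p * z * z0) -
        z * (x1 * z0 + x0 * z1 + p * z1 * z0) := by ring
    rw [this]
    exact dvd_sub (hfd.mul_left _) (hfd'.mul_left _)
  rw [← hf]
  push_cast
  exact (Nat.isCoprime_iff_coprime.2 hco).mul_dvd g1 g2

theorem pts_card2 : ∃ M : ℕ, ∀ p q : ℤ, ¬ IsSquare (p ^ 2 - 4 * q) → q ≠ 0 → ∃ C : ℕ, 1 ≤ C ∧
    ∀ (N : ℤ) (r s : ℕ), 1 ≤ N → (r : ℤ) ≤ N → 0 < r → Squarefree s → (s : ℤ) ≤ N →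
    ∀ S : Finset (ℤ × ℤ), (∀ P ∈ S, 1 ≤ P.2 ∧ P.2 ≤ N ∧ IsCoprime P.1 P.2 ∧
      (C * N) ^ M < P.1 ∧ (∃ u, 0 < u ∧ P.1 = r * u ^ 2) ∧
      (∃ v, 1 ≤ v ∧ QQ p q P.1 P.2 = s * v ^ 2)) → S.card ≤ C * s.divisors.card := by
  classical
  obtain ⟨M, hM⟩ := pts_card
  refine ⟨M, fun p q hd hq => ?_⟩
  obtain ⟨C, hC1, hC⟩ := hM p q hd hq
  refine ⟨C, hC1, ?_⟩
  intro N r s hN hrN hr hs hsN S hS
  have hs0 : 0 < s := Nat.pos_of_ne_zero hs.ne_zero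
  rcases S.eq_empty_or_nonempty with h | ⟨P0, hP0⟩
  · rw [h]; simp
  have hcop : ∀ P ∈ S, IsCoprime (s : ℤ) P.2 := by
    intro P hP
    obtain ⟨hz, hzN, hco, hx, -, v, hv, hQ⟩ := hS P hP
    have h3 := coprime_form (p := p) (q := q) hco
    rw [hQ] at h3
    exact (IsCoprime.of_mul_right_left h3).symm
  have hdv : ∀ P ∈ S, (s : ℤ) ∣ QQ p q P.1 P.2 := by
    intro P hP
    obtain ⟨hz, hzN, hco, hx, -, v, hv, hQ⟩ := hS P hP
    rw [hQ]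
    exact dvd_mul_right _ _
  have h1 := Finset.card_le_mul_card_image
    (f := fun P : ℤ × ℤ => Int.gcd s (P.1 * P0.2 - P0.1 * P.2)) S C (by
    intro e he
    obtain ⟨P1, hP1, rfl⟩ := Finset.mem_image.1 he
    obtain ⟨α, β, hαβ⟩ := hcop P1 hP1
    apply hC N r s (P1.1 * β) hN hrN (by exact_mod_cast hr) (by exact_mod_cast hs0) hsN
    intro P hP
    rw [Finset.mem_filter] at hP
    obtain ⟨hz, hzN, hco, hx, hu, hv⟩ := hS P hP.1
    refine ⟨hz, hzN, hco, hx, hu, hv, ?_⟩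
    have h2 := same_label hs (hcop P0 hP0) (hdv P0 hP0) (hdv P1 hP1) (hdv P hP.1) hP.2
    apply (hcop P1 hP1).dvd_of_dvd_mul_left
    have h3 : P1.2 * (P.1 - P1.1 * β * P.2) = (P.1 * P1.2 - P1.1 * P.2) +
        s * (α * (P1.1 * P.2)) := by
      linear_combination (-(P1.1 * P.2)) * hαβ
    rw [h3]
    exact dvd_add h2 (dvd_mul_right _ _))
  refine h1.trans (Nat.mul_le_mul_left _ (Finset.card_le_card ?_))
  intro e he
  obtain ⟨P1, hP1, rfl⟩ := Finset.mem_image.1 he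
  rw [Nat.mem_divisors]
  refine ⟨?_, hs0.ne'⟩
  have := Int.gcd_dvd_natAbs_left (s : ℤ) (P1.1 * P0.2 - P0.1 * P1.2)
  rwa [Int.natAbs_natCast] at this

end Pool.Agent.J4H76.TW
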