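import Pool.Agent.J4H76.TW.B2
import Pool.Agent.J4H76.TW.B3

/-!
# Counting the twists: large squares and large `z`
-/

open Finset

set_option autoImplicit false

namespace Pool.Agent.J4H76.TW

/-- the data of the descent -/
structure Tup (p q : ℤ) (D c r s h z : ℕ) (x : ℤ) : Prop where
  hD : D = r * s * h ^ 2 * z
  hz : 1 ≤ z
  hh : 1 ≤ h
  hc : (c : ℤ) ∣ q
  h1 : Squarefree (c * r)
  h2 : Squarefree (c * s)
  h3 : Squarefree (r * s)
  hx : ∃ u : ℤ, 0 < u ∧ x = (c * r : ℕ) * u ^ 2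
  hQ : ∃ v : ℤ, 0 < v ∧ QQ p q x z = (c * s : ℕ) * v ^ 2
  hco : IsCoprime x z

lemma sum_inv_le (n : ℕ) : ∑ k ∈ Icc 1 n, (1 : ℝ) / k ≤ 1 + Real.log n := by
  have h1 := harmonic_le_one_add_log n
  rw [harmonic_eq_sum_Icc] at h1
  push_cast at h1
  simpa [one_div] using h1

lemma sum_inv_sq_le (n : ℕ) : ∑ k ∈ Icc 1 n, (1 : ℝ) / (k : ℝ) ^ 2 ≤ 2 := by
  have h1 := sum_Ioo_inv_sq_le (α := ℝ) 0 (n + 1)
  have h2 : Ioo 0 (n + 1) = Icc 1 n := by
    ext k; simp only [mem_Ioo, mem_Icc]; omega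
  rw [h2] at h1
  simpa [one_div] using h1

lemma sum_tau_le (n : ℕ) : ∑ s ∈ Icc 1 n, (s.divisors.card : ℝ) ≤ n * (1 + Real.log n) := by
  have h1 := ArithmeticFunction.sum_Ioc_sigma0_eq_sum_div n
  have h2 : Ioc 0 n = Icc 1 n := by
    ext k; simp only [mem_Ioc, mem_Icc]; omega
  rw [h2] at h1
  have h3 : ∑ s ∈ Icc 1 n, (s.divisors.card : ℝ) = ((∑ k ∈ Icc 1 n, n / k : ℕ) : ℝ) := by
    rw [← h1]
    push_cast
    refine sum_congr rfl fun s _ => ?_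
    rw [ArithmeticFunction.sigma_zero_apply]
  rw [h3]
  push_cast
  calc ∑ k ∈ Icc 1 n, ((n / k : ℕ) : ℝ) ≤ ∑ k ∈ Icc 1 n, (n : ℝ) * (1 / k) := by
        apply sum_le_sum
        intro k _
        rw [mul_one_div]
        exact Nat.cast_div_le
    _ = n * ∑ k ∈ Icc 1 n, (1 : ℝ) / k := by rw [mul_sum]
    _ ≤ _ := mul_le_mul_of_nonneg_left (sum_inv_le n) (Nat.cast_nonneg _)

lemma sum_pairs_le (n m : ℕ) (hnm : n ≤ m) :
    ∑ t ∈ ((Icc 1 m) ×ˢ (Icc 1 m)).filter (fun t : ℕ × ℕ => t.1 * t.2 ≤ n),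
      (t.2.divisors.card : ℝ) ≤ n * (1 + Real.log m) ^ 2 := by
  rw [sum_filter, sum_product]
  have hlm : 0 ≤ Real.log m := Real.log_natCast_nonneg _
  calc ∑ r ∈ Icc 1 m, ∑ s ∈ Icc 1 m, (if r * s ≤ n then (s.divisors.card : ℝ) else 0)
      ≤ ∑ r ∈ Icc 1 m, (n : ℝ) * (1 + Real.log m) * (1 / r) := by
        apply sum_le_sum
        intro r hr
        rw [mem_Icc] at hr
        rw [← sum_filter]
        have h1 : (Icc 1 m).filter (fun s => r * s ≤ n) ⊆ Icc 1 (n / r) := by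
          intro s hs
          rw [mem_filter, mem_Icc] at hs
          rw [mem_Icc]
          refine ⟨hs.1.1, ?_⟩
          rw [Nat.le_div_iff_mul_le (by omega), mul_comm]
          exact hs.2
        refine (sum_le_sum_of_subset_of_nonneg h1 fun _ _ _ => by positivity).trans ?_
        refine (sum_tau_le _).trans ?_
        have h2 : ((n / r : ℕ) : ℝ) ≤ n * (1 / r) := by rw [mul_one_div]; exact Nat.cast_div_le
        have h3 : Real.log ((n / r : ℕ) : ℝ) ≤ Real.log m := by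
          rcases Nat.eq_zero_or_pos (n / r) with h0 | h0
          · rw [h0]; simpa using hlm
          · apply Real.log_le_log (by exact_mod_cast h0)
            exact_mod_cast (Nat.div_le_self n r).trans hnm
        have h4 : 0 ≤ Real.log ((n / r : ℕ) : ℝ) := Real.log_natCast_nonneg _
        calc ((n / r : ℕ) : ℝ) * (1 + Real.log ((n / r : ℕ) : ℝ))
            ≤ (n * (1 / r)) * (1 + Real.log m) := by
              apply mul_le_mul h2 (by linarith) (by linarith) (by positivity)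
          _ = _ := by ring
    _ = (n : ℝ) * (1 + Real.log m) * ∑ r ∈ Icc 1 m, (1 : ℝ) / r := by rw [mul_sum]
    _ ≤ (n : ℝ) * (1 + Real.log m) * (1 + Real.log m) :=
        mul_le_mul_of_nonneg_left (sum_inv_le m) (by positivity)
    _ = _ := by ring

lemma E1_card (N L : ℕ) (hL : 1 ≤ L) (E : Finset ℕ)
    (hE : ∀ D ∈ E, 1 ≤ D ∧ D ≤ N ∧ ∃ h, L < h ∧ h ^ 2 ∣ D) : (E.card : ℝ) ≤ N / L := by
  classical
  have h1 : E ⊆ (Ioc L (N + L)).biUnion fun h => (Icc 1 N).filter fun D => h ^ 2 ∣ D := by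
    intro D hD
    obtain ⟨h1, h2, h, h3, h4⟩ := hE D hD
    rw [mem_biUnion]
    refine ⟨h, ?_, ?_⟩
    · rw [mem_Ioc]
      refine ⟨h3, ?_⟩
      have h5 := Nat.le_of_dvd (by omega) h4
      nlinarith
    · rw [mem_filter, mem_Icc]
      exact ⟨⟨h1, h2⟩, h4⟩
  have h2 : ∀ h ∈ Ioc L (N + L), ((((Icc 1 N).filter fun D => h ^ 2 ∣ D).card : ℕ) : ℝ) ≤
      N * ((h : ℝ) ^ 2)⁻¹ := by
    intro h hh
    have h3 : (Icc 1 N).filter (fun D => h ^ 2 ∣ D) = (Ioc 0 N).filter (fun D => h ^ 2 ∣ D) := by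
      congr 1
    rw [h3, Nat.Ioc_filter_dvd_card_eq_div]
    calc ((N / h ^ 2 : ℕ) : ℝ) ≤ (N : ℝ) / ((h ^ 2 : ℕ) : ℝ) := Nat.cast_div_le
      _ = _ := by push_cast; rw [div_eq_mul_inv]
  calc (E.card : ℝ) ≤ (((Ioc L (N + L)).biUnion fun h => (Icc 1 N).filter fun D => h ^ 2 ∣ D).card : ℝ) := by
        exact_mod_cast card_le_card h1
    _ ≤ ∑ h ∈ Ioc L (N + L), ((((Icc 1 N).filter fun D => h ^ 2 ∣ D).card : ℕ) : ℝ) := by
        exact_mod_cast card_biUnion_le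
    _ ≤ ∑ h ∈ Ioc L (N + L), N * ((h : ℝ) ^ 2)⁻¹ := sum_le_sum h2
    _ = N * ∑ h ∈ Ioc L (N + L), ((h : ℝ) ^ 2)⁻¹ := by rw [mul_sum]
    _ ≤ N * ((L : ℝ)⁻¹ - ((N + L : ℕ) : ℝ)⁻¹) := by
        apply mul_le_mul_of_nonneg_left _ (Nat.cast_nonneg _)
        exact sum_Ioc_inv_sq_le_sub (by omega) (by omega)
    _ ≤ N * (L : ℝ)⁻¹ := by
        apply mul_le_mul_of_nonneg_left _ (Nat.cast_nonneg _)
        have : 0 ≤ ((N + L : ℕ) : ℝ)⁻¹ := by positivity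
        linarith
    _ = _ := by rw [div_eq_mul_inv]

/-- the bound for the points of one class, as a hypothesis -/
def PC (p q : ℤ) (M C : ℕ) : Prop :=
  ∀ (N : ℤ) (r s : ℕ), 1 ≤ N → (r : ℤ) ≤ N → 0 < r → Squarefree s → (s : ℤ) ≤ N →
    ∀ S : Finset (ℤ × ℤ), (∀ P ∈ S, 1 ≤ P.2 ∧ P.2 ≤ N ∧ IsCoprime P.1 P.2 ∧
      (C * N) ^ M < P.1 ∧ (∃ u, 0 < u ∧ P.1 = r * u ^ 2) ∧
      (∃ v, 1 ≤ v ∧ QQ p q P.1 P.2 = s * v ^ 2)) → S.card ≤ C * s.divisors.card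

lemma Tup.bounds {p q : ℤ} {D c r s h z : ℕ} {x : ℤ} (t : Tup p q D c r s h z x) (hq : q ≠ 0)
    {N : ℕ} (hN : D ≤ N) : c ∈ q.natAbs.divisors ∧ 1 ≤ r ∧ r ≤ N ∧ 1 ≤ s ∧ s ≤ N ∧ h ≤ N ∧ z ≤ N := by
  have hr0 : 0 < r := Nat.pos_of_ne_zero fun h => t.h3.ne_zero (by rw [h, zero_mul])
  have hs0 : 0 < s := Nat.pos_of_ne_zero fun h => t.h3.ne_zero (by rw [h, mul_zero])
  have hh := t.hh
  have hz := t.hz
  have hD := t.hD
  have hD0 : 0 < D := by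
    rw [hD]; positivity
  have hle : ∀ m, m ∣ D → m ≤ N := fun m hm => (Nat.le_of_dvd hD0 hm).trans hN
  refine ⟨?_, hr0, hle r ?_, hs0, hle s ?_, hle h ?_, hle z ?_⟩
  · rw [Nat.mem_divisors]
    exact ⟨Int.natCast_dvd.1 t.hc, by omega⟩
  · rw [hD]; exact ⟨s * h ^ 2 * z, by ring⟩
  · rw [hD]; exact ⟨r * h ^ 2 * z, by ring⟩
  · rw [hD]; exact ⟨r * s * h * z, by ring⟩
  · rw [hD]; exact ⟨r * s * h ^ 2, by ring⟩

theorem E2_card {p q : ℤ} (hq : q ≠ 0) {M C : ℕ} (hPC : PC p q M C) (N L : ℕ) (hN : 1 ≤ N)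
    (hL : 1 ≤ L) (E : Finset ℕ)
    (hE : ∀ D ∈ E, D ≤ N ∧ ∃ c r s h z : ℕ, ∃ x : ℤ, Tup p q D c r s h z x ∧ L ^ 3 < z ∧
      (C * ((q.natAbs * N : ℕ) : ℤ)) ^ M < x) :
    (E.card : ℝ) ≤ (C * 2 * ∑ c ∈ q.natAbs.divisors, (c.divisors.card : ℝ)) * N *
      (1 + Real.log N) ^ 2 / L ^ 3 := by
  classical
  have hE' : ∀ D ∈ E, ∃ t : ℕ × ℕ × ℕ × ℕ, ∃ z : ℕ, ∃ x : ℤ,
      Tup p q D t.1 t.2.2.1 t.2.2.2 t.2.1 z x ∧ L ^ 3 < z ∧
      (C * ((q.natAbs * N : ℕ) : ℤ)) ^ M < x := by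
    intro D hD
    obtain ⟨-, c, r, s, h, z, x, h1, h2, h3⟩ := hE D hD
    exact ⟨(c, h, r, s), z, x, h1, h2, h3⟩
  choose! t z x ht hz hx using hE'
  obtain ⟨T, hT⟩ : ∃ T : Finset (ℕ × ℕ × ℕ × ℕ), T = q.natAbs.divisors ×ˢ
    ((Icc 1 N) ×ˢ ((Icc 1 N) ×ˢ (Icc 1 N))) := ⟨_, rfl⟩
  obtain ⟨T', hT'⟩ : ∃ T' : Finset (ℕ × ℕ × ℕ × ℕ), T' = T.filter
    (fun t => t.2.2.1 * t.2.2.2 ≤ N / (L ^ 3 * t.2.1 ^ 2)) := ⟨_, rfl⟩
  have hmem : ∀ D ∈ E, t D ∈ T' := by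
    intro D hD
    have h1 := ht D hD
    obtain ⟨b1, b2, b3, b4, b5, b6, b7⟩ := h1.bounds hq (hE D hD).1
    rw [hT', mem_filter, hT]
    simp only [mem_product, mem_Icc]
    refine ⟨⟨b1, ⟨h1.hh, b6⟩, ⟨b2, b3⟩, ⟨b4, b5⟩⟩, ?_⟩
    have hh := h1.hh
    rw [Nat.le_div_iff_mul_le (by positivity)]
    calc (t D).2.2.1 * (t D).2.2.2 * (L ^ 3 * (t D).2.1 ^ 2)
        = (t D).2.2.1 * (t D).2.2.2 * (t D).2.1 ^ 2 * L ^ 3 := by ring
      _ ≤ (t D).2.2.1 * (t D).2.2.2 * (t D).2.1 ^ 2 * z D :=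
          Nat.mul_le_mul_left _ (hz D hD).le
      _ = D := h1.hD.symm
      _ ≤ N := (hE D hD).1
  have hfib : ∀ τ ∈ T', ((E.filter fun D => t D = τ).card : ℝ) ≤
      C * (τ.1.divisors.card * τ.2.2.2.divisors.card) := by
    intro τ hτ
    rcases (E.filter fun D => t D = τ).eq_empty_or_nonempty with h0 | ⟨D0, hD0⟩
    · rw [h0, card_empty]; push_cast; positivity
    · rw [mem_filter] at hD0
      have hT0 := ht D0 hD0.1
      rw [hD0.2] at hT0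
      obtain ⟨b1, b2, b3, b4, b5, b6, b7⟩ := hT0.bounds hq (hE D0 hD0.1).1
      have hq0 : 0 < q.natAbs := Int.natAbs_pos.2 hq
      have hcq : τ.1 ≤ q.natAbs := Nat.divisor_le b1
      have hc0 : 0 < τ.1 := Nat.pos_of_ne_zero fun h => hT0.h1.ne_zero (by rw [h, zero_mul])
      have hinj : Set.InjOn (fun D => (x D, (z D : ℤ))) (E.filter fun D => t D = τ) := by
        intro D hD D' hD' he
        rw [mem_coe, mem_filter] at hD hD'
        simp only [Prod.mk.injEq] at he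
        have h1 := (ht D hD.1).hD
        have h2 := (ht D' hD'.1).hD
        rw [hD.2] at h1
        rw [hD'.2] at h2
        rw [h1, h2]
        congr 1
        exact_mod_cast he.2
      have h1 := hPC ((q.natAbs * N : ℕ) : ℤ) (τ.1 * τ.2.2.1) (τ.1 * τ.2.2.2)
        (by exact_mod_cast Nat.mul_pos hq0 hN) (by exact_mod_cast Nat.mul_le_mul hcq b3)
        (Nat.mul_pos hc0 b2) hT0.h2 (by exact_mod_cast Nat.mul_le_mul hcq b5)
        ((E.filter fun D => t D = τ).image fun D => (x D, (z D : ℤ))) (by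
          intro P hP
          obtain ⟨D, hD, rfl⟩ := mem_image.1 hP
          rw [mem_filter] at hD
          have h1 := ht D hD.1
          have h2 := hx D hD.1
          have h3 := (h1.bounds hq (hE D hD.1).1).2.2.2.2.2.2
          rw [hD.2] at h1
          have h4 : z D ≤ q.natAbs * N := h3.trans (Nat.le_mul_of_pos_left _ hq0)
          have h5 : (1 : ℤ) ≤ (z D : ℤ) := by exact_mod_cast h1.hz
          have h6 : (z D : ℤ) ≤ ((q.natAbs * N : ℕ) : ℤ) := by exact_mod_cast h4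
          exact ⟨h5, h6, h1.hco, h2, h1.hx, h1.hQ⟩)
      rw [card_image_of_injOn hinj, (Nat.squarefree_mul_iff.1 hT0.h2).1.card_divisors_mul] at h1
      exact_mod_cast h1
  have hsum : E.card = ∑ τ ∈ T', (E.filter fun D => t D = τ).card :=
    card_eq_sum_card_fiberwise hmem
  rw [hsum]
  push_cast
  refine (sum_le_sum hfib).trans ?_
  rw [← mul_sum, hT', sum_filter, hT, sum_product]
  have hlog : 0 ≤ Real.log N := Real.log_natCast_nonneg _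
  have hinner : ∀ c ∈ q.natAbs.divisors, ∑ y ∈ (Icc 1 N) ×ˢ ((Icc 1 N) ×ˢ (Icc 1 N)),
      (if (c, y).2.2.1 * (c, y).2.2.2 ≤ N / (L ^ 3 * (c, y).2.1 ^ 2) then
        ((c, y).1.divisors.card : ℝ) * ((c, y).2.2.2.divisors.card : ℝ) else 0) ≤
      (c.divisors.card : ℝ) * (2 * (N * (1 + Real.log N) ^ 2 / L ^ 3)) := by
    intro c _
    rw [sum_product]
    simp only
    have h1 : ∀ h ∈ Icc 1 N, ∑ y ∈ (Icc 1 N) ×ˢ (Icc 1 N),
        (if y.1 * y.2 ≤ N / (L ^ 3 * h ^ 2) then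
          (c.divisors.card : ℝ) * (y.2.divisors.card : ℝ) else 0) ≤
        (c.divisors.card : ℝ) * ((N * (1 + Real.log N) ^ 2 / L ^ 3) * (1 / (h : ℝ) ^ 2)) := by
      intro h _
      rw [← sum_filter, ← mul_sum]
      apply mul_le_mul_of_nonneg_left _ (Nat.cast_nonneg _)
      refine (sum_pairs_le _ N (Nat.div_le_self _ _)).trans ?_
      have h2 : ((N / (L ^ 3 * h ^ 2) : ℕ) : ℝ) ≤ N / (L ^ 3 * h ^ 2) := by
        refine Nat.cast_div_le.trans (le_of_eq ?_)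
        push_cast
        rfl
      calc ((N / (L ^ 3 * h ^ 2) : ℕ) : ℝ) * (1 + Real.log N) ^ 2
          ≤ (N / (L ^ 3 * h ^ 2)) * (1 + Real.log N) ^ 2 :=
            mul_le_mul_of_nonneg_right h2 (by positivity)
        _ = _ := by ring
    refine (sum_le_sum h1).trans ?_
    rw [← mul_sum, ← mul_sum]
    apply mul_le_mul_of_nonneg_left _ (Nat.cast_nonneg _)
    rw [mul_comm]
    exact mul_le_mul_of_nonneg_right (sum_inv_sq_le N) (by positivity)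
  calc _ ≤ (C : ℝ) * ∑ c ∈ q.natAbs.divisors,
        (c.divisors.card : ℝ) * (2 * (N * (1 + Real.log N) ^ 2 / L ^ 3)) :=
        mul_le_mul_of_nonneg_left (sum_le_sum hinner) (Nat.cast_nonneg _)
    _ = _ := by rw [← sum_mul]; ring

end Pool.Agent.J4H76.TW
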