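import Pool.Agent.J4H76.TW.B4

/-!
# Counting the twists: small squares and small `z`
-/

open Finset

set_option autoImplicit false

namespace Pool.Agent.J4H76.TW

theorem E3_card (hDO : StDO) {p q : ℤ} (hns : ¬ IsSquare (p ^ 2 - 4 * q)) (hq : q ≠ 0)
    {b : ℕ} (hb : b = (2 * q * (p ^ 2 - 4 * q)).natAbs) :
    ∃ K : ℝ, 0 ≤ K ∧ ∀ N L : ℕ, 9 ≤ N → 1 ≤ L → b ^ 4 * L ^ 10 ≤ N → ∀ E : Finset ℕ,
      (∀ D ∈ E, D ≤ N ∧ ∃ c r s h z : ℕ, ∃ x : ℤ, Tup p q D c r s h z x ∧ h ≤ L ∧ z ≤ L ^ 3 ∧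
        ¬ IsSquare (q * (c * s : ℕ))) →
      (E.card : ℝ) ≤ K * N * Real.log N ^ (-(1 / 500) : ℝ) * (1 + Real.log ((L ^ 3 : ℕ) : ℝ)) := by
  classical
  have hd : p ^ 2 - 4 * q ≠ 0 := fun h => hns (by rw [h]; exact ⟨0, by norm_num⟩)
  have hb0 : b ≠ 0 := by
    rw [hb]
    exact Int.natAbs_ne_zero.2 (mul_ne_zero (mul_ne_zero (by norm_num) hq) hd)
  have hbd : 2 * q * (p ^ 2 - 4 * q) ∣ (b : ℤ) := by rw [hb]; exact Int.dvd_natAbs.2 dvd_rfl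
  have hqb : q ∣ (b : ℤ) := Dvd.dvd.trans ⟨2 * (p ^ 2 - 4 * q), by ring⟩ hbd
  have hconst : ∀ y : ℕ × ℕ, ∃ C : ℝ, 0 ≤ C ∧ (y ∈ q.natAbs.divisors ×ˢ b.divisors →
      ∀ (κ₂ : ℤ) (W : ℝ), 3 ≤ W →
      ((open Classical in (Icc 1 ⌊W⌋₊).filter (fun g => ∃ r s : ℕ, g = r * s ∧
        Cond p q (q * (y.1 * y.2 : ℕ)) κ₂ (b ^ 4) r s)).card : ℝ) ≤
      C * W * Real.log W ^ (-(1 / 500) : ℝ)) := by
    intro y
    by_cases hy : y ∈ q.natAbs.divisors ×ˢ b.divisors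
    · rw [mem_product, Nat.mem_divisors, Nat.mem_divisors] at hy
      have h1 : y.1 ≠ 0 := fun h => by
        rw [h] at hy; exact hy.1.2 (Nat.eq_zero_of_zero_dvd hy.1.1)
      have h2 : y.2 ≠ 0 := fun h => by
        rw [h] at hy; exact hy.2.2 (Nat.eq_zero_of_zero_dvd hy.2.1)
      have h3 : (y.1 : ℤ) ∣ b := (Int.natCast_dvd.2 hy.1.1).trans hqb
      have h4 : (y.2 : ℤ) ∣ b := by exact_mod_cast hy.2.1
      obtain ⟨C, hC, hC'⟩ := hDO p q (q * (y.1 * y.2 : ℕ)) hns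
        (mul_ne_zero hq (by exact_mod_cast mul_ne_zero h1 h2)) (b ^ 4) (pow_ne_zero _ hb0) (by
          have h5 : 2 * q * (p ^ 2 - 4 * q) * (q * (y.1 * y.2 : ℕ)) =
              (2 * q * (p ^ 2 - 4 * q)) * q * y.1 * y.2 := by push_cast; ring
          rw [h5]
          have h6 : ((b ^ 4 : ℕ) : ℤ) = b * b * b * b := by push_cast; ring
          rw [h6]
          exact mul_dvd_mul (mul_dvd_mul (mul_dvd_mul hbd hqb) h3) h4)
      exact ⟨C, hC, fun _ => hC'⟩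
    · exact ⟨0, le_rfl, fun h => absurd h hy⟩
  choose Cf hCf0 hCf using hconst
  obtain ⟨C3, hC3⟩ : ∃ C : ℝ, C = ∑ y ∈ q.natAbs.divisors ×ˢ b.divisors, Cf y := ⟨_, rfl⟩
  have hC30 : 0 ≤ C3 := by rw [hC3]; exact sum_nonneg fun y _ => hCf0 y
  have hCle : ∀ y ∈ q.natAbs.divisors ×ˢ b.divisors, Cf y ≤ C3 := by
    intro y hy
    rw [hC3]
    exact single_le_sum (fun y _ => hCf0 y) hy
  refine ⟨q.natAbs.divisors.card * (b.divisors.card * (b.divisors.card * (C3 * 2 * 2))),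
    by positivity, ?_⟩
  intro N L hN hL hNL E hE
  have hE' : ∀ D ∈ E, ∃ t : ℕ × ℕ × ℕ × ℕ × ℕ, ∃ g : ℕ,
      t.1 ∈ q.natAbs.divisors ∧ t.2.1 ∈ b.divisors ∧ t.2.2.1 ∈ b.divisors ∧
      t.2.2.2.1 ∈ Icc 1 L ∧ t.2.2.2.2 ∈ Icc 1 (L ^ 3) ∧
      D = t.2.1 * t.2.2.1 * t.2.2.2.1 ^ 2 * t.2.2.2.2 * g ∧ 1 ≤ g ∧
      ∃ r s : ℕ, g = r * s ∧ Cond p q (q * (t.1 * t.2.1 : ℕ))
        ((t.1 * t.2.2.1 * t.2.2.2.2 : ℕ)) (b ^ 4) r s := by
    intro D hD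
    obtain ⟨hDN, c, r, s, h, z, x, h1, h2, h3, h4⟩ := hE D hD
    obtain ⟨b1, b2, b3, b4, b5, b6, b7⟩ := h1.bounds hq hDN
    obtain ⟨u, hu, hx⟩ := h1.hx
    obtain ⟨v, hv, hQ⟩ := h1.hQ
    have hcond := conds h1.h3 hx hQ h1.hco h4 hb
    have e1 : Nat.gcd r b * (r / Nat.gcd r b) = r := Nat.mul_div_cancel' (Nat.gcd_dvd_left _ _)
    have e2 : Nat.gcd s b * (s / Nat.gcd s b) = s := Nat.mul_div_cancel' (Nat.gcd_dvd_left _ _)
    refine ⟨(c, Nat.gcd s b, Nat.gcd r b, h, z), (r / Nat.gcd r b) * (s / Nat.gcd s b), b1,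
      Nat.mem_divisors.2 ⟨Nat.gcd_dvd_right _ _, hb0⟩,
      Nat.mem_divisors.2 ⟨Nat.gcd_dvd_right _ _, hb0⟩, mem_Icc.2 ⟨h1.hh, h2⟩,
      mem_Icc.2 ⟨h1.hz, h3⟩, ?_, ?_, _, _, rfl, hcond⟩
    · simp only
      calc D = r * s * h ^ 2 * z := h1.hD
        _ = (Nat.gcd r b * (r / Nat.gcd r b)) * (Nat.gcd s b * (s / Nat.gcd s b)) * h ^ 2 * z := by
            rw [e1, e2]
        _ = _ := by ring
    · apply Nat.mul_pos
      · exact Nat.pos_of_ne_zero fun h0 => by rw [h0, mul_zero] at e1; omega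
      · exact Nat.pos_of_ne_zero fun h0 => by rw [h0, mul_zero] at e2; omega
  choose! t g ht1 ht2 ht3 ht4 ht5 hD1 hg1 hcond using hE'
  obtain ⟨T, hT⟩ : ∃ T : Finset (ℕ × ℕ × ℕ × ℕ × ℕ), T = q.natAbs.divisors ×ˢ
    (b.divisors ×ˢ (b.divisors ×ˢ ((Icc 1 L) ×ˢ (Icc 1 (L ^ 3))))) := ⟨_, rfl⟩
  have hmem : ∀ D ∈ E, t D ∈ T := by
    intro D hD
    rw [hT]
    simp only [mem_product]
    exact ⟨ht1 D hD, ht2 D hD, ht3 D hD, ht4 D hD, ht5 D hD⟩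
  have hNR : (9 : ℝ) ≤ N := by exact_mod_cast hN
  have hlogN : 0 < Real.log N := Real.log_pos (by linarith)
  obtain ⟨ℓ, hℓ⟩ : ∃ ℓ : ℝ, ℓ = Real.log N ^ (-(1 / 500) : ℝ) := ⟨_, rfl⟩
  have hℓ0 : 0 ≤ ℓ := by rw [hℓ]; positivity
  have hfib : ∀ τ ∈ T, ((E.filter fun D => t D = τ).card : ℝ) ≤
      (C3 * 2 * N * ℓ) * ((1 / (τ.2.2.2.1 : ℝ) ^ 2) * (1 / (τ.2.2.2.2 : ℝ))) := by
    intro τ hτ
    rw [hT] at hτ
    simp only [mem_product, mem_Icc] at hτ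
    obtain ⟨m1, m2, m3, ⟨m4, m4'⟩, ⟨m5, m5'⟩⟩ := hτ
    have hs1 : 1 ≤ τ.2.1 := Nat.pos_of_mem_divisors m2
    have hr1 : 1 ≤ τ.2.2.1 := Nat.pos_of_mem_divisors m3
    have hs2 : τ.2.1 ≤ b := Nat.divisor_le m2
    have hr2 : τ.2.2.1 ≤ b := Nat.divisor_le m3
    obtain ⟨m, hm⟩ : ∃ m : ℕ, m = τ.2.1 * τ.2.2.1 * τ.2.2.2.1 ^ 2 * τ.2.2.2.2 := ⟨_, rfl⟩
    have hm1 : 1 ≤ m := by
      rw [hm]
      exact Nat.mul_pos (Nat.mul_pos (Nat.mul_pos hs1 hr1) (pow_pos m4 2)) m5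
    have hm2 : m ^ 2 ≤ N := by
      calc m ^ 2 ≤ (b * b * L ^ 2 * L ^ 3) ^ 2 := by
            rw [hm]
            gcongr
        _ = b ^ 4 * L ^ 10 := by ring
        _ ≤ N := hNL
    have hm3 : τ.2.2.2.1 ^ 2 * τ.2.2.2.2 ≤ m := by
      rw [hm]
      calc τ.2.2.2.1 ^ 2 * τ.2.2.2.2 = 1 * 1 * (τ.2.2.2.1 ^ 2 * τ.2.2.2.2) := by ring
        _ ≤ τ.2.1 * τ.2.2.1 * (τ.2.2.2.1 ^ 2 * τ.2.2.2.2) := by gcongr
        _ = _ := by ring
    have hmR : (1 : ℝ) ≤ m := by exact_mod_cast hm1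
    have hm2R : (m : ℝ) ^ 2 ≤ N := by exact_mod_cast hm2
    obtain ⟨W, hW⟩ : ∃ W : ℝ, W = N / m := ⟨_, rfl⟩
    have hW0 : 0 < W := by rw [hW]; positivity
    have hW2 : (N : ℝ) ≤ W ^ 2 := by
      rw [hW, div_pow, le_div_iff₀ (by positivity)]
      calc (N : ℝ) * m ^ 2 ≤ N * N := mul_le_mul_of_nonneg_left hm2R (by positivity)
        _ = _ := by ring
    have hW3 : 3 ≤ W := by nlinarith
    have hlogW : Real.log N / 2 ≤ Real.log W := by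
      have h1 : Real.log N ≤ Real.log (W ^ 2) := Real.log_le_log (by linarith) hW2
      rw [Real.log_pow] at h1
      push_cast at h1
      linarith
    have hWle : Real.log W ^ (-(1 / 500) : ℝ) ≤ 2 * ℓ := by
      calc Real.log W ^ (-(1 / 500) : ℝ) ≤ (Real.log N / 2) ^ (-(1 / 500) : ℝ) :=
            Real.rpow_le_rpow_of_nonpos (by positivity) hlogW (by norm_num)
        _ = ℓ * (2 : ℝ)⁻¹ ^ (-(1 / 500) : ℝ) := by
            rw [div_eq_mul_inv, Real.mul_rpow hlogN.le (by norm_num), hℓ]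
        _ ≤ ℓ * 2 := by
            apply mul_le_mul_of_nonneg_left _ hℓ0
            rw [Real.inv_rpow (by norm_num), ← Real.rpow_neg (by norm_num)]
            calc (2 : ℝ) ^ (-(-(1 / 500)) : ℝ) ≤ 2 ^ (1 : ℝ) :=
                  Real.rpow_le_rpow_of_exponent_le (by norm_num) (by norm_num)
              _ = 2 := Real.rpow_one _
        _ = _ := by ring
    have hy : (τ.1, τ.2.1) ∈ q.natAbs.divisors ×ˢ b.divisors := mem_product.2 ⟨m1, m2⟩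
    have hcount := hCf (τ.1, τ.2.1) hy ((τ.1 * τ.2.2.1 * τ.2.2.2.2 : ℕ)) W hW3
    have hinj : Set.InjOn g (E.filter fun D => t D = τ) := by
      intro D hD D' hD' he
      rw [mem_coe, mem_filter] at hD hD'
      have h1 := hD1 D hD.1
      have h2 := hD1 D' hD'.1
      rw [hD.2] at h1
      rw [hD'.2] at h2
      rw [h1, h2, he]
    have himg : (E.filter fun D => t D = τ).image g ⊆
        (open Classical in (Icc 1 ⌊W⌋₊).filter (fun g => ∃ r s : ℕ, g = r * s ∧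
          Cond p q (q * ((τ.1, τ.2.1).1 * (τ.1, τ.2.1).2 : ℕ))
            ((τ.1 * τ.2.2.1 * τ.2.2.2.2 : ℕ)) (b ^ 4) r s)) := by
      intro y hy
      obtain ⟨D, hD, rfl⟩ := mem_image.1 hy
      rw [mem_filter] at hD
      have h1 := hD1 D hD.1
      have h2 := hcond D hD.1
      rw [hD.2] at h1 h2
      rw [mem_filter, mem_Icc]
      refine ⟨⟨hg1 D hD.1, ?_⟩, h2⟩
      apply Nat.le_floor
      rw [hW, le_div_iff₀ (by positivity)]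
      have h3 : g D * m ≤ N := by
        calc g D * m = D := by rw [hm, mul_comm]; exact h1.symm
          _ ≤ N := (hE D hD.1).1
      exact_mod_cast h3
    have hWm : W ≤ N * ((1 / (τ.2.2.2.1 : ℝ) ^ 2) * (1 / (τ.2.2.2.2 : ℝ))) := by
      have h1 : (0 : ℝ) < (τ.2.2.2.1 : ℝ) := by exact_mod_cast m4
      have h2 : (0 : ℝ) < (τ.2.2.2.2 : ℝ) := by exact_mod_cast m5
      have h3 : (τ.2.2.2.1 : ℝ) ^ 2 * (τ.2.2.2.2 : ℝ) ≤ m := by exact_mod_cast hm3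
      calc W = N / m := hW
        _ ≤ N / ((τ.2.2.2.1 : ℝ) ^ 2 * (τ.2.2.2.2 : ℝ)) := by gcongr
        _ = _ := by rw [div_eq_mul_one_div, one_div_mul_one_div]
    calc ((E.filter fun D => t D = τ).card : ℝ)
        = (((E.filter fun D => t D = τ).image g).card : ℝ) := by rw [card_image_of_injOn hinj]
      _ ≤ _ := by exact_mod_cast card_le_card himg
      _ ≤ Cf (τ.1, τ.2.1) * W * Real.log W ^ (-(1 / 500) : ℝ) := hcount
      _ ≤ C3 * (N * ((1 / (τ.2.2.2.1 : ℝ) ^ 2) * (1 / (τ.2.2.2.2 : ℝ)))) * (2 * ℓ) := by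
          have hlW : 0 ≤ Real.log W := by linarith
          refine mul_le_mul ?_ hWle (Real.rpow_nonneg hlW _) (by positivity)
          exact mul_le_mul (hCle _ hy) hWm hW0.le hC30
      _ = _ := by ring
  have hsum : E.card = ∑ τ ∈ T, (E.filter fun D => t D = τ).card :=
    card_eq_sum_card_fiberwise hmem
  rw [hsum, Nat.cast_sum]
  refine (sum_le_sum hfib).trans ?_
  rw [← mul_sum, hT, sum_product]
  simp only [sum_product, sum_const]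
  have h1 : ∑ h ∈ Icc 1 L, ∑ z ∈ Icc 1 (L ^ 3), (1 / (h : ℝ) ^ 2) * (1 / (z : ℝ)) ≤
      2 * (1 + Real.log ((L ^ 3 : ℕ) : ℝ)) := by
    rw [← sum_mul_sum]
    have h2 := sum_inv_sq_le L
    have h3 := sum_inv_le (L ^ 3)
    have h4 : 0 ≤ ∑ z ∈ Icc 1 (L ^ 3), (1 : ℝ) / z := sum_nonneg fun _ _ => by positivity
    exact mul_le_mul h2 h3 h4 (by norm_num)
  simp only [nsmul_eq_mul]
  rw [← hℓ]
  have h2 : (C3 * 2 * N * ℓ) * ((q.natAbs.divisors.card : ℝ) * ((b.divisors.card : ℝ) *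
      ((b.divisors.card : ℝ) * ∑ h ∈ Icc 1 L, ∑ z ∈ Icc 1 (L ^ 3),
        (1 / (h : ℝ) ^ 2) * (1 / (z : ℝ))))) ≤
      (C3 * 2 * N * ℓ) * ((q.natAbs.divisors.card : ℝ) * ((b.divisors.card : ℝ) *
      ((b.divisors.card : ℝ) * (2 * (1 + Real.log ((L ^ 3 : ℕ) : ℝ)))))) := by
    gcongr
  refine h2.trans (le_of_eq ?_)
  ring

end Pool.Agent.J4H76.TW
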