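import Pool.Agent.J4H76.TW.B5

/-!
# The count for positive twists
-/

open Finset

set_option autoImplicit false

namespace Pool.Agent.J4H76.TW

lemma growth (b : ℕ) {N : ℕ} (hN : 3 ≤ N) (hbN : (b ^ 4 * 1024 * 20 ^ 10) ^ 2 ≤ N) :
    b ^ 4 * ⌈Real.log N⌉₊ ^ 10 ≤ N := by
  have hNR : (3 : ℝ) ≤ N := by exact_mod_cast hN
  have hl1 : 1 ≤ Real.log N := by
    rw [Real.le_log_iff_exp_le (by linarith)]
    linarith [Real.exp_one_lt_d9]
  have h1 : (⌈Real.log N⌉₊ : ℝ) ≤ 2 * Real.log N := by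
    have := Nat.ceil_lt_add_one (by linarith : 0 ≤ Real.log N)
    linarith
  have h2 : Real.log N ≤ 20 * (N : ℝ) ^ (1 / 20 : ℝ) := by
    have := Real.log_le_rpow_div (x := N) (by positivity) (ε := 1 / 20) (by norm_num)
    calc Real.log N ≤ (N : ℝ) ^ (1 / 20 : ℝ) / (1 / 20) := this
      _ = _ := by ring
  have h3 : ((N : ℝ) ^ (1 / 20 : ℝ)) ^ 10 = Real.sqrt N := by
    rw [← Real.rpow_natCast, ← Real.rpow_mul (by positivity), Real.sqrt_eq_rpow]
    norm_num
  have h4 : ((b : ℝ) ^ 4 * 1024 * 20 ^ 10) ≤ Real.sqrt N := by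
    rw [Real.le_sqrt (by positivity) (by positivity)]
    exact_mod_cast hbN
  have h5 : (b : ℝ) ^ 4 * (⌈Real.log N⌉₊ : ℝ) ^ 10 ≤ N := by
    calc (b : ℝ) ^ 4 * (⌈Real.log N⌉₊ : ℝ) ^ 10
        ≤ (b : ℝ) ^ 4 * (2 * (20 * (N : ℝ) ^ (1 / 20 : ℝ))) ^ 10 := by
          gcongr
          linarith
      _ = ((b : ℝ) ^ 4 * 1024 * 20 ^ 10) * ((N : ℝ) ^ (1 / 20 : ℝ)) ^ 10 := by ring
      _ ≤ Real.sqrt N * Real.sqrt N := by
          rw [h3]
          exact mul_le_mul_of_nonneg_right h4 (Real.sqrt_nonneg _)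
      _ = N := Real.mul_self_sqrt (by positivity)
  exact_mod_cast h5

theorem main_pos (hDO : StDO) : ∃ M : ℕ, ∀ p q : ℤ, ¬ IsSquare (p ^ 2 - 4 * q) →
    ∃ C : ℝ, 0 ≤ C ∧ ∀ N : ℕ, 3 ≤ N → ∀ E : Finset ℕ,
      (∀ D ∈ E, 1 ≤ D ∧ D ≤ N ∧ ∃ X y : ℤ, y ^ 2 = X * (X ^ 2 + p * D * X + q * D ^ 2) ∧
        (D : ℤ) ^ M < X ∧ ¬ IsSquare (q * X)) →
      (E.card : ℝ) ≤ C * (N * Real.log N ^ (-(1 / 1000) : ℝ)) := by
  classical
  obtain ⟨MA, hMA⟩ := pts_card2
  refine ⟨4 * MA + 7, ?_⟩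
  intro p q hns
  have hq : q ≠ 0 := by
    rintro rfl
    exact hns ⟨p, by ring⟩
  obtain ⟨CA, hCA1, hCA⟩ := hMA p q hns hq
  obtain ⟨b, hb⟩ : ∃ b, b = (2 * q * (p ^ 2 - 4 * q)).natAbs := ⟨_, rfl⟩
  obtain ⟨K3, hK30, hK3⟩ := E3_card hDO hns hq hb
  obtain ⟨K2, hK2⟩ : ∃ K : ℝ, K = CA * 2 * ∑ c ∈ q.natAbs.divisors, (c.divisors.card : ℝ) :=
    ⟨_, rfl⟩
  have hK20 : 0 ≤ K2 := by rw [hK2]; positivity
  obtain ⟨N0, hN0⟩ : ∃ N0 : ℕ, N0 = 9 + CA * q.natAbs + (p ^ 2 - 4 * q).natAbs + p.natAbs +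
    q.natAbs + (b ^ 4 * 1024 * 20 ^ 10) ^ 2 := ⟨_, rfl⟩
  have hl0 : 0 ≤ Real.log N0 := Real.log_natCast_nonneg _
  refine ⟨(3 + 4 * K2 + 3004 * K3) + Real.log N0 ^ (1 / 1000 : ℝ), by positivity, ?_⟩
  intro N hN E hE
  have hNR : (3 : ℝ) ≤ N := by exact_mod_cast hN
  have hl1 : 1 ≤ Real.log N := by
    rw [Real.le_log_iff_exp_le (by linarith)]
    linarith [Real.exp_one_lt_d9]
  have hlp : 0 < Real.log N := by linarith
  obtain ⟨w, hw⟩ : ∃ w : ℝ, w = Real.log N ^ (-(1 / 1000) : ℝ) := ⟨_, rfl⟩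
  have hw0 : 0 < w := by rw [hw]; positivity
  rw [← hw]
  rcases lt_or_ge N N0 with hlt | hge
  · -- small N
    have h1 : E.card ≤ N := by
      have h2 : E ⊆ Icc 1 N := fun D hD => mem_Icc.2 ⟨(hE D hD).1, (hE D hD).2.1⟩
      simpa using card_le_card h2
    have h2 : 1 ≤ Real.log N0 ^ (1 / 1000 : ℝ) * w := by
      have h3 : Real.log N ≤ Real.log N0 :=
        Real.log_le_log (by linarith) (by exact_mod_cast hlt.le)
      have h4 : Real.log N ^ (1 / 1000 : ℝ) ≤ Real.log N0 ^ (1 / 1000 : ℝ) :=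
        Real.rpow_le_rpow hlp.le h3 (by norm_num)
      calc (1 : ℝ) = Real.log N ^ (1 / 1000 : ℝ) * w := by
            rw [hw, ← Real.rpow_add hlp]; norm_num
        _ ≤ _ := mul_le_mul_of_nonneg_right h4 hw0.le
    calc (E.card : ℝ) ≤ N := by exact_mod_cast h1
      _ = 1 * N := by ring
      _ ≤ (Real.log N0 ^ (1 / 1000 : ℝ) * w) * N := mul_le_mul_of_nonneg_right h2 (by positivity)
      _ ≤ (3 + 4 * K2 + 3004 * K3) * (N * w) + Real.log N0 ^ (1 / 1000 : ℝ) * (N * w) := by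
          have : 0 ≤ (3 + 4 * K2 + 3004 * K3) * (N * w) := by positivity
          linarith
      _ = _ := by ring
  · -- large N
    have hN9 : 9 ≤ N := by omega
    obtain ⟨L, hL⟩ : ∃ L : ℕ, L = ⌈Real.log N⌉₊ := ⟨_, rfl⟩
    have hLl : Real.log N ≤ L := by rw [hL]; exact Nat.le_ceil _
    have hL1 : 1 ≤ L := by
      have : (0 : ℝ) < L := by linarith
      exact_mod_cast this
    have hLR : (1 : ℝ) ≤ L := by exact_mod_cast hL1
    have hL2 : (L : ℝ) ≤ 2 * Real.log N := by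
      have := Nat.ceil_lt_add_one hlp.le
      rw [hL]
      linarith
    have hgr : b ^ 4 * L ^ 10 ≤ N := by
      rw [hL]
      exact growth b hN (by omega)
    have hNZ : (1 : ℤ) ≤ N := by exact_mod_cast (by omega : 1 ≤ N)
    -- the tuple of a large twist
    have htup : ∀ D ∈ E, N ≤ D ^ 2 → ∃ c r s h z : ℕ, ∃ x : ℤ, Tup p q D c r s h z x ∧
        (CA * ((q.natAbs * N : ℕ) : ℤ)) ^ MA < x ∧ ¬ IsSquare (q * (c * s : ℕ)) := by
      intro D hD hND
      obtain ⟨hD1, hDN, X, y, hXy, hX, hqX⟩ := hE D hD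
      have hDZ : (1 : ℤ) ≤ D := by exact_mod_cast hD1
      have hNDZ : (N : ℤ) ≤ (D : ℤ) ^ 2 := by exact_mod_cast hND
      have hNN : (((9 + CA * q.natAbs + (p ^ 2 - 4 * q).natAbs + p.natAbs +
        q.natAbs : ℕ)) : ℤ) ≤ N := by
        have : 9 + CA * q.natAbs + (p ^ 2 - 4 * q).natAbs + p.natAbs + q.natAbs ≤ N := by omega
        exact_mod_cast this
      push_cast at hNN
      have hCAq : (0 : ℤ) ≤ CA * |q| := by positivity
      have hp0 := abs_nonneg p
      have hq0 := abs_nonneg q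
      have hd0 := abs_nonneg (p ^ 2 - 4 * q)
      have hX3 : (D : ℤ) ^ 3 < X := lt_of_le_of_lt (pow_le_pow_right₀ hDZ (by omega)) hX
      have hXD : (|p| + |q| + 1) * D < X := by
        calc (|p| + |q| + 1) * (D : ℤ) ≤ D ^ 2 * D :=
              mul_le_mul_of_nonneg_right (by linarith) (by omega)
          _ = D ^ 3 := by ring
          _ < X := hX3
      have hX1 : 1 ≤ X := by
        have : (1 : ℤ) ≤ (D : ℤ) ^ 3 := one_le_pow₀ hDZ
        omega
      have hDX : (D : ℤ) ≤ X := by nlinarith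
      have hQpos : 0 < X ^ 2 + p * D * X + q * D ^ 2 := by
        have h1 : -(|p| * (D * X)) ≤ p * (D * X) := by
          have := neg_abs_le (p * (D * X))
          rw [abs_mul, abs_of_nonneg (by positivity : (0 : ℤ) ≤ D * X)] at this
          exact this
        have h2 : -(|q| * D ^ 2) ≤ q * (D : ℤ) ^ 2 := by
          have := neg_abs_le (q * (D : ℤ) ^ 2)
          rw [abs_mul, abs_of_nonneg (by positivity : (0 : ℤ) ≤ (D : ℤ) ^ 2)] at this
          exact this
        have h3 : |q| * (D : ℤ) ^ 2 ≤ |q| * (D * X) := by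
          apply mul_le_mul_of_nonneg_left _ hq0
          nlinarith
        have h4 : 0 < X * (X - (|p| + |q|) * D) := by
          apply mul_pos (by omega)
          nlinarith
        nlinarith
      obtain ⟨c, r, s, h, z, x, u, v, e1, e2, e3, e4, e5, e6, e7, e8, e9, e10, e11, e12, e13, e14⟩ :=
        descent hD1 hX1 hQpos hXy
      have htp : Tup p q D c r s h z x := ⟨e1, e2, e3, e4, e5, e6, e7, ⟨u, e8, e10⟩, ⟨v, e9, e11⟩, e12⟩
      have hxbig : (N : ℤ) ^ (2 * MA + 3) < x := by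
        have h1 : (D : ℤ) ^ (4 * MA + 6) * D < x * D := by
          rw [← pow_succ]
          exact lt_of_lt_of_le hX e13
        have h2 : (D : ℤ) ^ (4 * MA + 6) < x := lt_of_mul_lt_mul_right h1 (by omega)
        refine lt_of_le_of_lt ?_ h2
        have h3 : (D : ℤ) ^ (4 * MA + 6) = ((D : ℤ) ^ 2) ^ (2 * MA + 3) := by
          rw [← pow_mul]; congr 1; ring
        rw [h3]
        exact pow_le_pow_left₀ (by omega) hNDZ _
      refine ⟨c, r, s, h, z, x, htp, ?_, ?_⟩
      · refine lt_of_le_of_lt ?_ hxbig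
        calc (CA * ((q.natAbs * N : ℕ) : ℤ)) ^ MA = ((CA * |q|) * N) ^ MA := by
              push_cast; ring
          _ ≤ ((N : ℤ) * N) ^ MA := by
              apply pow_le_pow_left₀ (by positivity)
              exact mul_le_mul_of_nonneg_right (by linarith) (by omega)
          _ = (N : ℤ) ^ (2 * MA) := by rw [← pow_two, ← pow_mul]
          _ ≤ _ := pow_le_pow_right₀ hNZ (by omega)
      · rintro ⟨w, hw⟩
        apply hqX
        refine ⟨w * (r * h * u), ?_⟩
        rw [e14, e10]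
        push_cast at hw ⊢
        linear_combination ((r : ℤ) * h * u) ^ 2 * hw
    -- the four sets
    have hsub : E ⊆ (((Icc 1 (Nat.sqrt N)) ∪ E.filter (fun D => ∃ h, L < h ∧ h ^ 2 ∣ D)) ∪
        E.filter (fun D => ∃ c r s h z : ℕ, ∃ x : ℤ, Tup p q D c r s h z x ∧ L ^ 3 < z ∧
          (CA * ((q.natAbs * N : ℕ) : ℤ)) ^ MA < x)) ∪
        E.filter (fun D => ∃ c r s h z : ℕ, ∃ x : ℤ, Tup p q D c r s h z x ∧ h ≤ L ∧ z ≤ L ^ 3 ∧
          ¬ IsSquare (q * (c * s : ℕ))) := by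
      intro D hD
      rw [mem_union, mem_union, mem_union]
      by_cases hND : N ≤ D ^ 2
      · obtain ⟨c, r, s, h, z, x, t1, t2, t3⟩ := htup D hD hND
        by_cases hh : L < h
        · left; left; right
          rw [mem_filter]
          refine ⟨hD, h, hh, ?_⟩
          rw [t1.hD]
          exact ⟨r * s * z, by ring⟩
        · by_cases hz : L ^ 3 < z
          · left; right
            rw [mem_filter]
            exact ⟨hD, c, r, s, h, z, x, t1, hz, t2⟩
          · right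
            rw [mem_filter]
            exact ⟨hD, c, r, s, h, z, x, t1, not_lt.1 hh, not_lt.1 hz, t3⟩
      · left; left; left
        rw [mem_Icc]
        refine ⟨(hE D hD).1, ?_⟩
        rw [Nat.le_sqrt']
        omega
    have c0 : (((Icc 1 (Nat.sqrt N)).card : ℕ) : ℝ) ≤ 2 * (N * w) := by
      rw [Nat.card_Icc]
      have h1 : ((Nat.sqrt N + 1 - 1 : ℕ) : ℝ) ≤ Real.sqrt N := by
        rw [Nat.add_sub_cancel]
        exact Real.nat_sqrt_le_real_sqrt
      have h2 : Real.log N ≤ 2 * Real.sqrt N := by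
        have h3 := Real.log_le_rpow_div (x := N) (by positivity) (ε := 1 / 2) (by norm_num)
        rw [← Real.sqrt_eq_rpow] at h3
        linarith
      have h3 : 1 / Real.log N ≤ w := by
        rw [hw, one_div, ← Real.rpow_neg_one]
        exact Real.rpow_le_rpow_of_exponent_le hl1 (by norm_num)
      have hs0 : 0 < Real.sqrt N := Real.sqrt_pos.2 (by linarith)
      have h4 : Real.sqrt N ≤ 2 * N * (1 / Real.log N) := by
        rw [mul_one_div, le_div_iff₀ hlp]
        have h5 : Real.sqrt N * Real.sqrt N = N := Real.mul_self_sqrt (by positivity)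
        calc Real.sqrt N * Real.log N ≤ Real.sqrt N * (2 * Real.sqrt N) :=
              mul_le_mul_of_nonneg_left h2 hs0.le
          _ = 2 * (Real.sqrt N * Real.sqrt N) := by ring
          _ = _ := by rw [h5]
      calc _ ≤ Real.sqrt N := h1
        _ ≤ 2 * N * (1 / Real.log N) := h4
        _ ≤ 2 * N * w := mul_le_mul_of_nonneg_left h3 (by positivity)
        _ = _ := by ring
    have h1w : 1 / Real.log N ≤ w := by
      rw [hw, one_div, ← Real.rpow_neg_one]
      exact Real.rpow_le_rpow_of_exponent_le hl1 (by norm_num)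
    have c1 : (((E.filter (fun D => ∃ h, L < h ∧ h ^ 2 ∣ D)).card : ℕ) : ℝ) ≤ N * w := by
      refine (E1_card N L hL1 _ ?_).trans ?_
      · intro D hD
        rw [mem_filter] at hD
        exact ⟨(hE D hD.1).1, (hE D hD.1).2.1, hD.2⟩
      · calc (N : ℝ) / L ≤ N / Real.log N := by gcongr
          _ = N * (1 / Real.log N) := by ring
          _ ≤ _ := mul_le_mul_of_nonneg_left h1w (by positivity)
    have c2 : (((E.filter (fun D => ∃ c r s h z : ℕ, ∃ x : ℤ, Tup p q D c r s h z x ∧ L ^ 3 < z ∧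
          (CA * ((q.natAbs * N : ℕ) : ℤ)) ^ MA < x)).card : ℕ) : ℝ) ≤ 4 * K2 * (N * w) := by
      refine (E2_card hq hCA N L (by omega) hL1 _ ?_).trans ?_
      · intro D hD
        rw [mem_filter] at hD
        exact ⟨(hE D hD.1).2.1, hD.2⟩
      · rw [← hK2]
        have h1 : (1 + Real.log N) ^ 2 / (L : ℝ) ^ 3 ≤ 4 * (1 / Real.log N) := by
          rw [div_le_iff₀ (by positivity)]
          calc (1 + Real.log N) ^ 2 ≤ (2 * Real.log N) ^ 2 := by gcongr; linarith
            _ = 4 * (1 / Real.log N) * Real.log N ^ 3 := by field_simp; ring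
            _ ≤ 4 * (1 / Real.log N) * (L : ℝ) ^ 3 := by gcongr
        calc K2 * N * (1 + Real.log N) ^ 2 / (L : ℝ) ^ 3
            = K2 * N * ((1 + Real.log N) ^ 2 / (L : ℝ) ^ 3) := by ring
          _ ≤ K2 * N * (4 * (1 / Real.log N)) := by gcongr
          _ ≤ K2 * N * (4 * w) := by gcongr
          _ = _ := by ring
    have c3 : (((E.filter (fun D => ∃ c r s h z : ℕ, ∃ x : ℤ, Tup p q D c r s h z x ∧ h ≤ L ∧
          z ≤ L ^ 3 ∧ ¬ IsSquare (q * (c * s : ℕ)))).card : ℕ) : ℝ) ≤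
          3004 * K3 * (N * w) := by
      refine (hK3 N L hN9 hL1 hgr _ ?_).trans ?_
      · intro D hD
        rw [mem_filter] at hD
        exact ⟨(hE D hD.1).2.1, hD.2⟩
      · obtain ⟨m, hm⟩ : ∃ m : ℝ, m = Real.log N ^ (1 / 1000 : ℝ) := ⟨_, rfl⟩
        have hm1 : 1 ≤ m := by rw [hm]; exact Real.one_le_rpow hl1 (by norm_num)
        have h1 : 1 + Real.log ((L ^ 3 : ℕ) : ℝ) ≤ 3004 * m := by
          have h2 : Real.log L ≤ 1 + 1000 * m := by
            calc Real.log L ≤ Real.log (2 * Real.log N) := Real.log_le_log (by linarith) hL2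
              _ = Real.log 2 + Real.log (Real.log N) := Real.log_mul (by norm_num) hlp.ne'
              _ ≤ 1 + 1000 * m := by
                  have h3 := Real.log_le_rpow_div hlp.le (ε := 1 / 1000) (by norm_num)
                  rw [← hm] at h3
                  have h4 := Real.log_two_lt_d9
                  linarith
          push_cast
          rw [Real.log_pow]
          push_cast
          linarith
        have h2 : Real.log N ^ (-(1 / 500) : ℝ) * m = w := by
          rw [hw, hm, ← Real.rpow_add hlp]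
          norm_num
        calc K3 * N * Real.log N ^ (-(1 / 500) : ℝ) * (1 + Real.log ((L ^ 3 : ℕ) : ℝ))
            ≤ K3 * N * Real.log N ^ (-(1 / 500) : ℝ) * (3004 * m) :=
              mul_le_mul_of_nonneg_left h1 (by positivity)
          _ = 3004 * K3 * (N * (Real.log N ^ (-(1 / 500) : ℝ) * m)) := by ring
          _ = _ := by rw [h2]
    have hcard : E.card ≤ (Icc 1 (Nat.sqrt N)).card +
        (E.filter (fun D => ∃ h, L < h ∧ h ^ 2 ∣ D)).card +
        (E.filter (fun D => ∃ c r s h z : ℕ, ∃ x : ℤ, Tup p q D c r s h z x ∧ L ^ 3 < z ∧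
          (CA * ((q.natAbs * N : ℕ) : ℤ)) ^ MA < x)).card +
        (E.filter (fun D => ∃ c r s h z : ℕ, ∃ x : ℤ, Tup p q D c r s h z x ∧ h ≤ L ∧ z ≤ L ^ 3 ∧
          ¬ IsSquare (q * (c * s : ℕ)))).card := by
      refine (card_le_card hsub).trans ((card_union_le _ _).trans ?_)
      gcongr
      refine (card_union_le _ _).trans ?_
      gcongr
      exact card_union_le _ _
    have hcardR : (E.card : ℝ) ≤ ((Icc 1 (Nat.sqrt N)).card : ℝ) +
        ((E.filter (fun D => ∃ h, L < h ∧ h ^ 2 ∣ D)).card : ℝ) +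
        ((E.filter (fun D => ∃ c r s h z : ℕ, ∃ x : ℤ, Tup p q D c r s h z x ∧ L ^ 3 < z ∧
          (CA * ((q.natAbs * N : ℕ) : ℤ)) ^ MA < x)).card : ℝ) +
        ((E.filter (fun D => ∃ c r s h z : ℕ, ∃ x : ℤ, Tup p q D c r s h z x ∧ h ≤ L ∧ z ≤ L ^ 3 ∧
          ¬ IsSquare (q * (c * s : ℕ)))).card : ℝ) := by
      exact_mod_cast hcard
    have hfin : 0 ≤ Real.log N0 ^ (1 / 1000 : ℝ) * (N * w) := by positivity
    calc (E.card : ℝ) ≤ 2 * (N * w) + N * w + 4 * K2 * (N * w) + 3004 * K3 * (N * w) := by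
          linarith
      _ ≤ ((3 + 4 * K2 + 3004 * K3) + Real.log N0 ^ (1 / 1000 : ℝ)) * (N * w) := by
          linarith

end Pool.Agent.J4H76.TW
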