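import Pool.Agent.J4H76.TW.B6

/-!
# The count for all twists, in the original coordinates
-/

open Finset

set_option autoImplicit false

namespace Pool.Agent.J4H76.TW

lemma large_of {p q D X y : ℤ} (hD : 1 ≤ |D|) (h : y ^ 2 = X * (X ^ 2 + p * D * X + q * D ^ 2))
    {M : ℕ} (hM : 1 ≤ M) (hX : X ≤ |D| ^ M) :
    |X| ≤ (|p| + |q| + 1) * |D| ^ M ∧ |y| ≤ 2 * (|p| + |q| + 1) ^ 2 * |D| ^ (2 * M) := by
  obtain ⟨Δ, hΔ⟩ : ∃ Δ, Δ = |D| := ⟨_, rfl⟩
  obtain ⟨c, hc⟩ : ∃ c, c = |p| + |q| + 1 := ⟨_, rfl⟩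
  rw [← hΔ] at hD hX ⊢
  rw [← hc]
  have hp0 := abs_nonneg p
  have hq0 := abs_nonneg q
  have hc1 : 1 ≤ c := by linarith
  have hΔM : Δ ≤ Δ ^ M := le_self_pow₀ hD (by omega)
  have hΔM1 : 1 ≤ Δ ^ M := one_le_pow₀ hD
  have hD2 : D ^ 2 = Δ ^ 2 := by rw [hΔ, sq_abs]
  have hlow : -(c * Δ) ≤ X := by
    by_contra hcon
    push Not at hcon
    obtain ⟨W, hW⟩ : ∃ W, W = -X := ⟨_, rfl⟩
    have hWc : c * Δ < W := by rw [hW]; linarith
    have hWΔ : Δ ≤ W := by nlinarith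
    have hW0 : 0 < W := by linarith
    have h1 : p * D * W ≤ |p| * Δ * W := by
      have : p * D ≤ |p| * Δ := by rw [hΔ, ← abs_mul]; exact le_abs_self _
      exact mul_le_mul_of_nonneg_right this hW0.le
    have h2 : -(|q| * Δ * W) ≤ q * D ^ 2 := by
      have h3 : -|q| * D ^ 2 ≤ q * D ^ 2 := mul_le_mul_of_nonneg_right (neg_abs_le q) (sq_nonneg _)
      have h4 : |q| * Δ ^ 2 ≤ |q| * (Δ * W) := by
        apply mul_le_mul_of_nonneg_left _ hq0
        nlinarith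
      rw [hD2] at h3 ⊢
      linarith
    have h3 : 0 < W ^ 2 - p * D * W + q * D ^ 2 := by
      have h4 : 0 < W * (W - (|p| + |q|) * Δ) := by
        apply mul_pos hW0
        nlinarith
      nlinarith
    have h4 : y ^ 2 = -(W * (W ^ 2 - p * D * W + q * D ^ 2)) := by
      rw [h, show X = -W by rw [hW]; ring]; ring
    have h5 := mul_pos hW0 h3
    have h6 := sq_nonneg y
    linarith
  have hXa : |X| ≤ c * Δ ^ M := by
    rw [abs_le]
    constructor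
    · have : c * Δ ≤ c * Δ ^ M := mul_le_mul_of_nonneg_left hΔM (by omega)
      linarith
    · have : Δ ^ M ≤ c * Δ ^ M := by nlinarith
      linarith
  refine ⟨hXa, ?_⟩
  apply abs_le_of_sq_le_sq _ (by positivity)
  have hcM : 0 ≤ c * Δ ^ M := by positivity
  have h1 : |X ^ 2 + p * D * X + q * D ^ 2| ≤ 2 * c ^ 2 * Δ ^ (2 * M) := by
    have h2 : |X ^ 2 + p * D * X + q * D ^ 2| ≤ |X| ^ 2 + |p| * Δ * |X| + |q| * Δ ^ 2 := by
      calc _ ≤ |X ^ 2 + p * D * X| + |q * D ^ 2| := abs_add_le _ _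
        _ ≤ |X ^ 2| + |p * D * X| + |q * D ^ 2| := by gcongr; exact abs_add_le _ _
        _ = _ := by rw [abs_mul, abs_mul, abs_mul, abs_pow, abs_pow, ← hΔ]
    have h3 : |X| ^ 2 ≤ (c * Δ ^ M) ^ 2 := pow_le_pow_left₀ (abs_nonneg _) hXa 2
    have h4 : |p| * Δ * |X| ≤ |p| * Δ ^ M * (c * Δ ^ M) := by
      apply mul_le_mul _ hXa (abs_nonneg _) (by positivity)
      exact mul_le_mul_of_nonneg_left hΔM hp0
    have h5 : |q| * Δ ^ 2 ≤ |q| * (Δ ^ M) ^ 2 :=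
      mul_le_mul_of_nonneg_left (pow_le_pow_left₀ (by omega) hΔM 2) hq0
    have h6 : Δ ^ (2 * M) = (Δ ^ M) ^ 2 := by rw [← pow_mul, mul_comm]
    rw [h6]
    have h7 : (c ^ 2 + |p| * c + |q|) * (Δ ^ M) ^ 2 ≤ 2 * c ^ 2 * (Δ ^ M) ^ 2 := by
      apply mul_le_mul_of_nonneg_right _ (by positivity)
      nlinarith
    linarith
  calc y ^ 2 = |y ^ 2| := (abs_of_nonneg (sq_nonneg y)).symm
    _ = |X| * |X ^ 2 + p * D * X + q * D ^ 2| := by rw [h, abs_mul]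
    _ ≤ (c * Δ ^ M) * (2 * c ^ 2 * Δ ^ (2 * M)) := mul_le_mul hXa h1 (abs_nonneg _) hcM
    _ ≤ (2 * c ^ 2 * Δ ^ (2 * M)) * (2 * c ^ 2 * Δ ^ (2 * M)) := by
        apply mul_le_mul_of_nonneg_right _ (by positivity)
        apply mul_le_mul _ _ (by positivity) (by positivity)
        · nlinarith
        · exact pow_le_pow_right₀ hD (by omega)
    _ = _ := by ring

/-- the shifted equation -/
lemma shift_eq {a b e D x y : ℤ} (he : e ^ 3 + a * e + b = 0)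
    (h : y ^ 2 = x ^ 3 + a * D ^ 2 * x + b * D ^ 3) :
    y ^ 2 = (x - e * D) * ((x - e * D) ^ 2 + 3 * e * D * (x - e * D) + (3 * e ^ 2 + a) * D ^ 2) := by
  rw [h]
  linear_combination D ^ 3 * he

lemma shift_large {a b e : ℤ} (he : e ^ 3 + a * e + b = 0) {M : ℕ} (hM : 1 ≤ M) {D x y : ℤ}
    (hD : 2 * (|3 * e| + |3 * e ^ 2 + a| + 1) ^ 2 + |e| ≤ |D|)
    (h : y ^ 2 = x ^ 3 + a * D ^ 2 * x + b * D ^ 3) (hbig : |D| ^ (2 * M + 1) < max |x| |y|) :
    |D| ^ M < x - e * D := by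
  by_contra hcon
  push Not at hcon
  obtain ⟨c, hc⟩ : ∃ c, c = |3 * e| + |3 * e ^ 2 + a| + 1 := ⟨_, rfl⟩
  rw [← hc] at hD
  have hc1 : 1 ≤ c := by
    have := abs_nonneg (3 * e)
    have := abs_nonneg (3 * e ^ 2 + a)
    linarith
  have he0 := abs_nonneg e
  have hD1 : 1 ≤ |D| := by nlinarith
  obtain ⟨h1, h2⟩ := large_of hD1 (shift_eq he h) hM hcon
  rw [← hc] at h1 h2
  have hDM : |D| ^ M ≤ |D| ^ (2 * M) := pow_le_pow_right₀ hD1 (by omega)
  have hD1M : |D| ≤ |D| ^ (2 * M) := le_self_pow₀ hD1 (by omega)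
  have hfin : (2 * c ^ 2 + |e|) * |D| ^ (2 * M) ≤ |D| ^ (2 * M + 1) := by
    have h3 : |D| ^ (2 * M + 1) = |D| * |D| ^ (2 * M) := by ring
    rw [h3]
    exact mul_le_mul_of_nonneg_right hD (by positivity)
  have hP : 0 ≤ |D| ^ (2 * M) := by positivity
  have hx : |x| ≤ (2 * c ^ 2 + |e|) * |D| ^ (2 * M) := by
    have h3 : |x| ≤ |x - e * D| + |e| * |D| := by
      calc |x| = |(x - e * D) + e * D| := by congr 1; ring
        _ ≤ |x - e * D| + |e * D| := abs_add_le _ _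
        _ = _ := by rw [abs_mul]
    have h4 : c * |D| ^ M ≤ 2 * c ^ 2 * |D| ^ (2 * M) := by
      apply mul_le_mul _ hDM (by positivity) (by positivity)
      nlinarith
    have h5 : |e| * |D| ≤ |e| * |D| ^ (2 * M) := mul_le_mul_of_nonneg_left hD1M he0
    linarith
  have hy : |y| ≤ (2 * c ^ 2 + |e|) * |D| ^ (2 * M) := by
    have h5 : 0 ≤ |e| * |D| ^ (2 * M) := by positivity
    linarith
  have := max_le hx hy
  linarith

theorem final_gen (hDO : StDO) : ∃ M : ℕ, ∀ a b e : ℤ, e ^ 3 + a * e + b = 0 →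
    ¬ IsSquare (-(3 * e ^ 2 + 4 * a)) → ∃ C : ℝ, 0 ≤ C ∧ ∀ N : ℕ, 3 ≤ N → ∀ E : Finset ℤ,
      (∀ D ∈ E, D ≠ 0 ∧ |D| ≤ N ∧ ∃ x y : ℤ, y ^ 2 = x ^ 3 + a * D ^ 2 * x + b * D ^ 3 ∧
        |D| ^ M < max |x| |y| ∧ ¬ IsSquare ((3 * e ^ 2 + a) * (x - e * D))) →
      (E.card : ℝ) ≤ C * (N * Real.log N ^ (-(1 / 1000) : ℝ)) := by
  classical
  obtain ⟨M, hM⟩ := main_pos hDO
  refine ⟨2 * (M + 1) + 1, ?_⟩
  intro a b e he hns
  obtain ⟨C1, hC10, hC1⟩ := hM (3 * e) (3 * e ^ 2 + a) (by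
    have : (3 * e) ^ 2 - 4 * (3 * e ^ 2 + a) = -(3 * e ^ 2 + 4 * a) := by ring
    rwa [this])
  obtain ⟨C2, hC20, hC2⟩ := hM (-(3 * e)) (3 * e ^ 2 + a) (by
    have : (-(3 * e)) ^ 2 - 4 * (3 * e ^ 2 + a) = -(3 * e ^ 2 + 4 * a) := by ring
    rwa [this])
  obtain ⟨D0, hD0⟩ : ∃ D0 : ℕ, (D0 : ℤ) = 2 * (|3 * e| + |3 * e ^ 2 + a| + 1) ^ 2 + |e| :=
    ⟨(2 * (|3 * e| + |3 * e ^ 2 + a| + 1) ^ 2 + |e|).toNat, by
      rw [Int.toNat_of_nonneg (by positivity)]⟩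
  have hD01 : 1 ≤ D0 := by
    have h1 : (1 : ℤ) ≤ D0 := by
      rw [hD0]
      have h2 : 1 ≤ |3 * e| + |3 * e ^ 2 + a| + 1 := by
        have := abs_nonneg (3 * e)
        have := abs_nonneg (3 * e ^ 2 + a)
        linarith
      have h3 : 1 ≤ (|3 * e| + |3 * e ^ 2 + a| + 1) ^ 2 := one_le_pow₀ h2
      have := abs_nonneg e
      linarith
    exact_mod_cast h1
  refine ⟨(2 * D0 + 1) + C1 + C2, by positivity, ?_⟩
  intro N hN E hE
  have hNR : (3 : ℝ) ≤ N := by exact_mod_cast hN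
  have hl1 : 1 ≤ Real.log N := by
    rw [Real.le_log_iff_exp_le (by linarith)]
    linarith [Real.exp_one_lt_d9]
  obtain ⟨w, hw⟩ : ∃ w : ℝ, w = N * Real.log N ^ (-(1 / 1000) : ℝ) := ⟨_, rfl⟩
  have hw1 : 1 ≤ w := by
    rw [hw, Real.rpow_neg (by linarith), ← div_eq_mul_inv, le_div_iff₀ (by positivity), one_mul]
    calc Real.log N ^ (1 / 1000 : ℝ) ≤ Real.log N ^ (1 : ℝ) :=
          Real.rpow_le_rpow_of_exponent_le hl1 (by norm_num)
      _ = Real.log N := Real.rpow_one _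
      _ ≤ N := (Real.log_le_sub_one_of_pos (by linarith)).trans (by linarith)
  rw [← hw]
  -- the three parts
  have hkey : ∀ D ∈ E, (D0 : ℤ) ≤ |D| → ∃ X y : ℤ,
      y ^ 2 = X * (X ^ 2 + 3 * e * D * X + (3 * e ^ 2 + a) * D ^ 2) ∧ |D| ^ M < X ∧
      ¬ IsSquare ((3 * e ^ 2 + a) * X) := by
    intro D hD hDD
    obtain ⟨hD1, hDN, x, y, hxy, hbig, hsq⟩ := hE D hD
    have h1 := shift_large he (M := M + 1) (by omega) (by rw [← hD0]; exact hDD) hxy hbig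
    have h2 : 1 ≤ |D| := by
      have : (1 : ℤ) ≤ D0 := by exact_mod_cast hD01
      omega
    refine ⟨x - e * D, y, shift_eq he hxy, ?_, hsq⟩
    exact lt_of_le_of_lt (pow_le_pow_right₀ h2 (by omega)) h1
  have c1 := hC1 N hN ((E.filter fun D => (D0 : ℤ) ≤ D).image Int.toNat) (by
    intro n hn
    obtain ⟨D, hD, rfl⟩ := mem_image.1 hn
    rw [mem_filter] at hD
    have hDpos : (1 : ℤ) ≤ D := by
      have : (1 : ℤ) ≤ D0 := by exact_mod_cast hD01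
      omega
    have habs : |D| = D := abs_of_pos (by omega)
    have hcast : ((D.toNat : ℕ) : ℤ) = D := Int.toNat_of_nonneg (by omega)
    obtain ⟨X, y, h1, h2, h3⟩ := hkey D hD.1 (by rw [habs]; exact hD.2)
    have h4 := (hE D hD.1).2.1
    rw [habs] at h2 h4
    refine ⟨by omega, by omega, X, y, ?_, ?_, h3⟩
    · rw [hcast]; exact h1
    · rw [hcast]; exact h2)
  rw [card_image_of_injOn (by
    intro D hD D' hD' h
    rw [mem_coe, mem_filter] at hD hD'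
    have : (1 : ℤ) ≤ D0 := by exact_mod_cast hD01
    have h' : D.toNat = D'.toNat := h
    omega), ← hw] at c1
  have c2 := hC2 N hN ((E.filter fun D => D ≤ -(D0 : ℤ)).image fun D => (-D).toNat) (by
    intro n hn
    obtain ⟨D, hD, rfl⟩ := mem_image.1 hn
    rw [mem_filter] at hD
    have hDpos : D ≤ -(1 : ℤ) := by
      have : (1 : ℤ) ≤ D0 := by exact_mod_cast hD01
      omega
    have habs : |D| = -D := abs_of_neg (by omega)
    have hcast : (((-D).toNat : ℕ) : ℤ) = -D := Int.toNat_of_nonneg (by omega)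
    obtain ⟨X, y, h1, h2, h3⟩ := hkey D hD.1 (by rw [habs]; omega)
    have h4 := (hE D hD.1).2.1
    rw [habs] at h2 h4
    refine ⟨by omega, by omega, X, y, ?_, ?_, h3⟩
    · rw [hcast, h1]; ring
    · rw [hcast]; exact h2)
  rw [card_image_of_injOn (by
    intro D hD D' hD' h
    rw [mem_coe, mem_filter] at hD hD'
    have : (1 : ℤ) ≤ D0 := by exact_mod_cast hD01
    simp only at h
    omega), ← hw] at c2
  have hsub : E ⊆ (Icc (-(D0 : ℤ)) D0 ∪ E.filter fun D => (D0 : ℤ) ≤ D) ∪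
      E.filter fun D => D ≤ -(D0 : ℤ) := by
    intro D hD
    rw [mem_union, mem_union, mem_filter, mem_filter, mem_Icc]
    by_cases h1 : (D0 : ℤ) ≤ D
    · exact Or.inl (Or.inr ⟨hD, h1⟩)
    · by_cases h2 : D ≤ -(D0 : ℤ)
      · exact Or.inr ⟨hD, h2⟩
      · left; left; omega
  have hcard : E.card ≤ (2 * D0 + 1) + (E.filter fun D => (D0 : ℤ) ≤ D).card +
      (E.filter fun D => D ≤ -(D0 : ℤ)).card := by
    refine (card_le_card hsub).trans ((card_union_le _ _).trans ?_)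
    gcongr
    refine (card_union_le _ _).trans ?_
    gcongr
    rw [Int.card_Icc]
    omega
  have hcardR : (E.card : ℝ) ≤ (2 * D0 + 1) + ((E.filter fun D => (D0 : ℤ) ≤ D).card : ℝ) +
      ((E.filter fun D => D ≤ -(D0 : ℤ)).card : ℝ) := by exact_mod_cast hcard
  have h5 : (2 * (D0 : ℝ) + 1) ≤ (2 * D0 + 1) * w := by
    have : (0 : ℝ) ≤ 2 * D0 + 1 := by positivity
    nlinarith
  calc (E.card : ℝ) ≤ (2 * D0 + 1) * w + C1 * w + C2 * w := by linarith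
    _ = _ := by ring

/-- no square obstruction -/
lemma no_sq {a b e : ℤ} (he : e ^ 3 + a * e + b = 0) (hns : ¬ IsSquare (-(3 * e ^ 2 + 4 * a)))
    (hcase : 3 * e ^ 2 + a < 0 ∨ IsSquare (3 * e ^ 2 + a)) {D x y : ℤ} (hD : D ≠ 0)
    (h : y ^ 2 = x ^ 3 + a * D ^ 2 * x + b * D ^ 3)
    (hbig : (|3 * e ^ 2 + 4 * a| + |3 * e|) * D ^ 2 < x - e * D) :
    ¬ IsSquare ((3 * e ^ 2 + a) * (x - e * D)) := by
  have h1 := shift_eq he h
  obtain ⟨X, hX⟩ : ∃ X, X = x - e * D := ⟨_, rfl⟩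
  obtain ⟨q, hq⟩ : ∃ q, q = 3 * e ^ 2 + a := ⟨_, rfl⟩
  obtain ⟨p, hp⟩ : ∃ p, p = 3 * e := ⟨_, rfl⟩
  have hpq : p ^ 2 - 4 * q = -(3 * e ^ 2 + 4 * a) := by rw [hp, hq]; ring
  have hpq' : |3 * e ^ 2 + 4 * a| = |p ^ 2 - 4 * q| := by rw [hpq, abs_neg]
  rw [hpq', ← hp, ← hX] at hbig
  rw [← hX, ← hq, ← hp] at h1
  rw [← hpq] at hns
  rw [← hq] at hcase
  rw [← hX, ← hq]
  have hd : p ^ 2 - 4 * q ≠ 0 := fun h => hns (by rw [h]; exact ⟨0, by norm_num⟩)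
  have hD2 : 1 ≤ D ^ 2 := by have := sq_pos_of_ne_zero hD; omega
  have hd1 : 1 ≤ |p ^ 2 - 4 * q| := Int.one_le_abs hd
  have hp0 := abs_nonneg p
  have hX0 : 0 < X := by nlinarith
  rintro ⟨w, hw⟩
  rcases hcase with hneg | ⟨m, hm⟩
  · have h2 : q * X < 0 := mul_neg_of_neg_of_pos hneg hX0
    have h3 := mul_self_nonneg w
    omega
  · have hm0 : m ≠ 0 := by
      rintro rfl
      apply hns
      rw [hm]
      exact ⟨p, by ring⟩
    -- X is a square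
    obtain ⟨t, ht⟩ : ∃ t, X = t ^ 2 := by
      have h2 : m ∣ w := by
        rw [← Int.pow_dvd_pow_iff (n := 2) (by norm_num)]
        exact ⟨X, by rw [hm] at hw; linear_combination -hw⟩
      obtain ⟨t, rfl⟩ := h2
      refine ⟨t, ?_⟩
      have h3 : m ^ 2 * (X - t ^ 2) = 0 := by rw [hm] at hw; linear_combination hw
      rcases mul_eq_zero.1 h3 with h4 | h4
      · exact absurd h4 (pow_ne_zero _ hm0)
      · omega
    have ht0 : t ≠ 0 := by rintro rfl; omega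
    obtain ⟨v, hv⟩ : ∃ v, X ^ 2 + p * D * X + q * D ^ 2 = v ^ 2 := by
      have h2 : t ∣ y := by
        rw [← Int.pow_dvd_pow_iff (n := 2) (by norm_num)]
        have h3 : t ^ 2 ∣ X := ⟨1, by rw [ht]; ring⟩
        rw [h1]
        exact h3.mul_right _
      obtain ⟨v, rfl⟩ := h2
      refine ⟨v, ?_⟩
      have h3 : t ^ 2 * (X ^ 2 + p * D * X + q * D ^ 2 - v ^ 2) = 0 := by
        have h4 : X * (X ^ 2 + p * D * X + q * D ^ 2) = t ^ 2 * (X ^ 2 + p * D * X + q * D ^ 2) := by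
          rw [ht]
        linear_combination -h1 - h4
      rcases mul_eq_zero.1 h3 with h4 | h4
      · exact absurd h4 (pow_ne_zero _ ht0)
      · omega
    -- difference of squares
    obtain ⟨V, hV⟩ : ∃ V, V = |v| := ⟨_, rfl⟩
    have hv' : X ^ 2 + p * D * X + q * D ^ 2 = V ^ 2 := by rw [hV, sq_abs]; exact hv
    have h5 : (2 * X + p * D - 2 * V) * (2 * X + p * D + 2 * V) = (p ^ 2 - 4 * q) * D ^ 2 := by
      linear_combination 4 * hv'
    have h6 : |2 * X + p * D + 2 * V| ≤ |(p ^ 2 - 4 * q) * D ^ 2| := by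
      apply Int.le_of_dvd (abs_pos.2 (mul_ne_zero hd (by positivity)))
      rw [abs_dvd_abs, ← h5]
      exact dvd_mul_left _ _
    rw [abs_mul, abs_of_nonneg (by positivity : (0 : ℤ) ≤ D ^ 2)] at h6
    have h7 := le_abs_self (2 * X + p * D + 2 * V)
    have h8 : |p * D| ≤ |p| * D ^ 2 := by
      rw [abs_mul]
      apply mul_le_mul_of_nonneg_left _ (abs_nonneg _)
      have := Int.one_le_abs hD
      rw [← sq_abs]
      nlinarith
    have h9 := neg_abs_le (p * D)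
    have h10 : 0 ≤ V := by rw [hV]; exact abs_nonneg v
    nlinarith

end Pool.Agent.J4H76.TW
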