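import Pool.Agent.J4H76.TW.A1

/-!
# The exceptional coset: parametrisation
-/

set_option autoImplicit false

namespace Pool.Agent.J4H76.TW

/-- **Parametrisation** of the points with `q Q` a square. -/
theorem exc_param {p q q0 m x z v : ℤ} (hq : q = q0 * m ^ 2) (hq0 : ¬ IsSquare q0)
    (hco : IsCoprime x z) (hz : 1 ≤ z) (hx : 0 < x) (hQ : QQ p q x z = q0 * v ^ 2) :
    ∃ g i j E : ℤ, 0 < g ∧ 0 < j ∧ x = g * j ∧ IsCoprime i j ∧ j ^ 2 - q0 * i ^ 2 = z * E ∧
      2 * q0 * m * i - p * j = g * E ∧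
      (g * E) ^ 2 - (p ^ 2 - 4 * q) * (z * E) = q0 * (p * i - 2 * m * j) ^ 2 ∧
      E ∣ q0 * (p ^ 2 - 4 * q) ∧ E ≠ 0 := by
  obtain ⟨g, i, j, hg, hgcd, hvg, hxg⟩ := Int.exists_gcd_one' (m := v - m * z) (n := x) (by
    rw [Int.gcd_pos_iff]; right; omega)
  have hgZ : (0 : ℤ) < g := by exact_mod_cast hg
  have hj : 0 < j := by
    have h1 : 0 < j * g := by omega
    exact (mul_pos_iff_of_pos_right hgZ).1 h1
  have hij : IsCoprime i j := Int.isCoprime_iff_gcd_eq_one.2 hgcd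
  have hv : v = m * z + i * g := by linarith
  have hmain : q0 * (v - m * z) * (v + m * z) = x * (x + p * z) := by
    unfold QQ at hQ
    rw [hq] at hQ
    linear_combination -hQ
  have h1 : z * (2 * q0 * m * i - p * j) = g * (j ^ 2 - q0 * i ^ 2) := by
    have h2 : (g : ℤ) * (z * (2 * q0 * m * i - p * j) - g * (j ^ 2 - q0 * i ^ 2)) = 0 := by
      rw [hv, hxg] at hmain
      linear_combination hmain
    rcases mul_eq_zero.1 h2 with h3 | h3
    · omega
    · linarith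
  have hgz : IsCoprime z (g : ℤ) := by
    rw [hxg] at hco
    exact (IsCoprime.of_mul_left_right hco).symm
  have h2 : z ∣ j ^ 2 - q0 * i ^ 2 := by
    apply hgz.dvd_of_dvd_mul_left
    exact ⟨_, h1.symm⟩
  obtain ⟨E, hE⟩ := h2
  have h3 : 2 * q0 * m * i - p * j = g * E := by
    have h4 : z * (2 * q0 * m * i - p * j - g * E) = 0 := by
      rw [hE] at h1
      linear_combination h1
    rcases mul_eq_zero.1 h4 with h5 | h5
    · omega
    · linarith
  have hE0 : E ≠ 0 := by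
    rintro rfl
    apply hq0
    have h4 : j ^ 2 = q0 * i ^ 2 := by linarith
    have h5 : i ∣ j := by
      rw [← Int.pow_dvd_pow_iff (n := 2) (by norm_num), h4]
      exact dvd_mul_left _ _
    have h6 : IsUnit i := hij.isUnit_of_dvd' dvd_rfl h5
    rcases Int.isUnit_iff.1 h6 with h7 | h7
    · rw [h7] at h4; exact ⟨j, by linarith⟩
    · rw [h7] at h4; exact ⟨j, by linarith⟩
  refine ⟨g, i, j, E, hgZ, hj, by rw [hxg]; ring, hij, hE, h3, ?_, ?_, hE0⟩
  · rw [← h3, ← hE, hq]; ring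
  · have f1 : E ∣ j ^ 2 - q0 * i ^ 2 := by rw [hE]; exact dvd_mul_left _ _
    have f2 : E ∣ 2 * q0 * m * i - p * j := by rw [h3]; exact dvd_mul_left _ _
    have g1 : E ∣ (q0 * (p ^ 2 - 4 * q)) * i ^ 3 := by
      have : (q0 * (p ^ 2 - 4 * q)) * i ^ 3 = (j ^ 2 - q0 * i ^ 2) *
          (-((p ^ 2 - 4 * q) * i + 2 * m * p * j)) -
          (2 * q0 * m * i - p * j) * (j * (2 * m * j + p * i)) := by rw [hq]; ring
      rw [this]
      exact dvd_sub (f1.mul_right _) (f2.mul_right _)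
    have g2 : E ∣ (q0 * (p ^ 2 - 4 * q)) * j ^ 3 := by
      have : (q0 * (p ^ 2 - 4 * q)) * j ^ 3 = (j ^ 2 - q0 * i ^ 2) * (-(4 * q * q0 * j)) -
          (2 * q0 * m * i - p * j) * (q0 * j * (2 * q0 * m * i + p * j)) := by rw [hq]; ring
      rw [this]
      exact dvd_sub (f1.mul_right _) (f2.mul_right _)
    have hij3 : IsCoprime (i ^ 3) (j ^ 3) := hij.pow
    obtain ⟨α, β, hαβ⟩ := hij3
    have : q0 * (p ^ 2 - 4 * q) = α * ((q0 * (p ^ 2 - 4 * q)) * i ^ 3) +
        β * ((q0 * (p ^ 2 - 4 * q)) * j ^ 3) := by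
      linear_combination (-(q0 * (p ^ 2 - 4 * q))) * hαβ
    rw [this]
    exact dvd_add (g1.mul_left _) (g2.mul_left _)

end Pool.Agent.J4H76.TW
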