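import Pool.Agent.J4H76.TW.B4

/-!
# The exceptional coset: the tuple of a large point
-/

open Finset

set_option autoImplicit false

namespace Pool.Agent.J4H76.TW

lemma tup_exc {p q : ℤ} {k m N D K : ℕ} {X y : ℤ} (hks : Squarefree k) (hk0 : 0 < k)
    (hm0 : 0 < m) (hqk : q = k * (m : ℤ) ^ 2) (hD1 : 1 ≤ D)
    (hXy : y ^ 2 = X * (X ^ 2 + p * D * X + q * D ^ 2)) (hX : (D : ℤ) ^ (2 * K + 3) < X)
    (hqX : IsSquare (q * X)) (hND : N ≤ D ^ 2) (hNN : |p| + |q| + 1 ≤ (N : ℤ)) :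
    ∃ c r s h z : ℕ, ∃ x : ℤ, Tup p q D c r s h z x ∧ c * s = k ∧ (N : ℤ) ^ (K + 1) < x := by
  have hDZ : (1 : ℤ) ≤ D := by exact_mod_cast hD1
  have hNDZ : (N : ℤ) ≤ (D : ℤ) ^ 2 := by exact_mod_cast hND
  have hp0 := abs_nonneg p
  have hq0 := abs_nonneg q
  have hX3 : (D : ℤ) ^ 3 < X := lt_of_le_of_lt (pow_le_pow_right₀ hDZ (by omega)) hX
  have hXD : (|p| + |q| + 1) * D < X := by
    calc (|p| + |q| + 1) * (D : ℤ) ≤ D ^ 2 * D :=
          mul_le_mul_of_nonneg_right (by linarith) (by omega)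
      _ = D ^ 3 := by ring
      _ < X := hX3
  have hX1 : 1 ≤ X := by
    have : (1 : ℤ) ≤ (D : ℤ) ^ 3 := one_le_pow₀ hDZ
    omega
  have hDX : (D : ℤ) ≤ X := by nlinarith
  have hQpos : 0 < X ^ 2 + p * D * X + q * D ^ 2 := by
    have h1 : -(|p| * (D * X)) ≤ p * (D * X) := by
      have := neg_abs_le (p * (D * X))
      rw [abs_mul, abs_of_nonneg (by positivity : (0 : ℤ) ≤ D * X)] at this
      exact this
    have h2 : -(|q| * D ^ 2) ≤ q * (D : ℤ) ^ 2 := by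
      have := neg_abs_le (q * (D : ℤ) ^ 2)
      rw [abs_mul, abs_of_nonneg (by positivity : (0 : ℤ) ≤ (D : ℤ) ^ 2)] at this
      exact this
    have h3 : |q| * (D : ℤ) ^ 2 ≤ |q| * (D * X) := by
      apply mul_le_mul_of_nonneg_left _ hq0
      nlinarith
    have h4 : 0 < X * (X - (|p| + |q|) * D) := by
      apply mul_pos (by omega)
      nlinarith
    nlinarith
  obtain ⟨c, r, s, h, z, x, u, v, e1, e2, e3, e4, e5, e6, e7, e8, e9, e10, e11, e12, e13, e14⟩ :=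
    descent hD1 hX1 hQpos hXy
  have htp : Tup p q D c r s h z x := ⟨e1, e2, e3, e4, e5, e6, e7, ⟨u, e8, e10⟩, ⟨v, e9, e11⟩, e12⟩
  have hxbig : (N : ℤ) ^ (K + 1) < x := by
    have h1 : (D : ℤ) ^ (2 * K + 2) * D < x * D := by
      rw [← pow_succ]
      exact lt_of_lt_of_le hX e13
    have h2 : (D : ℤ) ^ (2 * K + 2) < x := lt_of_mul_lt_mul_right h1 (by omega)
    refine lt_of_le_of_lt ?_ h2
    have h3 : (D : ℤ) ^ (2 * K + 2) = ((D : ℤ) ^ 2) ^ (K + 1) := by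
      rw [← pow_mul]; congr 1
    rw [h3]
    exact pow_le_pow_left₀ (by omega) hNDZ _
  refine ⟨c, r, s, h, z, x, htp, ?_, hxbig⟩
  -- c s = k
  obtain ⟨w, hw⟩ := hqX
  have hr0 : 0 < r := Nat.pos_of_ne_zero fun h => e7.ne_zero (by rw [h, zero_mul])
  obtain ⟨un, hun⟩ : ∃ n : ℕ, (n : ℤ) = u := ⟨u.toNat, by omega⟩
  have hun0 : 0 < un := by omega
  have h1 : (k * (c * s)) * (m * (r * h * un)) ^ 2 = w.natAbs ^ 2 := by
    have h2 : (((k * (c * s)) * (m * (r * h * un)) ^ 2 : ℕ) : ℤ) = ((w.natAbs ^ 2 : ℕ) : ℤ) := by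
      push_cast
      rw [sq_abs, hun]
      rw [e14, e10, hqk] at hw
      push_cast at hw
      linear_combination hw
    exact_mod_cast h2
  obtain ⟨w', hw'⟩ := cancel_sq (by positivity) h1
  exact (sqf_eq hks e6 hw').symm

end Pool.Agent.J4H76.TW
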