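import Pool.Agent.J4H76.TW.C5

/-!
# The exceptional coset: the data of the second descent
-/

open Finset

set_option autoImplicit false

namespace Pool.Agent.J4H76.TW

lemma exd_of_tup {p q : ℤ} {k m N L D dn BE C1 R0 M1 : ℕ} {N' : ℤ} (hM1 : 1 ≤ M1) (hk0 : 0 < k)
    (hm0 : 0 < m) (hqk : q = k * (m : ℤ) ^ 2) (hkns : ¬ IsSquare (k : ℤ)) (hq : q ≠ 0)
    (hd : p ^ 2 - 4 * q ≠ 0) (hdn : dn = (p ^ 2 - 4 * q).natAbs) (hBE : BE = k * dn)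
    (hC1 : C1 = (2 * k * m) ^ 2 * (BE * k)) (hR0 : R0 = Nat.sqrt (C1 * N)) (hN'1 : 1 ≤ N')
    (b4 : (L * BE : ℤ) ≤ N') (b5 : 2 * (k : ℤ) * |(m : ℤ)| + |p| ≤ N') (b6 : |q| ≤ N')
    (hDN : D ≤ N) {c r s h z : ℕ} {x : ℤ} (t : Tup p q D c r s h z x) (hcs : c * s = k)
    (hxb : (2 * N') ^ (2 * M1 + 5) < x) (hhL : h ≤ L) (hzL : z ≤ L) :
    ∃ g i j e : ℤ, ∃ ρ1 ρ2 : ℕ,
      Exd p q k m L BE ((2 * N') ^ M1) D c r s h z g i j e ρ1 ρ2 ∧ (ρ1 ≤ R0 ∨ ρ2 ≤ R0) := by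
  obtain ⟨u, hu, hxu⟩ := t.hx
  obtain ⟨v, hv, hQ⟩ := t.hQ
  rw [hcs] at hQ
  have hx0 : 0 < x := lt_trans (by positivity) hxb
  have hz1 : (1 : ℤ) ≤ z := by exact_mod_cast t.hz
  obtain ⟨g, i, j, e, hg, hj, hxg, hij, f1, f2, f3, f4, he0⟩ :=
    exc_param (q0 := k) (m := m) hqk hkns t.hco hz1 hx0 hQ
  have heB : |e| ≤ BE := by
    have h1 : |e| ≤ |(k : ℤ) * (p ^ 2 - 4 * q)| := by
      apply Int.le_of_dvd (abs_pos.2 (mul_ne_zero (by exact_mod_cast hk0.ne') hd))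
      exact (abs_dvd_abs _ _).2 f4
    rw [abs_mul, Nat.abs_cast, Int.abs_eq_natAbs (p ^ 2 - 4 * q), ← hdn] at h1
    rw [hBE]
    push_cast
    exact h1
  have hzLZ : (z : ℤ) ≤ L := by exact_mod_cast hzL
  have hze : (z : ℤ) * |e| ≤ N' := by
    refine le_trans ?_ b4
    exact mul_le_mul hzLZ heB (abs_nonneg _) (by positivity)
  obtain ⟨l1, l2⟩ := exc_large (M := M1) hM1 hqk (by exact_mod_cast hk0) hd hz1 hg hj he0
    f1 f2 hN'1 hze b5 b6 (by rw [← hxg]; exact hxb)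
  have hcr0 : 0 < c * r := Nat.pos_of_ne_zero t.h1.ne_zero
  obtain ⟨ρ1, ρ2, hρ1, hρ2, hu1, hu2, hρ⟩ := rho_bound (p := p) (q0 := k) (m := m)
    (by exact_mod_cast hm0.ne') (by exact_mod_cast hk0) hg hj he0 hij f2 hcr0 hu
    (by rw [← hxg]; exact hxu)
  obtain ⟨bb1, bb2, bb3, bb4, bb5, bb6, bb7⟩ := t.bounds hq hDN
  have hc1 : 1 ≤ c := Nat.pos_of_ne_zero fun h => t.h1.ne_zero (by rw [h, zero_mul])
  have hck : c ≤ k := by rw [← hcs]; exact Nat.le_mul_of_pos_right _ bb4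
  have heBn : e.natAbs ≤ BE := by
    have : ((e.natAbs : ℕ) : ℤ) ≤ BE := by rw [← Int.abs_eq_natAbs]; exact heB
    exact_mod_cast this
  have hprod : ρ1 * ρ2 ≤ C1 * N := by
    refine hρ.trans ?_
    have h1 : (2 * (k : ℤ) * m).natAbs = 2 * k * m := by
      have : (2 * (k : ℤ) * m) = ((2 * k * m : ℕ) : ℤ) := by push_cast; ring
      rw [this, Int.natAbs_natCast]
    rw [h1]
    calc (2 * k * m) ^ 2 * (e.natAbs * (c * r)) ≤ (2 * k * m) ^ 2 * (BE * (k * N)) := by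
          gcongr
      _ = C1 * N := by rw [hC1]; ring
  refine ⟨g, i, j, e, ρ1, ρ2, ⟨t.hD, hc1, hck, t.hh, hhL, t.hz, hzL, hcs, t.h1,
    ⟨u, hu, by rw [← hxg]; exact hxu⟩, hg, hj, he0, heB, f1, f2, f3, hρ1, hρ2, hu1, hu2, l1,
    l2⟩, ?_⟩
  rcases le_total ρ1 ρ2 with h1 | h1
  · left
    rw [hR0, Nat.le_sqrt]
    exact (Nat.mul_le_mul_left _ h1).trans hprod
  · right
    rw [hR0, Nat.le_sqrt]
    exact (Nat.mul_le_mul_right _ h1).trans hprod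

end Pool.Agent.J4H76.TW
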