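import Pool.Agent.J4H76.TW.C6
import Pool.Agent.J4H76.TW.C7
import Pool.Agent.J4H76.TW.C8

/-!
# The exceptional coset: the count
-/

open Finset

set_option autoImplicit false

namespace Pool.Agent.J4H76.TW

theorem main_exc : ∃ M : ℕ, ∀ p q : ℤ, ¬ IsSquare (p ^ 2 - 4 * q) → 0 < q → ¬ IsSquare q →
    ∃ C : ℝ, 0 ≤ C ∧ ∀ N : ℕ, 3 ≤ N → ∀ E : Finset ℕ,
      (∀ D ∈ E, 1 ≤ D ∧ D ≤ N ∧ ∃ X y : ℤ, y ^ 2 = X * (X ^ 2 + p * D * X + q * D ^ 2) ∧
        (D : ℤ) ^ M < X ∧ IsSquare (q * X)) →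
      (E.card : ℝ) ≤ C * (N * Real.log N ^ (-(1 / 1000) : ℝ)) := by
  classical
  obtain ⟨MA, hMA⟩ := pts_card2
  obtain ⟨MP, FP, hPL⟩ := pell_card
  have hPLm : PL (MP + 1) FP := by
    intro N ρ s ζ h1 h2 h3 h4 h5 h6 h7 S hS
    apply hPL N ρ s ζ h1 h2 h3 h4 h5 h6 h7 S
    intro x hx
    obtain ⟨g1, g2, g3⟩ := hS x hx
    exact ⟨lt_of_le_of_lt (pow_le_pow_right₀ (by omega) (by omega)) g1, g2, g3⟩
  obtain ⟨M1, hM1⟩ : ∃ M1, M1 = MP + 1 := ⟨_, rfl⟩
  rw [← hM1] at hPLm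
  refine ⟨12 * M1 + 4 * MA + 37, ?_⟩
  intro p q hns hq0 hqns
  have hq : q ≠ 0 := hq0.ne'
  have hd : p ^ 2 - 4 * q ≠ 0 := fun h => hns (by rw [h]; exact ⟨0, by norm_num⟩)
  obtain ⟨CA, hCA1, hCA⟩ := hMA p q hns hq
  -- the squarefree part of q
  obtain ⟨k, m, hk0, hm0, hkm, hks⟩ := Nat.sq_mul_squarefree_of_pos (n := q.toNat) (by omega)
  have hqk : q = k * (m : ℤ) ^ 2 := by
    have : ((m ^ 2 * k : ℕ) : ℤ) = q := by rw [hkm]; exact Int.toNat_of_nonneg hq0.le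
    rw [← this]; push_cast; ring
  have hkns : ¬ IsSquare (k : ℤ) := by
    rintro ⟨w, hw⟩
    apply hqns
    exact ⟨w * m, by rw [hqk, hw]; ring⟩
  obtain ⟨dn, hdn⟩ : ∃ dn, dn = (p ^ 2 - 4 * q).natAbs := ⟨_, rfl⟩
  have hdn1 : 1 ≤ dn := by rw [hdn]; exact Int.natAbs_pos.2 hd
  obtain ⟨BE, hBE⟩ : ∃ BE, BE = k * dn := ⟨_, rfl⟩
  have hBE1 : 1 ≤ BE := by rw [hBE]; exact Nat.mul_pos hk0 hdn1
  obtain ⟨C1, hC1⟩ : ∃ C1, C1 = (2 * k * m) ^ 2 * (BE * k) := ⟨_, rfl⟩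
  have hC11 : 1 ≤ C1 := by rw [hC1]; exact Nat.succ_le_of_lt (by positivity)
  obtain ⟨C2, hC2⟩ : ∃ C2, C2 = 1 + C1 + k + dn * BE + BE + 2 * k * m + p.natAbs + q.natAbs :=
    ⟨_, rfl⟩
  obtain ⟨K, hK⟩ : ∃ K : ℕ, K = FP * (k ^ 2 * (1 + BE * dn) ^ 5) * (k * ((2 * BE + 1) * 2)) :=
    ⟨_, rfl⟩
  obtain ⟨K2, hK2⟩ : ∃ K : ℝ, K = CA * k.divisors.card * k * 2 := ⟨_, rfl⟩
  have hK20 : 0 ≤ K2 := by rw [hK2]; positivity
  obtain ⟨N0, hN0⟩ : ∃ N0 : ℕ, N0 = 9 + CA * q.natAbs + C2 + p.natAbs + q.natAbs := ⟨_, rfl⟩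
  have hl0 : 0 ≤ Real.log N0 := Real.log_natCast_nonneg _
  refine ⟨(3 + K2 + 2 * (K * C1 * 128 * 16 ^ 8)) + Real.log N0 ^ (1 / 1000 : ℝ), by positivity, ?_⟩
  intro N hN E hE
  have hNR : (3 : ℝ) ≤ N := by exact_mod_cast hN
  have hl1 : 1 ≤ Real.log N := by
    rw [Real.le_log_iff_exp_le (by linarith)]
    linarith [Real.exp_one_lt_d9]
  have hlp : 0 < Real.log N := by linarith
  obtain ⟨w, hw⟩ : ∃ w : ℝ, w = Real.log N ^ (-(1 / 1000) : ℝ) := ⟨_, rfl⟩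
  have hw0 : 0 < w := by rw [hw]; positivity
  rw [← hw]
  have h1w : 1 / Real.log N ≤ w := by
    rw [hw, one_div, ← Real.rpow_neg_one]
    exact Real.rpow_le_rpow_of_exponent_le hl1 (by norm_num)
  rcases lt_or_ge N N0 with hlt | hge
  · -- small N
    have h1 : E.card ≤ N := by
      have h2 : E ⊆ Icc 1 N := fun D hD => mem_Icc.2 ⟨(hE D hD).1, (hE D hD).2.1⟩
      simpa using card_le_card h2
    have h2 : 1 ≤ Real.log N0 ^ (1 / 1000 : ℝ) * w := by
      have h3 : Real.log N ≤ Real.log N0 :=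
        Real.log_le_log (by linarith) (by exact_mod_cast hlt.le)
      have h4 : Real.log N ^ (1 / 1000 : ℝ) ≤ Real.log N0 ^ (1 / 1000 : ℝ) :=
        Real.rpow_le_rpow hlp.le h3 (by norm_num)
      calc (1 : ℝ) = Real.log N ^ (1 / 1000 : ℝ) * w := by
            rw [hw, ← Real.rpow_add hlp]; norm_num
        _ ≤ _ := mul_le_mul_of_nonneg_right h4 hw0.le
    calc (E.card : ℝ) ≤ N := by exact_mod_cast h1
      _ = 1 * N := by ring
      _ ≤ (Real.log N0 ^ (1 / 1000 : ℝ) * w) * N := mul_le_mul_of_nonneg_right h2 (by positivity)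
      _ ≤ (3 + K2 + 2 * (K * C1 * 128 * 16 ^ 8)) * (N * w) +
          Real.log N0 ^ (1 / 1000 : ℝ) * (N * w) := by
          have : 0 ≤ (3 + K2 + 2 * (K * C1 * 128 * 16 ^ 8)) * (N * w) := by positivity
          linarith
      _ = _ := by ring
  · -- large N
    obtain ⟨L, hL⟩ : ∃ L : ℕ, L = ⌈Real.log N⌉₊ := ⟨_, rfl⟩
    have hLl : Real.log N ≤ L := by rw [hL]; exact Nat.le_ceil _
    have hL1 : 1 ≤ L := by
      have : (0 : ℝ) < L := by linarith
      exact_mod_cast this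
    have hLN : L ≤ N := by
      rw [hL]
      apply Nat.ceil_le.2
      exact (Real.log_le_sub_one_of_pos (by linarith)).trans (by linarith)
    have hLR : (1 : ℝ) ≤ L := by exact_mod_cast hL1
    have hL2 : (L : ℝ) ≤ 2 * Real.log N := by
      have := Nat.ceil_lt_add_one hlp.le
      rw [hL]
      linarith
    have hNZ : (1 : ℤ) ≤ N := by exact_mod_cast (by omega : 1 ≤ N)
    obtain ⟨R0, hR0⟩ : ∃ R0, R0 = Nat.sqrt (C1 * N) := ⟨_, rfl⟩
    obtain ⟨N', hN'⟩ : ∃ N' : ℤ, N' = ((C2 * N : ℕ) : ℤ) := ⟨_, rfl⟩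
    have hC2N : C2 ≤ N := by omega
    have hle : ∀ y : ℕ, y ≤ C2 * N → (y : ℤ) ≤ N' := by
      intro y hy; rw [hN']; exact_mod_cast hy
    have hC2le : ∀ y : ℕ, y ≤ C2 → y ≤ C2 * N := fun y hy =>
      hy.trans (Nat.le_mul_of_pos_right _ (by omega))
    have hN'1 : 1 ≤ N' := by exact_mod_cast hle 1 (hC2le 1 (by omega))
    have b1 : (R0 : ℤ) ≤ N' := hle _ (by
      rw [hR0]
      exact (Nat.sqrt_le_self _).trans (Nat.mul_le_mul_right _ (by omega)))
    have b2 : (k : ℤ) ≤ N' := hle _ (hC2le _ (by omega))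
    have b3 : (L * BE * dn : ℤ) ≤ N' := by
      have : L * BE * dn ≤ C2 * N := by
        calc L * BE * dn = (dn * BE) * L := by ring
          _ ≤ C2 * N := Nat.mul_le_mul (by omega) hLN
      exact_mod_cast hle _ this
    have b4 : (L * BE : ℤ) ≤ N' := by
      have : L * BE ≤ C2 * N := by
        calc L * BE = BE * L := by ring
          _ ≤ C2 * N := Nat.mul_le_mul (by omega) hLN
      exact_mod_cast hle _ this
    have b5 : 2 * (k : ℤ) * |(m : ℤ)| + |p| ≤ N' := by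
      have h1 : 2 * k * m + p.natAbs ≤ C2 * N := hC2le _ (by omega)
      have h2 := hle _ h1
      push_cast at h2
      rw [Nat.abs_cast]
      exact h2
    have b6 : |q| ≤ N' := by
      have h2 := hle _ (hC2le q.natAbs (by omega))
      push_cast at h2
      exact h2
    have hN'N : 2 * N' ≤ (N : ℤ) ^ 3 := by
      have h1 : N' ≤ (N : ℤ) * N := by
        rw [hN']
        push_cast
        exact mul_le_mul_of_nonneg_right (by exact_mod_cast hC2N) (by omega)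
      have h2 : (2 : ℤ) ≤ N := by exact_mod_cast (by omega : 2 ≤ N)
      nlinarith
    -- the tuple of a large twist
    have htup : ∀ D ∈ E, N ≤ D ^ 2 → ∃ c r s h z : ℕ, ∃ x : ℤ, Tup p q D c r s h z x ∧
        c * s = k ∧ (CA * ((q.natAbs * N : ℕ) : ℤ)) ^ MA < x ∧ (2 * N') ^ (2 * M1 + 5) < x := by
      intro D hD hND
      obtain ⟨hD1, hDN, X, y, hXy, hX, hqX⟩ := hE D hD
      have hNN : |p| + |q| + 1 ≤ (N : ℤ) := by
        have h1 : 1 + p.natAbs + q.natAbs ≤ N := by omega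
        have h2 : (((1 + p.natAbs + q.natAbs : ℕ)) : ℤ) ≤ N := by exact_mod_cast h1
        push_cast at h2
        linarith
      have hCAq : CA * |q| ≤ (N : ℤ) := by
        have h1 : CA * q.natAbs ≤ N := by omega
        have h2 : (((CA * q.natAbs : ℕ)) : ℤ) ≤ N := by exact_mod_cast h1
        push_cast at h2
        exact h2
      obtain ⟨c, r, s, h, z, x, t1, t2, t3⟩ := tup_exc (K := 6 * M1 + 2 * MA + 17) hks hk0 hm0 hqk
        hD1 hXy (lt_of_le_of_lt (pow_le_pow_right₀ (by exact_mod_cast hD1) (by omega)) hX) hqX hND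
        hNN
      refine ⟨c, r, s, h, z, x, t1, t2, ?_, ?_⟩
      · refine lt_of_le_of_lt ?_ t3
        calc (CA * ((q.natAbs * N : ℕ) : ℤ)) ^ MA = ((CA * |q|) * N) ^ MA := by
              push_cast; ring
          _ ≤ ((N : ℤ) * N) ^ MA := by
              apply pow_le_pow_left₀ (by positivity)
              exact mul_le_mul_of_nonneg_right hCAq (by omega)
          _ = (N : ℤ) ^ (2 * MA) := by rw [← pow_two, ← pow_mul]
          _ ≤ _ := pow_le_pow_right₀ hNZ (by omega)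
      · refine lt_of_le_of_lt ?_ t3
        calc (2 * N') ^ (2 * M1 + 5) ≤ ((N : ℤ) ^ 3) ^ (2 * M1 + 5) :=
              pow_le_pow_left₀ (by omega) hN'N _
          _ = (N : ℤ) ^ (3 * (2 * M1 + 5)) := by rw [← pow_mul]
          _ ≤ _ := pow_le_pow_right₀ hNZ (by omega)
    -- the data of the second descent
    have hexd : ∀ D ∈ E, ∀ c r s h z : ℕ, ∀ x : ℤ, Tup p q D c r s h z x → c * s = k →
        (2 * N') ^ (2 * M1 + 5) < x → h ≤ L → z ≤ L → ∃ g i j e : ℤ, ∃ ρ1 ρ2 : ℕ,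
        Exd p q k m L BE ((2 * N') ^ M1) D c r s h z g i j e ρ1 ρ2 ∧ (ρ1 ≤ R0 ∨ ρ2 ≤ R0) :=
      fun D hD c r s h z x t hcs hxb hhL hzL => exd_of_tup (by omega) hk0 hm0 hqk hkns hq hd hdn
        hBE hC1 hR0 hN'1 b4 b5 b6 (hE D hD).2.1 t hcs hxb hhL hzL
    -- the five sets
    have hsub : E ⊆ ((((Icc 1 (Nat.sqrt N)) ∪ E.filter (fun D => ∃ h, L < h ∧ h ^ 2 ∣ D)) ∪
        E.filter (fun D => ∃ c r s h z : ℕ, ∃ x : ℤ, Tup p q D c r s h z x ∧ c * s = k ∧ L < z ∧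
          (CA * ((q.natAbs * N : ℕ) : ℤ)) ^ MA < x)) ∪
        E.filter (fun D => ∃ c r s h z : ℕ, ∃ g i j e : ℤ, ∃ ρ1 ρ2 : ℕ,
          Exd p q k m L BE ((2 * N') ^ M1) D c r s h z g i j e ρ1 ρ2 ∧ ρ1 ≤ R0)) ∪
        E.filter (fun D => ∃ c r s h z : ℕ, ∃ g i j e : ℤ, ∃ ρ1 ρ2 : ℕ,
          Exd p q k m L BE ((2 * N') ^ M1) D c r s h z g i j e ρ1 ρ2 ∧ ρ2 ≤ R0) := by
      intro D hD
      rw [mem_union, mem_union, mem_union, mem_union]
      by_cases hND : N ≤ D ^ 2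
      · obtain ⟨c, r, s, h, z, x, t1, t2, t3, t4⟩ := htup D hD hND
        by_cases hh : L < h
        · left; left; left; right
          rw [mem_filter]
          refine ⟨hD, h, hh, ?_⟩
          rw [t1.hD]
          exact ⟨r * s * z, by ring⟩
        · by_cases hz : L < z
          · left; left; right
            rw [mem_filter]
            exact ⟨hD, c, r, s, h, z, x, t1, t2, hz, t3⟩
          · obtain ⟨g, i, j, e, ρ1, ρ2, t5, t6 | t6⟩ :=
              hexd D hD c r s h z x t1 t2 t4 (not_lt.1 hh) (not_lt.1 hz)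
            · left; right
              rw [mem_filter]
              exact ⟨hD, c, r, s, h, z, g, i, j, e, ρ1, ρ2, t5, t6⟩
            · right
              rw [mem_filter]
              exact ⟨hD, c, r, s, h, z, g, i, j, e, ρ1, ρ2, t5, t6⟩
      · left; left; left; left
        rw [mem_Icc]
        refine ⟨(hE D hD).1, ?_⟩
        rw [Nat.le_sqrt']
        omega
    have hs0 : 0 < Real.sqrt N := Real.sqrt_pos.2 (by linarith)
    have c0 : (((Icc 1 (Nat.sqrt N)).card : ℕ) : ℝ) ≤ 2 * (N * w) := by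
      rw [Nat.card_Icc]
      have h1 : ((Nat.sqrt N + 1 - 1 : ℕ) : ℝ) ≤ Real.sqrt N := by
        rw [Nat.add_sub_cancel]
        exact Real.nat_sqrt_le_real_sqrt
      have h2 : Real.log N ≤ 2 * Real.sqrt N := by
        have h3 := Real.log_le_rpow_div (x := N) (by positivity) (ε := 1 / 2) (by norm_num)
        rw [← Real.sqrt_eq_rpow] at h3
        linarith
      have h4 : Real.sqrt N ≤ 2 * N * (1 / Real.log N) := by
        rw [mul_one_div, le_div_iff₀ hlp]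
        have h5 : Real.sqrt N * Real.sqrt N = N := Real.mul_self_sqrt (by positivity)
        calc Real.sqrt N * Real.log N ≤ Real.sqrt N * (2 * Real.sqrt N) :=
              mul_le_mul_of_nonneg_left h2 hs0.le
          _ = 2 * (Real.sqrt N * Real.sqrt N) := by ring
          _ = _ := by rw [h5]
      calc _ ≤ Real.sqrt N := h1
        _ ≤ 2 * N * (1 / Real.log N) := h4
        _ ≤ 2 * N * w := mul_le_mul_of_nonneg_left h1w (by positivity)
        _ = _ := by ring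
    have hNL : (N : ℝ) / L ≤ N * w := by
      calc (N : ℝ) / L ≤ N / Real.log N := by gcongr
        _ = N * (1 / Real.log N) := by ring
        _ ≤ _ := mul_le_mul_of_nonneg_left h1w (by positivity)
    have c1 : (((E.filter (fun D => ∃ h, L < h ∧ h ^ 2 ∣ D)).card : ℕ) : ℝ) ≤ N * w := by
      refine (E1_card N L hL1 _ ?_).trans hNL
      intro D hD
      rw [mem_filter] at hD
      exact ⟨(hE D hD.1).1, (hE D hD.1).2.1, hD.2⟩
    have c2 : (((E.filter (fun D => ∃ c r s h z : ℕ, ∃ x : ℤ, Tup p q D c r s h z x ∧ c * s = k ∧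
        L < z ∧ (CA * ((q.natAbs * N : ℕ) : ℤ)) ^ MA < x)).card : ℕ) : ℝ) ≤ K2 * (N * w) := by
      refine (E2x_card hq hCA k N L (by omega) hL1 _ ?_).trans ?_
      · intro D hD
        rw [mem_filter] at hD
        exact ⟨(hE D hD.1).2.1, hD.2⟩
      · rw [← hK2]
        exact mul_le_mul_of_nonneg_left hNL hK20
    -- the bound for the types
    have hR0R : (R0 : ℝ) ≤ C1 * Real.sqrt N := by
      have h1 : (R0 : ℝ) ≤ Real.sqrt ((C1 * N : ℕ) : ℝ) := by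
        rw [hR0]; exact Real.nat_sqrt_le_real_sqrt
      refine h1.trans ?_
      push_cast
      rw [Real.sqrt_mul (by positivity)]
      apply mul_le_mul_of_nonneg_right _ hs0.le
      rw [Real.sqrt_le_left (by positivity)]
      have : (1 : ℝ) ≤ C1 := by exact_mod_cast hC11
      nlinarith
    have htype : ((FP * (k ^ 2 * (1 + L * BE * dn) ^ 5) *
        (k * (L * (L * ((2 * BE + 1) * (R0 * 2))))) : ℕ) : ℝ) ≤
        (K * C1 * 128 * 16 ^ 8) * (N * w) := by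
      have h1 : FP * (k ^ 2 * (1 + L * BE * dn) ^ 5) * (k * (L * (L * ((2 * BE + 1) * (R0 * 2))))) ≤
          K * L ^ 7 * R0 := by
        have h2 : 1 + L * BE * dn ≤ L * (1 + BE * dn) := by
          have : L * (1 + BE * dn) = L + L * BE * dn := by ring
          omega
        calc _ ≤ FP * (k ^ 2 * (L * (1 + BE * dn)) ^ 5) *
              (k * (L * (L * ((2 * BE + 1) * (R0 * 2))))) := by gcongr
          _ = K * L ^ 7 * R0 := by rw [hK]; ring
      have h3 : (L : ℝ) ^ 7 ≤ 128 * Real.log N ^ 7 := by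
        calc (L : ℝ) ^ 7 ≤ (2 * Real.log N) ^ 7 := by gcongr
          _ = _ := by ring
      calc _ ≤ ((K * L ^ 7 * R0 : ℕ) : ℝ) := by exact_mod_cast h1
        _ = K * (L : ℝ) ^ 7 * R0 := by push_cast; ring
        _ ≤ K * (128 * Real.log N ^ 7) * (C1 * Real.sqrt N) := by gcongr
        _ = (K * C1 * 128) * (Real.log N ^ 7 * Real.sqrt N) := by ring
        _ ≤ (K * C1 * 128) * (16 ^ 8 * (N * (1 / Real.log N))) :=
            mul_le_mul_of_nonneg_left (log_pow_le hN) (by positivity)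
        _ ≤ (K * C1 * 128) * (16 ^ 8 * (N * w)) := by gcongr
        _ = _ := by ring
    have c3 : (((E.filter (fun D => ∃ c r s h z : ℕ, ∃ g i j e : ℤ, ∃ ρ1 ρ2 : ℕ,
          Exd p q k m L BE ((2 * N') ^ M1) D c r s h z g i j e ρ1 ρ2 ∧ ρ1 ≤ R0)).card : ℕ) : ℝ) ≤
          (K * C1 * 128 * 16 ^ 8) * (N * w) := by
      refine le_trans ?_ htype
      have := type1_card hPLm hk0 hdn1 N' hN'1 b1 b2 b3 (E.filter (fun D => ∃ c r s h z : ℕ,
        ∃ g i j e : ℤ, ∃ ρ1 ρ2 : ℕ, Exd p q k m L BE ((2 * N') ^ M1) D c r s h z g i j e ρ1 ρ2 ∧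
          ρ1 ≤ R0)) (fun D hD => (mem_filter.1 hD).2)
      exact_mod_cast this
    have c4 : (((E.filter (fun D => ∃ c r s h z : ℕ, ∃ g i j e : ℤ, ∃ ρ1 ρ2 : ℕ,
          Exd p q k m L BE ((2 * N') ^ M1) D c r s h z g i j e ρ1 ρ2 ∧ ρ2 ≤ R0)).card : ℕ) : ℝ) ≤
          (K * C1 * 128 * 16 ^ 8) * (N * w) := by
      refine le_trans ?_ htype
      have := type2_card hPLm hk0 hqk hd hdn N' hN'1 b1 b2 b3 (E.filter (fun D => ∃ c r s h z : ℕ,
        ∃ g i j e : ℤ, ∃ ρ1 ρ2 : ℕ, Exd p q k m L BE ((2 * N') ^ M1) D c r s h z g i j e ρ1 ρ2 ∧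
          ρ2 ≤ R0)) (fun D hD => (mem_filter.1 hD).2)
      exact_mod_cast this
    obtain ⟨S1, hS1⟩ : ∃ S, S = E.filter (fun D => ∃ h, L < h ∧ h ^ 2 ∣ D) := ⟨_, rfl⟩
    obtain ⟨S2, hS2⟩ : ∃ S, S = E.filter (fun D => ∃ c r s h z : ℕ, ∃ x : ℤ,
      Tup p q D c r s h z x ∧ c * s = k ∧ L < z ∧
        (CA * ((q.natAbs * N : ℕ) : ℤ)) ^ MA < x) := ⟨_, rfl⟩
    obtain ⟨S3, hS3⟩ : ∃ S, S = E.filter (fun D => ∃ c r s h z : ℕ, ∃ g i j e : ℤ, ∃ ρ1 ρ2 : ℕ,
          Exd p q k m L BE ((2 * N') ^ M1) D c r s h z g i j e ρ1 ρ2 ∧ ρ1 ≤ R0) := ⟨_, rfl⟩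
    obtain ⟨S4, hS4⟩ : ∃ S, S = E.filter (fun D => ∃ c r s h z : ℕ, ∃ g i j e : ℤ, ∃ ρ1 ρ2 : ℕ,
          Exd p q k m L BE ((2 * N') ^ M1) D c r s h z g i j e ρ1 ρ2 ∧ ρ2 ≤ R0) := ⟨_, rfl⟩
    rw [← hS1, ← hS2, ← hS3, ← hS4] at hsub
    rw [← hS1] at c1
    rw [← hS2] at c2
    rw [← hS3] at c3
    rw [← hS4] at c4
    have hcard : E.card ≤ (Icc 1 (Nat.sqrt N)).card + S1.card + S2.card + S3.card + S4.card := by
      refine (card_le_card hsub).trans ((card_union_le _ _).trans ?_)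
      gcongr
      refine (card_union_le _ _).trans ?_
      gcongr
      refine (card_union_le _ _).trans ?_
      gcongr
      exact card_union_le _ _
    have hcardR : (E.card : ℝ) ≤ ((Icc 1 (Nat.sqrt N)).card : ℝ) + (S1.card : ℝ) + (S2.card : ℝ) +
        (S3.card : ℝ) + (S4.card : ℝ) := by
      exact_mod_cast hcard
    have hfin : 0 ≤ Real.log N0 ^ (1 / 1000 : ℝ) * (N * w) := by positivity
    calc (E.card : ℝ) ≤ 2 * (N * w) + N * w + K2 * (N * w) + (K * C1 * 128 * 16 ^ 8) * (N * w) +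
          (K * C1 * 128 * 16 ^ 8) * (N * w) := by linarith
      _ ≤ ((3 + K2 + 2 * (K * C1 * 128 * 16 ^ 8)) + Real.log N0 ^ (1 / 1000 : ℝ)) * (N * w) := by
          linarith

end Pool.Agent.J4H76.TW
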