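import Pool.Agent.J4H76.TW.B7
import Pool.Agent.J4H76.TW.C9

/-!
# The count for all twists of all curves with exactly one rational point of order two
-/

open Finset

set_option autoImplicit false

namespace Pool.Agent.J4H76.TW

lemma no_sq' {p q D X y : ℤ} (hns : ¬ IsSquare (p ^ 2 - 4 * q)) (hcase : q < 0 ∨ IsSquare q)
    (hD : D ≠ 0) (h1 : y ^ 2 = X * (X ^ 2 + p * D * X + q * D ^ 2))
    (hbig : (|p ^ 2 - 4 * q| + |p|) * D ^ 2 < X) : ¬ IsSquare (q * X) := by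
  have hd : p ^ 2 - 4 * q ≠ 0 := fun h => hns (by rw [h]; exact ⟨0, by norm_num⟩)
  have hD2 : 1 ≤ D ^ 2 := by have := sq_pos_of_ne_zero hD; omega
  have hd1 : 1 ≤ |p ^ 2 - 4 * q| := Int.one_le_abs hd
  have hp0 := abs_nonneg p
  have hX0 : 0 < X := by nlinarith
  rintro ⟨w, hw⟩
  rcases hcase with hneg | ⟨m, hm⟩
  · have h2 : q * X < 0 := mul_neg_of_neg_of_pos hneg hX0
    have h3 := mul_self_nonneg w
    omega
  · have hm0 : m ≠ 0 := by
      rintro rfl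
      apply hns
      rw [hm]
      exact ⟨p, by ring⟩
    -- X is a square
    obtain ⟨t, ht⟩ : ∃ t, X = t ^ 2 := by
      have h2 : m ∣ w := by
        rw [← Int.pow_dvd_pow_iff (n := 2) (by norm_num)]
        exact ⟨X, by rw [hm] at hw; linear_combination -hw⟩
      obtain ⟨t, rfl⟩ := h2
      refine ⟨t, ?_⟩
      have h3 : m ^ 2 * (X - t ^ 2) = 0 := by rw [hm] at hw; linear_combination hw
      rcases mul_eq_zero.1 h3 with h4 | h4
      · exact absurd h4 (pow_ne_zero _ hm0)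
      · omega
    have ht0 : t ≠ 0 := by rintro rfl; omega
    obtain ⟨v, hv⟩ : ∃ v, X ^ 2 + p * D * X + q * D ^ 2 = v ^ 2 := by
      have h2 : t ∣ y := by
        rw [← Int.pow_dvd_pow_iff (n := 2) (by norm_num)]
        have h3 : t ^ 2 ∣ X := ⟨1, by rw [ht]; ring⟩
        rw [h1]
        exact h3.mul_right _
      obtain ⟨v, rfl⟩ := h2
      refine ⟨v, ?_⟩
      have h3 : t ^ 2 * (X ^ 2 + p * D * X + q * D ^ 2 - v ^ 2) = 0 := by
        have h4 : X * (X ^ 2 + p * D * X + q * D ^ 2) = t ^ 2 * (X ^ 2 + p * D * X + q * D ^ 2) := by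
          rw [ht]
        linear_combination -h1 - h4
      rcases mul_eq_zero.1 h3 with h4 | h4
      · exact absurd h4 (pow_ne_zero _ ht0)
      · omega
    -- difference of squares
    obtain ⟨V, hV⟩ : ∃ V, V = |v| := ⟨_, rfl⟩
    have hv' : X ^ 2 + p * D * X + q * D ^ 2 = V ^ 2 := by rw [hV, sq_abs]; exact hv
    have h5 : (2 * X + p * D - 2 * V) * (2 * X + p * D + 2 * V) = (p ^ 2 - 4 * q) * D ^ 2 := by
      linear_combination 4 * hv'
    have h6 : |2 * X + p * D + 2 * V| ≤ |(p ^ 2 - 4 * q) * D ^ 2| := by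
      apply Int.le_of_dvd (abs_pos.2 (mul_ne_zero hd (by positivity)))
      rw [abs_dvd_abs, ← h5]
      exact dvd_mul_left _ _
    rw [abs_mul, abs_of_nonneg (by positivity : (0 : ℤ) ≤ D ^ 2)] at h6
    have h7 := le_abs_self (2 * X + p * D + 2 * V)
    have h8 : |p * D| ≤ |p| * D ^ 2 := by
      rw [abs_mul]
      apply mul_le_mul_of_nonneg_left _ (abs_nonneg _)
      have := Int.one_le_abs hD
      rw [← sq_abs]
      nlinarith
    have h9 := neg_abs_le (p * D)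
    have h10 : 0 ≤ V := by rw [hV]; exact abs_nonneg v
    nlinarith

theorem main_all_pos (hDO : StDO) : ∃ M : ℕ, ∀ p q : ℤ, ¬ IsSquare (p ^ 2 - 4 * q) →
    ∃ C : ℝ, 0 ≤ C ∧ ∀ N : ℕ, 3 ≤ N → ∀ E : Finset ℕ,
      (∀ D ∈ E, 1 ≤ D ∧ D ≤ N ∧ ∃ X y : ℤ, y ^ 2 = X * (X ^ 2 + p * D * X + q * D ^ 2) ∧
        (D : ℤ) ^ M < X) →
      (E.card : ℝ) ≤ C * (N * Real.log N ^ (-(1 / 1000) : ℝ)) := by
  classical
  obtain ⟨M1, hM1⟩ := main_pos hDO
  obtain ⟨M2, hM2⟩ := main_exc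
  refine ⟨M1 + M2 + 3, ?_⟩
  intro p q hns
  obtain ⟨C1, hC10, hC1⟩ := hM1 p q hns
  have hexc : ∃ C : ℝ, 0 ≤ C ∧ ∀ N : ℕ, 3 ≤ N → ∀ E : Finset ℕ,
      (∀ D ∈ E, 1 ≤ D ∧ D ≤ N ∧ ∃ X y : ℤ, y ^ 2 = X * (X ^ 2 + p * D * X + q * D ^ 2) ∧
        (D : ℤ) ^ (M1 + M2 + 3) < X ∧ IsSquare (q * X)) →
      (E.card : ℝ) ≤ C * (N * Real.log N ^ (-(1 / 1000) : ℝ)) := by
    by_cases hcase : q < 0 ∨ IsSquare q
    · obtain ⟨D1, hD1⟩ : ∃ D1 : ℕ, (D1 : ℤ) = |p ^ 2 - 4 * q| + |p| :=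
        ⟨(|p ^ 2 - 4 * q| + |p|).toNat, by rw [Int.toNat_of_nonneg (by positivity)]⟩
      refine ⟨D1, by positivity, ?_⟩
      intro N hN E hE
      have hNR : (3 : ℝ) ≤ N := by exact_mod_cast hN
      have hl1 : 1 ≤ Real.log N := by
        rw [Real.le_log_iff_exp_le (by linarith)]
        linarith [Real.exp_one_lt_d9]
      have hw1 : 1 ≤ N * Real.log N ^ (-(1 / 1000) : ℝ) := by
        rw [Real.rpow_neg (by linarith), ← div_eq_mul_inv, le_div_iff₀ (by positivity), one_mul]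
        calc Real.log N ^ (1 / 1000 : ℝ) ≤ Real.log N ^ (1 : ℝ) :=
              Real.rpow_le_rpow_of_exponent_le hl1 (by norm_num)
          _ = Real.log N := Real.rpow_one _
          _ ≤ N := (Real.log_le_sub_one_of_pos (by linarith)).trans (by linarith)
      have hsub : E ⊆ Icc 1 D1 := by
        intro D hD
        obtain ⟨h1, h2, X, y, h3, h4, h5⟩ := hE D hD
        rw [mem_Icc]
        refine ⟨h1, ?_⟩
        by_contra hcon
        push Not at hcon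
        have hDZ : (1 : ℤ) ≤ D := by exact_mod_cast h1
        have hDD : (D1 : ℤ) ≤ D := by exact_mod_cast hcon.le
        refine no_sq' hns hcase (by omega) h3 ?_ h5
        rw [← hD1]
        calc (D1 : ℤ) * (D : ℤ) ^ 2 ≤ D * (D : ℤ) ^ 2 :=
              mul_le_mul_of_nonneg_right hDD (by positivity)
          _ = (D : ℤ) ^ 3 := by ring
          _ ≤ (D : ℤ) ^ (M1 + M2 + 3) := pow_le_pow_right₀ hDZ (by omega)
          _ < X := h4
      have hc := card_le_card hsub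
      rw [Nat.card_Icc, Nat.add_sub_cancel] at hc
      have hcR : (E.card : ℝ) ≤ D1 := by exact_mod_cast hc
      have : (0 : ℝ) ≤ D1 := by positivity
      nlinarith
    · push Not at hcase
      obtain ⟨hq0, hqns⟩ := hcase
      have hq : q ≠ 0 := by rintro rfl; exact hqns ⟨0, by norm_num⟩
      obtain ⟨C2, hC20, hC2⟩ := hM2 p q hns (by omega) hqns
      refine ⟨C2, hC20, ?_⟩
      intro N hN E hE
      apply hC2 N hN E
      intro D hD
      obtain ⟨h1, h2, X, y, h3, h4, h5⟩ := hE D hD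
      have hDZ : (1 : ℤ) ≤ D := by exact_mod_cast h1
      exact ⟨h1, h2, X, y, h3, lt_of_le_of_lt (pow_le_pow_right₀ hDZ (by omega)) h4, h5⟩
  obtain ⟨C2, hC20, hC2⟩ := hexc
  refine ⟨C1 + C2, by positivity, ?_⟩
  intro N hN E hE
  have g1 := hC1 N hN (E.filter fun D => ∃ X y : ℤ,
    y ^ 2 = X * (X ^ 2 + p * D * X + q * D ^ 2) ∧ (D : ℤ) ^ M1 < X ∧ ¬ IsSquare (q * X)) (by
      intro D hD
      rw [mem_filter] at hD
      exact ⟨(hE D hD.1).1, (hE D hD.1).2.1, hD.2⟩)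
  have g2 := hC2 N hN (E.filter fun D => ∃ X y : ℤ,
    y ^ 2 = X * (X ^ 2 + p * D * X + q * D ^ 2) ∧ (D : ℤ) ^ (M1 + M2 + 3) < X ∧
      IsSquare (q * X)) (by
      intro D hD
      rw [mem_filter] at hD
      exact ⟨(hE D hD.1).1, (hE D hD.1).2.1, hD.2⟩)
  have hsub : E ⊆ (E.filter fun D => ∃ X y : ℤ,
    y ^ 2 = X * (X ^ 2 + p * D * X + q * D ^ 2) ∧ (D : ℤ) ^ M1 < X ∧ ¬ IsSquare (q * X)) ∪
    (E.filter fun D => ∃ X y : ℤ,
    y ^ 2 = X * (X ^ 2 + p * D * X + q * D ^ 2) ∧ (D : ℤ) ^ (M1 + M2 + 3) < X ∧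
      IsSquare (q * X)) := by
    intro D hD
    obtain ⟨h1, h2, X, y, h3, h4⟩ := hE D hD
    have hDZ : (1 : ℤ) ≤ D := by exact_mod_cast h1
    rw [mem_union, mem_filter, mem_filter]
    by_cases h5 : IsSquare (q * X)
    · exact Or.inr ⟨hD, X, y, h3, h4, h5⟩
    · exact Or.inl ⟨hD, X, y, h3, lt_of_le_of_lt (pow_le_pow_right₀ hDZ (by omega)) h4, h5⟩
  have hc := (card_le_card hsub).trans (card_union_le _ _)
  have hcR := (Nat.cast_le (α := ℝ)).2 hc
  rw [Nat.cast_add] at hcR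
  linarith

/-- **Large integral points on the twists.** -/
theorem final_all (hDO : StDO) : ∃ M : ℕ, ∀ a b e : ℤ, e ^ 3 + a * e + b = 0 →
    ¬ IsSquare (-(3 * e ^ 2 + 4 * a)) → ∃ C : ℝ, 0 ≤ C ∧ ∀ N : ℕ, 3 ≤ N → ∀ E : Finset ℤ,
      (∀ D ∈ E, D ≠ 0 ∧ |D| ≤ N ∧ ∃ x y : ℤ, y ^ 2 = x ^ 3 + a * D ^ 2 * x + b * D ^ 3 ∧
        |D| ^ M < max |x| |y|) →
      (E.card : ℝ) ≤ C * (N * Real.log N ^ (-(1 / 1000) : ℝ)) := by
  classical
  obtain ⟨M, hM⟩ := main_all_pos hDO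
  refine ⟨2 * (M + 1) + 1, ?_⟩
  intro a b e he hns
  obtain ⟨C1, hC10, hC1⟩ := hM (3 * e) (3 * e ^ 2 + a) (by
    have : (3 * e) ^ 2 - 4 * (3 * e ^ 2 + a) = -(3 * e ^ 2 + 4 * a) := by ring
    rwa [this])
  obtain ⟨C2, hC20, hC2⟩ := hM (-(3 * e)) (3 * e ^ 2 + a) (by
    have : (-(3 * e)) ^ 2 - 4 * (3 * e ^ 2 + a) = -(3 * e ^ 2 + 4 * a) := by ring
    rwa [this])
  obtain ⟨D0, hD0⟩ : ∃ D0 : ℕ, (D0 : ℤ) = 2 * (|3 * e| + |3 * e ^ 2 + a| + 1) ^ 2 + |e| :=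
    ⟨(2 * (|3 * e| + |3 * e ^ 2 + a| + 1) ^ 2 + |e|).toNat, by
      rw [Int.toNat_of_nonneg (by positivity)]⟩
  have hD01 : 1 ≤ D0 := by
    have h1 : (1 : ℤ) ≤ D0 := by
      rw [hD0]
      have h2 : 1 ≤ |3 * e| + |3 * e ^ 2 + a| + 1 := by
        have := abs_nonneg (3 * e)
        have := abs_nonneg (3 * e ^ 2 + a)
        linarith
      have h3 : 1 ≤ (|3 * e| + |3 * e ^ 2 + a| + 1) ^ 2 := one_le_pow₀ h2
      have := abs_nonneg e
      linarith
    exact_mod_cast h1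
  refine ⟨(2 * D0 + 1) + C1 + C2, by positivity, ?_⟩
  intro N hN E hE
  have hNR : (3 : ℝ) ≤ N := by exact_mod_cast hN
  have hl1 : 1 ≤ Real.log N := by
    rw [Real.le_log_iff_exp_le (by linarith)]
    linarith [Real.exp_one_lt_d9]
  obtain ⟨w, hw⟩ : ∃ w : ℝ, w = N * Real.log N ^ (-(1 / 1000) : ℝ) := ⟨_, rfl⟩
  have hw1 : 1 ≤ w := by
    rw [hw, Real.rpow_neg (by linarith), ← div_eq_mul_inv, le_div_iff₀ (by positivity), one_mul]
    calc Real.log N ^ (1 / 1000 : ℝ) ≤ Real.log N ^ (1 : ℝ) :=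
          Real.rpow_le_rpow_of_exponent_le hl1 (by norm_num)
      _ = Real.log N := Real.rpow_one _
      _ ≤ N := (Real.log_le_sub_one_of_pos (by linarith)).trans (by linarith)
  rw [← hw]
  -- the three parts
  have hkey : ∀ D ∈ E, (D0 : ℤ) ≤ |D| → ∃ X y : ℤ,
      y ^ 2 = X * (X ^ 2 + 3 * e * D * X + (3 * e ^ 2 + a) * D ^ 2) ∧ |D| ^ M < X := by
    intro D hD hDD
    obtain ⟨hD1, hDN, x, y, hxy, hbig⟩ := hE D hD
    have h1 := shift_large he (M := M + 1) (by omega) (by rw [← hD0]; exact hDD) hxy hbig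
    have h2 : 1 ≤ |D| := by
      have : (1 : ℤ) ≤ D0 := by exact_mod_cast hD01
      omega
    refine ⟨x - e * D, y, shift_eq he hxy, ?_⟩
    exact lt_of_le_of_lt (pow_le_pow_right₀ h2 (by omega)) h1
  have c1 := hC1 N hN ((E.filter fun D => (D0 : ℤ) ≤ D).image Int.toNat) (by
    intro n hn
    obtain ⟨D, hD, rfl⟩ := mem_image.1 hn
    rw [mem_filter] at hD
    have hDpos : (1 : ℤ) ≤ D := by
      have : (1 : ℤ) ≤ D0 := by exact_mod_cast hD01
      omega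
    have habs : |D| = D := abs_of_pos (by omega)
    have hcast : ((D.toNat : ℕ) : ℤ) = D := Int.toNat_of_nonneg (by omega)
    obtain ⟨X, y, h1, h2⟩ := hkey D hD.1 (by rw [habs]; exact hD.2)
    have h4 := (hE D hD.1).2.1
    rw [habs] at h2 h4
    refine ⟨by omega, by omega, X, y, ?_, ?_⟩
    · rw [hcast]; exact h1
    · rw [hcast]; exact h2)
  rw [card_image_of_injOn (by
    intro D hD D' hD' h
    rw [mem_coe, mem_filter] at hD hD'
    have : (1 : ℤ) ≤ D0 := by exact_mod_cast hD01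
    have h' : D.toNat = D'.toNat := h
    omega), ← hw] at c1
  have c2 := hC2 N hN ((E.filter fun D => D ≤ -(D0 : ℤ)).image fun D => (-D).toNat) (by
    intro n hn
    obtain ⟨D, hD, rfl⟩ := mem_image.1 hn
    rw [mem_filter] at hD
    have hDpos : D ≤ -(1 : ℤ) := by
      have : (1 : ℤ) ≤ D0 := by exact_mod_cast hD01
      omega
    have habs : |D| = -D := abs_of_neg (by omega)
    have hcast : (((-D).toNat : ℕ) : ℤ) = -D := Int.toNat_of_nonneg (by omega)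
    obtain ⟨X, y, h1, h2⟩ := hkey D hD.1 (by rw [habs]; omega)
    have h4 := (hE D hD.1).2.1
    rw [habs] at h2 h4
    refine ⟨by omega, by omega, X, y, ?_, ?_⟩
    · rw [hcast, h1]; ring
    · rw [hcast]; exact h2)
  rw [card_image_of_injOn (by
    intro D hD D' hD' h
    rw [mem_coe, mem_filter] at hD hD'
    have : (1 : ℤ) ≤ D0 := by exact_mod_cast hD01
    simp only at h
    omega), ← hw] at c2
  have hsub : E ⊆ (Icc (-(D0 : ℤ)) D0 ∪ E.filter fun D => (D0 : ℤ) ≤ D) ∪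
      E.filter fun D => D ≤ -(D0 : ℤ) := by
    intro D hD
    rw [mem_union, mem_union, mem_filter, mem_filter, mem_Icc]
    by_cases h1 : (D0 : ℤ) ≤ D
    · exact Or.inl (Or.inr ⟨hD, h1⟩)
    · by_cases h2 : D ≤ -(D0 : ℤ)
      · exact Or.inr ⟨hD, h2⟩
      · left; left; omega
  have hcard : E.card ≤ (2 * D0 + 1) + (E.filter fun D => (D0 : ℤ) ≤ D).card +
      (E.filter fun D => D ≤ -(D0 : ℤ)).card := by
    refine (card_le_card hsub).trans ((card_union_le _ _).trans ?_)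
    gcongr
    refine (card_union_le _ _).trans ?_
    gcongr
    rw [Int.card_Icc]
    omega
  have hcardR : (E.card : ℝ) ≤ (2 * D0 + 1) + ((E.filter fun D => (D0 : ℤ) ≤ D).card : ℝ) +
      ((E.filter fun D => D ≤ -(D0 : ℤ)).card : ℝ) := by exact_mod_cast hcard
  have h5 : (2 * (D0 : ℝ) + 1) ≤ (2 * D0 + 1) * w := by
    have : (0 : ℝ) ≤ 2 * D0 + 1 := by positivity
    nlinarith
  calc (E.card : ℝ) ≤ (2 * D0 + 1) * w + C1 * w + C2 * w := by linarith
    _ = _ := by ring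

end Pool.Agent.J4H76.TW
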