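import Pool.Agent.J4H76.TW.A11
import Pool.Agent.J4H76.TW.B2

/-!
# The number of large points on the quartic curves `ρ² u⁴ - ζ = s v²`
-/

set_option autoImplicit false

namespace Pool.Agent.J4H76.TW

lemma class_dvd {X Y s v n a b v1 v2 : ℕ} (hXY : X * Y = s * v ^ 2) (hX : X = a * v1 ^ 2)
    (hY : Y = b * v2 ^ 2) (hv1 : 0 < v1) (hv2 : 0 < v2) (ha : Squarefree a)
    (hn : ∀ l, l.Prime → l ∣ X → l ∣ Y → l ∣ n) : a ∣ n * s := by
  obtain ⟨g, hg⟩ : ∃ g, g = Nat.gcd a (n * s) := ⟨_, rfl⟩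
  obtain ⟨a', ha'⟩ : ∃ a', a' = a / Nat.gcd a (n * s) := ⟨_, rfl⟩
  have hga : g * a' = a := by rw [hg, ha']; exact Nat.mul_div_cancel' (Nat.gcd_dvd_left _ _)
  have hcop : a'.Coprime (n * s) := ha' ▸ part_coprime ha
  have ha's : Squarefree a' := ha.squarefree_of_dvd ⟨g, by rw [← hga]; ring⟩
  have h1 : (a * b * s) * (v1 * v2) ^ 2 = (s * v) ^ 2 := by
    have h2 : a * v1 ^ 2 * (b * v2 ^ 2) = s * v ^ 2 := by rw [← hX, ← hY, hXY]
    calc (a * b * s) * (v1 * v2) ^ 2 = (a * v1 ^ 2 * (b * v2 ^ 2)) * s := by ring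
      _ = _ := by rw [h2]; ring
  obtain ⟨w, hw⟩ := cancel_sq (Nat.mul_pos hv1 hv2) h1
  have hc1 : a'.Coprime (g * b * s) := by
    refine Nat.Coprime.mul_right (Nat.Coprime.mul_right ?_ ?_) ?_
    · rw [← hga] at ha
      exact (Nat.squarefree_mul_iff.1 ha).1.symm
    · rw [Nat.coprime_iff_gcd_eq_one]
      by_contra hcon
      obtain ⟨l, hl, hld⟩ := Nat.exists_prime_and_dvd hcon
      have l1 : l ∣ a' := hld.trans (Nat.gcd_dvd_left _ _)
      have l2 : l ∣ b := hld.trans (Nat.gcd_dvd_right _ _)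
      have l3 : l ∣ n := hn l hl
        (by rw [hX, ← hga]; exact (l1.mul_left g).mul_right _) (by rw [hY]; exact l2.mul_right _)
      have l4 : l ∣ 1 := by
        rw [← Nat.coprime_iff_gcd_eq_one.1 hcop]
        exact Nat.dvd_gcd l1 (l3.mul_right _)
      exact hl.one_lt.ne' (Nat.dvd_one.1 l4)
    · exact hcop.coprime_dvd_right (dvd_mul_left _ _)
  have h3 := sqf_one_of_sq ha's hc1 (w := w) (by rw [← hw, ← hga]; ring)
  rw [h3, mul_one] at hga
  rw [← hga, hg]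
  exact Nat.gcd_dvd_right _ _

/-- the reducible case -/
theorem split_card : ∃ M F : ℕ, ∀ (N ρ s κ : ℤ), 1 ≤ N → 0 < ρ → ρ ≤ N → 0 < s → s ≤ N →
    0 < κ → κ ≤ N → ∀ S : Finset ℤ,
      (∀ x ∈ S, (2 * N) ^ M < x ∧ (∃ u, 0 < u ∧ x = ρ * u ^ 2) ∧ ∃ v, x ^ 2 - κ ^ 2 = s * v ^ 2) →
      (S.card : ℤ) ≤ F * (2 * κ * s) ^ 2 := by
  classical
  obtain ⟨M0, F, hM0, hcc⟩ := class_card
  refine ⟨10 * M0, F, ?_⟩
  intro N ρ s κ hN hρ hρN hs hsN hκ hκN S hS
  obtain ⟨κn, rfl⟩ : ∃ n : ℕ, κ = n := ⟨κ.toNat, by omega⟩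
  obtain ⟨sn, rfl⟩ : ∃ n : ℕ, s = n := ⟨s.toNat, by omega⟩
  have hκn : 0 < κn := by exact_mod_cast hκ
  have hsn : 0 < sn := by exact_mod_cast hs
  have hNpow : ∀ k : ℕ, (1 : ℤ) ≤ N ^ k := fun k => one_le_pow₀ hN
  obtain ⟨H, hH⟩ : ∃ H : ℕ, (H : ℤ) = 64 * N ^ 10 := ⟨(64 * N ^ 10).toNat, by
    rw [Int.toNat_of_nonneg (by positivity)]⟩
  have hH1 : 1 ≤ H := by
    have : (1 : ℤ) ≤ H := by rw [hH]; have := hNpow 10; omega
    exact_mod_cast this
  have h2H : (1 : ℤ) ≤ ((2 * H : ℕ) : ℤ) := by exact_mod_cast (by omega : 1 ≤ 2 * H)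
  have hbig : ((2 * H : ℕ) : ℤ) ^ M0 ≤ (2 * N) ^ (10 * M0) := by
    rw [pow_mul]
    apply pow_le_pow_left₀ (by positivity)
    push_cast
    rw [hH]
    have : (2 * N) ^ 10 = 1024 * N ^ 10 := by ring
    rw [this]
    have := hNpow 10
    omega
  have hbigx : ∀ x ∈ S, ((2 * H : ℕ) : ℤ) ^ M0 < x := fun x hx => lt_of_le_of_lt hbig (hS x hx).1
  have hHx : ∀ x : ℤ, ((2 * H : ℕ) : ℤ) ^ M0 < x → (2 * (H : ℤ)) ^ 3 ≤ x := by
    intro x hx
    refine le_trans ?_ hx.le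
    calc (2 * (H : ℤ)) ^ 3 = ((2 * H : ℕ) : ℤ) ^ 3 := by push_cast; ring
      _ ≤ _ := pow_le_pow_right₀ h2H hM0
  have hH3 : (2 * (H : ℤ)) ≤ (2 * (H : ℤ)) ^ 3 := le_self_pow₀ (by omega) (by norm_num)
  have hHN : ∀ k : ℕ, k ≤ 10 → 64 * N ^ k ≤ H := by
    intro k hk
    rw [hH]
    exact mul_le_mul_of_nonneg_left (pow_le_pow_right₀ hN hk) (by norm_num)
  -- the classes
  have key : ∀ x ∈ S, ∃ ab : ℕ × ℕ, ab.1 ∣ 2 * κn * sn ∧ ab.2 ∣ 2 * κn * sn ∧ 0 < ab.1 ∧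
      0 < ab.2 ∧ ∃ v1 v2 u : ℤ, 0 < u ∧ x = ρ * u ^ 2 ∧ x - κn = ab.1 * v1 ^ 2 ∧
      x + κn = ab.2 * v2 ^ 2 := by
    intro x hx
    obtain ⟨h1, ⟨u, hu, hxu⟩, v, hv⟩ := hS x hx
    have hxκ : (κn : ℤ) < x := by
      have h2 := hHx x (hbigx x hx)
      have h3 := hHN 1 (by norm_num)
      rw [pow_one] at h3
      omega
    obtain ⟨X, hX⟩ : ∃ X : ℕ, (X : ℤ) = x - κn := ⟨(x - κn).toNat, by omega⟩
    obtain ⟨Y, hY⟩ : ∃ Y : ℕ, (Y : ℤ) = x + κn := ⟨(x + κn).toNat, by omega⟩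
    have hX0 : 0 < X := by omega
    have hY0 : 0 < Y := by omega
    obtain ⟨a, v1, ha0, hv1, hav, has⟩ := Nat.sq_mul_squarefree_of_pos hX0
    obtain ⟨b, v2, hb0, hv2, hbv, hbs⟩ := Nat.sq_mul_squarefree_of_pos hY0
    have hXY : X * Y = sn * v.natAbs ^ 2 := by
      have : ((X * Y : ℕ) : ℤ) = ((sn * v.natAbs ^ 2 : ℕ) : ℤ) := by
        push_cast
        rw [sq_abs, hX, hY]
        linear_combination hv
      exact_mod_cast this
    have hn : ∀ l : ℕ, l.Prime → l ∣ X → l ∣ Y → l ∣ 2 * κn := by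
      intro l _ h2 h3
      have h4 : Y = X + 2 * κn := by omega
      rw [h4] at h3
      exact (Nat.dvd_add_right h2).1 h3
    refine ⟨(a, b), ?_, ?_, ha0, hb0, v1, v2, u, hu, hxu, ?_, ?_⟩
    · exact class_dvd (a := a) (b := b) hXY (by rw [← hav]; ring) (by rw [← hbv]; ring) hv1 hv2
        has hn
    · exact class_dvd (a := b) (b := a) (by rw [mul_comm]; exact hXY) (by rw [← hbv]; ring)
        (by rw [← hav]; ring) hv2 hv1 hbs (fun l hl h2 h3 => hn l hl h3 h2)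
    · rw [← hX, ← hav]; push_cast; ring
    · rw [← hY, ← hbv]; push_cast; ring
  choose! ab hab1 hab2 hab3 hab4 hab5 using key
  have hfib : ∀ y ∈ S.image ab, (S.filter fun x => ab x = y).card ≤ F := by
    intro y hy
    obtain ⟨x0, hx0, hx0y⟩ := Finset.mem_image.1 hy
    have ya := hab1 x0 hx0
    have yb := hab2 x0 hx0
    have ya0 := hab3 x0 hx0
    have yb0 := hab4 x0 hx0
    rw [hx0y] at ya yb ya0 yb0
    have hm0 : 0 < 2 * κn * sn := by positivity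
    have yaN : (y.1 : ℤ) ≤ 2 * N * N := by
      have h1 : (y.1 : ℤ) ≤ 2 * κn * sn := by exact_mod_cast Nat.le_of_dvd hm0 ya
      have h2 : (2 * κn * sn : ℤ) ≤ 2 * N * N := by gcongr
      linarith
    have ybN : (y.2 : ℤ) ≤ 2 * N * N := by
      have h1 : (y.2 : ℤ) ≤ 2 * κn * sn := by exact_mod_cast Nat.le_of_dvd hm0 yb
      have h2 : (2 * κn * sn : ℤ) ≤ 2 * N * N := by gcongr
      linarith
    obtain ⟨A, hA⟩ : ∃ A : ℤ, A = 2 * κn ^ 2 * (y.1 + y.2) := ⟨_, rfl⟩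
    obtain ⟨B, hB⟩ : ∃ B : ℤ, B = 2 * κn * (y.1 - y.2) := ⟨_, rfl⟩
    have e1 : A + B * κn = 4 * κn ^ 2 * y.1 := by rw [hA, hB]; ring
    have e2 : A - B * κn = 4 * κn ^ 2 * y.2 := by rw [hA, hB]; ring
    have e3 : A ^ 2 - 0 * A * B + (-(κn : ℤ) ^ 2) * B ^ 2 = 16 * κn ^ 4 * (y.1 * y.2) := by
      calc A ^ 2 - 0 * A * B + (-(κn : ℤ) ^ 2) * B ^ 2 = (A + B * κn) * (A - B * κn) := by ring
        _ = _ := by rw [e1, e2]; ring
    have hya0 : (0 : ℤ) < y.1 := by exact_mod_cast ya0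
    have hyb0 : (0 : ℤ) < y.2 := by exact_mod_cast yb0
    have hκ2 : (κn : ℤ) ^ 2 ≤ N ^ 2 := pow_le_pow_left₀ (by omega) hκN 2
    have hbnd : ∀ t : ℤ, 0 < t → t ≤ 2 * N * N → 4 * (κn : ℤ) ^ 2 * t ≤ H := by
      intro t ht ht2
      have h1 := hHN 4 (by norm_num)
      have h2 : 4 * (κn : ℤ) ^ 2 * t ≤ 4 * N ^ 2 * (2 * N * N) := by gcongr
      have h3 : 4 * N ^ 2 * (2 * N * N) = 8 * N ^ 4 := by ring
      have := hNpow 4
      omega
    have hcard := hcc (p := 0) (q := -(κn : ℤ) ^ 2) (A := A) (B := B) (r := ρ) (N := 1)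
      (by
        have : (0 : ℤ) ^ 2 - 4 * (-(κn : ℤ) ^ 2) = 4 * κn ^ 2 := by ring
        rw [this]
        positivity) (by simp only [ne_eq, neg_eq_zero]; positivity) (by rw [e3]; positivity) H hH1
      (by simp) (by
        rw [abs_neg, abs_of_nonneg (sq_nonneg _), one_pow, mul_one]
        have := hHN 2 (by norm_num)
        have := hNpow 2
        omega) (by
        have := hHN 1 (by norm_num)
        rw [pow_one] at this
        omega) (κn : ℂ) (-(κn : ℂ)) (by push_cast; ring) (by push_cast; ring) (by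
        have h1 : ((A : ℂ) + B * (κn : ℂ)) = ((4 * κn ^ 2 * y.1 : ℤ) : ℂ) := by
          rw [← e1]; push_cast; ring
        rw [h1, Complex.norm_intCast, abs_of_nonneg (by positivity)]
        exact_mod_cast hbnd _ hya0 yaN) (by
        have h1 : ((A : ℂ) + B * (-(κn : ℂ))) = ((4 * κn ^ 2 * y.2 : ℤ) : ℂ) := by
          rw [← e2]; push_cast; ring
        rw [h1, Complex.norm_intCast, abs_of_nonneg (by positivity)]
        exact_mod_cast hbnd _ hyb0 ybN) (κn : ℝ) (by simp) (by simp) (by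
        intro x hx
        have h1 := hHx x hx
        have h4 := hHN 4 (by norm_num)
        have h3 := hHN 3 (by norm_num)
        have h2 := hHN 2 (by norm_num)
        have n4 := hNpow 4
        have n3 := hNpow 3
        have n2 := hNpow 2
        have n1 := hNpow 1
        have k2 : (κn : ℤ) ^ 2 ≤ N ^ 2 := hκ2
        have k3 : (κn : ℤ) ^ 3 ≤ N ^ 3 := pow_le_pow_left₀ (by omega) hκN 3
        have k1 : (κn : ℤ) ≤ N ^ 2 := by nlinarith
        refine ⟨?_, ?_, ?_, ?_, ?_⟩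
        · have h5 : 6 * (κn : ℤ) * 1 * (1 + 2 * κn) ≤ x := by
            have : 6 * (κn : ℤ) * 1 * (1 + 2 * κn) = 6 * κn + 12 * κn ^ 2 := by ring
            rw [this]
            omega
          exact_mod_cast h5
        · have h5 : 12 * (κn : ℤ) * 1 * |(0 : ℤ) ^ 2 - 4 * (-(κn : ℤ) ^ 2)| ≤ x := by
            have h6 : (0 : ℤ) ^ 2 - 4 * (-(κn : ℤ) ^ 2) = 4 * κn ^ 2 := by ring
            rw [h6, abs_of_nonneg (by positivity)]
            have : 12 * (κn : ℤ) * 1 * (4 * κn ^ 2) = 48 * κn ^ 3 := by ring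
            rw [this]
            omega
          exact_mod_cast h5
        · have h5 : 4 * |(0 : ℤ) ^ 2 - 4 * (-(κn : ℤ) ^ 2)| * 1 ^ 2 ≤ x := by
            have h6 : (0 : ℤ) ^ 2 - 4 * (-(κn : ℤ) ^ 2) = 4 * κn ^ 2 := by ring
            rw [h6, abs_of_nonneg (by positivity)]
            omega
          exact_mod_cast h5
        · have h5 : 4 * |-(κn : ℤ) ^ 2| * 1 ^ 2 + 4 * |(0 : ℤ)| * 1 ≤ x := by
            rw [abs_neg, abs_of_nonneg (by positivity), abs_zero]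
            omega
          exact_mod_cast h5
        · have h5 : (|A ^ 2 - 0 * A * B + (-(κn : ℤ) ^ 2) * B ^ 2| * |-(κn : ℤ) ^ 2| * 1 ^ 2) ^ 2 ≤ x := by
            rw [e3, abs_neg, abs_of_nonneg (by positivity), abs_of_nonneg (by positivity)]
            refine le_trans ?_ h1
            have h6 : (16 * (κn : ℤ) ^ 4 * (y.1 * y.2)) * κn ^ 2 * 1 ^ 2 ≤ H := by
              have h7 : (16 * (κn : ℤ) ^ 4 * (y.1 * y.2)) * κn ^ 2 * 1 ^ 2 ≤
                  (16 * N ^ 4 * ((2 * N * N) * (2 * N * N))) * N ^ 2 * 1 ^ 2 := by gcongr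
              have h8 : (16 * N ^ 4 * ((2 * N * N) * (2 * N * N))) * N ^ 2 * 1 ^ 2 = 64 * N ^ 10 := by
                ring
              rw [hH]
              omega
            calc ((16 * (κn : ℤ) ^ 4 * (y.1 * y.2)) * κn ^ 2 * 1 ^ 2) ^ 2 ≤ (H : ℤ) ^ 2 :=
                  pow_le_pow_left₀ (by positivity) h6 2
              _ ≤ (2 * (H : ℤ)) ^ 3 := by
                  have : (2 * (H : ℤ)) ^ 3 = (8 * H) * (H : ℤ) ^ 2 := by ring
                  rw [this]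
                  have : (1 : ℤ) ≤ H := by exact_mod_cast hH1
                  nlinarith [sq_nonneg (H : ℤ)]
          exact_mod_cast h5)
      ((S.filter fun x => ab x = y).image fun x => (x, (1 : ℤ))) (by
        intro P hP
        obtain ⟨x, hx, rfl⟩ := Finset.mem_image.1 hP
        rw [Finset.mem_filter] at hx
        obtain ⟨v1, v2, u, hu, hxu, g1, g2⟩ := hab5 x hx.1
        rw [hx.2] at g1 g2
        refine ⟨le_rfl, hbigx x hx.1, κn * (y.1 * v1 + y.2 * v2), y.1 * v1 - y.2 * v2, u, ?_⟩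
        refine ⟨?_, ?_, hxu, hu, hρ, le_rfl, isCoprime_one_right⟩
        · simp only
          have h1 : x = y.1 * v1 ^ 2 + κn := by linarith
          have h2 : x = y.2 * v2 ^ 2 - κn := by linarith
          have h3 : (κn : ℤ) ^ 2 * (y.1 * (x - κn)) = κn ^ 2 * (y.1 * (y.1 * v1 ^ 2)) := by rw [g1]
          have h4 : (κn : ℤ) ^ 2 * (y.2 * (x + κn)) = κn ^ 2 * (y.2 * (y.2 * v2 ^ 2)) := by rw [g2]
          rw [hA, hB]
          linear_combination 2 * h3 + 2 * h4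
        · simp only
          have h3 : (κn : ℤ) * (y.1 * (x - κn)) = κn * (y.1 * (y.1 * v1 ^ 2)) := by rw [g1]
          have h4 : (κn : ℤ) * (y.2 * (x + κn)) = κn * (y.2 * (y.2 * v2 ^ 2)) := by rw [g2]
          rw [hA, hB]
          linear_combination 2 * h3 - 2 * h4)
    rw [Finset.card_image_of_injective _ (fun x y h => (Prod.mk.inj h).1)] at hcard
    exact hcard
  have h1 := Finset.card_le_mul_card_image (f := ab) S F hfib
  have h2 : (S.image ab).card ≤ (2 * κn * sn) ^ 2 := by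
    have hsub : S.image ab ⊆ (2 * κn * sn).divisors ×ˢ (2 * κn * sn).divisors := by
      intro y hy
      obtain ⟨x0, hx0, rfl⟩ := Finset.mem_image.1 hy
      have hm0 : 2 * κn * sn ≠ 0 := by positivity
      exact Finset.mem_product.2 ⟨Nat.mem_divisors.2 ⟨hab1 x0 hx0, hm0⟩,
        Nat.mem_divisors.2 ⟨hab2 x0 hx0, hm0⟩⟩
    refine (Finset.card_le_card hsub).trans ?_
    rw [Finset.card_product, pow_two]
    exact Nat.mul_le_mul (Nat.card_divisors_le_self _) (Nat.card_divisors_le_self _)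
  have h3 : S.card ≤ F * (2 * κn * sn) ^ 2 := h1.trans (Nat.mul_le_mul_left _ h2)
  exact_mod_cast h3

end Pool.Agent.J4H76.TW
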