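import Pool.Agent.J4H76.TW.C2

/-!
# The number of large points on the quartic curves: all cases, uniformly
-/

set_option autoImplicit false

namespace Pool.Agent.J4H76.TW

lemma not_sq4 {ζ : ℤ} (h : ¬ IsSquare ζ) : ¬ IsSquare (0 ^ 2 - 4 * (-ζ)) := by
  rintro ⟨w, hw⟩
  apply h
  have h1 : (2 : ℤ) ∣ w := by
    rw [← Int.pow_dvd_pow_iff (n := 2) (by norm_num)]
    exact ⟨ζ, by linear_combination -hw⟩
  obtain ⟨k, rfl⟩ := h1
  exact ⟨k, by linarith⟩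

lemma Dst_le (ζ : ℤ) : Dst 0 (-ζ) ≤ 33153 * (1 + |ζ|) ^ 5 := by
  unfold Dst Kst
  rw [abs_neg, abs_zero]
  obtain ⟨T, hT⟩ : ∃ T, T = 1 + |ζ| := ⟨_, rfl⟩
  have hT1 : 1 ≤ T := by have := abs_nonneg ζ; linarith
  have hζ : |ζ| = T - 1 := by linarith
  rw [hζ]
  have h1 : (2 * ((1 + 0 + (T - 1)) * (4 * ((1 + 0) * (1 + 0 + (T - 1)) + 2 * (T - 1) + 3 + 0 +
      (T - 1)) ^ 2)) + 1) * (4 * (4 * ((1 + 0) * (1 + 0 + (T - 1)) + 2 * (T - 1) + 3 + 0 +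
      (T - 1)) ^ 2) + 1) = (128 * T ^ 3 + 1) * (256 * T ^ 2 + 1) := by ring
  rw [h1]
  have h2 : (1 : ℤ) ≤ T ^ 3 := one_le_pow₀ hT1
  have h3 : (1 : ℤ) ≤ T ^ 2 := one_le_pow₀ hT1
  have h4 : (1 + (T - 1)) = T := by ring
  rw [h4]
  calc (128 * T ^ 3 + 1) * (256 * T ^ 2 + 1) ≤ (129 * T ^ 3) * (257 * T ^ 2) := by
        apply mul_le_mul (by linarith) (by linarith) (by positivity) (by positivity)
    _ = 33153 * T ^ 5 := by ring

lemma cst_le {ζ N : ℤ} (hN : 1 ≤ N) (h : |ζ| ≤ N) : 0 ≤ 2 * cst 0 (-ζ) * N ∧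
    2 * cst 0 (-ζ) * N ≤ (2 * N) ^ 15 := by
  unfold cst Kst
  have h4 : |(0 : ℤ) ^ 2 - 4 * (-ζ)| = 4 * |ζ| := by
    have : (0 : ℤ) ^ 2 - 4 * (-ζ) = 4 * ζ := by ring
    rw [this, abs_mul]; rfl
  rw [h4, abs_neg, abs_zero]
  obtain ⟨T, hT⟩ : ∃ T, T = 1 + |ζ| := ⟨_, rfl⟩
  have hT1 : 1 ≤ T := by have := abs_nonneg ζ; linarith
  have hζ : |ζ| = T - 1 := by linarith
  have hTN : T ≤ 2 * N := by linarith
  rw [hζ]
  obtain ⟨c, hc⟩ : ∃ c : ℤ, c = 1 + 4 * ((1 + 0) * (1 + 0 + (T - 1)) + 2 * (T - 1) + 3 + 0 +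
      (T - 1)) ^ 2 * (1 + (1 + 0 + (T - 1))) +
      6 * (1 + 0 + (T - 1)) * (1 + 2 * (1 + 0 + (T - 1))) +
      12 * (1 + 0 + (T - 1)) * (4 * (T - 1)) + 4 * (4 * (T - 1)) + (4 * (T - 1) + 4 * 0) +
      (1 + 0 + (T - 1)) * (4 * ((1 + 0) * (1 + 0 + (T - 1)) + 2 * (T - 1) + 3 + 0 +
      (T - 1)) ^ 2) * (T - 1) := ⟨_, rfl⟩
  rw [← hc]
  have hc2 : c = 64 * T ^ 4 - 19 - 22 * T + 124 * T ^ 2 := by rw [hc]; ring
  have h1 : (1 : ℤ) ≤ T ^ 2 := one_le_pow₀ hT1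
  have h2 : T ^ 2 ≤ T ^ 4 := pow_le_pow_right₀ hT1 (by norm_num)
  have h3 : T ≤ T ^ 2 := by nlinarith
  have hc0 : 0 ≤ c := by rw [hc2]; linarith
  have hc3 : c ≤ 188 * T ^ 4 := by rw [hc2]; linarith
  refine ⟨by positivity, ?_⟩
  calc 2 * c * N ≤ 2 * (188 * (2 * N) ^ 4) * N := by
        have : T ^ 4 ≤ (2 * N) ^ 4 := pow_le_pow_left₀ (by omega) hTN 4
        have h5 : c ≤ 188 * (2 * N) ^ 4 := by linarith
        exact mul_le_mul_of_nonneg_right (by linarith) (by omega)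
    _ = 6016 * N ^ 5 := by ring
    _ ≤ 32768 * N ^ 15 := by
        have : N ^ 5 ≤ N ^ 15 := pow_le_pow_right₀ hN (by norm_num)
        have : 0 ≤ N ^ 5 := by positivity
        linarith
    _ = _ := by ring

theorem pell_card : ∃ M F : ℕ, ∀ (N ρ s ζ : ℤ), 1 ≤ N → 0 < ρ → ρ ≤ N → 0 < s → s ≤ N →
    ζ ≠ 0 → |ζ| ≤ N → ∀ S : Finset ℤ,
      (∀ x ∈ S, (2 * N) ^ M < x ∧ (∃ u, 0 < u ∧ x = ρ * u ^ 2) ∧ ∃ v, x ^ 2 - ζ = s * v ^ 2) →
      (S.card : ℤ) ≤ F * (s ^ 2 * (1 + |ζ|) ^ 5) := by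
  classical
  obtain ⟨M1, F1, h1⟩ := pts_card'
  obtain ⟨M2, F2, h2⟩ := split_card
  refine ⟨15 * M1 + M2 + 1, F1 * 33153 + F2 * 4, ?_⟩
  intro N ρ s ζ hN hρ hρN hs hsN hζ hζN S hS
  have h2N : 1 ≤ 2 * N := by omega
  have hT1 : 1 ≤ 1 + |ζ| := by have := abs_nonneg ζ; linarith
  have hpw : ∀ k, k ≤ 15 * M1 + M2 + 1 → ∀ x ∈ S, (2 * N) ^ k < x := fun k hk x hx =>
    lt_of_le_of_lt (pow_le_pow_right₀ h2N hk) (hS x hx).1
  by_cases hsq : IsSquare ζ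
  · obtain ⟨w, hw⟩ := hsq
    have hw0 : w ≠ 0 := by rintro rfl; exact hζ (by rw [hw]; ring)
    have hwa : 1 ≤ |w| := Int.one_le_abs hw0
    have hζw : ζ = |w| ^ 2 := by rw [sq_abs, hw]; ring
    have hζa : |ζ| = |w| ^ 2 := by rw [hζw, abs_pow, abs_abs]
    have hwN : |w| ≤ N := by nlinarith
    have h3 := h2 N ρ s |w| hN hρ hρN hs hsN (by omega) hwN S (by
      intro x hx
      refine ⟨hpw M2 (by omega) x hx, (hS x hx).2.1, ?_⟩
      rw [← hζw]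
      exact (hS x hx).2.2)
    refine h3.trans ?_
    push_cast
    have h4 : (2 * |w| * s) ^ 2 = 4 * (s ^ 2 * |ζ|) := by rw [hζa]; ring
    rw [h4]
    have h5 : |ζ| ≤ (1 + |ζ|) ^ 5 := by
      calc |ζ| ≤ 1 + |ζ| := by linarith
        _ ≤ _ := le_self_pow₀ hT1 (by norm_num)
    have h6 : s ^ 2 * |ζ| ≤ s ^ 2 * (1 + |ζ|) ^ 5 := mul_le_mul_of_nonneg_left h5 (sq_nonneg _)
    have h7 : (0 : ℤ) ≤ F1 * 33153 * (s ^ 2 * (1 + |ζ|) ^ 5) := by positivity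
    have h8 : (F2 : ℤ) * (4 * (s ^ 2 * |ζ|)) ≤ F2 * (4 * (s ^ 2 * (1 + |ζ|) ^ 5)) :=
      mul_le_mul_of_nonneg_left (by linarith) (by positivity)
    linarith
  · obtain ⟨g1, g2⟩ := cst_le hN hζN
    have hfib : ∀ t ∈ S.image (fun x => x % s), (S.filter fun x => x % s = t).card ≤
        F1 * (Dst 0 (-ζ)).toNat := by
      intro t _
      have h3 := h1 0 (-ζ) (not_sq4 hsq) (neg_ne_zero.2 hζ) N ρ s t hN hρN hρ hs hsN
        ((S.filter fun x => x % s = t).image fun x => (x, (1 : ℤ))) (by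
          intro P hP
          obtain ⟨x, hx, rfl⟩ := Finset.mem_image.1 hP
          rw [Finset.mem_filter] at hx
          obtain ⟨h4, h5, v, hv⟩ := hS x hx.1
          have hxN : N < x := by
            have := hpw 1 (by omega) x hx.1
            rw [pow_one] at this
            omega
          have hpos : 0 < s * v ^ 2 := by
            rw [← hv]
            have : |ζ| < x ^ 2 := by nlinarith
            have := le_abs_self ζ
            linarith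
          have hv0 : v ≠ 0 := by rintro rfl; simp at hpos
          refine ⟨le_rfl, hN, isCoprime_one_right, ?_, h5, ⟨|v|, Int.one_le_abs hv0, ?_⟩, ?_⟩
          · simp only
            refine lt_of_le_of_lt ?_ (hpw (15 * M1) (by omega) x hx.1)
            rw [pow_mul]
            exact pow_le_pow_left₀ g1 g2 _
          · unfold QQ
            rw [sq_abs]
            simp only
            linear_combination hv
          · simp only
            rw [mul_one, ← hx.2]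
            exact Int.dvd_self_sub_emod)
      rw [Finset.card_image_of_injective _ (fun x y h => (Prod.mk.inj h).1)] at h3
      exact h3
    have h3 := Finset.card_le_mul_card_image (f := fun x => x % s) S _ hfib
    have h4 : (S.image (fun x => x % s)).card ≤ s.toNat := by
      have hsub : S.image (fun x => x % s) ⊆ Finset.Ico 0 s := by
        intro t ht
        obtain ⟨x, -, rfl⟩ := Finset.mem_image.1 ht
        exact Finset.mem_Ico.2 ⟨Int.emod_nonneg _ (by omega), Int.emod_lt_of_pos _ hs⟩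
      refine (Finset.card_le_card hsub).trans ?_
      rw [Int.card_Ico]
      omega
    have h5 : (S.card : ℤ) ≤ F1 * (Dst 0 (-ζ)).toNat * s := by
      have h6 : S.card ≤ F1 * (Dst 0 (-ζ)).toNat * s.toNat := h3.trans (Nat.mul_le_mul_left _ h4)
      have h7 : (S.card : ℤ) ≤ ((F1 * (Dst 0 (-ζ)).toNat * s.toNat : ℕ) : ℤ) := by exact_mod_cast h6
      push_cast at h7
      rwa [Int.toNat_of_nonneg hs.le] at h7
    have h6 : ((Dst 0 (-ζ)).toNat : ℤ) ≤ 33153 * (1 + |ζ|) ^ 5 := by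
      have := Dst_le ζ
      have h8 : 0 ≤ 33153 * (1 + |ζ|) ^ 5 := by positivity
      omega
    have h7 : s ≤ s ^ 2 := by nlinarith
    calc (S.card : ℤ) ≤ F1 * (Dst 0 (-ζ)).toNat * s := h5
      _ ≤ F1 * (33153 * (1 + |ζ|) ^ 5) * s ^ 2 := by gcongr
      _ ≤ F1 * (33153 * (1 + |ζ|) ^ 5) * s ^ 2 + F2 * 4 * (s ^ 2 * (1 + |ζ|) ^ 5) := by
          have : (0 : ℤ) ≤ F2 * 4 * (s ^ 2 * (1 + |ζ|) ^ 5) := by positivity
          linarith
      _ = _ := by push_cast; ring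

end Pool.Agent.J4H76.TW
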