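import Pool.Agent.J4H76.TW.C1
import Pool.Agent.J4H76.TW.C3
import Pool.Agent.J4H76.TW.B4

/-!
# The exceptional coset: data of a large point
-/

open Finset

set_option autoImplicit false

namespace Pool.Agent.J4H76.TW

lemma exc_large {p q q0 m z g i j E N : ℤ} {M : ℕ} (hM : 1 ≤ M) (hq : q = q0 * m ^ 2)
    (hq0 : 1 ≤ q0) (hd : p ^ 2 - 4 * q ≠ 0) (hz : 1 ≤ z) (hg : 0 < g) (hj : 0 < j) (hE : E ≠ 0)
    (h1 : j ^ 2 - q0 * i ^ 2 = z * E) (h2 : 2 * q0 * m * i - p * j = g * E) (hN : 1 ≤ N)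
    (b1 : z * |E| ≤ N) (b2 : 2 * q0 * |m| + |p| ≤ N) (b3 : |q| ≤ N)
    (hx : (2 * N) ^ (2 * M + 5) < g * j) :
    (2 * N) ^ M < j ∧ (2 * N) ^ M < |g * E| := by
  have h2N : 1 ≤ 2 * N := by omega
  have hE1 : 1 ≤ |E| := Int.one_le_abs hE
  have hm0 := abs_nonneg m
  have hp0 := abs_nonneg p
  have hq0' := abs_nonneg q
  have hi : |i| ≤ j + N := by
    apply abs_le_of_sq_le_sq _ (by omega)
    have h3 : -(z * |E|) ≤ z * E := by
      have := neg_abs_le (z * E)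
      rw [abs_mul, abs_of_pos (by omega : 0 < z)] at this
      exact this
    have h4 : q0 * i ^ 2 ≤ j ^ 2 + N := by linarith
    have h5 : i ^ 2 ≤ q0 * i ^ 2 := by nlinarith [sq_nonneg i]
    nlinarith
  have hsum : |2 * q0 * m * i| + |p * j| ≤ N * (j + N) := by
    have e1 : |2 * q0 * m * i| = 2 * q0 * |m| * |i| := by
      rw [abs_mul, abs_mul, abs_of_nonneg (by omega : 0 ≤ 2 * q0)]
    have e2 : |p * j| = |p| * j := by rw [abs_mul, abs_of_pos hj]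
    rw [e1, e2]
    have e3 : 2 * q0 * |m| * |i| ≤ 2 * q0 * |m| * (j + N) :=
      mul_le_mul_of_nonneg_left hi (by positivity)
    have e4 : |p| * j ≤ |p| * (j + N) := mul_le_mul_of_nonneg_left (by omega) hp0
    have e5 : (2 * q0 * |m| + |p|) * (j + N) ≤ N * (j + N) :=
      mul_le_mul_of_nonneg_right b2 (by omega)
    linarith
  have hgE : |g * E| ≤ N * (j + N) := by
    rw [← h2]
    exact (abs_sub _ _).trans hsum
  have hg1 : g ≤ |g * E| := by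
    rw [abs_mul, abs_of_pos hg]
    nlinarith
  -- the lower bound for j
  have hjbig : (2 * N) ^ (M + 2) < j := by
    by_contra hcon
    push Not at hcon
    have hNB : N ≤ (2 * N) ^ (M + 2) := by
      calc N ≤ (2 * N) ^ 1 := by rw [pow_one]; omega
        _ ≤ _ := pow_le_pow_right₀ h2N (by omega)
    have h3 : g * j ≤ (2 * N) ^ (2 * M + 5) := by
      calc g * j ≤ (N * (j + N)) * j := mul_le_mul_of_nonneg_right (hg1.trans hgE) hj.le
        _ ≤ (N * ((2 * N) ^ (M + 2) + (2 * N) ^ (M + 2))) * (2 * N) ^ (M + 2) := by gcongr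
        _ = (2 * N) ^ (2 * M + 5) := by ring
    omega
  refine ⟨lt_of_le_of_lt (pow_le_pow_right₀ h2N (by omega)) hjbig, ?_⟩
  by_contra hcon
  push Not at hcon
  have hid : (p ^ 2 - 4 * q) * j ^ 2 = -((g * E) * (2 * q0 * m * i + p * j)) - 4 * q * (z * E) := by
    rw [← h1, ← h2, hq]; ring
  have hd1 : 1 ≤ |p ^ 2 - 4 * q| := Int.one_le_abs hd
  have h3 : j ^ 2 ≤ (2 * N) ^ M * (N * (j + N)) + 4 * N * N := by
    calc j ^ 2 ≤ |p ^ 2 - 4 * q| * j ^ 2 := by nlinarith [sq_nonneg j]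
      _ = |(p ^ 2 - 4 * q) * j ^ 2| := by rw [abs_mul, abs_of_nonneg (sq_nonneg j)]
      _ ≤ |g * E| * |2 * q0 * m * i + p * j| + |4 * q * (z * E)| := by
          rw [hid]
          refine (abs_sub _ _).trans ?_
          rw [abs_neg, abs_mul (g * E)]
      _ ≤ (2 * N) ^ M * (N * (j + N)) + 4 * N * N := by
          apply add_le_add
          · exact mul_le_mul hcon ((abs_add_le _ _).trans hsum) (abs_nonneg _) (by positivity)
          · rw [abs_mul, abs_mul, abs_mul z, abs_of_pos (by omega : 0 < z)]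
            have : |(4 : ℤ)| = 4 := rfl
            rw [this]
            exact mul_le_mul (by linarith) b1 (by positivity) (by omega)
  have hBj : (2 * N) ^ (M + 2) = 4 * N ^ 2 * (2 * N) ^ M := by ring
  have hB1 : 2 * N ≤ (2 * N) ^ M := le_self_pow₀ h2N (by omega)
  have hNj : N ≤ j := by
    have : N ≤ (2 * N) ^ (M + 2) := by
      calc N ≤ (2 * N) ^ 1 := by rw [pow_one]; omega
        _ ≤ _ := pow_le_pow_right₀ h2N (by omega)
    omega
  obtain ⟨B, hB⟩ : ∃ B, B = (2 * N) ^ M := ⟨_, rfl⟩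
  rw [← hB] at h3 hBj hB1
  rw [hBj] at hjbig
  have hB0 : 0 < B := by omega
  -- j ^ 2 > 4 N ^ 2 B j
  have h4 : 4 * N ^ 2 * B * j < j * j := mul_lt_mul_of_pos_right hjbig hj
  have h5 : B * (N * (j + N)) ≤ 2 * N ^ 2 * B * j := by
    have : N * (j + N) ≤ 2 * N ^ 2 * j := by nlinarith
    nlinarith
  have h6 : 4 * N * N ≤ 2 * N ^ 2 * B * j := by
    have : 2 ≤ B * j := by nlinarith
    nlinarith
  nlinarith

lemma sqf_dvd {a b K W u : ℕ} (hab : Squarefree (a * b)) (hK : 0 < K) (hW : 0 < W)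
    (hu : 0 < u) (h : (a * b) * W ^ 2 = K * u ^ 2) : a * b ∣ K := by
  obtain ⟨k1, k2, hk1, hk2, hk, hks⟩ := Nat.sq_mul_squarefree_of_pos hK
  have h1 : (a * b) * k1 * W ^ 2 = (k1 * k2 * u) ^ 2 := by
    calc (a * b) * k1 * W ^ 2 = ((a * b) * W ^ 2) * k1 := by ring
      _ = _ := by rw [h, ← hk]; ring
  obtain ⟨w, hw⟩ := cancel_sq hW h1
  have h2 : a * b = k1 := sqf_eq hab hks hw
  rw [h2, ← hk]
  exact dvd_mul_left _ _

lemma rho_bound {p q0 m g i j E : ℤ} {c r : ℕ} {u : ℤ} (hm : m ≠ 0) (hq0 : 1 ≤ q0)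
    (hg : 0 < g) (hj : 0 < j) (hE : E ≠ 0) (hij : IsCoprime i j)
    (h2 : 2 * q0 * m * i - p * j = g * E) (hcr : 0 < c * r) (hu : 0 < u)
    (hx : g * j = (c * r : ℕ) * u ^ 2) : ∃ ρ1 ρ2 : ℕ, 1 ≤ ρ1 ∧ 1 ≤ ρ2 ∧
      (∃ u1 : ℤ, 0 < u1 ∧ j = ρ1 * u1 ^ 2) ∧ (∃ u2 : ℤ, 0 < u2 ∧ |g * E| = ρ2 * u2 ^ 2) ∧
      ρ1 * ρ2 ≤ (2 * q0 * m).natAbs ^ 2 * (E.natAbs * (c * r)) := by
  have hgE : g * E ≠ 0 := mul_ne_zero hg.ne' hE
  obtain ⟨jn, hjn⟩ : ∃ n : ℕ, (n : ℤ) = j := ⟨j.toNat, by omega⟩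
  have hjn0 : 0 < jn := by omega
  have hyn0 : 0 < (g * E).natAbs := Int.natAbs_pos.2 hgE
  obtain ⟨ρ1, u1, hρ1, hu1, hju, hs1⟩ := Nat.sq_mul_squarefree_of_pos hjn0
  obtain ⟨ρ2, u2, hρ2, hu2, hyu, hs2⟩ := Nat.sq_mul_squarefree_of_pos hyn0
  refine ⟨ρ1, ρ2, hρ1, hρ2, ⟨u1, by exact_mod_cast hu1, ?_⟩, ⟨u2, by exact_mod_cast hu2, ?_⟩, ?_⟩
  · rw [← hjn, ← hju]; push_cast; ring
  · rw [Int.abs_eq_natAbs, ← hyu]; push_cast; ring
  · obtain ⟨a, b, hab, ha, hb⟩ := Nat.exists_coprime ρ1 ρ2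
    obtain ⟨e, he⟩ : ∃ e, e = Nat.gcd ρ1 ρ2 := ⟨_, rfl⟩
    rw [← he] at ha hb
    have he0 : 0 < e := by rw [he]; exact Nat.gcd_pos_of_pos_left _ hρ1
    have hEn : 0 < E.natAbs := Int.natAbs_pos.2 hE
    obtain ⟨un, hun⟩ : ∃ n : ℕ, (n : ℤ) = u := ⟨u.toNat, by omega⟩
    have hun0 : 0 < un := by omega
    have h3 : ρ1 * ρ2 * (u1 * u2) ^ 2 = (E.natAbs * (c * r)) * un ^ 2 := by
      have h4 : jn * (g * E).natAbs = (E.natAbs * (c * r)) * un ^ 2 := by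
        have h5 : ((jn * (g * E).natAbs : ℕ) : ℤ) = (((E.natAbs * (c * r)) * un ^ 2 : ℕ) : ℤ) := by
          push_cast
          rw [hjn, hun, abs_mul, abs_of_pos hg]
          push_cast at hx
          linear_combination |E| * hx
        exact_mod_cast h5
      calc ρ1 * ρ2 * (u1 * u2) ^ 2 = (u1 ^ 2 * ρ1) * (u2 ^ 2 * ρ2) := by ring
        _ = _ := by rw [hju, hyu, h4]
    have hsab : Squarefree (a * b) := (Nat.squarefree_mul hab).2
      ⟨hs1.squarefree_of_dvd ⟨e, ha⟩, hs2.squarefree_of_dvd ⟨e, hb⟩⟩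
    have h4 := sqf_dvd (W := e * u1 * u2) (u := un) (K := E.natAbs * (c * r)) hsab
      (Nat.mul_pos hEn hcr) (by positivity) hun0 (by rw [← h3, ha, hb]; ring)
    have h5 : (e : ℤ) ∣ 2 * q0 * m := by
      have l1 : (e : ℤ) ∣ j := by
        rw [← hjn]
        have : e ∣ jn := by rw [← hju, ha]; exact ⟨u1 ^ 2 * a, by ring⟩
        exact_mod_cast this
      have l2 : (e : ℤ) ∣ g * E := by
        exact Int.natCast_dvd.2 (by rw [← hyu, hb]; exact ⟨u2 ^ 2 * b, by ring⟩)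
      have l3 : (e : ℤ) ∣ (2 * q0 * m) * i := by
        have : (2 * q0 * m) * i = g * E + p * j := by linarith
        rw [this]
        exact dvd_add l2 (l1.mul_left _)
      have l4 : IsCoprime (e : ℤ) i := (hij.symm).of_isCoprime_of_dvd_left l1
      exact l4.dvd_of_dvd_mul_right l3
    have h6 : e ≤ (2 * q0 * m).natAbs := by
      apply Nat.le_of_dvd
      · apply Int.natAbs_pos.2
        exact mul_ne_zero (by omega) hm
      · exact Int.natCast_dvd.1 h5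
    have h7 : a * b ≤ E.natAbs * (c * r) := Nat.le_of_dvd (Nat.mul_pos hEn hcr) h4
    calc ρ1 * ρ2 = e ^ 2 * (a * b) := by rw [ha, hb]; ring
      _ ≤ _ := Nat.mul_le_mul (Nat.pow_le_pow_left h6 2) h7

end Pool.Agent.J4H76.TW
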