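import Pool.Agent.J4H76.TW.C4

/-!
# The exceptional coset: counting by one of the two factors
-/

open Finset

set_option autoImplicit false

namespace Pool.Agent.J4H76.TW

lemma sqf_unique {a b : ℕ} (ha : Squarefree a) (hb : Squarefree b) {u v : ℤ} (hu : 0 < u)
    (h : (a : ℤ) * u ^ 2 = b * v ^ 2) : a = b := by
  have h1 : a * u.natAbs ^ 2 = b * v.natAbs ^ 2 := by
    have : ((a * u.natAbs ^ 2 : ℕ) : ℤ) = ((b * v.natAbs ^ 2 : ℕ) : ℤ) := by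
      push_cast
      rw [sq_abs, sq_abs]
      exact h
    exact_mod_cast this
  have h2 : (a * b) * u.natAbs ^ 2 = (b * v.natAbs) ^ 2 := by
    calc (a * b) * u.natAbs ^ 2 = (a * u.natAbs ^ 2) * b := by ring
      _ = _ := by rw [h1]; ring
  obtain ⟨w, hw⟩ := cancel_sq (Int.natAbs_pos.2 hu.ne') h2
  exact sqf_eq ha hb hw

/-- the data of an exceptional large point -/
structure Exd (p q : ℤ) (q0 m L BE : ℕ) (B : ℤ) (D c r s h z : ℕ) (g i j e : ℤ)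
    (ρ1 ρ2 : ℕ) : Prop where
  hD : D = r * s * h ^ 2 * z
  hc1 : 1 ≤ c
  hc2 : c ≤ q0
  hh1 : 1 ≤ h
  hh2 : h ≤ L
  hz1 : 1 ≤ z
  hz2 : z ≤ L
  hcs : c * s = q0
  hcr : Squarefree (c * r)
  hx : ∃ u : ℤ, 0 < u ∧ g * j = (c * r : ℕ) * u ^ 2
  hg : 0 < g
  hj : 0 < j
  he : e ≠ 0
  heB : |e| ≤ BE
  h1 : j ^ 2 - q0 * i ^ 2 = z * e
  h2 : 2 * q0 * m * i - p * j = g * e
  h3 : (g * e) ^ 2 - (p ^ 2 - 4 * q) * (z * e) = q0 * (p * i - 2 * m * j) ^ 2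
  hρ1 : 1 ≤ ρ1
  hρ2 : 1 ≤ ρ2
  hu1 : ∃ u1 : ℤ, 0 < u1 ∧ j = ρ1 * u1 ^ 2
  hu2 : ∃ u2 : ℤ, 0 < u2 ∧ |g * e| = ρ2 * u2 ^ 2
  hl1 : B < j
  hl2 : B < |g * e|

/-- the point determines the twist -/
lemma Exd.det {p q : ℤ} {q0 m L BE : ℕ} {B : ℤ} {D c r s h z : ℕ} {g i j e : ℤ} {ρ1 ρ2 : ℕ}
    {D' r' s' : ℕ} {g' i' j' : ℤ} {ρ1' ρ2' : ℕ}
    (t : Exd p q q0 m L BE B D c r s h z g i j e ρ1 ρ2)
    (t' : Exd p q q0 m L BE B D' c r' s' h z g' i' j' e ρ1' ρ2') (hi : i = i') (hj : j = j') :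
    D = D' := by
  subst hi hj
  have hg : g = g' := by
    have h1 := t.h2
    rw [t'.h2] at h1
    exact (mul_right_cancel₀ t.he h1).symm
  subst hg
  obtain ⟨u, hu, hx⟩ := t.hx
  obtain ⟨u', hu', hx'⟩ := t'.hx
  have h1 : c * r = c * r' := sqf_unique t.hcr t'.hcr hu (by rw [← hx, hx'])
  have hc : 0 < c := t.hc1
  have h2 : r = r' := Nat.eq_of_mul_eq_mul_left hc h1
  have h3 : s = s' := Nat.eq_of_mul_eq_mul_left hc (t.hcs.trans t'.hcs.symm)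
  rw [t.hD, t'.hD, h2, h3]

lemma eq_of_sq_sign {a b : ℤ} (h : a ^ 2 = b ^ 2) (hs : (0 ≤ a) ↔ (0 ≤ b)) : a = b := by
  rcases sq_eq_sq_iff_eq_or_eq_neg.1 h with h1 | h1
  · exact h1
  · omega

/-- the statement of `pell_card` for given constants -/
def PL (M F : ℕ) : Prop := ∀ (N ρ s ζ : ℤ), 1 ≤ N → 0 < ρ → ρ ≤ N → 0 < s → s ≤ N →
    ζ ≠ 0 → |ζ| ≤ N → ∀ S : Finset ℤ,
      (∀ x ∈ S, (2 * N) ^ M < x ∧ (∃ u, 0 < u ∧ x = ρ * u ^ 2) ∧ ∃ v, x ^ 2 - ζ = s * v ^ 2) →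
      (S.card : ℤ) ≤ F * (s ^ 2 * (1 + |ζ|) ^ 5)

lemma lab_card (q0 L BE R0 : ℕ) : ((Icc 1 q0) ×ˢ ((Icc 1 L) ×ˢ ((Icc 1 L) ×ˢ
    ((Icc (-(BE : ℤ)) BE) ×ˢ ((Icc 1 R0) ×ˢ (univ : Finset Bool)))))).card =
    q0 * (L * (L * ((2 * BE + 1) * (R0 * 2)))) := by
  simp only [card_product, Nat.card_Icc, Nat.add_sub_cancel, Int.card_Icc, card_univ,
    Fintype.card_bool]
  congr 4
  omega

theorem type1_card {M F : ℕ} (hPL : PL M F) {p q : ℤ} {q0 m L BE R0 dn : ℕ} (hq0 : 1 ≤ q0)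
    (hdn : 1 ≤ dn) (N' : ℤ) (hN' : 1 ≤ N') (b1 : (R0 : ℤ) ≤ N')
    (b2 : (q0 : ℤ) ≤ N') (b3 : (L * BE * dn : ℤ) ≤ N') (E : Finset ℕ)
    (hE : ∀ D ∈ E, ∃ c r s h z : ℕ, ∃ g i j e : ℤ, ∃ ρ1 ρ2 : ℕ,
      Exd p q q0 m L BE ((2 * N') ^ M) D c r s h z g i j e ρ1 ρ2 ∧ ρ1 ≤ R0) :
    E.card ≤ F * (q0 ^ 2 * (1 + L * BE * dn) ^ 5) * (q0 * (L * (L * ((2 * BE + 1) * (R0 * 2))))) := by
  classical
  choose! c r s h z g i j e ρ1 ρ2 ht hρ using hE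
  obtain ⟨lab, hlab⟩ : ∃ lab : ℕ → ℕ × ℕ × ℕ × ℤ × ℕ × Bool, lab = fun D =>
    (c D, h D, z D, e D, ρ1 D, decide (0 ≤ i D)) := ⟨_, rfl⟩
  have himg : (E.image lab).card ≤ q0 * (L * (L * ((2 * BE + 1) * (R0 * 2)))) := by
    rw [← lab_card]
    apply card_le_card
    intro τ hτ
    obtain ⟨D, hD, rfl⟩ := mem_image.1 hτ
    have t := ht D hD
    rw [hlab]
    simp only [mem_product, mem_Icc, mem_univ, and_true]
    have := abs_le.1 t.heB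
    exact ⟨⟨t.hc1, t.hc2⟩, ⟨t.hh1, t.hh2⟩, ⟨t.hz1, t.hz2⟩, this, t.hρ1, hρ D hD⟩
  refine (card_le_mul_card_image (f := lab) E (F * (q0 ^ 2 * (1 + L * BE * dn) ^ 5)) ?_).trans
    (Nat.mul_le_mul_left _ himg)
  intro τ hτ
  obtain ⟨D0, hD0, hD0τ⟩ := mem_image.1 hτ
  have t0 := ht D0 hD0
  have hcomp : ∀ D, lab D = τ → c D = c D0 ∧ h D = h D0 ∧ z D = z D0 ∧ e D = e D0 ∧
      ρ1 D = ρ1 D0 ∧ ((0 ≤ i D) ↔ (0 ≤ i D0)) := by
    intro D hD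
    rw [← hD0τ, hlab] at hD
    simp only [Prod.mk.injEq, decide_eq_decide] at hD
    exact hD
  have hinj : Set.InjOn j (E.filter fun D => lab D = τ) := by
    intro D hD D' hD' hj
    rw [mem_coe, mem_filter] at hD hD'
    obtain ⟨a1, a2, a3, a4, a5, a6⟩ := hcomp D hD.2
    obtain ⟨b1, b2, b3, b4, b5, b6⟩ := hcomp D' hD'.2
    have t := ht D hD.1
    have t' := ht D' hD'.1
    rw [a1, a2, a3, a4] at t
    rw [b1, b2, b3, b4] at t'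
    have hi : i D = i D' := by
      apply eq_of_sq_sign _ (a6.trans b6.symm)
      have h1 := t.h1
      have h2 := t'.h1
      rw [← hj] at h2
      have hq0' : (q0 : ℤ) ≠ 0 := by exact_mod_cast (by omega : q0 ≠ 0)
      apply mul_left_cancel₀ hq0'
      linarith
    exact t.det t' hi hj
  have hζ0 : (z D0 : ℤ) * e D0 ≠ 0 := mul_ne_zero (by exact_mod_cast (by
    have := t0.hz1
    omega : z D0 ≠ 0)) t0.he
  have hζle : |(z D0 : ℤ) * e D0| ≤ (L * BE * dn : ℤ) := by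
    rw [abs_mul, Nat.abs_cast]
    have h1 : (z D0 : ℤ) ≤ L := by exact_mod_cast t0.hz2
    have h2 : (1 : ℤ) ≤ dn := by exact_mod_cast hdn
    have h3 : (z D0 : ℤ) * |e D0| ≤ L * BE := mul_le_mul h1 t0.heB (abs_nonneg _) (by positivity)
    have h4 : (0 : ℤ) ≤ L * BE := by positivity
    nlinarith
  have hcard := hPL N' (ρ1 D0) q0 ((z D0 : ℤ) * e D0) hN'
    (by exact_mod_cast t0.hρ1) (le_trans (by exact_mod_cast hρ D0 hD0) b1)
    (by exact_mod_cast hq0) b2 hζ0 (hζle.trans b3)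
    ((E.filter fun D => lab D = τ).image j) (by
      intro x hx
      obtain ⟨D, hD, rfl⟩ := mem_image.1 hx
      rw [mem_filter] at hD
      obtain ⟨a1, a2, a3, a4, a5, a6⟩ := hcomp D hD.2
      have t := ht D hD.1
      refine ⟨t.hl1, ?_, i D, ?_⟩
      · rw [← a5]; exact t.hu1
      · have h1 := t.h1
        rw [a3, a4] at h1
        linarith)
  rw [card_image_of_injOn hinj] at hcard
  have h5 : (1 + |(z D0 : ℤ) * e D0|) ^ 5 ≤ (1 + L * BE * dn : ℤ) ^ 5 :=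
    pow_le_pow_left₀ (by positivity) (by linarith) 5
  have h6 : ((E.filter fun D => lab D = τ).card : ℤ) ≤
      F * ((q0 : ℤ) ^ 2 * (1 + L * BE * dn) ^ 5) := by
    refine hcard.trans ?_
    gcongr
  exact_mod_cast h6

theorem type2_card {M F : ℕ} (hPL : PL M F) {p q : ℤ} {q0 m L BE R0 dn : ℕ} (hq0 : 1 ≤ q0)
    (hq : q = q0 * m ^ 2) (hd : p ^ 2 - 4 * q ≠ 0)
    (hdn : dn = (p ^ 2 - 4 * q).natAbs) (N' : ℤ) (hN' : 1 ≤ N') (b1 : (R0 : ℤ) ≤ N')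
    (b2 : (q0 : ℤ) ≤ N') (b3 : (L * BE * dn : ℤ) ≤ N') (E : Finset ℕ)
    (hE : ∀ D ∈ E, ∃ c r s h z : ℕ, ∃ g i j e : ℤ, ∃ ρ1 ρ2 : ℕ,
      Exd p q q0 m L BE ((2 * N') ^ M) D c r s h z g i j e ρ1 ρ2 ∧ ρ2 ≤ R0) :
    E.card ≤ F * (q0 ^ 2 * (1 + L * BE * dn) ^ 5) * (q0 * (L * (L * ((2 * BE + 1) * (R0 * 2))))) := by
  classical
  choose! c r s h z g i j e ρ1 ρ2 ht hρ using hE
  obtain ⟨lab, hlab⟩ : ∃ lab : ℕ → ℕ × ℕ × ℕ × ℤ × ℕ × Bool, lab = fun D =>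
    (c D, h D, z D, e D, ρ2 D, decide (0 ≤ p * i D - 2 * m * j D)) := ⟨_, rfl⟩
  have himg : (E.image lab).card ≤ q0 * (L * (L * ((2 * BE + 1) * (R0 * 2)))) := by
    rw [← lab_card]
    apply card_le_card
    intro τ hτ
    obtain ⟨D, hD, rfl⟩ := mem_image.1 hτ
    have t := ht D hD
    rw [hlab]
    simp only [mem_product, mem_Icc, mem_univ, and_true]
    have := abs_le.1 t.heB
    exact ⟨⟨t.hc1, t.hc2⟩, ⟨t.hh1, t.hh2⟩, ⟨t.hz1, t.hz2⟩, this, t.hρ2, hρ D hD⟩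
  refine (card_le_mul_card_image (f := lab) E (F * (q0 ^ 2 * (1 + L * BE * dn) ^ 5)) ?_).trans
    (Nat.mul_le_mul_left _ himg)
  intro τ hτ
  obtain ⟨D0, hD0, hD0τ⟩ := mem_image.1 hτ
  have t0 := ht D0 hD0
  have hcomp : ∀ D, lab D = τ → c D = c D0 ∧ h D = h D0 ∧ z D = z D0 ∧ e D = e D0 ∧
      ρ2 D = ρ2 D0 ∧ ((0 ≤ p * i D - 2 * m * j D) ↔ (0 ≤ p * i D0 - 2 * m * j D0)) := by
    intro D hD
    rw [← hD0τ, hlab] at hD
    simp only [Prod.mk.injEq, decide_eq_decide] at hD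
    exact hD
  have hq0' : (q0 : ℤ) ≠ 0 := by exact_mod_cast (by omega : q0 ≠ 0)
  have hinj : Set.InjOn (fun D => |g D * e D|) (E.filter fun D => lab D = τ) := by
    intro D hD D' hD' hj
    rw [mem_coe, mem_filter] at hD hD'
    obtain ⟨a1, a2, a3, a4, a5, a6⟩ := hcomp D hD.2
    obtain ⟨b1, b2, b3, b4, b5, b6⟩ := hcomp D' hD'.2
    have t := ht D hD.1
    have t' := ht D' hD'.1
    simp only at hj
    rw [a1, a2, a3, a4] at t
    rw [b1, b2, b3, b4] at t'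
    rw [a4, b4, abs_mul, abs_mul, abs_of_pos t.hg, abs_of_pos t'.hg] at hj
    have hgg : g D = g D' := mul_right_cancel₀ (abs_ne_zero.2 t0.he) hj
    have hw : p * i D - 2 * m * j D = p * i D' - 2 * m * j D' := by
      apply eq_of_sq_sign _ (a6.trans b6.symm)
      have h1 := t.h3
      have h2 := t'.h3
      rw [← hgg] at h2
      apply mul_left_cancel₀ hq0'
      linarith
    have hv : 2 * q0 * m * i D - p * j D = 2 * q0 * m * i D' - p * j D' := by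
      rw [t.h2, t'.h2, hgg]
    have hi : i D = i D' := by
      apply mul_left_cancel₀ hd
      rw [hq]
      linear_combination p * hw - (2 * m) * hv
    have hj' : j D = j D' := by
      apply mul_left_cancel₀ hd
      rw [hq]
      linear_combination (2 * q0 * m) * hw - p * hv
    exact t.det t' hi hj'
  have hz0 : (z D0 : ℤ) ≠ 0 := by
    exact_mod_cast (by
      have := t0.hz1
      omega : z D0 ≠ 0)
  have hζ0 : (p ^ 2 - 4 * q) * ((z D0 : ℤ) * e D0) ≠ 0 := mul_ne_zero hd (mul_ne_zero hz0 t0.he)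
  have hζle : |(p ^ 2 - 4 * q) * ((z D0 : ℤ) * e D0)| ≤ (L * BE * dn : ℤ) := by
    rw [abs_mul, abs_mul, Nat.abs_cast]
    have h1 : (z D0 : ℤ) ≤ L := by exact_mod_cast t0.hz2
    have h2 : |p ^ 2 - 4 * q| = (dn : ℤ) := by rw [hdn]; exact Int.abs_eq_natAbs _
    have h3 : (z D0 : ℤ) * |e D0| ≤ L * BE := mul_le_mul h1 t0.heB (abs_nonneg _) (by positivity)
    rw [h2, mul_comm]
    exact mul_le_mul_of_nonneg_right h3 (by positivity)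
  have hcard := hPL N' (ρ2 D0) q0 ((p ^ 2 - 4 * q) * ((z D0 : ℤ) * e D0)) hN'
    (by exact_mod_cast t0.hρ2) (le_trans (by exact_mod_cast hρ D0 hD0) b1)
    (by exact_mod_cast hq0) b2 hζ0 (hζle.trans b3)
    ((E.filter fun D => lab D = τ).image fun D => |g D * e D|) (by
      intro x hx
      obtain ⟨D, hD, rfl⟩ := mem_image.1 hx
      rw [mem_filter] at hD
      obtain ⟨a1, a2, a3, a4, a5, a6⟩ := hcomp D hD.2
      have t := ht D hD.1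
      refine ⟨t.hl2, ?_, p * i D - 2 * m * j D, ?_⟩
      · rw [← a5]; exact t.hu2
      · have h1 := t.h3
        rw [← a3, ← a4, sq_abs]
        linarith)
  rw [card_image_of_injOn hinj] at hcard
  have h5 : (1 + |(p ^ 2 - 4 * q) * ((z D0 : ℤ) * e D0)|) ^ 5 ≤ (1 + L * BE * dn : ℤ) ^ 5 :=
    pow_le_pow_left₀ (by positivity) (by linarith) 5
  have h6 : ((E.filter fun D => lab D = τ).card : ℤ) ≤
      F * ((q0 : ℤ) ^ 2 * (1 + L * BE * dn) ^ 5) := by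
    refine hcard.trans ?_
    gcongr
  exact_mod_cast h6

end Pool.Agent.J4H76.TW
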