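import Pool.Agent.J4H76.TW.B4

/-!
# The exceptional coset: large `z`
-/

open Finset

set_option autoImplicit false

namespace Pool.Agent.J4H76.TW

theorem E2x_card {p q : ℤ} (hq : q ≠ 0) {M C : ℕ} (hPC : PC p q M C) (q0 N L : ℕ) (hN : 1 ≤ N)
    (hL : 1 ≤ L) (E : Finset ℕ)
    (hE : ∀ D ∈ E, D ≤ N ∧ ∃ c r s h z : ℕ, ∃ x : ℤ, Tup p q D c r s h z x ∧ c * s = q0 ∧ L < z ∧
      (C * ((q.natAbs * N : ℕ) : ℤ)) ^ M < x) :
    (E.card : ℝ) ≤ (C * q0.divisors.card * q0 * 2) * (N / L) := by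
  classical
  have hE' : ∀ D ∈ E, ∃ t : ℕ × ℕ × ℕ, ∃ s z : ℕ, ∃ x : ℤ,
      Tup p q D t.1 t.2.2 s t.2.1 z x ∧ t.1 * s = q0 ∧ L < z ∧
      (C * ((q.natAbs * N : ℕ) : ℤ)) ^ M < x := by
    intro D hD
    obtain ⟨-, c, r, s, h, z, x, h1, h2, h3, h4⟩ := hE D hD
    exact ⟨(c, h, r), s, z, x, h1, h2, h3, h4⟩
  choose! t s z x ht hs hz hx using hE'
  obtain ⟨T, hT⟩ : ∃ T : Finset (ℕ × ℕ × ℕ), T = (Icc 1 q0) ×ˢ ((Icc 1 N) ×ˢ (Icc 1 N)) :=
    ⟨_, rfl⟩
  obtain ⟨T', hT'⟩ : ∃ T' : Finset (ℕ × ℕ × ℕ), T' = T.filter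
    (fun t => t.2.2 ≤ N / (L * t.2.1 ^ 2)) := ⟨_, rfl⟩
  have hmem : ∀ D ∈ E, t D ∈ T' := by
    intro D hD
    have h1 := ht D hD
    obtain ⟨b1, b2, b3, b4, b5, b6, b7⟩ := h1.bounds hq (hE D hD).1
    have hc0 : 0 < (t D).1 := Nat.pos_of_ne_zero fun h => h1.h1.ne_zero (by rw [h, zero_mul])
    have hcq : (t D).1 ≤ q0 := by
      rw [← hs D hD]
      exact Nat.le_mul_of_pos_right _ b4
    rw [hT', mem_filter, hT]
    simp only [mem_product, mem_Icc]
    refine ⟨⟨⟨hc0, hcq⟩, ⟨h1.hh, b6⟩, ⟨b2, b3⟩⟩, ?_⟩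
    have hh := h1.hh
    rw [Nat.le_div_iff_mul_le (by positivity)]
    calc (t D).2.2 * (L * (t D).2.1 ^ 2)
        = (t D).2.2 * 1 * (t D).2.1 ^ 2 * L := by ring
      _ ≤ (t D).2.2 * s D * (t D).2.1 ^ 2 * z D :=
          Nat.mul_le_mul (Nat.mul_le_mul_right _ (Nat.mul_le_mul_left _ b4)) (hz D hD).le
      _ = D := h1.hD.symm
      _ ≤ N := (hE D hD).1
  have hfib : ∀ τ ∈ T', ((E.filter fun D => t D = τ).card : ℝ) ≤ C * q0.divisors.card := by
    intro τ hτ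
    rcases (E.filter fun D => t D = τ).eq_empty_or_nonempty with h0 | ⟨D0, hD0⟩
    · rw [h0, card_empty]; push_cast; positivity
    · rw [mem_filter] at hD0
      have hT0 := ht D0 hD0.1
      have hs0 := hs D0 hD0.1
      rw [hD0.2] at hT0 hs0
      obtain ⟨b1, b2, b3, b4, b5, b6, b7⟩ := hT0.bounds hq (hE D0 hD0.1).1
      have hq0 : 0 < q.natAbs := Int.natAbs_pos.2 hq
      have hcq : τ.1 ≤ q.natAbs := Nat.divisor_le b1
      have hc0 : 0 < τ.1 := Nat.pos_of_ne_zero fun h => hT0.h1.ne_zero (by rw [h, zero_mul])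
      have hseq : ∀ D ∈ E, t D = τ → s D = s D0 := by
        intro D hD hDτ
        have h1 := hs D hD
        rw [hDτ] at h1
        exact Nat.eq_of_mul_eq_mul_left hc0 (h1.trans hs0.symm)
      have hinj : Set.InjOn (fun D => (x D, (z D : ℤ))) (E.filter fun D => t D = τ) := by
        intro D hD D' hD' he
        rw [mem_coe, mem_filter] at hD hD'
        simp only [Prod.mk.injEq] at he
        have h1 := (ht D hD.1).hD
        have h2 := (ht D' hD'.1).hD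
        rw [hD.2, hseq D hD.1 hD.2] at h1
        rw [hD'.2, hseq D' hD'.1 hD'.2] at h2
        rw [h1, h2]
        congr 1
        exact_mod_cast he.2
      have h1 := hPC ((q.natAbs * N : ℕ) : ℤ) (τ.1 * τ.2.2) (τ.1 * s D0)
        (by exact_mod_cast Nat.mul_pos hq0 hN) (by exact_mod_cast Nat.mul_le_mul hcq b3)
        (Nat.mul_pos hc0 b2) hT0.h2 (by exact_mod_cast Nat.mul_le_mul hcq b5)
        ((E.filter fun D => t D = τ).image fun D => (x D, (z D : ℤ))) (by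
          intro P hP
          obtain ⟨D, hD, rfl⟩ := mem_image.1 hP
          rw [mem_filter] at hD
          have h1 := ht D hD.1
          have h2 := hx D hD.1
          have h3 := (h1.bounds hq (hE D hD.1).1).2.2.2.2.2.2
          rw [hD.2, hseq D hD.1 hD.2] at h1
          have h4 : z D ≤ q.natAbs * N := h3.trans (Nat.le_mul_of_pos_left _ hq0)
          have h5 : (1 : ℤ) ≤ (z D : ℤ) := by exact_mod_cast h1.hz
          have h6 : (z D : ℤ) ≤ ((q.natAbs * N : ℕ) : ℤ) := by exact_mod_cast h4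
          exact ⟨h5, h6, h1.hco, h2, h1.hx, h1.hQ⟩)
      rw [card_image_of_injOn hinj, hs0] at h1
      exact_mod_cast h1
  have hsum : E.card = ∑ τ ∈ T', (E.filter fun D => t D = τ).card :=
    card_eq_sum_card_fiberwise hmem
  rw [hsum]
  push_cast
  refine (sum_le_sum hfib).trans ?_
  rw [sum_const, nsmul_eq_mul]
  have hTc : (T'.card : ℝ) ≤ q0 * (2 * (N / L)) := by
    have h1 : (T'.card : ℝ) = ∑ τ ∈ T, (if τ.2.2 ≤ N / (L * τ.2.1 ^ 2) then (1 : ℝ) else 0) := by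
      rw [hT', card_filter]
      push_cast
      rfl
    rw [h1, hT, sum_product]
    have h2 : ∀ c ∈ Icc 1 q0, ∑ y ∈ (Icc 1 N) ×ˢ (Icc 1 N),
        (if (c, y).2.2 ≤ N / (L * (c, y).2.1 ^ 2) then (1 : ℝ) else 0) ≤ 2 * (N / L) := by
      intro c _
      rw [sum_product]
      simp only
      have h3 : ∀ h ∈ Icc 1 N, ∑ y ∈ Icc 1 N, (if y ≤ N / (L * h ^ 2) then (1 : ℝ) else 0) ≤
          (N / L) * (1 / (h : ℝ) ^ 2) := by
        intro h _
        rw [← sum_filter, sum_const, nsmul_eq_mul, mul_one]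
        have h4 : ((Icc 1 N).filter fun y => y ≤ N / (L * h ^ 2)) ⊆ Icc 1 (N / (L * h ^ 2)) := by
          intro y hy
          rw [mem_filter, mem_Icc] at hy
          exact mem_Icc.2 ⟨hy.1.1, hy.2⟩
        have h5 := card_le_card h4
        rw [Nat.card_Icc, Nat.add_sub_cancel] at h5
        calc ((((Icc 1 N).filter fun y => y ≤ N / (L * h ^ 2)).card : ℕ) : ℝ)
            ≤ ((N / (L * h ^ 2) : ℕ) : ℝ) := by exact_mod_cast h5
          _ ≤ (N : ℝ) / ((L * h ^ 2 : ℕ) : ℝ) := Nat.cast_div_le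
          _ = _ := by push_cast; rw [div_mul_div_comm, mul_one]
      refine (sum_le_sum h3).trans ?_
      rw [← mul_sum, mul_comm]
      exact mul_le_mul_of_nonneg_right (sum_inv_sq_le N) (by positivity)
    refine (sum_le_sum h2).trans ?_
    rw [sum_const, nsmul_eq_mul, Nat.card_Icc, Nat.add_sub_cancel]
  calc (T'.card : ℝ) * (C * q0.divisors.card) ≤ (q0 * (2 * (N / L))) * (C * q0.divisors.card) :=
        mul_le_mul_of_nonneg_right hTc (by positivity)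
    _ = _ := by ring

lemma log_pow_le {N : ℕ} (hN : 3 ≤ N) :
    Real.log N ^ 7 * Real.sqrt N ≤ 16 ^ 8 * (N * (1 / Real.log N)) := by
  have hNR : (3 : ℝ) ≤ N := by exact_mod_cast hN
  have hl : 0 < Real.log N := Real.log_pos (by linarith)
  have h2 : Real.log N ≤ 16 * (N : ℝ) ^ (1 / 16 : ℝ) := by
    have := Real.log_le_rpow_div (x := N) (by positivity) (ε := 1 / 16) (by norm_num)
    calc Real.log N ≤ (N : ℝ) ^ (1 / 16 : ℝ) / (1 / 16) := this
      _ = _ := by ring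
  have h3 : ((N : ℝ) ^ (1 / 16 : ℝ)) ^ 8 = Real.sqrt N := by
    rw [← Real.rpow_natCast, ← Real.rpow_mul (by positivity), Real.sqrt_eq_rpow]
    norm_num
  have h4 : Real.log N ^ 8 ≤ 16 ^ 8 * Real.sqrt N := by
    calc Real.log N ^ 8 ≤ (16 * (N : ℝ) ^ (1 / 16 : ℝ)) ^ 8 := by gcongr
      _ = _ := by rw [mul_pow, h3]
  rw [mul_one_div, ← mul_div_assoc, le_div_iff₀ hl]
  calc Real.log N ^ 7 * Real.sqrt N * Real.log N = Real.log N ^ 8 * Real.sqrt N := by ring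
    _ ≤ (16 ^ 8 * Real.sqrt N) * Real.sqrt N :=
        mul_le_mul_of_nonneg_right h4 (Real.sqrt_nonneg _)
    _ = 16 ^ 8 * (Real.sqrt N * Real.sqrt N) := by ring
    _ = _ := by rw [Real.mul_self_sqrt (by positivity)]


end Pool.Agent.J4H76.TW
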